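import Pool.Agent.W_a3c811_h62.Alg

/-! Adjoints of joint homomorphisms and of motivic endomorphisms. -/

noncomputable section

set_option linter.unusedSectionVars false

namespace Pool.Agent.H62X

open Pool.Agent.WeilH_h6 Pool.Agent.WeilH_h6.VarClass Pool.Agent.H62D Pool.Agent.H62A

universe u v w

variable {k : Type u} [Field k] {𝒱 : VarClass k}

section single

variable {K : Type v} [Field K] [CharZero K] (W : Weil.{u, v, w} 𝒱 K)

lemma swap_act {X Y : 𝒱.Obj} (β : W.H (X.prod Y)) (x : W.H X) (y : W.H Y) :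
    W.tr X (W.act (W.pull (Weil.swapM Y X) β) y * x) =
      W.tr (X.prod Y) (β * (W.p2 X Y y * W.p1 X Y x)) := by
  have e1 : W.pull (Weil.swapM Y X) (W.p2 X Y y) = W.p1 Y X y := by
    rw [← W.pull_comp, Obj.lift_snd]
  have e2 : W.pull (Weil.swapM Y X) (W.p1 X Y x) = W.p2 Y X x := by
    rw [← W.pull_comp, Obj.lift_fst]
  rw [W.tr_act, ← e1, ← e2, ← map_mul, ← map_mul, tr_swap]

/-- the adjoint of the action of an algebraic class -/
lemma act_adj {X Y : 𝒱.Obj} {β : W.H (X.prod Y)} (hβ : β ∈ W.algSpan (X.prod Y))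
    (x : W.H X) (y : W.H Y) :
    W.tr Y (W.act β x * y) = W.tr X (x * W.act (W.pull (Weil.swapM Y X) β) y) := by
  have hφ : W.act β ∈ W.algHom X Y := W.act_mem_algHom.2 hβ
  refine W.hom_induction (P := fun x => W.tr Y (W.act β x * y) =
    W.tr X (x * W.act (W.pull (Weil.swapM Y X) β) y)) (by simp) ?_ ?_ x
  · intro a b ha hb; simp only [map_add, add_mul] at ha hb ⊢; rw [ha, hb]
  intro i x hx
  refine W.hom_induction (P := fun y => W.tr Y (W.act β x * y) =
    W.tr X (x * W.act (W.pull (Weil.swapM Y X) β) y)) (by simp) ?_ ?_ y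
  · intro a b ha hb; simp only [map_add, mul_add] at ha hb ⊢; rw [ha, hb]
  intro j y hy
  have h1 : W.tr X (x * W.act (W.pull (Weil.swapM Y X) β) y) =
      (-1) ^ i * W.tr (X.prod Y) (β * (W.p2 X Y y * W.p1 X Y x)) := by
    rw [W.tr_comm, swap_act, W.par_apply hx]
    simp only [map_smul, mul_smul_comm, smul_eq_mul]
  have h2 : W.tr (X.prod Y) (β * (W.p2 X Y y * W.p1 X Y x)) =
      (-1) ^ (i * j) * W.tr Y (W.act β x * y) := by
    rw [W.p2_mul_p1 hx hy, W.tr_act]
    rcases neg_one_pow_eq_or (W.H (X.prod Y)) (i * j) with h | h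
    · rcases Nat.even_or_odd (i * j) with h' | h'
      · rw [h'.neg_one_pow, h'.neg_one_pow, one_mul, one_mul]
      · rw [h'.neg_one_pow, h'.neg_one_pow, neg_one_mul, mul_neg, map_neg, neg_one_mul]
    · rcases Nat.even_or_odd (i * j) with h' | h'
      · rw [h'.neg_one_pow, h'.neg_one_pow, one_mul, one_mul]
      · rw [h'.neg_one_pow, h'.neg_one_pow, neg_one_mul, mul_neg, map_neg, neg_one_mul]
  rw [h1, h2]
  by_cases hij : Even i ∨ Odd j
  · have : (-1 : K) ^ i * ((-1) ^ (i * j) * W.tr Y (W.act β x * y)) =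
        W.tr Y (W.act β x * y) := by
      rw [← mul_assoc, ← pow_add]
      have he : Even (i + i * j) := by
        rcases hij with h | h
        · exact h.add (h.mul_right j)
        · have : i + i * j = i * (j + 1) := by ring
          rw [this]
          exact (h.add_one).mul_left i
      rw [he.neg_one_pow, one_mul]
    exact this.symm
  · push Not at hij
    obtain ⟨hi, hj⟩ := hij
    rw [Nat.not_even_iff_odd] at hi
    rw [Nat.not_odd_iff_even] at hj
    have h0 : W.tr Y (W.act β x * y) = 0 := by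
      have h3 := W.tr_par (W.act β x * y)
      rw [W.par_mul, ← W.par_algHom hφ, W.par_apply hx, W.par_apply hy, hi.neg_one_pow,
        hj.neg_one_pow] at h3
      simp only [map_neg, neg_smul, one_smul, neg_mul] at h3
      exact self_eq_neg.1 h3.symm
    rw [h0, mul_zero, mul_zero]

end single

section family

variable {I : Type} {K : I → Type v} [∀ l, Field (K l)] [∀ l, CharZero (K l)]
  {W : ∀ l, Weil.{u, v, w} 𝒱 (K l)}

/-- the adjoint of a joint homomorphism -/
theorem JHom_adj (hW : Compatible W) {X Y : 𝒱.Obj} {φ : ∀ l, (W l).H X →ₗ[K l] (W l).H Y}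
    (hφ : φ ∈ JHom W X Y) : ∃ ψ ∈ JHom W Y X,
      (∀ l x y, (W l).tr Y (φ l x * y) = (W l).tr X (x * ψ l y)) ∧
      ∀ l x y, (W l).tr X (ψ l y * x) = (W l).tr Y (y * φ l x) := by
  obtain ⟨β, hβ, hφ'⟩ := hφ
  have hβ' := JC_pull hW (Weil.swapM Y X) hβ
  have hψ : (fun l => (W l).act ((W l).pull (Weil.swapM Y X) (β l))) ∈ JHom W Y X :=
    ⟨_, hβ', fun l => rfl⟩
  have key : ∀ l x y, (W l).tr Y (φ l x * y) =
      (W l).tr X (x * (W l).act ((W l).pull (Weil.swapM Y X) (β l)) y) := by
    intro l x y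
    rw [hφ']
    exact act_adj (W l) (JC_algSpan W hβ l) x y
  refine ⟨_, hψ, key, fun l x y => ?_⟩
  have hψ' := JHom_algHom W hψ l
  rw [(W l).tr_comm y, key, (W l).par_algHom hψ', (W l).tr_comm (((W l).act _) y)]

variable {ι : Type} [Fintype ι] {Y : ι → 𝒱.Obj}

/-- the adjoint of a motivic endomorphism -/
theorem motivic_adj (hW : Compatible W) {T : ∀ l, TEnd (W l) Y} (hT : Motivic W Y T) :
    ∃ T' : ∀ l, TEnd (W l) Y, Motivic W Y T' ∧
      (∀ l x y, ∑ a, (W l).deg (T l x a * y a) = ∑ a, (W l).deg (x a * T' l y a)) ∧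
      ∀ l x y, ∑ a, (W l).deg (T' l x a * y a) = ∑ a, (W l).deg (x a * T l y a) := by
  classical
  rw [motivic_iff] at hT
  choose ψ hψ h1 h2 using fun a b => JHom_adj hW (hT a b)
  let T' : ∀ l, TEnd (W l) Y := fun l => LinearMap.pi fun a => ∑ b, ψ a b l ∘ₗ LinearMap.proj b
  have hT'app : ∀ l x a, T' l x a = ∑ b, ψ a b l (x b) := by
    intro l x a
    change (∑ b, ψ a b l ∘ₗ LinearMap.proj b) x = _
    rw [LinearMap.sum_apply]
    rfl
  have hblk : ∀ l b a, blk (W l) (T' l) b a = ψ a b l := by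
    intro l b a
    refine LinearMap.ext fun v => ?_
    change T' l (LinearMap.single (K l) (fun a => (W l).H (Y a)) b v) a = _
    rw [hT'app, Finset.sum_eq_single b]
    · rw [LinearMap.coe_single, Pi.single_eq_same]
    · intro c _ hc
      rw [LinearMap.coe_single, Pi.single_eq_of_ne hc, map_zero]
    · intro h; exact absurd (Finset.mem_univ b) h
  refine ⟨T', ?_, ?_, ?_⟩
  · rw [motivic_iff]
    intro b a
    have : (fun l => blk (W l) (T' l) b a) = ψ a b := funext fun l => hblk l b a
    rw [this]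
    exact hψ a b
  · intro l x y
    have e1 : ∀ b, (W l).deg (T l x b * y b) =
        ∑ a, (W l).tr (Y b) (blk (W l) (T l) a b (x a) * y b) := by
      intro b
      rw [blk_apply, Finset.sum_mul]
      exact map_sum ((W l).tr (Y b)) _ _
    have e2 : ∀ a, (W l).deg (x a * T' l y a) =
        ∑ b, (W l).tr (Y a) (x a * ψ a b l (y b)) := by
      intro a
      rw [hT'app, Finset.mul_sum]
      exact map_sum ((W l).tr (Y a)) _ _
    rw [Finset.sum_congr rfl fun b _ => e1 b, Finset.sum_congr rfl fun a _ => e2 a,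
      Finset.sum_comm]
    exact Finset.sum_congr rfl fun a _ => Finset.sum_congr rfl fun b _ => h1 a b l (x a) (y b)
  · intro l x y
    have e1 : ∀ a, (W l).deg (T' l x a * y a) =
        ∑ b, (W l).tr (Y a) (ψ a b l (x b) * y a) := by
      intro a
      rw [hT'app, Finset.sum_mul]
      exact map_sum ((W l).tr (Y a)) _ _
    have e2 : ∀ b, (W l).deg (x b * T l y b) =
        ∑ a, (W l).tr (Y b) (x b * blk (W l) (T l) a b (y a)) := by
      intro b
      rw [blk_apply, Finset.mul_sum]
      exact map_sum ((W l).tr (Y b)) _ _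
    rw [Finset.sum_congr rfl fun b _ => e1 b, Finset.sum_congr rfl fun a _ => e2 a,
      Finset.sum_comm]
    exact Finset.sum_congr rfl fun b _ => Finset.sum_congr rfl fun a _ => h2 a b l (y a) (x b)

end family

end Pool.Agent.H62X
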