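import Pool.Agent.W_a3c811_h62w.Ab2

/-! Anisotropy from simple Frobenius eigenvalues common to neighbours: preparations. -/

noncomputable section

set_option linter.unusedSectionVars false

namespace Pool.Agent.H62X

open Module Polynomial Pool.Agent.H79L Pool.Agent.B4801b

universe v w

variable {K : Type v} [Field K] [CharZero K] {E : Type w} [AddCommGroup E] [Module K E]
  [FiniteDimensional K E]
  {N f L g d : Module.End K E} {n : ℤ} {s t : ℤ → Module.End K E}
  {P D : Finset ℤ} {S : E →ₗ[K] E →ₗ[K] K} {B : Subring (Module.End K E)}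

/-- The algebraic classes: stable under `B`, no nonzero primitive one is isotropic, and their span
meets its orthogonal complement in zero. -/
structure Cls (N f L g : Module.End K E) (n : ℤ) (s t : ℤ → Module.End K E)
    (S : E →ₗ[K] E →ₗ[K] K) (B : Subring (Module.End K E)) (Al : AddSubgroup E) : Prop where
  stab : ∀ u ∈ B, ∀ a ∈ Al, u a ∈ Al
  hodge : ∀ i j, ∀ a ∈ Al, a ∈ prim f g n s t i j → S a ((N ^ i) ((L ^ j) a)) = 0 → a = 0
  disj : ∀ x ∈ Submodule.span K (Al : Set E), (∀ a ∈ Al, S x a = 0) → x = 0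

/-- the vectors orthogonal to all algebraic classes -/
def ann (S : E →ₗ[K] E →ₗ[K] K) (Al : AddSubgroup E) : Submodule K E where
  carrier := {x | ∀ a ∈ Al, S x a = 0}
  add_mem' := by
    intro x y hx hy a ha
    rw [map_add, LinearMap.add_apply, hx a ha, hy a ha, add_zero]
  zero_mem' := by
    intro a _
    rw [map_zero, LinearMap.zero_apply]
  smul_mem' := by
    intro c x hx a ha
    rw [map_smul, LinearMap.smul_apply, hx a ha, smul_zero]

lemma mem_ann {Al : AddSubgroup E} {x : E} : x ∈ ann S Al ↔ ∀ a ∈ Al, S x a = 0 := Iff.rfl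

/-- The transcendental part of a primitive part. -/
def Tp (f g : Module.End K E) (n : ℤ) (s t : ℤ → Module.End K E) (S : E →ₗ[K] E →ₗ[K] K)
    (Al : AddSubgroup E) (i j : ℕ) : Submodule K E := prim f g n s t i j ⊓ ann S Al

/-- The normalised Frobenius: it commutes with `B` and is a similitude with a multiplier which is
the same for neighbours. -/
structure Frb (s t : ℤ → Module.End K E) (S : E →ₗ[K] E →ₗ[K] K)
    (B : Subring (Module.End K E)) (Φ : Module.End K E) (c : ℤ → ℤ → K) : Prop where
  comm : ∀ u ∈ B, Φ * u = u * Φ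
  c0 : ∀ w p, c w p ≠ 0
  cn : ∀ w p, c (w + 1) (p + 1) = c w p ∧ c (w + 1) (p - 1) = c w p
  uni : ∀ w p x y, S (Φ (t w (s p x))) (Φ y) = c w p * S (t w (s p x)) y

section compl

variable (h : Pol N f L g d n s t P D S B) {Al : AddSubgroup E}
  (hC : Cls N f L g n s t S B Al)
include h hC

lemma ann_stab {u : Module.End K E} (hu : u ∈ B) : ∀ x ∈ ann S Al, u x ∈ ann S Al := by
  intro x hx a ha
  obtain ⟨u', hu', h1⟩ := h.star u hu
  rw [h1.1]
  exact hx _ (hC.stab u' hu' a ha)

omit h in
lemma span_stab {u : Module.End K E} (hu : u ∈ B) :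
    ∀ x ∈ Submodule.span K (Al : Set E), u x ∈ Submodule.span K (Al : Set E) := by
  intro x hx
  induction hx using Submodule.span_induction with
  | mem x hx => exact Submodule.subset_span (hC.stab u hu x hx)
  | zero => rw [map_zero]; exact Submodule.zero_mem _
  | add x y _ _ h1 h2 => rw [map_add]; exact Submodule.add_mem _ h1 h2
  | smul c x _ h1 => rw [map_smul]; exact Submodule.smul_mem _ _ h1

omit h in
lemma exists_split (x : E) : ∃ a ∈ Submodule.span K (Al : Set E), ∃ b ∈ ann S Al, x = a + b := by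
  let A := Submodule.span K (Al : Set E)
  let F : E →ₗ[K] (A →ₗ[K] K) := (LinearMap.lcomp K K A.subtype) ∘ₗ S
  have hF : ∀ x, F x = 0 ↔ x ∈ ann S Al := by
    intro x
    constructor
    · intro h0 a ha
      exact LinearMap.congr_fun h0 ⟨a, Submodule.subset_span ha⟩
    · intro hx
      refine LinearMap.ext fun a => ?_
      change S x (a : E) = 0
      obtain ⟨a, ha⟩ := a
      change S x a = 0
      induction ha using Submodule.span_induction with
      | mem y hy => exact hx y hy
      | zero => rw [map_zero]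
      | add y z _ _ h1 h2 => rw [map_add, h1, h2, add_zero]
      | smul c y _ h1 => rw [map_smul, h1, smul_zero]
  have hA : Function.Injective (F ∘ₗ A.subtype) := by
    rw [← LinearMap.ker_eq_bot, LinearMap.ker_eq_bot']
    intro x hx
    exact Subtype.ext (hC.disj x x.2 ((hF _).1 hx))
  have hdim : finrank K A = finrank K (A →ₗ[K] K) := by
    rw [Module.finrank_linearMap_self]
  have hsur := (LinearMap.injective_iff_surjective_of_finrank_eq_finrank hdim).1 hA
  obtain ⟨a, ha⟩ := hsur (F x)
  refine ⟨a, a.2, x - a, (hF _).1 ?_, by abel⟩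
  rw [map_sub, sub_eq_zero]
  exact ha.symm

lemma split_prim {i j : ℕ} {y : E} (hy : y ∈ prim f g n s t i j) :
    ∃ a ∈ Submodule.span K (Al : Set E), ∃ b ∈ Tp f g n s t S Al i j, y = a + b := by
  obtain ⟨a, ha, b, hb, rfl⟩ := exists_split hC y
  refine ⟨a, ha, b, ⟨?_, hb⟩, rfl⟩
  have disj : ∀ x, x ∈ Submodule.span K (Al : Set E) → x ∈ ann S Al → x = 0 := hC.disj
  obtain ⟨h1, h2, h3⟩ := hy
  refine ⟨?_, ?_, ?_⟩
  · have e : t (n - j) (s (-i) b) - b = -(t (n - j) (s (-i) a) - a) := by
      rw [map_add, map_add] at h1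
      have : t (n - j) (s (-i) b) = a + b - t (n - j) (s (-i) a) := by
        rw [← h1]; abel
      rw [this]; abel
    refine sub_eq_zero.1 (disj _ ?_ ?_)
    · rw [e]
      refine Submodule.neg_mem _ (Submodule.sub_mem _ ?_ ha)
      exact span_stab hC (h.mt _) _ (span_stab hC (h.ms _) _ ha)
    · exact Submodule.sub_mem _ (ann_stab h hC (h.mt _) _ (ann_stab h hC (h.ms _) _ hb)) hb
  · have e : f b = -f a := by
      rw [map_add] at h2
      exact (neg_eq_of_add_eq_zero_right h2).symm
    refine disj _ ?_ (ann_stab h hC h.mf _ hb)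
    rw [e]
    exact Submodule.neg_mem _ (span_stab hC h.mf _ ha)
  · have e : g b = -g a := by
      rw [map_add] at h3
      exact (neg_eq_of_add_eq_zero_right h3).symm
    refine disj _ ?_ (ann_stab h hC h.mg _ hb)
    rw [e]
    exact Submodule.neg_mem _ (span_stab hC h.mg _ ha)

/-- the form is nondegenerate on the transcendental parts -/
lemma nd_T {i j : ℕ} {x : E} (hx : x ∈ Tp f g n s t S Al i j)
    (hyp : ∀ y ∈ Tp f g n s t S Al i j, S x ((N ^ i) ((L ^ j) y)) = 0) : x = 0 := by
  refine nd_prim h hx.1 fun y hy => ?_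
  obtain ⟨a, ha, b, hb, rfl⟩ := split_prim h hC hy
  have h1 : (N ^ i * L ^ j) a ∈ Submodule.span K (Al : Set E) :=
    span_stab hC (mul_mem (pow_mem h.mN i) (pow_mem h.mL j)) a ha
  have h2 : S x ((N ^ i) ((L ^ j) a)) = 0 := by
    change S x ((N ^ i * L ^ j) a) = 0
    generalize (N ^ i * L ^ j) a = b at h1
    induction h1 using Submodule.span_induction with
    | mem y hy => exact hx.2 y hy
    | zero => rw [map_zero]
    | add y z _ _ h1 h2 => rw [map_add, h1, h2, add_zero]
    | smul c y _ h1 => rw [map_smul, h1, smul_zero]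
  rw [map_add, map_add, map_add, h2, hyp b hb, add_zero]

/-- the form on a transcendental part -/
def TT (S : E →ₗ[K] E →ₗ[K] K) (N L : Module.End K E) (i j : ℕ) (U : Submodule K E) :
    LinearMap.BilinForm K U :=
  LinearMap.mk₂ K (fun x y => S (x : E) ((N ^ i) ((L ^ j) (y : E))))
    (fun x x' y => by simp) (fun c x y => by simp) (fun x y y' => by simp)
    (fun c x y => by simp)

omit h hC in
lemma TT_apply (i j : ℕ) (U : Submodule K E) (x y : U) :
    TT S N L i j U x y = S (x : E) ((N ^ i) ((L ^ j) (y : E))) := rfl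

lemma nd_TT (i j : ℕ) (x : Tp f g n s t S Al i j)
    (hx : ∀ y, TT S N L i j (Tp f g n s t S Al i j) x y = 0) : x = 0 :=
  Subtype.ext (nd_T h hC x.2 fun y hy => hx ⟨y, hy⟩)

end compl

section uni

variable {V : Type w} [AddCommGroup V] [Module K V] [FiniteDimensional K V]

/-- a left nondegenerate form on a finite dimensional space is right nondegenerate -/
lemma right_nd (T : LinearMap.BilinForm K V) (nd : ∀ x, (∀ y, T x y = 0) → x = 0) (y : V)
    (hy : ∀ x, T x y = 0) : y = 0 := by
  have hinj : Function.Injective T := by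
    rw [← LinearMap.ker_eq_bot, LinearMap.ker_eq_bot']
    intro x hx
    exact nd x fun y => LinearMap.congr_fun hx y
  have hdim : finrank K V = finrank K (V →ₗ[K] K) := by
    rw [Module.finrank_linearMap_self]
  have hsur := (LinearMap.injective_iff_surjective_of_finrank_eq_finrank hdim).1 hinj
  by_contra hy0
  have : ∃ φ : V →ₗ[K] K, φ y ≠ 0 := by
    by_contra! hc
    exact hy0 ((Module.forall_dual_apply_eq_zero_iff K y).1 hc)
  obtain ⟨φ, hφ⟩ := this
  obtain ⟨x, rfl⟩ := hsur φ
  exact hφ (hy x)

/-- if `q(Φ)` is injective, then so is the dual polynomial of `Φ` -/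
lemma star_inj (T : LinearMap.BilinForm K V) (nd : ∀ x, (∀ y, T x y = 0) → x = 0)
    {Φ : Module.End K V} {c : K} (hc : c ≠ 0) (uni : ∀ x y, T (Φ x) (Φ y) = c * T x y) (q : K[X])
    (hq : ∀ x, aeval Φ q x = 0 → x = 0) (y : V)
    (hy : aeval Φ (B4801b.star c q.natDegree q) y = 0) : y = 0 := by
  have hΦ : ∀ x, Φ x = 0 → x = 0 := by
    intro x hx
    apply nd
    intro y
    have h1 := uni x y
    rw [hx, map_zero, LinearMap.zero_apply] at h1
    exact (mul_eq_zero.1 h1.symm).resolve_left hc
  have hinj : Function.Injective (aeval Φ q) := by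
    rw [← LinearMap.ker_eq_bot, LinearMap.ker_eq_bot']
    exact hq
  have hsur := LinearMap.injective_iff_surjective.1 hinj
  have h1 : (Φ ^ q.natDegree) y = 0 := by
    refine right_nd T nd _ fun x => ?_
    obtain ⟨z, rfl⟩ := hsur x
    rw [pairing_star T Φ c uni _ q le_rfl, hy, map_zero]
  have key : ∀ m : ℕ, (Φ ^ m) y = 0 → y = 0 := by
    intro m
    induction m with
    | zero => intro h0; simpa using h0
    | succ m ih => intro h0; rw [pow_succ', Module.End.mul_apply] at h0; exact ih (hΦ _ h0)
  exact key _ h1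

end uni

end Pool.Agent.H62X
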