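import Pool.Agent.W_a3c811_h62w.Ab3
import Pool.Agent.W_a3c811_h62w.Ab6

/-! Anisotropy from simple Frobenius eigenvalues common to neighbours. -/

noncomputable section

set_option linter.unusedSectionVars false

namespace Pool.Agent.H62X

open Module Polynomial Pool.Agent.H79L Pool.Agent.B4801b

universe v w

variable {K : Type v} [Field K] [CharZero K] {E : Type w} [AddCommGroup E] [Module K E]
  [FiniteDimensional K E]
  {N f L g d : Module.End K E} {n : ℤ} {s t : ℤ → Module.End K E}
  {P D : Finset ℤ} {S : E →ₗ[K] E →ₗ[K] K} {B : Subring (Module.End K E)}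

/-- neighbours -/
def Nb (i j i' j' : ℕ) : Prop := (i' = i + 1 ∨ i = i' + 1) ∧ (j' = j + 1 ∨ j = j' + 1)

section lowest

variable (h : Bi N f L g d n s t P D)
include h

omit h in
lemma mem_prim_iff (h : Bi N f L g d n s t P D) {i j : ℕ} {x : E} :
    x ∈ prim f g n s t i j ↔ s (-(i : ℤ)) x = x ∧ t (n - j) x = x ∧ f x = 0 ∧ g x = 0 := by
  constructor
  · rintro ⟨hx1, hx2, hx3⟩
    have xs : s (-(i : ℤ)) x = x := by
      have : s (-(i : ℤ)) (t (n - j) (s (-i) x)) = t (n - j) (s (-i) x) := by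
        have e : s (-(i : ℤ)) * (t (n - j) * s (-i)) = t (n - j) * s (-i) := by
          rw [← mul_assoc, h.st, mul_assoc, h.sl.idem]
        exact LinearMap.congr_fun e x
      rwa [hx1] at this
    have xt : t (n - j) x = x := by
      have : t (n - j) (t (n - j) (s (-i) x)) = t (n - j) (s (-i) x) :=
        LinearMap.congr_fun (h.idemt _) _
      rwa [hx1] at this
    exact ⟨xs, xt, hx2, hx3⟩
  · rintro ⟨h1, h2, h3, h4⟩
    exact ⟨by rw [h1, h2], h3, h4⟩

/-- a homogeneous vector killed by `f` and `g` is zero or primitive -/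
lemma prim_or {p w : ℤ} {x : E} (h1 : s p x = x) (h2 : t w x = x) (h3 : f x = 0) (h4 : g x = 0) :
    x = 0 ∨ ∃ i j : ℕ, p = -i ∧ w = n - j ∧ x ∈ prim f g n s t i j := by
  by_cases hp : 0 < p
  · exact Or.inl (h.sl.f_ne hp h1 h3)
  by_cases hw : n < w
  · refine Or.inl (h.sl2.f_ne (p := w - n) (by omega) ?_ h4)
    rw [sub_add_cancel, h2]
  refine Or.inr ⟨(-p).toNat, (n - w).toNat, by omega, by omega, ?_⟩
  rw [mem_prim_iff h]
  have e1 : -(((-p).toNat : ℕ) : ℤ) = p := by omega
  have e2 : n - (((n - w).toNat : ℕ) : ℤ) = w := by omega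
  rw [e1, e2]
  exact ⟨h1, h2, h3, h4⟩

/-- the relations of the components with `f`, `g` -/
lemma cmp_rel : (∀ x, f (cmp f g d 3 x) = cmp f g d 3 (f x) ∧ g (cmp f g d 3 x) = cmp f g d 3 (g x)) ∧
    (∀ x, f (cmp f g d 1 x) = cmp f g d 1 (f x) ∧
      g (cmp f g d 1 x) = cmp f g d 1 (g x) + cmp f g d 3 x) ∧
    (∀ x, f (cmp f g d 2 x) = cmp f g d 2 (f x) + cmp f g d 3 x ∧
      g (cmp f g d 2 x) = cmp f g d 2 (g x)) ∧
    (∀ x, f (cmp f g d 0 x) = cmp f g d 0 (f x) + cmp f g d 1 x ∧
      g (cmp f g d 0 x) = cmp f g d 0 (g x) + cmp f g d 2 x) := by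
  have := H62W.Setup.tf (K := K) (V := E)
  have D := h.dd'
  have key : ∀ {a b c : Module.End K E}, H62W.br a b = c → ∀ x, a (b x) = b (a x) + c x := by
    intro a b c hc x
    rw [← hc]
    change a (b x) = b (a x) + (a (b x) - b (a x))
    abel
  refine ⟨fun x => ⟨?_, ?_⟩, fun x => ⟨?_, ?_⟩, fun x => ⟨?_, ?_⟩, fun x => ⟨?_, ?_⟩⟩
  · have := key D.b_f1_q12 x
    rwa [LinearMap.zero_apply, add_zero] at this
  · have := key D.b_f2_q12 x
    rwa [LinearMap.zero_apply, add_zero] at this
  · have := key D.b_f1_q1 x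
    rwa [LinearMap.zero_apply, add_zero] at this
  · exact key D.b_f2_q1 x
  · exact key (c := H62W.br f (H62W.br g d)) rfl x
  · have := key D.b_f2_q2 x
    rwa [LinearMap.zero_apply, add_zero] at this
  · exact key (c := H62W.br f d) rfl x
  · exact key (c := H62W.br g d) rfl x

/-- the shifts of the components -/
def sh : Fin 4 → ℤ × ℤ := ![(1, 1), (-1, 1), (1, -1), (-1, -1)]

lemma cmp_shift (i : Fin 4) : (∀ p x, s (p + (sh i).1) (cmp f g d i x) = cmp f g d i (s p x)) ∧
    ∀ w x, t (w + (sh i).2) (cmp f g d i x) = cmp f g d i (t w x) := by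
  have key : ∀ {r : ℤ → Module.End K E} {X Y : Module.End K E} {a b c : ℤ},
      (∀ p, X * r p = r (p + a) * X) → (∀ p, Y * r p = r (p + b) * Y) → a + b = c → ∀ p,
      br X Y * r p = r (p + c) * br X Y := by
    intro r X Y a b c hX hY hc p
    subst hc
    change (X * Y - Y * X) * r p = r (p + (a + b)) * (X * Y - Y * X)
    have e1 : X * Y * r p = r (p + (a + b)) * (X * Y) := by
      rw [mul_assoc, hY, ← mul_assoc, hX, mul_assoc, show p + b + a = p + (a + b) by ring]
    have e2 : Y * X * r p = r (p + (a + b)) * (Y * X) := by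
      rw [mul_assoc, hX, ← mul_assoc, hY, mul_assoc, show p + a + b = p + (a + b) by ring]
    rw [sub_mul, mul_sub, e1, e2]
  have hf : ∀ p, f * s p = s (p + -2) * f := h.sl.fs
  have hg : ∀ p, g * s p = s (p + 0) * g := fun p => by rw [h.gs, add_zero]
  have hf' : ∀ p, f * t p = t (p + 0) * f := fun p => by rw [h.ft, add_zero]
  have hg' : ∀ p, g * t p = t (p + -2) * g := h.gt
  have conv : ∀ {r : ℤ → Module.End K E} {X : Module.End K E} {a : ℤ},
      (∀ p, X * r p = r (p + a) * X) → ∀ p x, r (p + a) (X x) = X (r p x) :=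
    fun hX p x => (LinearMap.congr_fun (hX p) x).symm
  fin_cases i
  · exact ⟨conv h.ds, conv h.dt⟩
  · exact ⟨conv (key hf h.ds (by rfl)), conv (key hf' h.dt (by rfl))⟩
  · exact ⟨conv (key hg h.ds (by rfl)), conv (key hg' h.dt (by rfl))⟩
  · exact ⟨conv (key hf (key hg h.ds rfl) (by rfl)),
      conv (key hf' (key hg' h.dt rfl) (by rfl))⟩

end lowest

section kill

variable (h : Pol N f L g d n s t P D S B) {Al : AddSubgroup E}
  (hC : Cls N f L g n s t S B Al)
include h hC

/-- The components kill a vector of `Tp i j` killed by an operator `G` which is injective on the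
neighbours. -/
lemma cmp_kill {G : Module.End K E} (hG : ∀ k, ∀ x, G (cmp f g d k x) = cmp f g d k (G x))
    {i j : ℕ} (hinj : ∀ i' j', Nb i j i' j' → ∀ z ∈ Tp f g n s t S Al i' j', G z = 0 → z = 0)
    {y : E} (hy : y ∈ Tp f g n s t S Al i j) (hGy : G y = 0) (k : Fin 4) :
    cmp f g d k y = 0 := by
  have hbi := h.bi
  obtain ⟨y1, y2, y3, y4⟩ := (mem_prim_iff hbi).1 hy.1
  obtain ⟨r3, r1, r2, r0⟩ := cmp_rel hbi
  have step : ∀ k, f (cmp f g d k y) = 0 → g (cmp f g d k y) = 0 → cmp f g d k y = 0 := by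
    intro k hk1 hk2
    obtain ⟨e1, e2⟩ := cmp_shift hbi k
    have e1' := e1 (-(i : ℤ)) y
    have e2' := e2 (n - j) y
    rw [y1] at e1'
    rw [y2] at e2'
    rcases prim_or hbi e1' e2' hk1 hk2 with h0 | ⟨i', j', hi', hj', hz⟩
    · exact h0
    · refine hinj i' j' ?_ _ ⟨hz, ann_stab h hC (cmp_mem h k) _ hy.2⟩ (by rw [hG, hGy, map_zero])
      unfold Nb
      fin_cases k
      · change -(i : ℤ) + 1 = -i' at hi'
        change n - (j : ℤ) + 1 = n - j' at hj'
        omega
      · change -(i : ℤ) + -1 = -i' at hi'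
        change n - (j : ℤ) + 1 = n - j' at hj'
        omega
      · change -(i : ℤ) + 1 = -i' at hi'
        change n - (j : ℤ) + -1 = n - j' at hj'
        omega
      · change -(i : ℤ) + -1 = -i' at hi'
        change n - (j : ℤ) + -1 = n - j' at hj'
        omega
  have c3 : cmp f g d 3 y = 0 := by
    refine step 3 ?_ ?_
    · rw [(r3 y).1, y3, map_zero]
    · rw [(r3 y).2, y4, map_zero]
  have c1 : cmp f g d 1 y = 0 := by
    refine step 1 ?_ ?_
    · rw [(r1 y).1, y3, map_zero]
    · rw [(r1 y).2, y4, map_zero, zero_add, c3]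
  have c2 : cmp f g d 2 y = 0 := by
    refine step 2 ?_ ?_
    · rw [(r2 y).1, y3, map_zero, zero_add, c3]
    · rw [(r2 y).2, y4, map_zero]
  have c0 : cmp f g d 0 y = 0 := by
    refine step 0 ?_ ?_
    · rw [(r0 y).1, y3, map_zero, zero_add, c1]
    · rw [(r0 y).2, y4, map_zero, zero_add, c2]
  fin_cases k
  · exact c0
  · exact c1
  · exact c2
  · exact c3

omit hC in
/-- `S (x, N ^ i L ^ j y) = 0` if `x` is in the sum of the images of the components and `y` is
killed by them -/
lemma rad_kill {x y : E} (hx : x ∈ radS f g d) (hy : ∀ k, cmp f g d k y = 0) (i j : ℕ) :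
    S x ((N ^ i) ((L ^ j) y)) = 0 := by
  have hbi := h.bi
  have stb : ∀ b, ∀ z, (∀ k, cmp f g d k z = 0) → ∀ k, cmp f g d k (gen N f L g b z) = 0 := by
    intro b z hz k
    have h1 : gen N f L g b (cmp f g d k z) - cmp f g d k (gen N f L g b z) =
        br (gen N f L g b) (cmp f g d k) z := rfl
    have h2 : br (gen N f L g b) (cmp f g d k) z = 0 := by
      rcases br_cmp hbi b k with h3 | ⟨m, h3⟩
      · rw [h3]; rfl
      · rw [h3]; exact hz m
    rw [h2, hz k, map_zero, zero_sub, neg_eq_zero] at h1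
    exact h1
  have pw : ∀ b, ∀ m : ℕ, ∀ z, (∀ k, cmp f g d k z = 0) →
      ∀ k, cmp f g d k ((gen N f L g b ^ m) z) = 0 := by
    intro b m
    induction m with
    | zero => intro z hz; simpa using hz
    | succ m ih =>
      intro z hz
      rw [pow_succ', Module.End.mul_apply]
      exact stb b _ (ih z hz)
  have hk : ∀ k, cmp f g d k ((N ^ i) ((L ^ j) y)) = 0 := pw 0 i _ (pw 2 j _ hy)
  generalize (N ^ i) ((L ^ j) y) = z at hk
  unfold radS H62W.Setup.radS at hx
  induction hx using Submodule.iSup_induction' with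
  | mem k x hx =>
    obtain ⟨y, rfl⟩ := hx
    obtain ⟨c', -, h1, h2 | h2⟩ := adj_cmp h k
    · change S (cmp f g d k y) z = 0
      rw [h1.1, h2, hk, map_zero]
    · change S (cmp f g d k y) z = 0
      rw [h1.1, h2, LinearMap.neg_apply, hk, neg_zero, map_zero]
  | zero => rw [map_zero, LinearMap.zero_apply]
  | add x y _ _ h1 h2 => rw [map_add, LinearMap.add_apply, h1, h2, add_zero]

end kill

section poly

variable {Φ : Module.End K E}

lemma aeval_comm {u : Module.End K E} (hu : Φ * u = u * Φ) (q : K[X]) (x : E) :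
    aeval Φ q (u x) = u (aeval Φ q x) := by
  have : Commute (aeval Φ q) u := by
    have h1 : Commute Φ u := hu
    exact (Algebra.commute_of_mem_adjoin_singleton_of_commute
      (aeval_mem_adjoin_singleton K Φ) h1.symm).symm
  exact LinearMap.congr_fun this.eq x

/-- a polynomial prime to the characteristic polynomial acts injectively -/
lemma coprime_inj {U : Submodule K E} {R q : K[X]} (hR : HasCP Φ U R) (hq : IsCoprime q R)
    {x : E} (hx : x ∈ U) (h0 : aeval Φ q x = 0) : x = 0 := by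
  obtain ⟨hst, hcp⟩ := hR
  obtain ⟨a, b, hab⟩ := hq
  have h2 := congrArg (fun q => aeval Φ q x) hab
  simp only [map_add, map_mul, map_one, LinearMap.add_apply, Module.End.mul_apply,
    Module.End.one_apply] at h2
  have h3 : aeval Φ R x = 0 := by
    have h4 := aeval_restrict hst R ⟨x, hx⟩
    rw [← hcp, LinearMap.aeval_self_charpoly] at h4
    rw [← hcp]
    exact h4.symm
  rw [h0, h3, map_zero, map_zero, add_zero] at h2
  exact h2.symm

end poly

end Pool.Agent.H62X
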