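import Pool.Agent.W_MP_a3c811_h79.Lap.NoIso
import Pool.Agent.W_MP_a3c811_h79.Lap.Aniso

/-! Weight-monodromy from weaker anisotropy: the abstract context. -/

noncomputable section

namespace Pool.Agent.H62X

open Module Pool.Agent.H79L

universe v w

variable {K : Type v} [Field K] {E : Type w} [AddCommGroup E] [Module K E]

/-- `u'` is the adjoint of `u` on both sides. -/
def Adj (S : E →ₗ[K] E →ₗ[K] K) (u u' : Module.End K E) : Prop :=
  (∀ x y, S (u x) y = S x (u' y)) ∧ ∀ x y, S (u' x) y = S x (u y)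

/-- The context: two commuting `sl2`-triples with a differential, a nondegenerate form for which all
operators are self-adjoint, a ring `B` with adjoints which contains the operators. -/
structure Pol (N f L g d : Module.End K E) (n : ℤ) (s t : ℤ → Module.End K E) (P D : Finset ℤ)
    (S : E →ₗ[K] E →ₗ[K] K) (B : Subring (Module.End K E)) : Prop where
  bi : Bi N f L g d n s t P D
  ndl : ∀ x, (∀ y, S x y = 0) → x = 0
  ndr : ∀ y, (∀ x, S x y = 0) → y = 0
  aN : ∀ x y, S (N x) y = S x (N y)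
  af : ∀ x y, S (f x) y = S x (f y)
  aL : ∀ x y, S (L x) y = S x (L y)
  ag : ∀ x y, S (g x) y = S x (g y)
  ad : ∀ x y, S (d x) y = S x (d y)
  mN : N ∈ B
  mf : f ∈ B
  mL : L ∈ B
  mg : g ∈ B
  md : d ∈ B
  ms : ∀ p, s p ∈ B
  mt : ∀ w, t w ∈ B
  star : ∀ u ∈ B, ∃ u' ∈ B, Adj S u u'

/-- The subspace `U` is stable under the two triples and homogeneous. -/
structure Stab (N f L g : Module.End K E) (s t : ℤ → Module.End K E) (U : Submodule K E) :
    Prop where
  N : ∀ x ∈ U, N x ∈ U
  f : ∀ x ∈ U, f x ∈ U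
  L : ∀ x ∈ U, L x ∈ U
  g : ∀ x ∈ U, g x ∈ U
  s : ∀ p, ∀ x ∈ U, s p x ∈ U
  t : ∀ w, ∀ x ∈ U, t w x ∈ U

/-- the sum of the images of the components of the differential -/
def radS (f g d : Module.End K E) : Submodule K E := H62W.Setup.radS f g d

/-- the sum of the images of `N, f, L, g` -/
def tot (N f L g : Module.End K E) : Submodule K E :=
  LinearMap.range N ⊔ LinearMap.range f ⊔ LinearMap.range L ⊔ LinearMap.range g

/-- the common kernel of `N, f, L, g` -/
def triv (N f L g : Module.End K E) : Submodule K E :=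
  LinearMap.ker N ⊓ LinearMap.ker f ⊓ LinearMap.ker L ⊓ LinearMap.ker g

/-- The members of `B` whose image and the image of whose adjoint lie in `R`. -/
def J (S : E →ₗ[K] E →ₗ[K] K) (B : Subring (Module.End K E)) (R : Submodule K E)
    (u : Module.End K E) : Prop :=
  u ∈ B ∧ (∀ x, u x ∈ R) ∧ ∃ u' ∈ B, Adj S u u' ∧ ∀ x, u' x ∈ R

/-- Anisotropy of the primitive part `(i, j)` for the members of `B` whose image and the image of
whose adjoint lie in `R`. -/
def Aniso (N f L g : Module.End K E) (n : ℤ) (s t : ℤ → Module.End K E)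
    (S : E →ₗ[K] E →ₗ[K] K) (B : Subring (Module.End K E)) (R : Submodule K E) (i j : ℕ) : Prop :=
  ∀ u, J S B R u → (∀ x, u x ∈ prim f g n s t i j) →
    (∀ x y, S (u x) ((N ^ i) ((L ^ j) (u y))) = 0) → u = 0

/-- The ring generated by `N, f, L, g` and the projectors. -/
def A0 (N f L g : Module.End K E) (s t : ℤ → Module.End K E) : Subring (Module.End K E) :=
  Subring.closure ({N, f, L, g} ∪ Set.range s ∪ Set.range t)

variable {N f L g d : Module.End K E} {n : ℤ} {s t : ℤ → Module.End K E}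
  {P D : Finset ℤ} {S : E →ₗ[K] E →ₗ[K] K} {B : Subring (Module.End K E)}

section adj

lemma Adj.symm {u u' : Module.End K E} (h : Adj S u u') : Adj S u' u := ⟨h.2, h.1⟩

lemma Adj.mul {u u' v v' : Module.End K E} (h : Adj S u u') (h' : Adj S v v') :
    Adj S (u * v) (v' * u') :=
  ⟨fun x y => by rw [Module.End.mul_apply, Module.End.mul_apply, h.1, h'.1],
    fun x y => by rw [Module.End.mul_apply, Module.End.mul_apply, h'.2, h.2]⟩

lemma Adj.add {u u' v v' : Module.End K E} (h : Adj S u u') (h' : Adj S v v') :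
    Adj S (u + v) (u' + v') :=
  ⟨fun x y => by simp only [LinearMap.add_apply, map_add, h.1, h'.1],
    fun x y => by simp only [LinearMap.add_apply, map_add, h.2, h'.2]⟩

lemma Adj.neg {u u' : Module.End K E} (h : Adj S u u') : Adj S (-u) (-u') :=
  ⟨fun x y => by simp only [LinearMap.neg_apply, map_neg, h.1],
    fun x y => by simp only [LinearMap.neg_apply, map_neg, h.2]⟩

lemma Adj.sub {u u' v v' : Module.End K E} (h : Adj S u u') (h' : Adj S v v') :
    Adj S (u - v) (u' - v') := by
  rw [sub_eq_add_neg, sub_eq_add_neg]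
  exact h.add h'.neg

lemma Adj.one : Adj S (1 : Module.End K E) 1 := ⟨fun _ _ => rfl, fun _ _ => rfl⟩

lemma Adj.zero : Adj S (0 : Module.End K E) 0 :=
  ⟨fun x y => by simp, fun x y => by simp⟩

lemma Adj.pow {u u' : Module.End K E} (h : Adj S u u') (m : ℕ) : Adj S (u ^ m) (u' ^ m) := by
  induction m with
  | zero => exact Adj.one
  | succ m ih =>
    rw [pow_succ, pow_succ']
    exact ih.mul h

lemma Adj.app {u u' : Module.End K E} (h : Adj S u u') (x y : E) : S (u x) y = S x (u' y) := h.1 x y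

end adj

section stab

lemma Stab.inf {U V : Submodule K E} (hU : Stab N f L g s t U) (hV : Stab N f L g s t V) :
    Stab N f L g s t (U ⊓ V) :=
  ⟨fun x hx => ⟨hU.N x hx.1, hV.N x hx.2⟩, fun x hx => ⟨hU.f x hx.1, hV.f x hx.2⟩,
    fun x hx => ⟨hU.L x hx.1, hV.L x hx.2⟩, fun x hx => ⟨hU.g x hx.1, hV.g x hx.2⟩,
    fun p x hx => ⟨hU.s p x hx.1, hV.s p x hx.2⟩, fun w x hx => ⟨hU.t w x hx.1, hV.t w x hx.2⟩⟩

lemma A0_stab {U : Submodule K E} (hU : Stab N f L g s t U) {a : Module.End K E}
    (ha : a ∈ A0 N f L g s t) : ∀ x ∈ U, a x ∈ U := by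
  unfold A0 at ha
  induction ha using Subring.closure_induction with
  | mem a ha =>
    rcases ha with (ha | ⟨p, rfl⟩) | ⟨w, rfl⟩
    · simp only [Set.mem_insert_iff, Set.mem_singleton_iff] at ha
      rcases ha with rfl | rfl | rfl | rfl
      · exact hU.N
      · exact hU.f
      · exact hU.L
      · exact hU.g
    · exact hU.s p
    · exact hU.t w
  | zero => intro x _; exact U.zero_mem
  | one => intro x hx; exact hx
  | add a b _ _ ha hb => intro x hx; exact U.add_mem (ha x hx) (hb x hx)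
  | neg a _ ha => intro x hx; exact U.neg_mem (ha x hx)
  | mul a b _ _ ha hb => intro x hx; exact ha _ (hb x hx)

end stab

section pol

variable (h : Pol N f L g d n s t P D S B)
include h

lemma Pol.adjN : Adj S N N := ⟨h.aN, h.aN⟩
lemma Pol.adjf : Adj S f f := ⟨h.af, h.af⟩
lemma Pol.adjL : Adj S L L := ⟨h.aL, h.aL⟩
lemma Pol.adjg : Adj S g g := ⟨h.ag, h.ag⟩
lemma Pol.adjd : Adj S d d := ⟨h.ad, h.ad⟩

end pol

end Pool.Agent.H62X
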