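import Pool.Agent.W_a3c811_h62w.Cplx
import Pool.Agent.W_MP_a3c811_h79.Lap.StLap

/-! The `E_1`-term of a semistable degeneration with its Lefschetz operators and its form. -/

noncomputable section

set_option linter.unusedSectionVars false

namespace Pool.Agent.H62S

open Pool.Agent.WeilH_h6 Pool.Agent.WeilH_h6.VarClass Pool.Agent.H62D Pool.Agent.H62A
  Pool.Agent.H79L

universe u v w

variable {k : Type u} [Field k] {𝒱 : VarClass k} {I : Type} {K : I → Type v} [∀ l, Field (K l)]
  [∀ l, CharZero (K l)] {W : ∀ l, Weil.{u, v, w} 𝒱 (K l)} (X : Strata W)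

namespace Strata

section single

variable (l : I)

lemma eform_eN (x y : Tot (W l) X.EY) : X.eform l (X.eN l x) y = X.eform l x (X.eN l y) := by
  unfold eform eN
  have h1 : ∑ i ∈ Finset.range (X.n + 1), ∑ j ∈ Finset.range (X.n + 1),
      X.lform l (i + j) (X.slice l i (X.lift l 1 LinearMap.id x)) (X.slice l j y) =
      ∑ i ∈ Finset.range X.n, ∑ j ∈ Finset.range X.n,
        X.lform l (i + j + 1) (X.slice l i x) (X.slice l j y) := by
    rw [Finset.sum_range_succ']
    have h0 : ∑ j ∈ Finset.range (X.n + 1),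
        X.lform l (0 + j) (X.slice l 0 (X.lift l 1 LinearMap.id x)) (X.slice l j y) = 0 := by
      refine Finset.sum_eq_zero fun j _ => ?_
      rw [X.slice_lift_gen l _ _ _ _ _ (by omega), if_neg (by omega)]
    rw [h0, add_zero]
    refine Finset.sum_congr rfl fun i _ => ?_
    rw [Finset.sum_range_succ, X.lform_big l (by omega), add_zero]
    refine Finset.sum_congr rfl fun j _ => ?_
    rw [X.slice_lift_gen l _ _ _ _ _ (by omega), if_pos (by omega), Nat.add_sub_cancel,
      show i + 1 + j = i + j + 1 by ring]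
    rfl
  have h2 : ∑ i ∈ Finset.range (X.n + 1), ∑ j ∈ Finset.range (X.n + 1),
      X.lform l (i + j) (X.slice l i x) (X.slice l j (X.lift l 1 LinearMap.id y)) =
      ∑ i ∈ Finset.range X.n, ∑ j ∈ Finset.range X.n,
        X.lform l (i + j + 1) (X.slice l i x) (X.slice l j y) := by
    have h0 : ∀ i, ∑ j ∈ Finset.range (X.n + 1),
        X.lform l (i + j) (X.slice l i x) (X.slice l j (X.lift l 1 LinearMap.id y)) =
        ∑ j ∈ Finset.range X.n, X.lform l (i + j + 1) (X.slice l i x) (X.slice l j y) := by
      intro i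
      rw [Finset.sum_range_succ']
      have h0 : X.lform l (i + 0) (X.slice l i x)
          (X.slice l 0 (X.lift l 1 LinearMap.id y)) = 0 := by
        rw [X.slice_lift_gen' l _ _ _ _ _ (by omega), if_neg (by omega)]
      rw [h0, add_zero]
      refine Finset.sum_congr rfl fun j _ => ?_
      rw [X.slice_lift_gen' l _ _ _ _ _ (by omega), if_pos (by omega), Nat.add_sub_cancel]
      rfl
    rw [Finset.sum_congr rfl fun i _ => h0 i, Finset.sum_range_succ]
    have h3 : ∑ j ∈ Finset.range X.n,
        X.lform l (X.n + j + 1) (X.slice l X.n x) (X.slice l j y) = 0 :=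
      Finset.sum_eq_zero fun j _ => X.lform_big l (by omega) _ _
    rw [h3, add_zero]
  rw [h1, h2]

/-- the form on the `E_1`-term as a bilinear map -/
def eS : Tot (W l) X.EY →ₗ[K l] Tot (W l) X.EY →ₗ[K l] K l :=
  LinearMap.mk₂ (K l) (X.eform l) (X.eform_add_left l) (X.eform_smul_left l)
    (X.eform_add_right l) (X.eform_smul_right l)

lemma eS_apply (x y : Tot (W l) X.EY) : X.eS l x y = X.eform l x y := rfl

/-- the form on the `E_1`-term as a sum over the copies: the `j`-th copy of `Y a` is paired with the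
`(lev a - j)`-th one -/
lemma eform_eq (x y : Tot (W l) X.EY) : X.eform l x y =
    ∑ a, ∑ i ∈ Finset.range (X.lev a + 1),
      (W l).deg (X.slice l i x a * X.slice l (X.lev a - i) y a) := by
  unfold eform lform
  have h1 : ∀ i ∈ Finset.range (X.n + 1), ∑ j ∈ Finset.range (X.n + 1), (∑ a, if X.lev a = i + j then
      (W l).deg (X.slice l i x a * X.slice l j y a) else 0) =
      ∑ a, if i ≤ X.lev a then (W l).deg (X.slice l i x a * X.slice l (X.lev a - i) y a)
        else 0 := by
    intro i _
    rw [Finset.sum_comm]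
    refine Finset.sum_congr rfl fun a _ => ?_
    by_cases hi : i ≤ X.lev a
    · rw [if_pos hi, Finset.sum_eq_single (X.lev a - i)]
      · rw [if_pos (by omega)]
      · intro j _ hj
        rw [if_neg (by omega)]
      · intro h
        have := X.lev_le a
        exact absurd (Finset.mem_range.2 (by omega)) h
    · rw [if_neg hi]
      refine Finset.sum_eq_zero fun j _ => ?_
      rw [if_neg (by omega)]
  rw [Finset.sum_congr rfl h1, Finset.sum_comm]
  refine Finset.sum_congr rfl fun a _ => ?_
  rw [← Finset.sum_filter]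
  refine Finset.sum_congr ?_ fun _ _ => rfl
  ext i
  have := X.lev_le a
  simp only [Finset.mem_filter, Finset.mem_range]
  omega

/-- the form is nondegenerate -/
lemma eform_nd (x : Tot (W l) X.EY) (h : ∀ y, X.eform l x y = 0) : x = 0 := by
  classical
  refine ext_slice X l fun i a hi => ?_
  have h0 : X.slice l i (0 : Tot (W l) X.EY) a = 0 := by rw [map_zero]; rfl
  rw [h0]
  refine (W l).axDuality (X.Y a) _ fun v => ?_
  have h1 := h (Pi.single (⟨a, ⟨X.lev a - i, by omega⟩⟩ : X.Idx) v)
  rw [eform_eq, Finset.sum_eq_single a, Finset.sum_eq_single i] at h1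
  · rw [slice_single, if_pos rfl] at h1
    rw [← h1]
    congr 2
    exact (Pi.single_eq_same (M := fun a => (W l).H (X.Y a)) a v).symm
  · intro j hj hji
    rw [slice_single, if_neg, Pi.zero_apply, mul_zero, deg_zero']
    rw [Finset.mem_range] at hj
    change ¬ (X.lev a - j = X.lev a - i)
    omega
  · intro hi'
    exact absurd (Finset.mem_range.2 (by omega)) hi'
  · intro b _ hb
    refine Finset.sum_eq_zero fun j _ => ?_
    rw [slice_single]
    split_ifs with hj
    · have h2 : (Pi.single a v : Tot (W l) X.Y) b = 0 :=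
        Pi.single_eq_of_ne (M := fun a => (W l).H (X.Y a)) hb v
      rw [h2, mul_zero, deg_zero']
    · rw [Pi.zero_apply, mul_zero, deg_zero']
  · intro ha
    exact absurd (Finset.mem_univ a) ha

/-- `[N, f] = p` in position `p` -/
lemma eN_triple (p : ℤ) (x : Tot (W l) X.EY) (hx : x ∈ posPart (W l) X.EY X.epos p) :
    X.eN l (X.eNd l x) - X.eNd l (X.eN l x) = (p : K l) • x := by
  funext c
  have h1 := X.eN_eNd l x c
  have h2 : x c ∈ (if X.epos c = p then ⊤ else ⊥ : Submodule (K l) ((W l).H (X.EY c))) :=
    hx c (Set.mem_univ c)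
  rw [h1, Pi.smul_apply]
  by_cases hc : X.epos c = p
  · rw [hc]
  · rw [if_neg hc, Submodule.mem_bot] at h2
    rw [h2, smul_zero, smul_zero]

end single

/-- The Lefschetz operators of the `E_1`-term. -/
def toLefschetz (hW : Compatible W) : Lefschetz X.complex where
  n := X.n
  N := X.eN
  L := X.eL
  f := X.eNd
  g := X.eLam
  motivic_N := X.motivic_eN hW
  motivic_L := X.motivic_eL
  motivic_f := X.motivic_eNd hW
  motivic_g := X.motivic_eLam
  bidegree_N := X.eN_bidegree
  bidegree_L := X.eL_bidegree
  bidegree_f := X.eNd_bidegree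
  bidegree_g := X.eLam_bidegree
  triple_N := X.eN_triple
  triple_L := X.eL_eLam
  comm_NL := fun l x => LinearMap.congr_fun (X.eN_eL l) x
  comm_Ng := fun l x => LinearMap.congr_fun (X.eN_eLam l) x
  comm_fL := fun l x => LinearMap.congr_fun (X.eNd_eL l) x
  comm_fg := fun l x => LinearMap.congr_fun (X.eNd_eLam l) x
  comm_Nd := fun l x => LinearMap.congr_fun (X.eN_ed l) x
  comm_Ld := fun l x => LinearMap.congr_fun (X.eL_ed l) x

theorem isForm (hW : Compatible W) (l : I) : (X.toLefschetz hW).IsForm l (X.eS l) :=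
  ⟨Or.inl (X.eform_eN l), Or.inl (X.eform_eL l), Or.inl (X.eform_eNd l), Or.inl (X.eform_eLam l),
    fun _ _ => 1, fun _ _ => ⟨rfl, rfl⟩, fun w p x _ _ y => by
      have h1 : X.complex.d l = X.ed l := rfl
      rw [h1, Units.val_one, Int.cast_one, one_mul]
      exact X.eform_ed l x y⟩

end Strata

end Pool.Agent.H62S
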