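import Pool.Agent.W_MP_a3c811_h79.MF.Blocks
import Pool.Agent.W_a3c811_h62w.Ab0
import Pool.Agent.W_a3c811_h62w.Bridge

/-! Adjoints for the ring of endomorphisms of the `E_1`-term with blocks in a given ring. -/

noncomputable section

set_option linter.unusedSectionVars false

namespace Pool.Agent.H62S

open Pool.Agent.WeilH_h6 Pool.Agent.WeilH_h6.VarClass Pool.Agent.H62D Pool.Agent.H62A
  Pool.Agent.H79L Pool.Agent.H62X

universe u v w

variable {k : Type u} [Field k] {𝒱 : VarClass k} {I : Type} {K : I → Type v} [∀ l, Field (K l)]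
  [∀ l, CharZero (K l)] {W : ∀ l, Weil.{u, v, w} 𝒱 (K l)} (X : Strata W)

namespace Strata

variable (l : I)

/-- the dual copy -/
def dcopy (c : X.Idx) : X.Idx := ⟨c.1, ⟨X.lev c.1 - (c.2 : ℕ), by omega⟩⟩

lemma dcopy_dcopy (c : X.Idx) : X.dcopy (X.dcopy c) = c := by
  obtain ⟨a, i, hi⟩ := c
  unfold dcopy
  simp only [Sigma.mk.injEq, heq_eq_eq, Fin.mk.injEq, true_and]
  omega

/-- exchange of the copies `j` and `lev a - j` of `Y a` -/
def sig : TEnd (W l) X.EY := LinearMap.pi fun c => LinearMap.proj (R := K l)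
  (φ := fun c => (W l).H (X.EY c)) (X.dcopy c)

lemma sig_apply (x : Tot (W l) X.EY) (c : X.Idx) : X.sig l x c = x (X.dcopy c) := rfl

lemma sig_sig (x : Tot (W l) X.EY) : X.sig l (X.sig l x) = x := by
  funext c
  rw [sig_apply, sig_apply]
  obtain ⟨a, i, hi⟩ := c
  have h1 := X.slice_self l x (X.dcopy (X.dcopy ⟨a, ⟨i, hi⟩⟩))
  have h2 := X.slice_self l x ⟨a, ⟨i, hi⟩⟩
  rw [← h1, ← h2]
  have h3 : X.lev a - (X.lev a - i) = i := by omega
  change X.slice l (X.lev a - (X.lev a - i)) x a = X.slice l i x a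
  rw [h3]

lemma slice_sig (x : Tot (W l) X.EY) {i : ℕ} {a : X.J} (hi : i ≤ X.lev a) :
    X.slice l i (X.sig l x) a = X.slice l (X.lev a - i) x a := by
  rw [slice_of_le X l _ hi, slice_of_le X l _ (Nat.sub_le _ _)]
  rfl

/-- the form on the `E_1`-term in terms of the total form -/
lemma eform_sig (x y : Tot (W l) X.EY) :
    X.eform l x y = tform (W l) X.EY x (X.sig l y) := by
  rw [eform_eq, tform_apply, Fintype.sum_sigma]
  refine Finset.sum_congr rfl fun a _ => ?_
  rw [Finset.sum_range]
  refine Finset.sum_congr rfl fun i _ => ?_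
  have hi : (i : ℕ) ≤ X.lev a := by have := i.2; omega
  rw [slice_of_le X l _ hi, slice_of_le X l _ (Nat.sub_le _ _)]
  rfl

lemma tform_slice (x y : Tot (W l) X.EY) : tform (W l) X.EY x y =
    ∑ j ∈ Finset.range (X.n + 1), tform (W l) X.Y (X.slice l j x) (X.slice l j y) := by
  simp only [tform_apply]
  rw [Finset.sum_comm, Fintype.sum_sigma]
  refine Finset.sum_congr rfl fun a _ => ?_
  have hle := X.lev_le a
  have h1 : ∑ j ∈ Finset.range (X.n + 1), (W l).deg (X.slice l j x a * X.slice l j y a) =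
      ∑ j ∈ Finset.range (X.lev a + 1), (W l).deg (X.slice l j x a * X.slice l j y a) := by
    symm
    refine Finset.sum_subset (by
      intro j hj
      rw [Finset.mem_range] at hj ⊢
      omega) fun j _ hj => ?_
    rw [Finset.mem_range] at hj
    rw [slice_of_lt X l _ (by omega), zero_mul, deg_zero']
  rw [h1, Finset.sum_range]
  refine Finset.sum_congr rfl fun i _ => ?_
  have hi : (i : ℕ) ≤ X.lev a := by have := i.2; omega
  rw [slice_of_le X l _ hi, slice_of_le X l _ hi]

lemma tform_sig (x y : Tot (W l) X.EY) :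
    tform (W l) X.EY (X.sig l x) y = tform (W l) X.EY x (X.sig l y) := by
  rw [tform_apply, tform_apply]
  refine Finset.sum_equiv (⟨X.dcopy, X.dcopy, X.dcopy_dcopy, X.dcopy_dcopy⟩ : X.Idx ≃ X.Idx)
    (by simp) fun c _ => ?_
  have h1 : (X.sig l y (X.dcopy c) : (W l).H (X.Y c.1)) = y c := congrFun (X.sig_sig l y) c
  have key : ∀ x0 z z' : (W l).H (X.Y c.1), z = z' →
      (W l).deg (x0 * z') = (W l).deg (x0 * z) := by
    rintro x0 z _ rfl; rfl
  exact key (x (X.dcopy c)) _ _ h1

lemma tform_gep (j : ℕ) (x y : Tot (W l) X.Y) :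
    tform (W l) X.Y x (X.gep l j y) = tform (W l) X.Y (X.gep l j x) y := by
  rw [tform_apply, tform_apply]
  refine Finset.sum_congr rfl fun a _ => ?_
  rw [gep_apply, gep_apply]
  split_ifs
  · rfl
  · rw [mul_zero, zero_mul]

lemma gep_slice (j : ℕ) (x : Tot (W l) X.EY) : X.gep l j (X.slice l j x) = X.slice l j x := by
  funext a
  rw [gep_apply]
  split_ifs with h
  · rfl
  · exact (slice_of_lt X l _ (by omega)).symm

variable (BY : Subring (Module.End (K l) (Tot (W l) X.Y)))
  (hpos : ∀ p : ℤ, (posProj (W l) X.Y X.ilev p : Module.End (K l) (Tot (W l) X.Y)) ∈ BY)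

lemma sig_mem_bring : (X.sig l : Module.End (K l) (Tot (W l) X.EY)) ∈ X.bring l BY hpos := by
  intro i j
  have h1 : X.block l (X.sig l) i j = posProj (W l) X.Y X.ilev ((i + j : ℕ) : ℤ) := by
    refine LinearMap.ext fun y => funext fun a => ?_
    change X.slice l i (X.sig l (X.ins l j y)) a = _
    rw [posProj_ilev_apply]
    simp only [Nat.cast_inj]
    by_cases hi : i ≤ X.lev a
    · rw [slice_sig X l _ hi, slice_ins, gep_apply]
      by_cases h : X.lev a = i + j
      · rw [if_pos (by omega), if_pos (by omega), if_pos h]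
      · rw [if_neg (by omega), if_neg h]
    · rw [slice_of_lt X l _ (by omega), if_neg (by omega)]
  rw [h1]
  exact hpos _

/-- the operator with one block -/
lemma ins_slice_mem_bring {T : Module.End (K l) (Tot (W l) X.Y)} (hT : T ∈ BY) (i j : ℕ) :
    (X.ins l i ∘ₗ T ∘ₗ X.slice l j : Module.End (K l) (Tot (W l) X.EY)) ∈
      X.bring l BY hpos := by
  intro i' j'
  by_cases h : i' = i ∧ j = j'
  · obtain ⟨rfl, rfl⟩ := h
    have h1 : X.block l (X.ins l i' ∘ₗ T ∘ₗ X.slice l j) i' j =
        X.gep l i' * T * X.gep l j := by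
      refine LinearMap.ext fun y => funext fun a => ?_
      change X.slice l i' (X.ins l i' (T (X.slice l j (X.ins l j y)))) a =
        X.gep l i' (T (X.gep l j y)) a
      have h2 : X.slice l j (X.ins l j y) = X.gep l j y := by
        funext b
        rw [slice_ins, if_pos rfl]
      rw [slice_ins, if_pos rfl, h2]
    rw [h1]
    exact BY.mul_mem (BY.mul_mem (X.gep_mem l BY hpos _) hT) (X.gep_mem l BY hpos _)
  · have h1 : X.block l (X.ins l i ∘ₗ T ∘ₗ X.slice l j) i' j' = 0 := by
      refine LinearMap.ext fun y => funext fun a => ?_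
      change X.slice l i' (X.ins l i (T (X.slice l j (X.ins l j' y)))) a = 0
      rw [slice_ins]
      split_ifs with h3
      · have h2 : X.slice l j (X.ins l j' y) = 0 := by
          funext b
          rw [slice_ins, if_neg (fun h4 => h ⟨h3, h4⟩)]
          rfl
        rw [h2, map_zero, map_zero]
        rfl
      · rfl
    rw [h1]
    exact BY.zero_mem

/-- adjoints for the ring `BY` give adjoints for the ring of the endomorphisms of the `E_1`-term -/
theorem star_bring (hstar : ∀ U ∈ BY, ∃ U' ∈ BY, Adj (tform (W l) X.Y) U U')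
    {u : Module.End (K l) (Tot (W l) X.EY)} (hu : u ∈ X.bring l BY hpos) :
    ∃ u' ∈ X.bring l BY hpos, Adj (X.eS l) u u' := by
  choose st hst1 hst2 using hstar
  set R := Finset.range (X.n + 1) with hR
  set b' : ℕ → ℕ → Module.End (K l) (Tot (W l) X.Y) := fun j i => st _ (hu j i) with hb'
  have hb1 : ∀ j i, b' j i ∈ BY := fun j i => hst1 _ _
  have hb2 : ∀ j i, Adj (tform (W l) X.Y) (X.block l u j i) (b' j i) := fun j i => hst2 _ _
  set ut : Module.End (K l) (Tot (W l) X.EY) := ∑ i ∈ R, ∑ j ∈ R,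
    (X.ins l i ∘ₗ b' j i ∘ₗ X.slice l j) with hut
  have hutm : ut ∈ X.bring l BY hpos := Subring.sum_mem _ fun i _ => Subring.sum_mem _ fun j _ =>
    X.ins_slice_mem_bring l BY hpos (hb1 j i) i j
  have hutapp : ∀ x, ut x = ∑ i ∈ R, ∑ j ∈ R, X.ins l i (b' j i (X.slice l j x)) := by
    intro x
    rw [hut, LinearMap.sum_apply]
    refine Finset.sum_congr rfl fun i _ => ?_
    rw [LinearMap.sum_apply]
    rfl
  have hsl : ∀ x i, i ∈ R → X.slice l i (ut x) =
      X.gep l i (∑ j ∈ R, b' j i (X.slice l j x)) := by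
    intro x i hi
    funext a
    rw [hutapp, map_sum, Finset.sum_apply, Finset.sum_eq_single_of_mem i hi, map_sum,
      Finset.sum_apply, map_sum, Finset.sum_apply]
    · refine Finset.sum_congr rfl fun j _ => ?_
      rw [slice_ins, if_pos rfl]
    · intro i' _ hi'
      rw [map_sum, Finset.sum_apply]
      refine Finset.sum_eq_zero fun j _ => ?_
      rw [slice_ins, if_neg (Ne.symm hi')]
  have hux : ∀ x j, X.slice l j (u x) = ∑ i ∈ R, X.block l u j i (X.slice l i x) := by
    intro x j
    conv_lhs => rw [← X.sum_ins l x]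
    rw [map_sum, map_sum]
    rfl
  have key1 : ∀ x y, tform (W l) X.EY (u x) y = tform (W l) X.EY x (ut y) := by
    intro x y
    rw [tform_slice, tform_slice]
    have e1 : ∀ j ∈ R, tform (W l) X.Y (X.slice l j (u x)) (X.slice l j y) =
        ∑ i ∈ R, tform (W l) X.Y (X.slice l i x) (b' j i (X.slice l j y)) := by
      intro j _
      rw [hux, map_sum, LinearMap.sum_apply]
      exact Finset.sum_congr rfl fun i _ => (hb2 j i).1 _ _
    have e2 : ∀ i ∈ R, tform (W l) X.Y (X.slice l i x) (X.slice l i (ut y)) =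
        ∑ j ∈ R, tform (W l) X.Y (X.slice l i x) (b' j i (X.slice l j y)) := by
      intro i hi
      rw [hsl y i hi, tform_gep, gep_slice, map_sum]
    rw [Finset.sum_congr rfl e1, Finset.sum_congr rfl e2, Finset.sum_comm]
  have key2 : ∀ x y, tform (W l) X.EY (ut x) y = tform (W l) X.EY x (u y) := by
    intro x y
    rw [tform_slice, tform_slice]
    have e1 : ∀ j ∈ R, tform (W l) X.Y (X.slice l j x) (X.slice l j (u y)) =
        ∑ i ∈ R, tform (W l) X.Y (b' j i (X.slice l j x)) (X.slice l i y) := by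
      intro j _
      rw [hux, map_sum]
      exact Finset.sum_congr rfl fun i _ => ((hb2 j i).2 _ _).symm
    have e2 : ∀ i ∈ R, tform (W l) X.Y (X.slice l i (ut x)) (X.slice l i y) =
        ∑ j ∈ R, tform (W l) X.Y (b' j i (X.slice l j x)) (X.slice l i y) := by
      intro i hi
      rw [hsl x i hi, ← tform_gep, gep_slice, map_sum, LinearMap.sum_apply]
    rw [Finset.sum_congr rfl e1, Finset.sum_congr rfl e2, Finset.sum_comm]
  refine ⟨X.sig l * ut * X.sig l, mul_mem (mul_mem (X.sig_mem_bring l BY hpos) hutm)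
    (X.sig_mem_bring l BY hpos), fun x y => ?_, fun x y => ?_⟩
  · change X.eform l (u x) y = X.eform l x (X.sig l (ut (X.sig l y)))
    rw [eform_sig, eform_sig, sig_sig, key1]
  · change X.eform l (X.sig l (ut (X.sig l x))) y = X.eform l x (u y)
    rw [eform_sig, eform_sig, tform_sig, sig_sig, key2, tform_sig]

end Strata

end Pool.Agent.H62S
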