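import Pool.Agent.W_a3c811_h62w.Ab6
import Pool.Agent.W_a3c811_h62w.TrB

/-! From a ring of endomorphisms of the strata to the abstract context. -/

noncomputable section

set_option linter.unusedSectionVars false

namespace Pool.Agent.H62S

open Pool.Agent.WeilH_h6 Pool.Agent.WeilH_h6.VarClass Pool.Agent.H62D Pool.Agent.H62A
  Pool.Agent.H79L Pool.Agent.H62X

universe u v w

variable {k : Type u} [Field k] {𝒱 : VarClass k} {I : Type} {K : I → Type v} [∀ l, Field (K l)]
  [∀ l, CharZero (K l)] {W : ∀ l, Weil.{u, v, w} 𝒱 (K l)} (X : Strata W)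

namespace Strata

variable (l : I)

/-- A ring of endomorphisms of the sum of the `H(Y a)` which contains the operators and is closed
under adjoints. -/
structure YRing (BY : Subring (Module.End (K l) (Tot (W l) X.Y))) : Prop where
  pos : ∀ p : ℤ, (posProj (W l) X.Y X.ilev p : Module.End (K l) (Tot (W l) X.Y)) ∈ BY
  deg : ∀ w : ℤ, (degProj (W l) X.Y X.ilev 0 w : Module.End (K l) (Tot (W l) X.Y)) ∈ BY
  res : (X.res l : Module.End (K l) (Tot (W l) X.Y)) ∈ BY
  gys : (X.gys l : Module.End (K l) (Tot (W l) X.Y)) ∈ BY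
  L : (X.L l : Module.End (K l) (Tot (W l) X.Y)) ∈ BY
  Lam : (X.Lam l : Module.End (K l) (Tot (W l) X.Y)) ∈ BY
  rat : ∀ (q : ℚ), ∀ U ∈ BY, (q : K l) • U ∈ BY
  star : ∀ U ∈ BY, ∃ U' ∈ BY, Adj (tform (W l) X.Y) U U'

/-- An endomorphism (the normalised Frobenius) which commutes with the members of `BY` and is a
similitude on every degree of every level, with a multiplier which depends on the parity of the
degree. -/
structure YFrob (BY : Subring (Module.End (K l) (Tot (W l) X.Y)))
    (φ : Module.End (K l) (Tot (W l) X.Y)) (cc : ℤ → K l) : Prop where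
  comm : ∀ U ∈ BY, φ * U = U * φ
  c0 : ∀ m, cc m ≠ 0
  per : ∀ m, cc (m + 2) = cc m
  form : ∀ (i m : ℤ), ∀ x ∈ X.hdeg l m, x ∈ posPart (W l) X.Y X.ilev i →
    ∀ y, tform (W l) X.Y (φ x) (φ y) = cc m * tform (W l) X.Y x y

variable {l} {X} {BY : Subring (Module.End (K l) (Tot (W l) X.Y))}

lemma slice_posProj (p : ℤ) (x : Tot (W l) X.EY) (i : ℕ) :
    X.slice l i (posProj (W l) X.EY X.epos p x) =
      posProj (W l) X.Y X.ilev (2 * i - p) (X.slice l i x) := by
  funext a
  rw [posProj_ilev_apply]
  by_cases hi : i ≤ X.lev a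
  · rw [slice_of_le X l _ hi, slice_of_le X l _ hi, Proj_posProj_apply]
    have h1 : X.epos ⟨a, ⟨i, Nat.lt_succ_of_le hi⟩⟩ = 2 * (i : ℤ) - X.lev a := rfl
    by_cases h : 2 * (i : ℤ) - X.lev a = p
    · rw [if_pos (by rw [h1, h]), if_pos (by omega)]
    · rw [if_neg (by rw [h1]; exact h), if_neg (by omega)]
  · rw [slice_of_lt X l _ (by omega), slice_of_lt X l _ (by omega)]
    split_ifs <;> rfl

lemma slice_degProj (w : ℤ) (x : Tot (W l) X.EY) (i : ℕ) :
    X.slice l i (degProj (W l) X.EY X.epos X.etw w x) =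
      degProj (W l) X.Y X.ilev 0 w (X.slice l i x) := by
  funext a
  rw [Proj_degProj_apply]
  by_cases hi : i ≤ X.lev a
  · rw [slice_of_le X l _ hi, slice_of_le X l _ hi, Proj_degProj_apply]
    have h1 := X.epos_etw ⟨a, ⟨i, Nat.lt_succ_of_le hi⟩⟩
    have h2 : w - X.epos ⟨a, ⟨i, Nat.lt_succ_of_le hi⟩⟩ -
        2 * X.etw ⟨a, ⟨i, Nat.lt_succ_of_le hi⟩⟩ = w - X.ilev a - 2 * (0 : X.J → ℤ) a := by
      simp only [Pi.zero_apply, mul_zero, sub_zero]
      rw [← h1]
      ring
    rw [h2]
  · rw [slice_of_lt X l _ (by omega), slice_of_lt X l _ (by omega), map_zero]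

lemma slice_ins' (i j : ℕ) (y : Tot (W l) X.Y) :
    X.slice l i (X.ins l j y) = if i = j then X.gep l j y else 0 := by
  funext a
  rw [slice_ins]
  split_ifs <;> rfl

section mem

variable (hY : X.YRing l BY)
include hY

lemma YRing.posProj_mem (p : ℤ) :
    (posProj (W l) X.EY X.epos p : Module.End (K l) (Tot (W l) X.EY)) ∈
      X.bring l BY hY.pos := by
  intro i j
  by_cases h : i = j
  · have h1 : X.block l (posProj (W l) X.EY X.epos p) i j =
        posProj (W l) X.Y X.ilev (2 * i - p) * X.gep l j := by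
      refine LinearMap.ext fun y => ?_
      change X.slice l i (posProj (W l) X.EY X.epos p (X.ins l j y)) = _
      rw [slice_posProj, slice_ins', if_pos h]
      rfl
    rw [h1]
    exact BY.mul_mem (hY.pos _) (X.gep_mem l BY hY.pos j)
  · have h1 : X.block l (posProj (W l) X.EY X.epos p) i j = 0 := by
      refine LinearMap.ext fun y => ?_
      change X.slice l i (posProj (W l) X.EY X.epos p (X.ins l j y)) = _
      rw [slice_posProj, slice_ins', if_neg h, map_zero]
      rfl
    rw [h1]
    exact BY.zero_mem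

lemma YRing.degProj_mem (w : ℤ) :
    (degProj (W l) X.EY X.epos X.etw w : Module.End (K l) (Tot (W l) X.EY)) ∈
      X.bring l BY hY.pos := by
  intro i j
  by_cases h : i = j
  · have h1 : X.block l (degProj (W l) X.EY X.epos X.etw w) i j =
        degProj (W l) X.Y X.ilev 0 w * X.gep l j := by
      refine LinearMap.ext fun y => ?_
      change X.slice l i (degProj (W l) X.EY X.epos X.etw w (X.ins l j y)) = _
      rw [slice_degProj, slice_ins', if_pos h]
      rfl
    rw [h1]
    exact BY.mul_mem (hY.deg _) (X.gep_mem l BY hY.pos j)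
  · have h1 : X.block l (degProj (W l) X.EY X.epos X.etw w) i j = 0 := by
      refine LinearMap.ext fun y => ?_
      change X.slice l i (degProj (W l) X.EY X.epos X.etw w (X.ins l j y)) = _
      rw [slice_degProj, slice_ins', if_neg h, map_zero]
      rfl
    rw [h1]
    exact BY.zero_mem

lemma YRing.rat_mem (q : ℚ) {u : Module.End (K l) (Tot (W l) X.EY)}
    (hu : u ∈ X.bring l BY hY.pos) : (q : K l) • u ∈ X.bring l BY hY.pos := by
  intro i j
  have h1 : X.block l ((q : K l) • u) i j = (q : K l) • X.block l u i j := by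
    refine LinearMap.ext fun y => ?_
    change X.slice l i ((q : K l) • u (X.ins l j y)) = _
    rw [map_smul]
    rfl
  rw [h1]
  exact hY.rat q _ (hu i j)

lemma eS_ndr (y : Tot (W l) X.EY) (h : ∀ x, X.eS l x y = 0) : y = 0 :=
  right_nd (X.eS l) (fun x hx => X.eform_nd l x hx) y h

/-- the abstract context -/
theorem YRing.pol (hW : Compatible W) : ∃ D : Finset ℤ,
    Pol (K := K l) (E := Tot (W l) X.EY) (X.eN l) (X.eNd l) (X.eL l) (X.eLam l) (X.ed l) X.n
      (posProj (W l) X.EY X.epos) (degProj (W l) X.EY X.epos X.etw)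
      (Finset.univ.image X.epos) D (X.eS l) (X.bring l BY hY.pos) := by
  obtain ⟨D, hD⟩ := (X.toLefschetz hW).bi l
  exact ⟨D, hD, fun x hx => X.eform_nd l x hx, eS_ndr hY, X.eform_eN l,
    X.eform_eNd l, X.eform_eL l, X.eform_eLam l, X.eform_ed l, X.eN_mem_bring l BY hY.pos,
    X.eNd_mem_bring l BY hY.pos, X.lift_mem_bring l BY hY.pos hY.L,
    X.lift_mem_bring l BY hY.pos hY.Lam, X.ed_mem_bring l BY hY.pos hY.res hY.gys,
    hY.posProj_mem, hY.degProj_mem, fun u hu => X.star_bring l BY hY.pos hY.star hu⟩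

end mem

section frob

variable {φ : Module.End (K l) (Tot (W l) X.Y)} {cc : ℤ → K l} (hY : X.YRing l BY)
  (hφ : X.YFrob l BY φ cc)
include hY hφ

lemma YFrob.shift : X.Shift l 0 φ := by
  intro p
  rw [add_zero]
  exact hφ.comm _ (hY.pos p)

lemma YFrob.gep (j : ℕ) (x : Tot (W l) X.Y) : φ (X.gep l j x) = X.gep l j (φ x) :=
  LinearMap.congr_fun (hφ.comm _ (X.gep_mem l BY hY.pos j)) x

lemma YFrob.slice (i : ℕ) (x : Tot (W l) X.EY) :
    X.slice l i (X.lift l 0 φ x) = φ (X.slice l i x) := by
  have h1 : φ (X.slice l i x) = X.gep l i (φ (X.slice l i x)) := by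
    rw [← hφ.gep hY, gep_slice]
  rw [h1]
  funext a
  rw [gep_apply]
  split_ifs with hi
  · rw [slice_lift X l _ _ _ _ _ hi, if_pos (Nat.zero_le _), Nat.sub_zero]
  · exact slice_of_lt X l _ (by omega)

lemma YFrob.sig (x : Tot (W l) X.EY) :
    X.sig l (X.lift l 0 φ x) = X.lift l 0 φ (X.sig l x) := by
  refine X.ext_slice l fun i a hi => ?_
  rw [X.slice_sig l _ hi, hφ.slice hY, hφ.slice hY]
  refine (hφ.shift hY).eq X l fun b hb => ?_
  have hb' : X.lev b = X.lev a := by
    unfold ilev at hb
    omega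
  rw [X.slice_sig l _ (by omega), hb']

/-- the normalised Frobenius of the `E_1`-term -/
theorem YFrob.frb : Frb (posProj (W l) X.EY X.epos) (degProj (W l) X.EY X.epos X.etw) (X.eS l)
    (X.bring l BY hY.pos) (X.lift l 0 φ) (fun w p => cc (w - p)) where
  comm := by
    intro u hu
    refine LinearMap.ext fun x => ?_
    refine X.ext_slice l fun i a hi => ?_
    have hux : ∀ x i, X.slice l i (u x) =
        ∑ j ∈ Finset.range (X.n + 1), X.block l u i j (X.slice l j x) := by
      intro x i
      conv_lhs => rw [← X.sum_ins l x]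
      rw [map_sum, map_sum]
      rfl
    change X.slice l i (X.lift l 0 φ (u x)) a = X.slice l i (u (X.lift l 0 φ x)) a
    rw [hφ.slice hY, hux, hux, map_sum, Finset.sum_apply, Finset.sum_apply]
    refine Finset.sum_congr rfl fun j _ => ?_
    rw [hφ.slice hY]
    exact congrFun (LinearMap.congr_fun (hφ.comm _ (hu i j)) (X.slice l j x)) a
  c0 := fun w p => hφ.c0 _
  cn := by
    intro w p
    refine ⟨by congr 1; ring, ?_⟩
    have := hφ.per (w - p)
    rw [← this]
    congr 1
    ring
  uni := by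
    intro w p x y
    set z := degProj (W l) X.EY X.epos X.etw w (posProj (W l) X.EY X.epos p x) with hz
    change X.eform l (X.lift l 0 φ z) (X.lift l 0 φ y) = cc (w - p) * X.eform l z y
    rw [eform_sig, eform_sig, hφ.sig hY, tform_slice, tform_slice, Finset.mul_sum]
    refine Finset.sum_congr rfl fun j _ => ?_
    rw [hφ.slice hY, hφ.slice hY]
    have h1 : X.slice l j z ∈ degPart (W l) X.Y X.ilev 0 w := by
      rw [hz, slice_degProj]
      exact H62A.degProj_mem _ _ _ _ _ _
    have h2 : X.slice l j z ∈ posPart (W l) X.Y X.ilev (2 * j - p) := by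
      have h3 : z = posProj (W l) X.EY X.epos p z := by
        have h4 := LinearMap.congr_fun (degProj_comm_posProj (W l) X.EY X.epos X.etw w p)
          (posProj (W l) X.EY X.epos p x)
        rw [LinearMap.comp_apply, LinearMap.comp_apply,
          posProj_of_mem _ _ _ (H62A.posProj_mem _ _ _ _ _)] at h4
        exact h4
      rw [h3, slice_posProj]
      exact H62A.posProj_mem _ _ _ _ _
    have h3 : X.slice l j z ∈ X.hdeg l (w - (2 * j - p)) := by
      rw [mem_hdeg]
      intro a
      by_cases ha : (X.lev a : ℤ) = 2 * j - p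
      · have h4 := (mem_ldeg l).1 h1 a
        rw [← ha]
        exact h4
      · rw [(mem_lpos l).1 h2 a ha]
        exact Submodule.zero_mem _
    rw [hφ.form _ _ _ h3 h2]
    congr 1
    have per : ∀ (r : ℕ) (m : ℤ), cc (m - 2 * r) = cc m := by
      intro r
      induction r with
      | zero => intro m; simp
      | succ r ih =>
        intro m
        rw [← hφ.per (m - 2 * ((r + 1 : ℕ) : ℤ)), ← ih m]
        congr 1
        push_cast
        ring
    have per' : ∀ (r : ℤ) (m : ℤ), cc (m + 2 * r) = cc m := by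
      intro r m
      rcases Int.le_total 0 r with h | h
      · obtain ⟨r, rfl⟩ := Int.eq_ofNat_of_zero_le h
        rw [← per r (m + 2 * (r : ℤ))]
        congr 1
        ring
      · obtain ⟨r', hr'⟩ := Int.eq_ofNat_of_zero_le (neg_nonneg.2 h)
        rw [← per r' m]
        congr 1
        omega
    rw [← per' (p - j) (w - p)]
    congr 1
    ring

end frob

end Strata

end Pool.Agent.H62S
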