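import Pool.Agent.W_a3c811_h62w.Ab10
import Pool.Agent.W_a3c811_h62w.Ab7
import Pool.Agent.W_a3c811_h62w.TrC

/-! Classes of cycles and transcendental parts: from the strata to the `E_1`-term. -/

noncomputable section

set_option linter.unusedSectionVars false

namespace Pool.Agent.H62S

open Module Polynomial Pool.Agent.WeilH_h6 Pool.Agent.WeilH_h6.VarClass Pool.Agent.H62D
  Pool.Agent.H62A Pool.Agent.H79L Pool.Agent.H62X

universe u v w

section lin

variable {F : Type v} [Field F] {V : Type w} [AddCommGroup V] [Module F V] [FiniteDimensional F V]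
  {V' : Type w} [AddCommGroup V'] [Module F V'] [FiniteDimensional F V']

lemma hasCP_equiv {Φ : Module.End F V} {φ : Module.End F V'} {U : Submodule F V}
    {U' : Submodule F V'} (e : U ≃ₗ[F] U') (hst : ∀ x ∈ U, Φ x ∈ U)
    (he : ∀ x : U, (e ⟨Φ x, hst x x.2⟩ : V') = φ (e x)) {P : F[X]} (h : HasCP φ U' P) :
    HasCP Φ U P := by
  obtain ⟨h1, h2⟩ := h
  refine ⟨hst, ?_⟩
  rw [← h2, ← LinearEquiv.charpoly_conj e]
  congr 1
  refine LinearMap.ext fun y => Subtype.ext ?_
  have h3 := he (e.symm y)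
  rw [e.apply_symm_apply] at h3
  exact h3

end lin

variable {k : Type u} [Field k] {𝒱 : VarClass k} {I : Type} {K : I → Type v} [∀ l, Field (K l)]
  [∀ l, CharZero (K l)] {W : ∀ l, Weil.{u, v, w} 𝒱 (K l)} (X : Strata W)

namespace Strata

variable (l : I)

/-- the primitive part of the `E_1`-term -/
abbrev eprim (i j : ℕ) : Submodule (K l) (Tot (W l) X.EY) :=
  H79L.prim (K := K l) (E := Tot (W l) X.EY) (X.eNd l) (X.eLam l) X.n
    (posProj (W l) X.EY X.epos) (degProj (W l) X.EY X.epos X.etw) i j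

variable {l}

lemma mem_eprim (hW : Compatible W) {i j : ℕ} {x : Tot (W l) X.EY} :
    x ∈ X.eprim l i j ↔ x ∈ degPart (W l) X.EY X.epos X.etw ((X.n : ℤ) - j) ∧
      x ∈ posPart (W l) X.EY X.epos (-(i : ℤ)) ∧ X.eNd l x = 0 ∧ X.eLam l x = 0 := by
  obtain ⟨D, hD⟩ := (X.toLefschetz hW).bi l
  have h1 := mem_prim_iff (i := i) (j := j) (x := x) hD
  constructor
  · intro hx
    obtain ⟨h2, h3, h4, h5⟩ := h1.1 hx
    refine ⟨?_, ?_, h4, h5⟩
    · rw [← h3]; exact H62A.degProj_mem _ _ _ _ _ _
    · rw [← h2]; exact H62A.posProj_mem _ _ _ _ _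
  · rintro ⟨h2, h3, h4, h5⟩
    exact h1.2 ⟨posProj_of_mem _ _ _ h3, degProj_of_mem _ _ _ _ h2, h4, h5⟩

lemma eprim_slice (hW : Compatible W) {i j : ℕ} {x : Tot (W l) X.EY} (hx : x ∈ X.eprim l i j) :
    X.slice l 0 x ∈ X.prim l i j ∧ ∀ c, 0 < c → X.slice l c x = 0 := by
  obtain ⟨h1, h2, h3, h4⟩ := (X.mem_eprim hW).1 hx
  exact X.prim_slice l h1 h2 h3 h4

lemma ins_eprim (hW : Compatible W) {i j : ℕ} {y : Tot (W l) X.Y} (hy : y ∈ X.prim l i j) :
    X.ins l 0 y ∈ X.eprim l i j ∧ X.slice l 0 (X.ins l 0 y) = y := by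
  obtain ⟨⟨h1, h2⟩, h3⟩ := hy
  have h0 : X.gep l 0 y = y := by
    funext a
    rw [gep_apply, if_pos (Nat.zero_le _)]
  have hs : ∀ c, X.slice l c (X.ins l 0 y) = if c = 0 then y else 0 := by
    intro c
    rw [slice_ins', h0]
  refine ⟨(X.mem_eprim hW).2 ⟨?_, ?_, ?_, ?_⟩, by rw [hs, if_pos rfl]⟩
  · rw [mem_degPart]
    intro c
    rw [hs]
    split_ifs
    · exact h1
    · exact Submodule.zero_mem _
  · intro c _
    change X.ins l 0 y c ∈ (if X.epos c = -(i : ℤ) then ⊤ else ⊥ : Submodule (K l) _)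
    split_ifs with hc
    · exact Submodule.mem_top
    · rw [ins_apply]
      split_ifs with hc0
      · have h4 : X.epos c = 2 * (c.2 : ℤ) - X.lev c.1 := rfl
        rw [(mem_lpos l).1 h2 c.1 (by omega)]
        exact Submodule.zero_mem _
      · exact Submodule.zero_mem _
  · refine X.ext_slice l fun c a hc => ?_
    rw [slice_eNd X l _ _ _ hc, hs, if_neg (Nat.succ_ne_zero c), map_zero]
    exact smul_zero _
  · refine X.ext_slice l fun c a hc => ?_
    have h4 := X.slice_lift l 0 (X.Lam l) (X.ins l 0 y) c a hc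
    rw [if_pos (Nat.zero_le _), Nat.sub_zero, hs] at h4
    rw [map_zero]
    refine h4.trans ?_
    split_ifs
    · rw [LinearMap.mem_ker.1 h3]
    · rw [map_zero]

/-- the form on a primitive part of the `E_1`-term -/
lemma eform_left (hW : Compatible W) {i j : ℕ} {x : Tot (W l) X.EY} (hx : x ∈ X.eprim l i j)
    (y : Tot (W l) X.EY) :
    X.eform l x y = tform (W l) X.Y (X.slice l 0 x) (X.slice l i y) := by
  obtain ⟨h1, h2⟩ := X.eprim_slice hW hx
  rw [eform_eq, tform_apply]
  refine Finset.sum_congr rfl fun a _ => ?_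
  rw [Finset.sum_eq_single 0]
  · rw [Nat.sub_zero]
    by_cases ha : X.lev a = i
    · rw [ha]
    · rw [(mem_lpos l).1 h1.1.2 a (by exact_mod_cast ha), zero_mul, zero_mul]
  · intro c _ hc
    rw [h2 c (Nat.pos_of_ne_zero hc), Pi.zero_apply, zero_mul, deg_zero']
  · intro h
    exact absurd (Finset.mem_range.2 (Nat.succ_pos _)) h

variable (l) in
/-- The classes of cycles on the strata as a subgroup. -/
def classes : AddSubgroup (Tot (W l) X.Y) where
  carrier := {x | X.IsClass l x}
  add_mem' := by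
    rintro x y ⟨z, hz⟩ ⟨z', hz'⟩
    exact ⟨fun a => z a + z' a, fun a => by rw [Pi.add_apply, hz, hz', clT_add]⟩
  zero_mem' := ⟨0, fun a => by
    have h1 := clT_smul (W l) (0 : ℚ) (0 : TCyc (X.Y a))
    rw [zero_smul, Rat.cast_zero, zero_smul] at h1
    exact h1.symm⟩
  neg_mem' := by
    rintro x ⟨z, hz⟩
    refine ⟨fun a => (-1 : ℚ) • z a, fun a => ?_⟩
    rw [clT_smul, Pi.neg_apply, hz, Rat.cast_neg, Rat.cast_one, neg_smul, one_smul]

lemma mem_classes {x : Tot (W l) X.Y} : x ∈ X.classes l ↔ X.IsClass l x := Iff.rfl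

lemma smul_classes (q : ℚ) {x : Tot (W l) X.Y} (hx : X.IsClass l x) :
    X.IsClass l ((q : K l) • x) := by
  obtain ⟨z, hz⟩ := hx
  exact ⟨fun a => q • z a, fun a => by rw [clT_smul, Pi.smul_apply, hz]⟩

variable (l) in
/-- The classes of cycles on the `E_1`-term. -/
def eclasses : AddSubgroup (Tot (W l) X.EY) where
  carrier := {x | ∀ c, X.slice l c x ∈ X.classes l}
  add_mem' := by
    intro x y hx hy c
    rw [map_add]
    exact AddSubgroup.add_mem _ (hx c) (hy c)
  zero_mem' := by
    intro c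
    rw [map_zero]
    exact AddSubgroup.zero_mem _
  neg_mem' := by
    intro x hx c
    rw [map_neg]
    exact AddSubgroup.neg_mem _ (hx c)

lemma mem_eclasses {x : Tot (W l) X.EY} :
    x ∈ X.eclasses l ↔ ∀ c, X.slice l c x ∈ X.classes l := Iff.rfl

/-- products of classes have rational trace -/
lemma tform_rat (hW : Compatible W) {x y : Tot (W l) X.Y} (hx : X.IsClass l x)
    (hy : X.IsClass l y) : ∃ q : ℚ, tform (W l) X.Y x y = q := by
  obtain ⟨z, hz⟩ := hx
  obtain ⟨z', hz'⟩ := hy
  have key : ∀ a, ∃ q : ℚ, (W l).deg (x a * y a) = q := by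
    intro a
    obtain ⟨q, hq⟩ := JC_tr W (JC_mul hW (clT_mem_JC W (z a)) (clT_mem_JC W (z' a)))
    refine ⟨q, ?_⟩
    rw [hz, hz']
    exact hq l
  choose q hq using key
  refine ⟨∑ a, q a, ?_⟩
  rw [tform_apply, Finset.sum_congr rfl fun a _ => hq a]
  push_cast
  rfl

variable (l) in
/-- The transcendental part of a primitive part of the strata. -/
def tpart (i j : ℕ) : Submodule (K l) (Tot (W l) X.Y) :=
  X.prim l i j ⊓ ann (tform (W l) X.Y) (X.classes l)

variable {X} {BY : Subring (Module.End (K l) (Tot (W l) X.Y))} (hY : X.YRing l BY)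
  (hcl : ∀ U ∈ BY, ∀ x, X.IsClass l x → X.IsClass l (U x))

include hY hcl in
/-- the classes of cycles on the `E_1`-term satisfy the assumptions on rational classes -/
theorem ratCls (hW : Compatible W) (hH : X.HodgeIndex l) :
    RatCls (K := K l) (E := Tot (W l) X.EY) (X.eN l) (X.eNd l) (X.eL l) (X.eLam l) X.n
      (posProj (W l) X.EY X.epos) (degProj (W l) X.EY X.epos X.etw) (X.eS l)
      (X.bring l BY hY.pos) (X.eclasses l) where
  stab := by
    intro u hu x hx c
    have hux : X.slice l c (u x) =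
        ∑ j ∈ Finset.range (X.n + 1), X.block l u c j (X.slice l j x) := by
      conv_lhs => rw [← X.sum_ins l x]
      rw [map_sum, map_sum]
      rfl
    rw [hux]
    exact AddSubgroup.sum_mem _ fun j _ => hcl _ (hu c j) _ (hx j)
  rat := by
    intro q x hx c
    rw [map_smul]
    exact X.smul_classes q (hx c)
  val := by
    intro x hx y hy
    have h1 : X.eS l x y = ∑ j ∈ Finset.range (X.n + 1), ∑ j' ∈ Finset.range (X.n + 1),
        tform (W l) X.Y (X.slice l j x)
          (posProj (W l) X.Y X.ilev ((j + j' : ℕ) : ℤ) (X.slice l j' y)) := by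
      change X.eform l x y = _
      unfold eform
      refine Finset.sum_congr rfl fun j _ => Finset.sum_congr rfl fun j' _ => ?_
      rw [lform_eq]
      rfl
    choose q hq using fun j j' => X.tform_rat hW (hx j)
      (hcl _ (hY.pos ((j + j' : ℕ) : ℤ)) _ (hy j'))
    refine ⟨∑ j ∈ Finset.range (X.n + 1), ∑ j' ∈ Finset.range (X.n + 1), q j j', ?_⟩
    rw [h1]
    push_cast
    exact Finset.sum_congr rfl fun j _ => Finset.sum_congr rfl fun j' _ => hq j j'
  hodge := by
    intro i j x hx hxp h0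
    obtain ⟨h1, h2⟩ := X.eprim_slice hW hxp
    have h3 : X.slice l 0 x = 0 := by
      by_cases hi : i ≤ X.n
      · refine hH i j _ h1 (hx 0) ?_
        change X.eform l x _ = 0 at h0
        rw [X.eform_prim l h1 h2 hi] at h0
        exact h0
      · funext a
        have := X.lev_le a
        rw [(mem_lpos l).1 h1.1.2 a (by
          intro h4
          have h5 : X.lev a = i := by exact_mod_cast h4
          omega)]
        rfl
    refine X.ext_slice l fun c a _ => ?_
    rw [map_zero]
    rcases Nat.eq_zero_or_pos c with rfl | hc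
    · rw [h3]
    · rw [h2 c hc]

/-- the transcendental part of a primitive part of the `E_1`-term -/
lemma mem_Tp (hW : Compatible W) (hpc : ∀ p x, X.IsClass l x →
      X.IsClass l (posProj (W l) X.Y X.ilev p x)) {i j : ℕ} {x : Tot (W l) X.EY} :
    x ∈ Tp (K := K l) (E := Tot (W l) X.EY) (X.eNd l) (X.eLam l) X.n
      (posProj (W l) X.EY X.epos) (degProj (W l) X.EY X.epos X.etw) (X.eS l) (X.eclasses l) i j ↔
    x ∈ X.eprim l i j ∧ X.slice l 0 x ∈ X.tpart l i j := by
  constructor
  · rintro ⟨h1, h2⟩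
    refine ⟨h1, (X.eprim_slice hW h1).1, fun z hz => ?_⟩
    have h3 : X.ins l i (posProj (W l) X.Y X.ilev i z) ∈ X.eclasses l := by
      intro c
      rw [slice_ins']
      split_ifs
      · have h4 : X.gep l i (posProj (W l) X.Y X.ilev i z) = posProj (W l) X.Y X.ilev i z := by
          funext a
          rw [gep_apply, posProj_ilev_apply]
          by_cases ha : (X.lev a : ℤ) = i
          · rw [if_pos ha, if_pos (by omega)]
          · rw [if_neg ha]
            split_ifs <;> rfl
        rw [h4]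
        exact hpc _ _ hz
      · exact AddSubgroup.zero_mem _
    have h5 := h2 _ h3
    change X.eform l x _ = 0 at h5
    rw [X.eform_left hW h1, slice_ins', if_pos rfl] at h5
    rw [← h5, tform_apply, tform_apply]
    refine Finset.sum_congr rfl fun a _ => ?_
    by_cases ha : (X.lev a : ℤ) = i
    · rw [gep_apply, if_pos (by omega), posProj_ilev_apply, if_pos ha]
    · rw [(mem_lpos l).1 (X.eprim_slice hW h1).1.1.2 a ha, zero_mul, zero_mul]
  · rintro ⟨h1, h2, h3⟩
    refine ⟨h1, fun y hy => ?_⟩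
    change X.eform l x y = 0
    rw [X.eform_left hW h1]
    exact h3 _ (hy i)

include hY hcl in
/-- the characteristic polynomials on the transcendental parts -/
theorem hasCP_Tp (hW : Compatible W) {φ : Module.End (K l) (Tot (W l) X.Y)} {cc : ℤ → K l}
    (hφ : X.YFrob l BY φ cc) {i j : ℕ} {P : (K l)[X]} (h : HasCP φ (X.tpart l i j) P) :
    HasCP (X.lift l 0 φ) (Tp (K := K l) (E := Tot (W l) X.EY) (X.eNd l) (X.eLam l) X.n
      (posProj (W l) X.EY X.epos) (degProj (W l) X.EY X.epos X.etw) (X.eS l)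
      (X.eclasses l) i j) P := by
  have hpc : ∀ p x, X.IsClass l x → X.IsClass l (posProj (W l) X.Y X.ilev p x) :=
    fun p x => hcl _ (hY.pos p) x
  have hst : ∀ x ∈ Tp (K := K l) (E := Tot (W l) X.EY) (X.eNd l) (X.eLam l) X.n
      (posProj (W l) X.EY X.epos) (degProj (W l) X.EY X.epos X.etw) (X.eS l)
      (X.eclasses l) i j, X.lift l 0 φ x ∈ Tp (K := K l) (E := Tot (W l) X.EY) (X.eNd l)
        (X.eLam l) X.n (posProj (W l) X.EY X.epos) (degProj (W l) X.EY X.epos X.etw) (X.eS l)
        (X.eclasses l) i j := by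
    intro x hx
    rw [mem_Tp hW hpc] at hx ⊢
    obtain ⟨h1, h2⟩ := hx
    have hF := hφ.frb hY
    obtain ⟨D, hP⟩ := hY.pol hW
    refine ⟨?_, ?_⟩
    · have e1 := hF.comm
      obtain ⟨D, hD⟩ := (X.toLefschetz hW).bi l
      obtain ⟨a1, a2, a3, a4⟩ := (mem_prim_iff hD).1 h1
      refine (mem_prim_iff hD).2 ⟨?_, ?_, ?_, ?_⟩
      · have := LinearMap.congr_fun (e1 _ (hP.ms (-(i : ℤ)))) x
        rw [Module.End.mul_apply, Module.End.mul_apply] at this
        exact this.symm.trans (congrArg _ a1)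
      · have := LinearMap.congr_fun (e1 _ (hP.mt (X.n - j))) x
        rw [Module.End.mul_apply, Module.End.mul_apply] at this
        exact this.symm.trans (congrArg _ a2)
      · have := LinearMap.congr_fun (e1 _ hP.mf) x
        rw [Module.End.mul_apply, Module.End.mul_apply] at this
        exact this.symm.trans ((congrArg _ a3).trans (map_zero _))
      · have := LinearMap.congr_fun (e1 _ hP.mg) x
        rw [Module.End.mul_apply, Module.End.mul_apply] at this
        exact this.symm.trans ((congrArg _ a4).trans (map_zero _))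
    · rw [hφ.slice hY]
      exact h.1 _ h2
  let e : Tp (K := K l) (E := Tot (W l) X.EY) (X.eNd l) (X.eLam l) X.n
      (posProj (W l) X.EY X.epos) (degProj (W l) X.EY X.epos X.etw) (X.eS l)
      (X.eclasses l) i j ≃ₗ[K l] X.tpart l i j := LinearEquiv.ofBijective
    (((X.slice l 0) ∘ₗ Submodule.subtype _).codRestrict _ fun x =>
      ((mem_Tp hW hpc).1 x.2).2) ⟨by
        rw [← LinearMap.ker_eq_bot, LinearMap.ker_eq_bot']
        intro x hx
        have h1 : X.slice l 0 (x : Tot (W l) X.EY) = 0 := congrArg Subtype.val hx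
        have h2 := (X.eprim_slice hW ((mem_Tp hW hpc).1 x.2).1).2
        refine Subtype.ext (X.ext_slice l fun c a _ => ?_)
        rw [ZeroMemClass.coe_zero, map_zero]
        rcases Nat.eq_zero_or_pos c with rfl | hc
        · rw [h1]
        · rw [h2 c hc], by
        intro y
        obtain ⟨h1, h2⟩ := X.ins_eprim hW y.2.1
        exact ⟨⟨X.ins l 0 y, (mem_Tp hW hpc).2 ⟨h1, by rw [h2]; exact y.2⟩⟩, Subtype.ext h2⟩⟩
  exact hasCP_equiv e hst (fun x => hφ.slice hY 0 _) h

end Strata

end Pool.Agent.H62S
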