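import Pool.Agent.W_a3c811_h62w.Ab12
import Pool.Agent.W_a3c811_h62w.TrD

/-! Projectors onto the primitive parts, positive families of primitive parts. -/

noncomputable section

set_option linter.unusedSectionVars false

namespace Pool.Agent.H62S

open Module Polynomial Pool.Agent.WeilH_h6 Pool.Agent.WeilH_h6.VarClass Pool.Agent.H62D
  Pool.Agent.H62A Pool.Agent.H79L Pool.Agent.H62X

universe u v w

variable {k : Type u} [Field k] {𝒱 : VarClass k} {I : Type} {K : I → Type v} [∀ l, Field (K l)]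
  [∀ l, CharZero (K l)] {W : ∀ l, Weil.{u, v, w} 𝒱 (K l)} {X : Strata W}

namespace Strata

variable {l : I} {BY : Subring (Module.End (K l) (Tot (W l) X.Y))}

variable (X l BY) in
/-- Positivity of a family `Wt` of primitive parts: the members of `BY` which map one of them to an
isotropic subspace of another one vanish on it. -/
def YPos (Wt : ℕ → ℕ → Prop) : Prop :=
  ∀ i j i' j' : ℕ, Wt i j → Wt i' j' → ∀ U ∈ BY,
    (∀ x ∈ X.prim l i j, U x ∈ X.prim l i' j') →
    (∀ x ∈ X.prim l i j, ∀ y ∈ X.prim l i j,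
      tform (W l) X.Y (U x) ((X.L l ^ j') (U y)) = 0) → ∀ x ∈ X.prim l i j, U x = 0

variable (hY : X.YRing l BY)

include hY

/-- the projector onto a primitive part -/
lemma exists_proj (i j : ℕ) : ∃ Q ∈ BY, (∀ y, Q y ∈ X.prim l i j) ∧
    ∀ y ∈ X.prim l i j, Q y = y := by
  obtain ⟨P, hP⟩ := X.exists_sl l
  obtain ⟨q, hq1, hq2⟩ := sl_exists_proj (K := K l) (E := Tot (W l) X.Y) hP j
  set T : Module.End (K l) (Tot (W l) X.Y) := X.L l * X.Lam l with hT
  have hTB : T ∈ BY := BY.mul_mem hY.L hY.Lam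
  set A : Module.End (K l) (Tot (W l) X.Y) := aeval T (q.map (algebraMap ℚ (K l))) with hA
  have hAB : A ∈ BY := aeval_mem_rat hY.rat hTB q
  have hdw : (-(j : ℤ) + X.n) = (X.n : ℤ) - j := by ring
  -- `T` commutes with the projectors
  have c1 : ∀ p : ℤ, A * posProj (W l) X.Y X.ilev p = posProj (W l) X.Y X.ilev p * A := by
    intro p
    refine aeval_comm' ?_ _
    have h1 : X.L l * posProj (W l) X.Y X.ilev p = posProj (W l) X.Y X.ilev p * X.L l := by
      have := X.shift_L l p
      rwa [add_zero] at this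
    have h2 : X.Lam l * posProj (W l) X.Y X.ilev p = posProj (W l) X.Y X.ilev p * X.Lam l := by
      have := X.shift_Lam l p
      rwa [add_zero] at this
    rw [hT, mul_assoc, h2, ← mul_assoc, h1, mul_assoc]
  have c2 : ∀ x, degProj (W l) X.Y X.ilev 0 ((X.n : ℤ) - j) x = x →
      degProj (W l) X.Y X.ilev 0 ((X.n : ℤ) - j) (A x) = A x := by
    intro x hx
    have h1 := sl_aeval_mem (K := K l) (E := Tot (W l) X.Y) hP (p := -(j : ℤ))
      (q.map (algebraMap ℚ (K l))) (x := x) (by
        change degProj (W l) X.Y X.ilev 0 (-(j : ℤ) + X.n) x = x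
        rw [hdw]; exact hx)
    change degProj (W l) X.Y X.ilev 0 (-(j : ℤ) + X.n) (A x) = A x at h1
    rwa [hdw] at h1
  refine ⟨A * (degProj (W l) X.Y X.ilev 0 ((X.n : ℤ) - j) * posProj (W l) X.Y X.ilev i),
    BY.mul_mem hAB (BY.mul_mem (hY.deg _) (hY.pos _)), fun y => ?_, fun y hy => ?_⟩
  · set z := degProj (W l) X.Y X.ilev 0 ((X.n : ℤ) - j) (posProj (W l) X.Y X.ilev i y) with hz
    have hz1 : z ∈ degPart (W l) X.Y X.ilev 0 ((X.n : ℤ) - j) := H62A.degProj_mem _ _ _ _ _ _
    have hz2 : z ∈ posPart (W l) X.Y X.ilev i := by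
      have h4 := LinearMap.congr_fun
        (degProj_comm_posProj (W l) X.Y X.ilev 0 ((X.n : ℤ) - j) i) y
      rw [LinearMap.comp_apply, LinearMap.comp_apply] at h4
      rw [hz, h4]
      exact H62A.posProj_mem _ _ _ _ _
    have hz3 : degProj (W l) X.Y X.ilev 0 ((X.n : ℤ) - j) z = z := degProj_of_mem _ _ _ _ hz1
    change A z ∈ X.prim l i j
    refine ⟨⟨?_, ?_⟩, LinearMap.mem_ker.2 ?_⟩
    · have h1 := c2 z hz3
      change A z ∈ degPart (W l) X.Y X.ilev 0 ((X.n : ℤ) - j)
      rw [← h1]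
      exact H62A.degProj_mem _ _ _ _ _ _
    · change A z ∈ posPart (W l) X.Y X.ilev i
      have h1 := LinearMap.congr_fun (c1 i) z
      rw [Module.End.mul_apply, Module.End.mul_apply, posProj_of_mem _ _ _ hz2] at h1
      rw [h1]
      exact H62A.posProj_mem _ _ _ _ _
    · have h1 := hq1 z
      change X.Lam l (A (degProj (W l) X.Y X.ilev 0 (-(j : ℤ) + X.n) z)) = 0 at h1
      rwa [hdw, hz3] at h1
  · change A (degProj (W l) X.Y X.ilev 0 ((X.n : ℤ) - j) (posProj (W l) X.Y X.ilev i y)) = y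
    rw [posProj_of_mem _ _ _ hy.1.2, degProj_of_mem _ _ _ _ hy.1.1]
    exact hq2 y hy.2

/-- positive families of primitive parts of the strata give such families for the `E_1`-term -/
theorem pos_of (hW : Compatible W) {Wt : ℕ → ℕ → Prop} (hWt : ∀ i j, Wt i j → i ≤ X.n)
    (h : X.YPos l BY Wt) :
    WeilT (K := K l) (E := Tot (W l) X.EY) (X.eN l) (X.eNd l) (X.eL l) (X.eLam l) X.n
      (posProj (W l) X.EY X.epos) (degProj (W l) X.EY X.epos X.etw) (X.eS l)
      (X.bring l BY hY.pos) Wt where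
  proj := by
    intro i j hij
    obtain ⟨Q, hQB, hQm, hQi⟩ := exists_proj hY i j
    refine ⟨X.ins l 0 ∘ₗ Q ∘ₗ X.slice l 0, X.ins_slice_mem_bring l BY hY.pos hQB 0 0,
      fun x => (X.ins_eprim hW (hQm _)).1, fun x hx => ?_⟩
    obtain ⟨h1, h2⟩ := X.eprim_slice hW hx
    have h3 : (X.ins l 0 ∘ₗ Q ∘ₗ X.slice l 0) x = X.ins l 0 (X.slice l 0 x) := by
      rw [LinearMap.comp_apply, LinearMap.comp_apply, hQi _ h1]
    rw [h3]
    refine X.ext_slice l fun c a _ => ?_
    rcases Nat.eq_zero_or_pos c with rfl | hc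
    · rw [(X.ins_eprim hW h1).2]
    · rw [h2 c hc, slice_ins, if_neg (by omega)]
      rfl
  pos := by
    intro i j i' j' hij hij' u hu hup iso x hx
    have hi' : i' ≤ X.n := hWt _ _ hij'
    have hU : ∀ y ∈ X.prim l i j, X.block l u 0 0 y = 0 := by
      refine h i j i' j' hij hij' _ (hu 0 0) ?_ ?_
      · intro y hy
        exact (X.eprim_slice hW (hup _ (X.ins_eprim hW hy).1)).1
      · intro y hy y' hy'
        have h5 := iso _ (X.ins_eprim hW hy).1 _ (X.ins_eprim hW hy').1
        have h6 := X.eprim_slice hW (hup _ (X.ins_eprim hW hy).1)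
        change X.eform l _ _ = 0 at h5
        rw [X.eform_prim l h6.1 h6.2 hi'] at h5
        exact h5
    obtain ⟨h1, h2⟩ := X.eprim_slice hW hx
    have hxi : x = X.ins l 0 (X.slice l 0 x) := by
      refine X.ext_slice l fun c a _ => ?_
      rcases Nat.eq_zero_or_pos c with rfl | hc
      · rw [(X.ins_eprim hW h1).2]
      · rw [h2 c hc, slice_ins, if_neg (by omega)]
        rfl
    have h7 := X.eprim_slice hW (hup x hx)
    refine X.ext_slice l fun c a _ => ?_
    rw [map_zero]
    rcases Nat.eq_zero_or_pos c with rfl | hc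
    · have h8 := hU _ h1
      have h9 : X.block l u 0 0 (X.slice l 0 x) = X.slice l 0 (u x) := by
        change X.slice l 0 (u (X.ins l 0 (X.slice l 0 x))) = _
        rw [← hxi]
      rw [← h9, h8]
    · rw [h7.2 c hc]

omit hY in
/-- the primitive parts with `n < i + j` are zero -/
lemma prim_gt {i j : ℕ} (h : X.n < i + j) {x : Tot (W l) X.Y} (hx : x ∈ X.prim l i j) :
    x = 0 := by
  funext a
  by_cases ha : (X.lev a : ℤ) = i
  · have h5 := (mem_ldeg l).1 hx.1.1 a
    have h6 : (X.n : ℤ) - j - X.lev a < 0 := by rw [ha]; omega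
    unfold gradZ at h5
    rw [if_neg (not_le.2 h6)] at h5
    exact (Submodule.mem_bot _).1 h5
  · exact (mem_lpos l).1 hx.1.2 a ha

omit hY in
/-- the primitive parts of the `E_1`-term with `n < i + j` are zero -/
lemma eprim_gt (hW : Compatible W) {i j : ℕ} (h : X.n < i + j) {x : Tot (W l) X.EY}
    (hx : x ∈ H79L.prim (K := K l) (E := Tot (W l) X.EY) (X.eNd l) (X.eLam l) X.n
      (posProj (W l) X.EY X.epos) (degProj (W l) X.EY X.epos X.etw) i j) : x = 0 := by
  obtain ⟨h1, h2⟩ := X.eprim_slice hW hx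
  refine X.ext_slice l fun c a _ => ?_
  rw [map_zero]
  rcases Nat.eq_zero_or_pos c with rfl | hc
  · rw [prim_gt h h1]
  · rw [h2 c hc]

end Strata

end Pool.Agent.H62S
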