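import Pool.Agent.W_a3c811_h62w.StrataE

/-! The `E_1`-term of a semistable degeneration as a complex of correspondences. -/

noncomputable section

namespace Pool.Agent.H62S

open Pool.Agent.WeilH_h6 Pool.Agent.WeilH_h6.VarClass Pool.Agent.H62D Pool.Agent.H62A

universe u v w

variable {k : Type u} [Field k] {𝒱 : VarClass k} {I : Type} {K : I → Type v} [∀ l, Field (K l)]
  [∀ l, CharZero (K l)] {W : ∀ l, Weil.{u, v, w} 𝒱 (K l)} (X : Strata W)

namespace Strata

theorem ed_sqZero (l : I) : SqZero (X.ed l) := fun x => LinearMap.congr_fun (X.ed_sq l) x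

theorem ed_motivic : Motivic W X.EY X.ed := X.motivic_ed

theorem ed_hasBidegree (l : I) : HasBidegree (W l) X.EY X.epos X.etw 1 1 (X.ed l) := X.ed_bidegree l

/-- The `E_1`-term of the weight spectral sequence. -/
def complex : MComplex W where
  ι := X.Idx
  Y := X.EY
  pos := X.epos
  tw := X.etw
  d := X.ed
  d_motivic := X.ed_motivic
  d_bidegree := X.ed_hasBidegree
  d_sq := X.ed_sqZero

end Strata

end Pool.Agent.H62S
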