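import Pool.Agent.W_a3c811_h62w.Ab18

/-! The exceptional isotypic parts: the main theorem. -/

noncomputable section

set_option linter.unusedSectionVars false

namespace Pool.Agent.H62X

open Module Pool.Agent.H79L

universe v w

variable {K : Type v} [Field K] [CharZero K] {E : Type w} [AddCommGroup E] [Module K E]
  [FiniteDimensional K E]
  {N f L g d : Module.End K E} {n : ℤ} {s t : ℤ → Module.End K E}
  {P D : Finset ℤ} {S : E →ₗ[K] E →ₗ[K] K} {B : Subring (Module.End K E)}
  {A : Finset (ℕ × ℕ)} {e Z : Module.End K E}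

/-- The conditions on the cohomology for the exceptional pairs in `A`. -/
structure Exc (N L d : Module.End K E) (s t : ℤ → Module.End K E) (n : ℤ) (A : Finset (ℕ × ℕ)) :
    Prop where
  sub : ∀ ij ∈ A, ij = (0, 0) ∨ ij = (0, 1) ∨ ij = (1, 0)
  x00 : (0, 0) ∈ A → EI N d s t n (-1) (-1) 1 (-1)
  x01 : (0, 1) ∈ A → EI (L ^ 2) d s t n (-1) (-2) (-1) 2 ∧ EI L d s t n 0 (-1) 0 1
  x10 : (1, 0) ∈ A → EI (N ^ 2) d s t n (-2) (-1) 2 (-1) ∧ EI N d s t n (-1) 0 1 0

variable (h : Pol N f L g d n s t P D S B)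
  (hZ : Har N f L g d s t S B Z) (he : IsoPr N f L g n s t S B A e)
  (hx : Exc N L d s t n A)
include h hZ he hx

omit h hZ in
/-- the bidegrees which do not occur in the kernel of `e` -/
lemma noz {p w : ℤ} (hn : ¬ (((0, 0) ∈ A ∧ p = 0 ∧ w = 0) ∨
    ((0, 1) ∈ A ∧ p = 0 ∧ (w = 1 ∨ w = -1)) ∨ ((1, 0) ∈ A ∧ (p = 1 ∨ p = -1) ∧ w = 0)))
    {x : E} (hex : e x = 0) (hat : At s t n p w x) : x = 0 := by
  by_contra hx0
  exact hn (supp3 he hx.sub hex hat hx0)

lemma kL (hQ : Qe f g d Z e 1) (h01 : (0, 1) ∈ A) {v : E} (hv : InH e Z v)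
    (hat : At s t n (-1) (-2) v) : d v = 0 := by
  have hbi := h.bi
  have hLL : ∀ x, (L ^ 2) x = L (L x) := fun x => by rw [pow_two]; rfl
  refine kill1 h hZ he hQ (O := L ^ 2) (p := -1) (w := -2) (q := -1) (u := 2) ?_ ?_ ?_ ?_
    (hx.x01 h01).1.surj ?_ ?_ ?_ hv hat
  · exact ((show Commute Z L from hZ.cg 2).pow_right 2).eq
  · exact ((show Commute e L from he.cg 2).pow_right 2).eq
  · intro x hxa
    rw [hLL]
    have := (hxa.aL hbi).aL hbi
    simpa using this
  · intro x hxa h0
    refine hbi.sl2.inj 2 2 le_rfl x ?_ h0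
    have := hxa.ht
    simpa using this
  · intro x hex hxa
    exact noz he hx (by omega) hex hxa
  · intro x hex hxa
    exact noz he hx (by omega) hex hxa
  · intro x hex hxa
    exact noz he hx (by omega) hex hxa

lemma kN (hQ : Qe f g d Z e 1) (h10 : (1, 0) ∈ A) {v : E} (hv : InH e Z v)
    (hat : At s t n (-2) (-1) v) : d v = 0 := by
  have hbi := h.bi
  have hNN : ∀ x, (N ^ 2) x = N (N x) := fun x => by rw [pow_two]; rfl
  refine kill1 h hZ he hQ (O := N ^ 2) (p := -2) (w := -1) (q := 2) (u := -1) ?_ ?_ ?_ ?_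
    (hx.x10 h10).1.surj ?_ ?_ ?_ hv hat
  · exact ((show Commute Z N from hZ.cg 0).pow_right 2).eq
  · exact ((show Commute e N from he.cg 0).pow_right 2).eq
  · intro x hxa
    rw [hNN]
    have := (hxa.aN hbi).aN hbi
    simpa using this
  · intro x hxa h0
    refine hbi.sl.inj 2 2 le_rfl x ?_ h0
    have := hxa.hs
    simpa using this
  · intro x hex hxa
    exact noz he hx (by omega) hex hxa
  · intro x hex hxa
    exact noz he hx (by omega) hex hxa
  · intro x hex hxa
    exact noz he hx (by omega) hex hxa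

lemma k0 (hQ : Qe f g d Z e 1) (h00 : (0, 0) ∈ A) {v : E} (hv : InH e Z v)
    (hat : At s t n (-1) (-1) v) : d v = 0 := by
  have hbi := h.bi
  refine kill1 h hZ he hQ (O := N) (p := -1) (w := -1) (q := 1) (u := -1) (hZ.cg 0) (he.cg 0)
    ?_ ?_ (hx.x00 h00).surj ?_ ?_ ?_ hv hat
  · intro x hxa
    have := hxa.aN hbi
    simpa using this
  · intro x hxa h0
    refine hbi.sl.inj 1 1 le_rfl x ?_ ?_
    · have := hxa.hs
      simpa using this
    · rw [pow_one]; exact h0
  · intro x hex hxa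
    exact noz he hx (by omega) hex hxa
  · intro x hex hxa
    exact noz he hx (by omega) hex hxa
  · intro x hex hxa
    exact noz he hx (by omega) hex hxa

lemma kLtop (hQ : Qe f g d Z e 1) (h01 : (0, 1) ∈ A) {v : E} (hv : InH e Z v)
    (hat : At s t n (-1) 0 v) : d v = 0 := by
  have hbi := h.bi
  obtain ⟨y, z, rfl, hgy, ⟨hya, hyi⟩, hza, hzi⟩ := splitL h hZ he hv hat
  have h1 : d (L z) = 0 := by
    have h2 : L (d z) = d (L z) := LinearMap.congr_fun hbi.Ld z
    rw [← h2, kL h hZ he hx hQ h01 hzi hza, map_zero]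
  have h2 : d y = 0 := by
    by_cases h10 : (1, 0) ∈ A
    · obtain ⟨z', rfl, hza', hzi'⟩ := imN_of h hZ he h10 hyi hya hgy
      have h3 : N (d z') = d (N z') := LinearMap.congr_fun hbi.Nd z'
      have h4 : d z' = 0 := noz he hx (by omega) (hQ.qd hzi') (hza'.ad hbi)
      rw [← h3, h4, map_zero]
    · refine kill2 (halfL h hZ he hQ) ?_ ?_ ?_ ?_ (hx.x01 h01).2.inj hyi hya hgy
      · exact fun x hex hxa => noz he hx (by omega) hex hxa
      · exact fun x hex hxa => noz he hx (by omega) hex hxa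
      · intro x hex hxa
        refine noz he hx ?_ hex hxa
        rintro (⟨-, h5, -⟩ | ⟨-, h5, -⟩ | ⟨h5, -, -⟩)
        · omega
        · omega
        · exact h10 h5
      · exact fun v hvi hva => kL h hZ he hx hQ h01 hvi hva
  rw [map_add, h1, h2, add_zero]

lemma kNtop (hQ : Qe f g d Z e 1) (h10 : (1, 0) ∈ A) {v : E} (hv : InH e Z v)
    (hat : At s t n 0 (-1) v) : d v = 0 := by
  have hbi := h.bi
  obtain ⟨y, z, rfl, hfy, ⟨hya, hyi⟩, hza, hzi⟩ := splitN h hZ he hv hat
  have h1 : d (N z) = 0 := by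
    have h2 : N (d z) = d (N z) := LinearMap.congr_fun hbi.Nd z
    rw [← h2, kN h hZ he hx hQ h10 hzi hza, map_zero]
  have h2 : d y = 0 := by
    by_cases h01 : (0, 1) ∈ A
    · obtain ⟨z', rfl, hza', hzi'⟩ := imL_of h hZ he h01 hyi hya hfy
      have h3 : L (d z') = d (L z') := LinearMap.congr_fun hbi.Ld z'
      have h4 : d z' = 0 := noz he hx (by omega) (hQ.qd hzi') (hza'.ad hbi)
      rw [← h3, h4, map_zero]
    · refine kill2 (halfN h hZ he hQ) ?_ ?_ ?_ ?_ (hx.x10 h10).2.inj hyi hya hfy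
      · exact fun x hex hxa => noz he hx (by omega) hex hxa
      · exact fun x hex hxa => noz he hx (by omega) hex hxa
      · intro x hex hxa
        refine noz he hx ?_ hex hxa
        rintro (⟨-, -, h5⟩ | ⟨h5, -, -⟩ | ⟨-, h5, -⟩)
        · omega
        · exact h01 h5
        · omega
      · exact fun v hvi hva => kN h hZ he hx hQ h10 hvi hva
  rw [map_add, h1, h2, add_zero]

/-- the differential vanishes on the image of `e Z` -/
theorem d_inH (hQ : Qe f g d Z e 1) {v : E} (hv : InH e Z v) : d v = 0 := by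
  have hbi := h.bi
  have hom : ∀ p w, ∀ v, InH e Z v → At s t n p w v → d v = 0 := by
    intro p w v hv hat
    by_contra hne
    rcases supp3 he hx.sub (hQ.qd hv) (hat.ad hbi) hne with ⟨hA, h1, h2⟩ | ⟨hA, h1, h2⟩ |
      ⟨hA, h1, h2⟩
    · obtain rfl : p = -1 := by omega
      obtain rfl : w = -1 := by omega
      exact hne (k0 h hZ he hx hQ hA hv hat)
    · obtain rfl : p = -1 := by omega
      rcases h2 with h2 | h2
      · obtain rfl : w = 0 := by omega
        exact hne (kLtop h hZ he hx hQ hA hv hat)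
      · obtain rfl : w = -2 := by omega
        exact hne (kL h hZ he hx hQ hA hv hat)
    · obtain rfl : w = -1 := by omega
      rcases h1 with h1 | h1
      · obtain rfl : p = 0 := by omega
        exact hne (kNtop h hZ he hx hQ hA hv hat)
      · obtain rfl : p = -2 := by omega
        exact hne (kN h hZ he hx hQ hA hv hat)
  have h1 := hbi.decomp v
  rw [h1, map_sum]
  refine Finset.sum_eq_zero fun w _ => ?_
  rw [map_sum]
  refine Finset.sum_eq_zero fun p _ => ?_
  refine hom p (w - n) _ ⟨?_, ?_⟩ ?_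
  · have e1 : e (s p v) = s p v := by rw [app_comm (he.cs p), hv.e]
    rw [app_comm (he.ct w), e1]
  · have e1 : Z (s p v) = s p v := by rw [app_comm (hZ.cs p), hv.z]
    rw [app_comm (hZ.ct w), e1]
  · have := at_comp hbi p (w - n) v
    rwa [sub_add_cancel] at this

/-- the part of the image of `Z` in the kernel of `e` is stable under the differential -/
lemma ed_zero (hQ : Qe f g d Z e 1) {x : E} (hzx : Z x = x) : e (d x) = 0 := by
  refine h.ndl _ fun y => ?_
  have e1 : e (d x) = e (d (Z x)) := by rw [hzx]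
  have e2 : d (Z (e y)) = 0 := by
    have h1 : Z (e y) = e (Z y) := (app_comm (he.cZ hZ) y).symm
    rw [h1]
    exact d_inH h hZ he hx hQ (inH_of hZ he y)
  rw [e1, he.adj.1, h.ad, hZ.adj.1]
  have e3 : Z (d (e y)) = d (Z (e y)) := app_comm hZ.cd _
  rw [e3, e2, map_zero]

/-- the last step: the exceptional pairs `(0, 1)` and `(1, 0)` together -/
lemma last (hQ : Qe f g d Z e 1) (h01 : (0, 1) ∈ A) (h10 : (1, 0) ∈ A) {x : E} (hzx : Z x = x)
    (hex : e x = 0) (hat : At s t n 0 (-1) x) : d x = 0 := by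
  have hbi := h.bi
  have cdZ : ∀ x, Z (d x) = d (Z x) := app_comm hZ.cd
  have nz : ∀ {p w : ℤ}, ¬ (((0, 0) ∈ A ∧ p = 0 ∧ w = 0) ∨
      ((0, 1) ∈ A ∧ p = 0 ∧ (w = 1 ∨ w = -1)) ∨ ((1, 0) ∈ A ∧ (p = 1 ∨ p = -1) ∧ w = 0)) →
      ∀ {x : E}, e x = 0 → At s t n p w x → x = 0 := fun hn _ h1 h2 => noz he hx hn h1 h2
  have keg : ∀ {x : E}, e x = 0 → ∀ b, e (gen N f L g b x) = 0 := by
    intro x h0 b
    rw [app_comm (he.cg b), h0, map_zero]
  have kf : ∀ {x : E}, e x = 0 → e (f x) = 0 := fun h0 => keg h0 1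
  have kg : ∀ {x : E}, e x = 0 → e (g x) = 0 := fun h0 => keg h0 3
  have kN' : ∀ {x : E}, e x = 0 → e (N x) = 0 := fun h0 => keg h0 0
  have kL' : ∀ {x : E}, e x = 0 → e (L x) = 0 := fun h0 => keg h0 2
  have zf : ∀ {x : E}, Z x = x → Z (f x) = f x := fun h0 => by
    have := app_comm (hZ.cg 1) (U := f) (T := Z)
    rw [this, h0]
  have zg : ∀ {x : E}, Z x = x → Z (g x) = g x := fun h0 => by
    have := app_comm (hZ.cg 3) (U := g) (T := Z)
    rw [this, h0]
  have zd : ∀ {x : E}, Z x = x → Z (d x) = d x := fun h0 => by rw [cdZ, h0]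
  -- boundaries from outside vanish
  have bd0 : ∀ {x : E}, Z x = x → At s t n 0 (-1) x → (∃ y, x = d y) → x = 0 := by
    rintro x hzx hxa ⟨y, hy⟩
    obtain ⟨y', hya, hy'⟩ := at_hom hbi hxa hy
    have i1 : InH e Z (Z y') := inH_of_nz h hZ he (fun x h1 h2 => nz (by omega) h1 h2)
      (hya.of_comm0 hZ.cs hZ.ct) (LinearMap.congr_fun hZ.idem y')
    rw [← hzx, hy', cdZ]
    exact d_inH h hZ he hx hQ i1
  have bd1 : ∀ {x : E}, Z x = x → At s t n (-1) 0 x → (∃ y, x = d y) → x = 0 := by
    rintro x hzx hxa ⟨y, hy⟩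
    obtain ⟨y', hya, hy'⟩ := at_hom hbi hxa hy
    have i1 : InH e Z (Z y') := inH_of_nz h hZ he (fun x h1 h2 => nz (by omega) h1 h2)
      (hya.of_comm0 hZ.cs hZ.ct) (LinearMap.congr_fun hZ.idem y')
    rw [← hzx, hy', cdZ]
    exact d_inH h hZ he hx hQ i1
  -- the round trip
  have key : ∀ {x : E}, Z x = x → e x = 0 → At s t n 0 (-1) x →
      (N (f (d x)) = d x ∧ Z (f (d x)) = f (d x) ∧ e (f (d x)) = 0 ∧
        At s t n (-1) 0 (f (d x))) ∧ L (g (d (f (d x)))) = d (f (d x)) ∧
        lap f g d x = -g (d (f (d x))) := by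
    intro x hzx hex hxa
    have hb : At s t n 1 0 (d x) := by simpa using hxa.ad hbi
    have heb : e (d x) = 0 := ed_zero h hZ he hx hQ hzx
    have hy : At s t n (-1) 0 (f (d x)) := by simpa using hb.af hbi
    have hey : e (f (d x)) = 0 := kf heb
    have hzy : Z (f (d x)) = f (d x) := zf (zd hzx)
    have hNb : N (d x) = 0 := nz (by omega) (kN' heb) (hb.aN hbi)
    have h1 : N (f (d x)) = d x := by
      have := hb.brN hbi
      rwa [hNb, map_zero, zero_add, Int.cast_one, one_smul] at this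
    have hc : At s t n 0 1 (d (f (d x))) := by simpa using hy.ad hbi
    have hec : e (d (f (d x))) = 0 := ed_zero h hZ he hx hQ hzy
    have hLc : L (d (f (d x))) = 0 := nz (by omega) (kL' hec) (hc.aL hbi)
    have h2 : L (g (d (f (d x)))) = d (f (d x)) := by
      have := hc.brL hbi
      rwa [hLc, map_zero, zero_add, Int.cast_one, one_smul] at this
    refine ⟨⟨h1, hzy, hey, hy⟩, h2, ?_⟩
    have hgx : g x = 0 := nz (by omega) (kg hex) (hxa.ag hbi)
    have hfx : f x = 0 := nz (by omega) (kf hex) (hxa.af hbi)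
    have hgb : g (d x) = 0 := nz (by omega) (kg heb) (hb.ag hbi)
    have hdd : ∀ x, d (d x) = 0 := fun x => LinearMap.congr_fun hbi.dd x
    have hfg : ∀ x, f (g x) = g (f x) := fun x => LinearMap.congr_fun hbi.fg x
    have e1 : br f (br g d) x = 0 := by
      change f (g (d x) - d (g x)) - (g (d (f x)) - d (g (f x))) = 0
      rw [hgb, hgx, hfx]
      simp
    have e2 : br f (br g d) (d x) = -g (d (f (d x))) := by
      change f (g (d (d x)) - d (g (d x))) - (g (d (f (d x))) - d (g (f (d x)))) = _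
      rw [hdd, hgb, ← hfg, hgb]
      simp
    change d (br f (br g d) x) + br f (br g d) (d x) = _
    rw [e1, e2, map_zero, zero_add]
  -- vectors killed by the Laplacian
  have base : ∀ {x : E}, Z x = x → e x = 0 → At s t n 0 (-1) x → lap f g d x = 0 → d x = 0 := by
    intro x hzx hex hxa hl
    obtain ⟨⟨h1, h2, h3, h4⟩, h5, h6⟩ := key hzx hex hxa
    rw [hl] at h6
    have h7 : g (d (f (d x))) = 0 := neg_eq_zero.1 h6.symm
    have h8 : d (f (d x)) = 0 := by rw [← h5, h7, map_zero]
    have h9 := bd1 h2 h4 ((hx.x10 h10).2.inj _ h4 h8 ⟨x, h1⟩)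
    rw [← h1, h9, map_zero]
  have step : ∀ m : ℕ, ∀ {x : E}, Z x = x → e x = 0 → At s t n 0 (-1) x →
      (lap f g d ^ m) x = 0 → d x = 0 := by
    intro m
    induction m with
    | zero =>
      intro x _ _ _ h0
      have : x = 0 := h0
      rw [this, map_zero]
    | succ m ih =>
      intro x hzx hex hxa h0
      rcases Nat.eq_zero_or_pos m with rfl | hm
      · refine base hzx hex hxa ?_
        rwa [zero_add, pow_one] at h0
      · obtain ⟨m, rfl⟩ := Nat.exists_eq_add_of_lt hm
        rw [zero_add] at *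
        refine ih hzx hex hxa ?_
        have pz : ∀ m, Z ((lap f g d ^ m) x) = (lap f g d ^ m) x ∧
            e ((lap f g d ^ m) x) = 0 ∧ At s t n 0 (-1) ((lap f g d ^ m) x) := by
          intro m
          have czl : Z * lap f g d = lap f g d * Z := by
            have h3 := hZ.c_cmp h 3
            have h3' : Z * br f (br g d) = br f (br g d) * Z := h3
            unfold lap
            rw [mul_add, add_mul]
            congr 1
            · rw [← mul_assoc, hZ.cd, mul_assoc, h3', ← mul_assoc]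
            · rw [← mul_assoc, h3', mul_assoc, hZ.cd, ← mul_assoc]
          refine ⟨?_, ?_, ?_⟩
          · have := ((show Commute Z (lap f g d) from czl).pow_right m).eq
            rw [app_comm this, hzx]
          · rw [app_comm (he.lap_pow h m), hex, map_zero]
          · refine hxa.of_comm0 (fun p => ?_) (fun w => ?_)
            · exact ((show Commute (lap f g d) (s p) from (lap_s hbi p).symm).pow_left m).eq
            · exact ((show Commute (lap f g d) (t w) from (lap_t hbi w).symm).pow_left m).eq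
        -- `x1 = lap ^ (m + 1) x` is killed by the Laplacian
        obtain ⟨z1, z2, z3⟩ := pz (m + 1)
        obtain ⟨y1, y2, y3⟩ := pz m
        have hl : lap f g d ((lap f g d ^ (m + 1)) x) = 0 := by
          rw [← Module.End.mul_apply, ← pow_succ']
          exact h0
        have hd := base z1 z2 z3 hl
        obtain ⟨-, k5, k6⟩ := key y1 y2 y3
        have e1 : (lap f g d ^ (m + 1)) x = -g (d (f (d ((lap f g d ^ m) x)))) := by
          rw [pow_succ', Module.End.mul_apply, k6]
        refine bd0 z1 z3 ((hx.x01 h01).2.inj _ z3 hd ⟨-(f (d ((lap f g d ^ m) x))), ?_⟩)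
        rw [e1, map_neg, k5, map_neg]
  obtain ⟨M, hM⟩ := hZ.nil
  refine step M hzx hex hat ?_
  have := LinearMap.congr_fun hM x
  rwa [Module.End.mul_apply, hzx] at this

/-- The differential vanishes on the kernel part of the Laplacian, if all primitive parts which are
not exceptional are anisotropic for the operators with values in the sum of the images of the
components of `d`. -/
theorem main3 (hA : ∀ i j, (i, j) ∉ A →
      Aniso N f L g n s t S B (radS f g d ⊓ LinearMap.range e) i j) : d * Z = 0 := by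
  have hbi := h.bi
  have hQ := Qe_one h hZ he hA
  have cdZ : ∀ x, Z (d x) = d (Z x) := app_comm hZ.cd
  have hom : ∀ p w x, Z x = x → e x = 0 → At s t n p w x → d x = 0 := by
    intro p w x hzx hex hat
    by_contra hne
    have hx0 : x ≠ 0 := by rintro rfl; exact hne (map_zero d)
    have h1 := supp3 he hx.sub hex hat hx0
    have h2 := supp3 he hx.sub (ed_zero h hZ he hx hQ hzx) (hat.ad hbi) hne
    have hc : ((0, 1) ∈ A ∧ (1, 0) ∈ A) ∧ ((p = 0 ∧ w = -1) ∨ (p = -1 ∧ w = 0)) := by
      rcases h1 with ⟨a1, a2, a3⟩ | ⟨a1, a2, a3⟩ | ⟨a1, a2, a3⟩ <;>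
        rcases h2 with ⟨b1, b2, b3⟩ | ⟨b1, b2, b3⟩ | ⟨b1, b2, b3⟩
      · omega
      · omega
      · omega
      · omega
      · omega
      · exact ⟨⟨a1, b1⟩, by omega⟩
      · omega
      · exact ⟨⟨b1, a1⟩, by omega⟩
      · omega
    obtain ⟨⟨h01, h10⟩, ⟨rfl, rfl⟩ | ⟨rfl, rfl⟩⟩ := hc
    · exact hne (last h hZ he hx hQ h01 h10 hzx hex hat)
    · -- the adjoint case
      apply hne
      have hdat : At s t n 0 1 (d x) := by simpa using hat.ad hbi
      refine h.ndl _ fun y => ?_
      set y' := t (-1 + n) (s 0 (y - e y)) with hy'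
      have hya : At s t n 0 (-1) (Z y') := (at_comp hbi 0 (-1) _).of_comm0 hZ.cs hZ.ct
      have hey : e y' = 0 := by
        rw [hy', app_comm (he.ct _), app_comm (he.cs _), map_sub, he.ee, sub_self, map_zero,
          map_zero]
      have heZy : e (Z y') = 0 := by rw [app_comm (he.cZ hZ), hey, map_zero]
      have hZy : Z (Z y') = Z y' := LinearMap.congr_fun hZ.idem y'
      have h3 := last h hZ he hx hQ h01 h10 hZy heZy hya
      have hed : e (d x) = 0 := ed_zero h hZ he hx hQ hzx
      have e1 : S (d x) y = S (d x) (y - e y) := by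
        have : S (d x) (e y) = 0 := by rw [← he.adj.1, hed, map_zero, LinearMap.zero_apply]
        rw [map_sub, this, sub_zero]
      have e2 : S (d x) (y - e y) = S (d x) y' := by
        have k1 := (h.adjt (1 + n)).1 (d x) (y - e y)
        rw [hdat.ht, show 2 * n - (1 + n) = -1 + n by ring] at k1
        have k2 := (h.adjs 0).1 (d x) (t (-1 + n) (y - e y))
        rw [hdat.hs, neg_zero] at k2
        have k3 : s 0 (t (-1 + n) (y - e y)) = y' := LinearMap.congr_fun (hbi.st (-1 + n) 0) _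
        rw [k1, k2, k3]
      have e3 : S (d x) y' = S (d x) (Z y') := by
        have k1 := hZ.adj.1 (d x) y'
        rwa [cdZ, hzx] at k1
      rw [e1, e2, e3, h.ad, h3, map_zero]
  have key : ∀ x, Z x = x → d x = 0 := by
    intro x hzx
    have hZe : Z (e x) = e x := by rw [← app_comm (he.cZ hZ), hzx]
    have h1 : d (e x) = 0 := d_inH h hZ he hx hQ ⟨he.ee x, hZe⟩
    have h2 : d (x - e x) = 0 := by
      have hz2 : Z (x - e x) = x - e x := by rw [map_sub, hzx, hZe]
      have he2 : e (x - e x) = 0 := by rw [map_sub, he.ee, sub_self]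
      generalize x - e x = y at hz2 he2
      have h1 := hbi.decomp y
      rw [h1, map_sum]
      refine Finset.sum_eq_zero fun w _ => ?_
      rw [map_sum]
      refine Finset.sum_eq_zero fun p _ => hom p (w - n) _ ?_ ?_ ?_
      · rw [app_comm (hZ.ct w), app_comm (hZ.cs p), hz2]
      · rw [app_comm (he.ct w), app_comm (he.cs p), he2, map_zero, map_zero]
      · have := at_comp hbi p (w - n) y
        rwa [sub_add_cancel] at this
    rw [map_sub, h1, sub_zero] at h2
    exact h2
  exact LinearMap.ext fun x => key _ (LinearMap.congr_fun hZ.idem x)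

omit he hx in
/-- The combined theorem with exceptional pairs. -/
theorem main4 (hB : ∀ (r : ℚ), ∀ u ∈ B, (r : K) • u ∈ B) {Wt : ℕ → ℕ → Prop}
    (hW : WeilT N f L g n s t S B Wt)
    (hT : ∀ i j, Str N f L g d n s t S B i j ∨ Wt i j ∨
      ((i, j) = ((0, 0) : ℕ × ℕ) ∧ EI N d s t n (-1) (-1) 1 (-1)) ∨
      ((i, j) = ((0, 1) : ℕ × ℕ) ∧ EI (L ^ 2) d s t n (-1) (-2) (-1) 2 ∧
        EI L d s t n 0 (-1) 0 1) ∨
      ((i, j) = ((1, 0) : ℕ × ℕ) ∧ EI (N ^ 2) d s t n (-2) (-1) 2 (-1) ∧
        EI N d s t n (-1) 0 1 0)) : d * Z = 0 := by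
  classical
  set A : Finset (ℕ × ℕ) := ({(0, 0), (0, 1), (1, 0)} : Finset (ℕ × ℕ)).filter
    (fun ij => ¬ (Str N f L g d n s t S B ij.1 ij.2 ∨ Wt ij.1 ij.2)) with hA
  obtain ⟨e, he⟩ := exists_isoPr h hB A
  have hmem : ∀ i j, (i, j) ∈ A ↔ ((i, j) = ((0, 0) : ℕ × ℕ) ∨ (i, j) = ((0, 1) : ℕ × ℕ) ∨
      (i, j) = ((1, 0) : ℕ × ℕ)) ∧ ¬ (Str N f L g d n s t S B i j ∨ Wt i j) := by
    intro i j
    rw [hA, Finset.mem_filter]
    simp only [Finset.mem_insert, Finset.mem_singleton]
  have hx : Exc N L d s t n A := by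
    refine ⟨fun ij hij => ((hmem ij.1 ij.2).1 hij).1, fun h0 => ?_, fun h0 => ?_, fun h0 => ?_⟩
    · have h1 := ((hmem _ _).1 h0).2
      rcases hT 0 0 with h2 | h2 | h2 | h2 | h2
      · exact absurd (Or.inl h2) h1
      · exact absurd (Or.inr h2) h1
      · exact h2.2
      · exact absurd h2.1 (by decide)
      · exact absurd h2.1 (by decide)
    · have h1 := ((hmem _ _).1 h0).2
      rcases hT 0 1 with h2 | h2 | h2 | h2 | h2
      · exact absurd (Or.inl h2) h1
      · exact absurd (Or.inr h2) h1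
      · exact absurd h2.1 (by decide)
      · exact h2.2
      · exact absurd h2.1 (by decide)
    · have h1 := ((hmem _ _).1 h0).2
      rcases hT 1 0 with h2 | h2 | h2 | h2 | h2
      · exact absurd (Or.inl h2) h1
      · exact absurd (Or.inr h2) h1
      · exact absurd h2.1 (by decide)
      · exact absurd h2.1 (by decide)
      · exact h2.2
  have hSW : ∀ i j, (i, j) ∉ A → Str N f L g d n s t S B i j ∨ Wt i j := by
    intro i j hij
    by_contra hc
    apply hij
    rw [hmem]
    refine ⟨?_, hc⟩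
    rcases hT i j with h2 | h2 | h2 | h2 | h2
    · exact absurd (Or.inl h2) hc
    · exact absurd (Or.inr h2) hc
    · exact Or.inl h2.1
    · exact Or.inr (Or.inl h2.1)
    · exact Or.inr (Or.inr h2.1)
  have hst := (stab_radS h.bi).inf he.stabR
  refine main3 h hZ he hx fun i j hij => ?_
  rcases hSW i j hij with hs | hw
  · rintro u ⟨hu, hur, -⟩ hup iso
    exact hs u hu (fun x => (hur x).1) hup iso
  · refine weil_aniso h hW hst inf_le_left (fun i' j' => ?_) hw
    by_cases hij' : (i', j') ∈ A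
    · refine Or.inr (Or.inr fun x hxR hxp => ?_)
      rw [← he.mem_range.1 hxR.2]
      exact he.kill i' j' hij' x hxp
    · rcases hSW i' j' hij' with hs' | hw'
      · exact Or.inl hs'
      · exact Or.inr (Or.inl hw')

end Pool.Agent.H62X
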