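import Pool.Agent.W_MP_a3c811_h79.MF.StReal
import Pool.Agent.W_MP_a3c811_h79.MF.StBase

/-! Definitions for the statement: weight monodromy and the hard Lefschetz theorem for the
`E_2`-term, positivity in the sense of Weil. -/

noncomputable section

namespace Pool.Agent.H62S

open Pool.Agent.WeilH_h6 Pool.Agent.WeilH_h6.VarClass Pool.Agent.H62A

universe u v w

section linear

variable {K : Type v} [Field K] {E : Type w} [AddCommGroup E] [Module K E]

/-- `T` induces a bijective map from the classes in the cohomology of `d` of the cocycles in `U` to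
those of the cocycles in `U'`. -/
def IsoCoh (d T : E →ₗ[K] E) (U U' : Submodule K E) : Prop :=
  (∀ x ∈ U, d x = 0 → T x ∈ LinearMap.range d → x ∈ LinearMap.range d) ∧
    ∀ z ∈ U', d z = 0 → ∃ x ∈ U, d x = 0 ∧ z - T x ∈ LinearMap.range d

/-- The same for the `i`-th power of `T`. -/
def PowIso (d T : E →ₗ[K] E) (i : ℕ) (U U' : Submodule K E) : Prop := IsoCoh d (T ^ i) U U'

/-- If `S` maps `P` to `P'` and `B (S x, L^j (S y)) = 0` for all `x`, `y` in `P`, then `S = 0` on
`P`. -/
def PosFor (B : E → E → K) (L S : E →ₗ[K] E) (P P' : Submodule K E) (j : ℕ) : Prop :=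
  MapsOn S P P' → (∀ x ∈ P, ∀ y ∈ P, B (S x) ((L ^ j) (S y)) = 0) → ∀ x ∈ P, S x = 0

end linear

variable {k : Type u} [Field k] {𝒱 : VarClass k} {I : Type} {K : I → Type v} [∀ l, Field (K l)]
  {W : ∀ l, Weil.{u, v, w} 𝒱 (K l)}

namespace Strata

variable (X : Strata W) (l : I)

/-- The part of total degree `w` and position `p` of the `E_1`-term. -/
def part (w p : ℤ) : Submodule (K l) (Tot (W l) X.EY) :=
  meet (degPart (W l) X.EY X.epos X.etw w) (posPart (W l) X.EY X.epos p)

/-- `N ^ i` is bijective from the part of degree `w` and position `-i` of the `E_2`-term to the part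
of position `i`. -/
def MonoAt (w : ℤ) (i : ℕ) : Prop :=
  PowIso (X.ed l) (X.eN l) i (X.part l w (-i)) (X.part l w i)

/-- Weight monodromy for the `E_2`-term in the theory `l`. -/
def Monodromy : Prop := ∀ (w : ℤ) (i : ℕ), X.MonoAt l w i

/-- `L ^ j` is bijective from the part of degree `n - j` and position `p` of the `E_2`-term to the
part of degree `n + j`. -/
def LefAt (p : ℤ) (j : ℕ) : Prop :=
  PowIso (X.ed l) (X.eL l) j (X.part l ((X.n : ℤ) - j) p) (X.part l ((X.n : ℤ) + j) p)

/-- The hard Lefschetz theorem for the `E_2`-term in the theory `l`. -/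
def HardLefschetz : Prop := ∀ (p : ℤ) (j : ℕ), X.LefAt l p j

/-- The primitive parts `(i, j)` in the set `R` are positive in the theory `l`: a motivic endomorphism
of the sum of the `H(Y a)` which maps one of them to another one, such that the form `Tr (x L^j y)`
vanishes on the image, is zero on it (for the parts of degree `n - i - j ≤ 1` this is a theorem of
Weil). -/
def Positive (R : ℕ → ℕ → Prop) : Prop :=
  ∀ S : ∀ l, TEnd (W l) X.Y, Motivic W X.Y S → ∀ i j i' j' : ℕ, R i j → R i' j' →
    PosFor (pairing (W l) X.Y) (X.L l) (S l) (X.prim l i j) (X.prim l i' j') j'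

end Strata

end Pool.Agent.H62S
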