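import Pool.Agent.W_MP_a3c811_h79.MF.Simple2
import Pool.Agent.W_a3c811_h62w.Ab7

/-! Anisotropy from simple Frobenius eigenvalues common to neighbours: the theorem. -/

noncomputable section

set_option linter.unusedSectionVars false

namespace Pool.Agent.H62X

open Module Polynomial Pool.Agent.H79L Pool.Agent.B4801b

universe v w

variable {K : Type v} [Field K] [CharZero K] {E : Type w} [AddCommGroup E] [Module K E]
  [FiniteDimensional K E]
  {N f L g d : Module.End K E} {n : ℤ} {s t : ℤ → Module.End K E}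
  {P D : Finset ℤ} {S : E →ₗ[K] E →ₗ[K] K} {B : Subring (Module.End K E)}

variable (h : Pol N f L g d n s t P D S B) {Al : AddSubgroup E}
  (hC : Cls N f L g n s t S B Al) {Φ : Module.End K E} {c : ℤ → ℤ → K} (hΦ : Frb s t S B Φ c)
include h hC hΦ

lemma TT_uni {i j : ℕ} (hst : ∀ x ∈ Tp f g n s t S Al i j, Φ x ∈ Tp f g n s t S Al i j)
    (x y : Tp f g n s t S Al i j) :
    TT S N L i j _ (Φ.restrict hst x) (Φ.restrict hst y) =
      c (n - j) (-i) * TT S N L i j _ x y := by
  rw [TT_apply, TT_apply]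
  have h1 : ((Φ.restrict hst x : Tp f g n s t S Al i j) : E) = Φ (x : E) := rfl
  have h2 : ((Φ.restrict hst y : Tp f g n s t S Al i j) : E) = Φ (y : E) := rfl
  have h3 : Φ * (N ^ i * L ^ j) = N ^ i * L ^ j * Φ :=
    hΦ.comm _ (mul_mem (pow_mem h.mN i) (pow_mem h.mL j))
  have h4 : (N ^ i) ((L ^ j) (Φ (y : E))) = Φ ((N ^ i) ((L ^ j) (y : E))) :=
    (LinearMap.congr_fun h3 (y : E)).symm
  obtain ⟨x1, x2, -, -⟩ := (mem_prim_iff h.bi).1 x.2.1
  have h5 := hΦ.uni (n - j) (-i) (x : E) ((N ^ i) ((L ^ j) (y : E)))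
  rw [x1, x2] at h5
  rw [h1, h2, h4, h5]

omit h hC in
lemma c_nb {i j i' j' : ℕ} (hn : Nb i j i' j') :
    c (n - j') (-i') = c (n - j) (-i) := by
  obtain ⟨rfl | rfl, rfl | rfl⟩ := hn
  · have := (hΦ.cn (n - ((j + 1 : ℕ) : ℤ)) (-((i + 1 : ℕ) : ℤ))).1
    push_cast at this ⊢
    rw [show n - ((j : ℤ) + 1) + 1 = n - j by ring, show -((i : ℤ) + 1) + 1 = -i by ring] at this
    exact this.symm
  · have := (hΦ.cn (n - ((j' + 1 : ℕ) : ℤ)) (-(i : ℤ))).2
    push_cast at this ⊢
    rw [show n - ((j' : ℤ) + 1) + 1 = n - j' by ring, show -(i : ℤ) - 1 = -((i : ℤ) + 1) by ring]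
      at this
    exact this
  · have := (hΦ.cn (n - ((j + 1 : ℕ) : ℤ)) (-(i' : ℤ))).2
    push_cast at this ⊢
    rw [show n - ((j : ℤ) + 1) + 1 = n - j by ring, show -(i' : ℤ) - 1 = -((i' : ℤ) + 1) by ring]
      at this
    exact this.symm
  · have := (hΦ.cn (n - ((j' + 1 : ℕ) : ℤ)) (-((i' + 1 : ℕ) : ℤ))).1
    push_cast at this ⊢
    rw [show n - ((j' : ℤ) + 1) + 1 = n - j' by ring, show -((i' : ℤ) + 1) + 1 = -i' by ring]
      at this
    exact this

/-- A vector of `Tp i j` in the sum of the images of the components killed by `q (Φ)` is zero if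
`q (Φ)` is injective on the neighbours. -/
lemma claim {i j : ℕ} {q : K[X]}
    (hst : ∀ i j, ∀ x ∈ Tp f g n s t S Al i j, Φ x ∈ Tp f g n s t S Al i j)
    (hq : ∀ i' j', Nb i j i' j' → ∀ z ∈ Tp f g n s t S Al i' j', aeval Φ q z = 0 → z = 0)
    {x : E} (hx : x ∈ Tp f g n s t S Al i j) (hxr : x ∈ radS f g d) (hqx : aeval Φ q x = 0) :
    x = 0 := by
  set V := Tp f g n s t S Al i j with hV
  set Φ' : Module.End K V := Φ.restrict (hst i j) with hΦ'
  set c0 := c (n - j) (-i) with hc0
  set r := B4801b.star c0 q.natDegree q with hr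
  set T := TT S N L i j V with hT
  have hres : ∀ (p : K[X]) (y : V), ((aeval Φ' p y : V) : E) = aeval Φ p (y : E) := fun p y =>
    aeval_restrict (hst i j) p y
  obtain ⟨M, hM⟩ := Filter.eventually_atTop.1 (aeval Φ' r).eventually_isCompl_ker_pow_range_pow
  have hM' := hM (M + 1) (Nat.le_succ M)
  have key : ∀ y : V, T ⟨x, hx⟩ y = 0 := by
    intro y
    obtain ⟨y1, hy1, y2, hy2, rfl⟩ := Submodule.mem_sup.1
      (show y ∈ LinearMap.ker (aeval Φ' r ^ (M + 1)) ⊔ LinearMap.range (aeval Φ' r ^ (M + 1)) by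
        rw [hM'.sup_eq_top]; exact Submodule.mem_top)
    rw [map_add]
    have e2 : T ⟨x, hx⟩ y2 = 0 := by
      obtain ⟨z, rfl⟩ := hy2
      rw [pow_succ', Module.End.mul_apply, hr, ← pairing_star T Φ' c0
        (TT_uni h hC hΦ (hst i j)) _ q le_rfl]
      have : aeval Φ' q (⟨x, hx⟩ : V) = 0 := by
        apply Subtype.ext
        rw [hres]
        exact hqx
      rw [this, map_zero, LinearMap.zero_apply]
    have e1 : T ⟨x, hx⟩ y1 = 0 := by
      rw [hT, TT_apply]
      refine rad_kill h hxr ?_ i j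
      refine cmp_kill h hC (G := aeval Φ (r ^ (M + 1))) ?_ ?_ y1.2 ?_
      · intro k z
        exact aeval_comm (hΦ.comm _ (cmp_mem h k)) _ _
      · intro i' j' hn z hz hz0
        have hinj : ∀ z ∈ Tp f g n s t S Al i' j', aeval Φ r z = 0 → z = 0 := by
          intro z hz hz0
          have h1 := star_inj (TT S N L i' j' (Tp f g n s t S Al i' j')) (nd_TT h hC i' j')
            (Φ := Φ.restrict (hst i' j')) (c := c0) (hΦ.c0 _ _)
            (by
              intro a b
              have := TT_uni h hC hΦ (hst i' j') a b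
              rwa [c_nb hΦ hn] at this) q
            (fun a ha => Subtype.ext (hq i' j' hn a a.2 (by
              rw [← aeval_restrict (hst i' j') q a, ha]; rfl)))
            ⟨z, hz⟩ (Subtype.ext (by
              rw [aeval_restrict (hst i' j')]
              exact hz0))
          exact congrArg Subtype.val h1
        have stz : ∀ z ∈ Tp f g n s t S Al i' j', aeval Φ r z ∈ Tp f g n s t S Al i' j' := by
          intro z hz
          have := aeval_restrict (hst i' j') r ⟨z, hz⟩
          rw [← this]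
          exact Submodule.coe_mem _
        have kpow : ∀ m : ℕ, ∀ z ∈ Tp f g n s t S Al i' j', (aeval Φ r ^ m) z = 0 → z = 0 := by
          intro m
          induction m with
          | zero => intro z _ h0; simpa using h0
          | succ m ih =>
            intro z hz h0
            rw [pow_succ, Module.End.mul_apply] at h0
            exact hinj z hz (ih _ (stz z hz) h0)
        rw [map_pow] at hz0
        exact kpow _ z hz hz0
      · have h1 : (aeval Φ' r ^ (M + 1)) y1 = 0 := hy1
        rw [← map_pow] at h1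
        rw [← hres, h1]
        rfl
    rw [e1, e2, add_zero]
  exact congrArg Subtype.val (nd_TT h hC i j ⟨x, hx⟩ key)

/-- The condition on the pair `(i, j)`: every irreducible factor of the characteristic polynomial
which also occurs for a neighbour is simple and self dual. -/
def SimpleAt (n : ℤ) (c : ℤ → ℤ → K) (R : ℕ → ℕ → K[X]) (i j : ℕ) : Prop :=
  ∀ q : K[X], Irreducible q → q ∣ R i j → (∃ i' j', Nb i j i' j' ∧ q ∣ R i' j') →
    ¬ q ^ 2 ∣ R i j ∧ SelfDualPoly (c (n - j) (-i)) q

/-- Anisotropy from simple common eigenvalues. -/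
theorem simple_aniso {R : ℕ → ℕ → K[X]}
    (hR : ∀ i j, HasCP Φ (Tp f g n s t S Al i j) (R i j)) {i j : ℕ} (hs : SimpleAt n c R i j)
    {u : Module.End K E} (hu : u ∈ B) (hur : ∀ x, u x ∈ radS f g d)
    (hup : ∀ x, u x ∈ prim f g n s t i j)
    (iso : ∀ x y, S (u x) ((N ^ i) ((L ^ j) (u y))) = 0) : u = 0 := by
  have hst : ∀ i j, ∀ x ∈ Tp f g n s t S Al i j, Φ x ∈ Tp f g n s t S Al i j := fun i j =>
    (hR i j).1
  obtain ⟨u', hu', hadj⟩ := h.star u hu
  -- `u` kills the algebraic classes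
  have hk : ∀ a ∈ Al, u a = 0 := fun a ha =>
    hC.hodge i j _ (hC.stab u hu a ha) (hup a) (iso a a)
  -- the image of `u` is in the transcendental part
  have hT : ∀ x, u x ∈ Tp f g n s t S Al i j := by
    intro x
    refine ⟨hup x, fun a ha => ?_⟩
    rw [hadj.1]
    have hb : u' a = 0 := by
      refine hC.disj _ (Submodule.subset_span (hC.stab u' hu' a ha)) fun b hb => ?_
      rw [hadj.2, hk b hb, map_zero]
    rw [hb, map_zero]
  set W := LinearMap.range u with hW
  have hWT : ∀ x ∈ W, x ∈ Tp f g n s t S Al i j := by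
    rintro _ ⟨x, rfl⟩; exact hT x
  have hWr : ∀ x ∈ W, x ∈ radS f g d := by
    rintro _ ⟨x, rfl⟩; exact hur x
  have hWΦ : ∀ x ∈ W, Φ x ∈ W := by
    rintro _ ⟨x, rfl⟩
    exact ⟨Φ x, (LinearMap.congr_fun (hΦ.comm u hu) x).symm⟩
  have hWi : ∀ x ∈ W, ∀ y ∈ W, S x ((N ^ i) ((L ^ j) y)) = 0 := by
    rintro _ ⟨x, rfl⟩ _ ⟨y, rfl⟩; exact iso x y
  -- no vector of `W` is killed by an irreducible polynomial of `Φ`
  have hirr : ∀ q : K[X], Irreducible q → ∀ x ∈ W, aeval Φ q x = 0 → x = 0 := by
    intro q hq x hx hqx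
    by_contra hx0
    have hqR : q ∣ R i j := by
      by_contra hnd
      exact hx0 (coprime_inj (hR i j) (hq.coprime_iff_not_dvd.2 hnd) (hWT x hx) hqx)
    by_cases hn : ∃ i' j', Nb i j i' j' ∧ q ∣ R i' j'
    · obtain ⟨hsq, hsd⟩ := hs q hq hqR hn
      obtain ⟨Q, hQ⟩ := hqR
      have hcop : IsCoprime q Q := by
        rw [hq.coprime_iff_not_dvd]
        rintro ⟨Q', rfl⟩
        exact hsq ⟨Q', by rw [hQ]; ring⟩
      obtain ⟨hst', hcp⟩ := hR i j
      let V := Tp f g n s t S Al i j
      let W' : Submodule K V := (W ⊓ LinearMap.ker (aeval Φ q)).comap V.subtype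
      have hW' : W' = ⊥ := by
        refine simple_aux_c (c := c (n - j) (-i)) (hΦ.c0 _ _) (Φ := Φ.restrict hst')
          (TT S N L i j V) (TT_uni h hC hΦ hst') (nd_TT h hC i j) (A := q) (B := Q)
          (by rw [hcp, hQ]) hq.squarefree hcop ?_ W' ?_ ?_ ?_
        · intro g' hg' hdg
          have hass : Associated g' q := (hg'.dvd_irreducible_iff_associated hq).1 hdg
          intro α hα
          have h1 : aeval α q = 0 := by
            obtain ⟨v, hv⟩ := hdg
            rw [hv, map_mul, hα, zero_mul]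
          have h2 := hsd α h1
          obtain ⟨v, hv⟩ := hass.symm.dvd
          rw [hv, map_mul, h2, zero_mul]
        · rintro y ⟨hy1, hy2⟩
          refine ⟨hWΦ _ hy1, ?_⟩
          change aeval Φ q (Φ (y : E)) = 0
          have h1 : aeval Φ q (y : E) = 0 := hy2
          have h2 : aeval Φ (q * X) (y : E) = aeval Φ (X * q) (y : E) := by rw [mul_comm]
          rw [map_mul, map_mul, aeval_X, Module.End.mul_apply, Module.End.mul_apply, h1,
            map_zero] at h2
          exact h2
        · rintro y ⟨-, hy2⟩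
          exact Subtype.ext ((aeval_restrict hst' q y).trans hy2)
        · rintro y ⟨hy, -⟩ z ⟨hz, -⟩
          exact hWi _ hy _ hz
      have h1 : (⟨x, hWT x hx⟩ : V) ∈ W' := ⟨hx, hqx⟩
      rw [hW', Submodule.mem_bot] at h1
      exact hx0 (congrArg Subtype.val h1)
    · refine hx0 (claim h hC hΦ hst (i := i) (j := j) (q := q) ?_ (hWT x hx) (hWr x hx) hqx)
      intro i' j' hn' z hz hz0
      have hnd : ¬ q ∣ R i' j' := fun hd => hn ⟨i', j', hn', hd⟩
      exact coprime_inj (hR i' j') (hq.coprime_iff_not_dvd.2 hnd) hz hz0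
  -- hence `W = 0`
  have hbot : W = ⊥ := by
    by_contra hne
    have hpos : 0 < finrank K W := by
      rw [Nat.pos_iff_ne_zero]
      intro h0
      exact hne (Submodule.finrank_eq_zero.1 h0)
    set A := (Φ.restrict hWΦ).charpoly with hA
    have hdeg : A.natDegree = finrank K W := LinearMap.charpoly_natDegree _
    have hA0 : A ≠ 0 := (LinearMap.charpoly_monic (Φ.restrict hWΦ)).ne_zero
    have hAu : ¬ IsUnit A := by
      intro hu
      have := natDegree_eq_zero_of_isUnit hu
      omega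
    obtain ⟨q, hq, hqA⟩ := WfDvdMonoid.exists_irreducible_factor hAu hA0
    obtain ⟨x, hx0, hx⟩ := exists_ker_ne_zero (Φ.restrict hWΦ) q hq hqA
    have h1 : aeval Φ q (x : E) = 0 := by
      rw [← aeval_restrict hWΦ q x, hx]; rfl
    exact hx0 (Subtype.ext (hirr q hq x x.2 h1))
  exact LinearMap.range_eq_bot.1 hbot

end Pool.Agent.H62X
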