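import Pool.Agent.W_a3c811_h62w.Ab11
import Pool.Agent.W_a3c811_h62w.Ab8
import Pool.Agent.W_a3c811_h62w.TrD

/-! The differential vanishes on the kernel part of the Laplacian: the theorem for the strata in one
theory. -/

noncomputable section

set_option linter.unusedSectionVars false

namespace Pool.Agent.H62S

open Module Polynomial Pool.Agent.WeilH_h6 Pool.Agent.WeilH_h6.VarClass Pool.Agent.H62D
  Pool.Agent.H62A Pool.Agent.H79L Pool.Agent.H62X

universe u v w

variable {k : Type u} [Field k] {𝒱 : VarClass k} {I : Type} {K : I → Type v} [∀ l, Field (K l)]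
  [∀ l, CharZero (K l)] {W : ∀ l, Weil.{u, v, w} 𝒱 (K l)} {X : Strata W}

namespace Strata

variable {l : I} {BY : Subring (Module.End (K l) (Tot (W l) X.Y))}

variable (X l BY) in
/-- Anisotropy of a primitive part of the strata for the members of `BY`. -/
def YAniso (i j : ℕ) : Prop :=
  ∀ U ∈ BY, (∀ x, U x ∈ X.prim l i j) →
    (∀ x y, tform (W l) X.Y (U x) ((X.L l ^ j) (U y)) = 0) → U = 0

variable (X l BY) in
/-- Positivity in the sense of Weil: the members of `BY` which map the part `H^1` of one level to an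
isotropic subspace of the part `H^1` of another level vanish on it. -/
def YWeil : Prop :=
  ∀ i j i' j' : ℕ, i + j + 1 = X.n → i' + j' + 1 = X.n → ∀ U ∈ BY,
    (∀ x ∈ X.prim l i j, U x ∈ X.prim l i' j') →
    (∀ x ∈ X.prim l i j, ∀ y ∈ X.prim l i j,
      tform (W l) X.Y (U x) ((X.L l ^ j') (U y)) = 0) → ∀ x ∈ X.prim l i j, U x = 0

variable (X l) in
/-- `N` maps the part of position `-1` of the cohomology of degree `n - 1` of the `E_1`-term onto
the part of position `1`. -/
def WMLow : Prop :=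
  ∀ z ∈ degPart (W l) X.EY X.epos X.etw ((X.n : ℤ) - 1),
    z ∈ posPart (W l) X.EY X.epos 1 → X.ed l z = 0 →
      ∃ x ∈ degPart (W l) X.EY X.epos X.etw ((X.n : ℤ) - 1),
        x ∈ posPart (W l) X.EY X.epos (-1) ∧ X.ed l x = 0 ∧
          z - X.eN l x ∈ LinearMap.range (X.ed l)

lemma wm1_of_low (h : X.WMLow l) : WM1 (K := K l) (E := Tot (W l) X.EY) (X.eN l) (X.ed l) X.n
    (posProj (W l) X.EY X.epos) (degProj (W l) X.EY X.epos X.etw) := by
  intro z hz1 hz2 hz3
  obtain ⟨x, hx1, hx2, hx3, y, hy⟩ := h z (by rw [← hz2]; exact H62A.degProj_mem _ _ _ _ _ _)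
    (by rw [← hz1]; exact H62A.posProj_mem _ _ _ _ _) hz3
  exact ⟨x, y, posProj_of_mem _ _ _ hx2, degProj_of_mem _ _ _ _ hx1, hx3, by rw [hy]; abel⟩

variable (hY : X.YRing l BY)

include hY

lemma slice_mem (u : Module.End (K l) (Tot (W l) X.EY)) (x : Tot (W l) X.EY) (i : ℕ) :
    X.slice l i (u x) = ∑ j ∈ Finset.range (X.n + 1), X.block l u i j (X.slice l j x) := by
  conv_lhs => rw [← X.sum_ins l x]
  rw [map_sum, map_sum]
  rfl

/-- anisotropy of a primitive part of the `E_1`-term -/
lemma str_of_aniso (hW : Compatible W) {i j : ℕ} (h : X.YAniso l BY i j) :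
    Str (K := K l) (E := Tot (W l) X.EY) (X.eN l) (X.eNd l) (X.eL l) (X.eLam l) (X.ed l) X.n
      (posProj (W l) X.EY X.epos) (degProj (W l) X.EY X.epos X.etw) (X.eS l)
      (X.bring l BY hY.pos) i j := by
  intro u hu _ hp iso
  have hs := fun x => X.eprim_slice hW (hp x)
  refine LinearMap.ext fun x => X.ext_slice l fun c a _ => ?_
  rw [LinearMap.zero_apply, map_zero]
  rcases Nat.eq_zero_or_pos c with rfl | hc
  · by_cases hi : i ≤ X.n
    · have key : ∀ m, X.block l u 0 m = 0 := by
        intro m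
        refine h _ (hu 0 m) (fun x => (hs (X.ins l m x)).1) fun x y => ?_
        have h5 := iso (X.ins l m x) (X.ins l m y)
        change X.eform l _ _ = 0 at h5
        rw [X.eform_prim l (hs _).1 (hs _).2 hi] at h5
        exact h5
      rw [slice_mem hY, Finset.sum_congr rfl fun m _ => by rw [key m, LinearMap.zero_apply],
        Finset.sum_const_zero]
    · exact (mem_lpos l).1 (hs x).1.1.2 a (by
        intro h5
        have h6 : X.lev a = i := by exact_mod_cast h5
        have := X.lev_le a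
        omega)
  · rw [(hs _).2 c hc]

omit hY in
/-- the part `H^1` is primitive -/
lemma prim_one {i j : ℕ} (hij : i + j + 1 = X.n) {y : Tot (W l) X.Y}
    (h1 : y ∈ degPart (W l) X.Y X.ilev 0 ((X.n : ℤ) - j))
    (h2 : y ∈ posPart (W l) X.Y X.ilev i) : y ∈ X.prim l i j := by
  refine ⟨⟨h1, h2⟩, LinearMap.mem_ker.2 ?_⟩
  have h3 := (X.bidegree l).2.2.2.1 _ _ h1
  have h4 := (X.bidegree l).2.2.2.2 _ _ h2
  rw [add_zero] at h4
  funext a
  by_cases ha : (X.lev a : ℤ) = i
  · have h5 := (mem_ldeg l).1 h3 a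
    have h6 : (X.n : ℤ) - j + -2 - X.lev a < 0 := by
      rw [ha]; omega
    unfold gradZ at h5
    rw [if_neg (not_le.2 h6)] at h5
    exact (Submodule.mem_bot _).1 h5
  · exact (mem_lpos l).1 h4 a ha

/-- the parts of Weil type -/
theorem weil_of (hW : Compatible W) (h : X.YWeil l BY) :
    WeilT (K := K l) (E := Tot (W l) X.EY) (X.eN l) (X.eNd l) (X.eL l) (X.eLam l) X.n
      (posProj (W l) X.EY X.epos) (degProj (W l) X.EY X.epos X.etw) (X.eS l)
      (X.bring l BY hY.pos) (fun i j => i + j + 1 = X.n) where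
  proj := by
    intro i j hij
    set Q : Module.End (K l) (Tot (W l) X.Y) :=
      degProj (W l) X.Y X.ilev 0 ((X.n : ℤ) - j) * posProj (W l) X.Y X.ilev i with hQ
    have hQB : Q ∈ BY := BY.mul_mem (hY.deg _) (hY.pos _)
    have hQm : ∀ y, Q y ∈ X.prim l i j := by
      intro y
      refine prim_one hij (H62A.degProj_mem _ _ _ _ _ _) ?_
      have h4 := LinearMap.congr_fun
        (degProj_comm_posProj (W l) X.Y X.ilev 0 ((X.n : ℤ) - j) i) y
      change degProj (W l) X.Y X.ilev 0 ((X.n : ℤ) - j) (posProj (W l) X.Y X.ilev i y) ∈ _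
      rw [LinearMap.comp_apply, LinearMap.comp_apply] at h4
      rw [h4]
      exact H62A.posProj_mem _ _ _ _ _
    have hQi : ∀ y ∈ X.prim l i j, Q y = y := by
      intro y hy
      change degProj (W l) X.Y X.ilev 0 ((X.n : ℤ) - j) (posProj (W l) X.Y X.ilev i y) = y
      rw [posProj_of_mem _ _ _ hy.1.2, degProj_of_mem _ _ _ _ hy.1.1]
    refine ⟨X.ins l 0 ∘ₗ Q ∘ₗ X.slice l 0, X.ins_slice_mem_bring l BY hY.pos hQB 0 0,
      fun x => (X.ins_eprim hW (hQm _)).1, fun x hx => ?_⟩
    obtain ⟨h1, h2⟩ := X.eprim_slice hW hx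
    have h3 : (X.ins l 0 ∘ₗ Q ∘ₗ X.slice l 0) x = X.ins l 0 (X.slice l 0 x) := by
      rw [LinearMap.comp_apply, LinearMap.comp_apply, hQi _ h1]
    rw [h3]
    refine X.ext_slice l fun c a _ => ?_
    rcases Nat.eq_zero_or_pos c with rfl | hc
    · rw [(X.ins_eprim hW h1).2]
    · rw [h2 c hc, slice_ins, if_neg (by omega)]
      rfl
  pos := by
    intro i j i' j' hij hij' u hu hup iso x hx
    have hi' : i' ≤ X.n := by omega
    have hU : ∀ y ∈ X.prim l i j, X.block l u 0 0 y = 0 := by
      refine h i j i' j' hij hij' _ (hu 0 0) ?_ ?_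
      · intro y hy
        exact (X.eprim_slice hW (hup _ (X.ins_eprim hW hy).1)).1
      · intro y hy y' hy'
        have h5 := iso _ (X.ins_eprim hW hy).1 _ (X.ins_eprim hW hy').1
        have h6 := X.eprim_slice hW (hup _ (X.ins_eprim hW hy).1)
        change X.eform l _ _ = 0 at h5
        rw [X.eform_prim l h6.1 h6.2 hi'] at h5
        exact h5
    obtain ⟨h1, h2⟩ := X.eprim_slice hW hx
    have hxi : x = X.ins l 0 (X.slice l 0 x) := by
      refine X.ext_slice l fun c a _ => ?_
      rcases Nat.eq_zero_or_pos c with rfl | hc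
      · rw [(X.ins_eprim hW h1).2]
      · rw [h2 c hc, slice_ins, if_neg (by omega)]
        rfl
    have h7 := X.eprim_slice hW (hup x hx)
    refine X.ext_slice l fun c a _ => ?_
    rw [map_zero]
    rcases Nat.eq_zero_or_pos c with rfl | hc
    · have h8 := hU _ h1
      have h9 : X.block l u 0 0 (X.slice l 0 x) = X.slice l 0 (u x) := by
        change X.slice l 0 (u (X.ins l 0 (X.slice l 0 x))) = _
        rw [← hxi]
      rw [← h9, h8]
    · rw [h7.2 c hc]

/-- The projector onto the kernel part of the Laplacian. -/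
theorem har_strata (hW : Compatible W) {p q : ℚ[X]}
    (F : Fitting ((X.toLefschetz hW).lapA hW) (aeval ((X.toLefschetz hW).lapA hW) p)
      (aeval ((X.toLefschetz hW).lapA hW) q)) :
    Har (K := K l) (E := Tot (W l) X.EY) (X.eN l) (X.eNd l) (X.eL l) (X.eLam l) (X.ed l)
      (posProj (W l) X.EY X.epos) (degProj (W l) X.EY X.epos X.etw) (X.eS l)
      (X.bring l BY hY.pos) (MA.val (aeval ((X.toLefschetz hW).lapA hW) p) l) := by
  obtain ⟨D, hP⟩ := hY.pol hW
  have Fl := F.map (ev hW X.complex.Y l)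
  have e1 : MA.val (aeval ((X.toLefschetz hW).lapA hW) p) l =
      aeval (H79L.lap (K := K l) (E := Tot (W l) X.EY) (X.eNd l) (X.eLam l) (X.ed l))
        (p.map (algebraMap ℚ (K l))) := aeval_val hW _ p l
  refine har_of hP (p.map (algebraMap ℚ (K l))) e1 ?_ Fl.idem Fl.nil
  rw [e1]
  exact aeval_mem_rat (fun r u hu => hY.rat_mem r hu) (lap_mem hP) p

variable (hcl : ∀ U ∈ BY, ∀ x, X.IsClass l x → X.IsClass l (U x))
  {φ : Module.End (K l) (Tot (W l) X.Y)} {cc : ℤ → K l} (hφ : X.YFrob l BY φ cc)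
include hcl hφ

/-- The theorem for one theory: every primitive part `(i, j)` is anisotropic for `BY`, or its common
Frobenius eigenvalues with the neighbours are simple and self dual, or `i + j = n - 1` and `BY` is
positive in the sense of Weil, or `(i, j) = (0, 0)` and weight-monodromy holds in degree
`n - 1`. -/
theorem zero_strata (hW : Compatible W) {p q : ℚ[X]}
    (F : Fitting ((X.toLefschetz hW).lapA hW) (aeval ((X.toLefschetz hW).lapA hW) p)
      (aeval ((X.toLefschetz hW).lapA hW) q)) (hH : X.HodgeIndex l)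
    {R : ℕ → ℕ → (K l)[X]} (hR : ∀ i j, HasCP φ (X.tpart l i j) (R i j))
    (hT : ∀ i j, X.YAniso l BY i j ∨ SimpleAt X.n (fun w p => cc (w - p)) R i j ∨
      (i + j + 1 = X.n ∧ X.YWeil l BY) ∨ ((i, j) = ((0, 0) : ℕ × ℕ) ∧ X.WMLow l)) :
    (X.complex.d l : Module.End (K l) (Tot (W l) X.EY)) *
      MA.val (aeval ((X.toLefschetz hW).lapA hW) p) l = 0 := by
  obtain ⟨D, hP⟩ := hY.pol hW
  have hC := (ratCls hY hcl hW hH).cls hP
  have hF := hφ.frb hY
  have hCP := fun i j => hasCP_Tp hY hcl hW hφ (hR i j)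
  have hZ := har_strata hY hW F
  by_cases hWe : X.YWeil l BY
  · refine main2 hP hZ (weil_of hY hW hWe) fun i j => ?_
    rcases hT i j with h1 | h1 | h1 | h1
    · exact Or.inl (str_of_aniso hY hW h1)
    · refine Or.inl ?_
      intro u hu hur hup iso
      exact simple_aniso hP hC hF hCP h1 hu hur hup iso
    · exact Or.inr (Or.inl h1.1)
    · exact Or.inr (Or.inr ⟨h1.1, wm1_of_low h1.2⟩)
  · refine main2 hP hZ (Wt := fun _ _ => False) ⟨fun i j h => h.elim, fun i j i' j' h => h.elim⟩
      fun i j => ?_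
    rcases hT i j with h1 | h1 | h1 | h1
    · exact Or.inl (str_of_aniso hY hW h1)
    · refine Or.inl ?_
      intro u hu hur hup iso
      exact simple_aniso hP hC hF hCP h1 hu hur hup iso
    · exact absurd h1.2 hWe
    · exact Or.inr (Or.inr ⟨h1.1, wm1_of_low h1.2⟩)

end Strata

end Pool.Agent.H62S
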