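import Pool.Agent.W_MP_a3c811_h79.MF.Cls
import Pool.Agent.W_a3c811_h62w.TrA
import Pool.Agent.W_a3c811_h62w.TrC

/-! The ring of the motivic endomorphisms of the strata which commute with the normalised
Frobenius. -/

noncomputable section

set_option linter.unusedSectionVars false

namespace Pool.Agent.H62S

open Module Polynomial Pool.Agent.WeilH_h6 Pool.Agent.WeilH_h6.VarClass Pool.Agent.H62D
  Pool.Agent.H62A Pool.Agent.H79L Pool.Agent.H62X

universe u v w

variable {k : Type u} [Field k] {𝒱 : VarClass k}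

section par

variable {F : Type v} [Field F] [CharZero F] (V : Weil.{u, v, w} 𝒱 F)

/-- the sign of an integer -/
def sgnZ (F : Type v) [Field F] (m : ℤ) : F := if Even m then 1 else -1

lemma par_gradZ {Y : 𝒱.Obj} {m : ℤ} {x : V.H Y} (hx : x ∈ gradZ V Y m) :
    V.par Y x = sgnZ F m • x := by
  unfold gradZ at hx
  unfold sgnZ
  by_cases hm : 0 ≤ m
  · rw [if_pos hm] at hx
    rw [V.par_apply hx]
    obtain ⟨r, rfl⟩ := Int.eq_ofNat_of_zero_le hm
    rw [Int.toNat_natCast]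
    by_cases h : Even r
    · rw [if_pos (by exact_mod_cast h), h.neg_one_pow]
    · rw [if_neg (by exact_mod_cast h), (Nat.not_even_iff_odd.1 h).neg_one_pow]
  · rw [if_neg hm] at hx
    rw [(Submodule.mem_bot _).1 hx, map_zero, smul_zero]

lemma kapZ_par {Y : 𝒱.Obj} (m : ℤ) (x : V.H Y) :
    kapZ V Y m (V.par Y x) = sgnZ F m • kapZ V Y m x := by
  refine V.hom_induction (P := fun x => kapZ V Y m (V.par Y x) = sgnZ F m • kapZ V Y m x)
    (by simp) ?_ ?_ x
  · intro a b ha hb; rw [map_add, map_add, map_add, ha, hb, smul_add]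
  intro i x hx
  have hx' : x ∈ gradZ V Y (i : ℤ) := by
    unfold gradZ
    rw [if_pos (by omega), Int.toNat_natCast]
    exact hx
  rw [par_gradZ V hx', map_smul]
  by_cases h : (i : ℤ) = m
  · rw [h]
  · rw [kapZ_of_mem_ne V h hx', smul_zero, smul_zero]

lemma kapZ_zero {Y : 𝒱.Obj} {m m' : ℤ} (h : ¬ Even (m - m')) {x : V.H Y}
    (hx : V.par Y x = sgnZ F m • x) : kapZ V Y m' x = 0 := by
  have h1 := kapZ_par V m' x
  rw [hx, map_smul, ← sub_eq_zero, ← sub_smul] at h1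
  refine (smul_eq_zero.1 h1).resolve_left ?_
  unfold sgnZ
  rw [Int.even_sub] at h
  by_cases hm : Even m
  · have hm' : ¬ Even m' := fun h' => h ⟨fun _ => h', fun _ => hm⟩
    rw [if_pos hm, if_neg hm']
    norm_num
  · have hm' : Even m' := by
      by_contra h'
      exact h ⟨fun h0 => absurd h0 hm, fun h0 => absurd h0 h'⟩
    rw [if_neg hm, if_pos hm']
    norm_num

end par

variable {I : Type} {K : I → Type v} [∀ l, Field (K l)]
  [∀ l, CharZero (K l)] {W : ∀ l, Weil.{u, v, w} 𝒱 (K l)} {X : Strata W}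

namespace Strata

variable {l : I}

variable (X l) in
/-- a normalised Frobenius of the strata -/
structure NFrob (φ : Module.End (K l) (Tot (W l) X.Y)) (cc : ℤ → K l) : Prop where
  c0 : ∀ m, cc m ≠ 0
  per : ∀ m, cc (m + 2) = cc m
  form : ∀ (i m : ℤ), ∀ x ∈ X.hdeg l m, x ∈ posPart (W l) X.Y X.ilev i →
    ∀ y, tform (W l) X.Y (φ x) (φ y) = cc m * tform (W l) X.Y x y
  pos : ∀ p : ℤ, φ * (posProj (W l) X.Y X.ilev p) = posProj (W l) X.Y X.ilev p * φ
  deg : ∀ w : ℤ, φ * (degProj (W l) X.Y X.ilev 0 w) = degProj (W l) X.Y X.ilev 0 w * φ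
  res : φ * (X.res l) = X.res l * φ
  gys : φ * (X.gys l) = X.gys l * φ
  L : φ * (X.L l) = X.L l * φ
  Lam : φ * (X.Lam l) = X.Lam l * φ

variable (X l) in
/-- the ring of the motivic endomorphisms which commute with `φ` -/
def cring (hW : Compatible W) (φ : Module.End (K l) (Tot (W l) X.Y)) :
    Subring (Module.End (K l) (Tot (W l) X.Y)) :=
  (MA hW X.Y).map (Pi.evalRingHom (fun l => Module.End (K l) (Tot (W l) X.Y)) l) ⊓
    Subring.centralizer {φ}

lemma mem_cring (hW : Compatible W) {φ U : Module.End (K l) (Tot (W l) X.Y)} :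
    U ∈ X.cring l hW φ ↔ (∃ V : ∀ l, TEnd (W l) X.Y, Motivic W X.Y V ∧ V l = U) ∧
      φ * U = U * φ := by
  constructor
  · rintro ⟨⟨V, hV, rfl⟩, h2⟩
    exact ⟨⟨V, hV, rfl⟩, (Subring.mem_centralizer_iff.1 h2) _ rfl⟩
  · rintro ⟨⟨V, hV, rfl⟩, h2⟩
    exact ⟨⟨V, hV, rfl⟩, Subring.mem_centralizer_iff.2 (by rintro _ rfl; exact h2)⟩

variable {φ : Module.End (K l) (Tot (W l) X.Y)} {cc : ℤ → K l}

/-- pieces of given degree and level -/
lemma sum_pieces (x : Tot (W l) X.Y) : ∃ D : Finset ℤ,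
    (∑ w ∈ D, ∑ p ∈ Finset.univ.image X.ilev,
      degProj (W l) X.Y X.ilev 0 w (posProj (W l) X.Y X.ilev p x)) = x := by
  obtain ⟨D, hD⟩ := exists_sum_degProj (W l) X.Y X.ilev 0
  refine ⟨D, ?_⟩
  have h1 := LinearMap.congr_fun (sum_posProj (W l) X.Y X.ilev) x
  have h2 := LinearMap.congr_fun hD x
  rw [LinearMap.sum_apply, LinearMap.id_apply] at h1 h2
  conv_rhs => rw [← h2]
  refine Finset.sum_congr rfl fun w _ => ?_
  rw [← map_sum, h1]

lemma piece_hdeg (w p : ℤ) (x : Tot (W l) X.Y) :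
    degProj (W l) X.Y X.ilev 0 w (posProj (W l) X.Y X.ilev p x) ∈ X.hdeg l (w - p) ∧
    degProj (W l) X.Y X.ilev 0 w (posProj (W l) X.Y X.ilev p x) ∈
      posPart (W l) X.Y X.ilev p := by
  have h1 := H62A.degProj_mem (W l) X.Y X.ilev 0 w (posProj (W l) X.Y X.ilev p x)
  have h2 : degProj (W l) X.Y X.ilev 0 w (posProj (W l) X.Y X.ilev p x) ∈
      posPart (W l) X.Y X.ilev p := by
    have h4 := LinearMap.congr_fun (degProj_comm_posProj (W l) X.Y X.ilev 0 w p) x
    rw [LinearMap.comp_apply, LinearMap.comp_apply] at h4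
    rw [h4]
    exact H62A.posProj_mem _ _ _ _ _
  refine ⟨?_, h2⟩
  rw [mem_hdeg]
  intro a
  by_cases ha : (X.lev a : ℤ) = p
  · have h4 := (mem_ldeg l).1 h1 a
    rwa [ha] at h4
  · rw [(mem_lpos l).1 h2 a ha]
    exact Submodule.zero_mem _

/-- a motivic endomorphism preserves the parity of the degree -/
lemma motivic_piece {V : ∀ l, TEnd (W l) X.Y} (hV : Motivic W X.Y V) {m w p : ℤ}
    (h : ¬ Even (m - (w - p))) {x : Tot (W l) X.Y} (hx : x ∈ X.hdeg l m) :
    degProj (W l) X.Y X.ilev 0 w (posProj (W l) X.Y X.ilev p (V l x)) = 0 := by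
  have hpx : (fun a => (W l).par (X.Y a) (x a)) = sgnZ (K l) m • x := by
    funext a
    exact par_gradZ (W l) ((mem_hdeg l).1 hx a)
  funext b
  rw [Proj_degProj_apply, posProj_ilev_apply]
  split_ifs with hb
  · have h1 := motivic_par hV l x b
    rw [hpx, map_smul] at h1
    refine kapZ_zero (W l) (m := m) ?_ h1
    simp only [Pi.zero_apply, mul_zero, sub_zero]
    have h2 : X.ilev b = p := hb
    rw [h2]
    exact h
  · rw [map_zero]; rfl

lemma per_even (hφ : X.NFrob l φ cc) {m m' : ℤ} (h : Even (m - m')) : cc m' = cc m := by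
  obtain ⟨r, hr⟩ := h
  have per : ∀ (r : ℕ) (m : ℤ), cc (m + 2 * r) = cc m := by
    intro r
    induction r with
    | zero => intro m; simp
    | succ r ih =>
      intro m
      rw [← ih m, ← hφ.per (m + 2 * (r : ℤ))]
      congr 1
      push_cast
      ring
  rcases Int.le_total 0 r with h | h
  · obtain ⟨s, rfl⟩ := Int.eq_ofNat_of_zero_le h
    rw [← per s m']
    congr 1
    omega
  · obtain ⟨s, hs⟩ := Int.eq_ofNat_of_zero_le (neg_nonneg.2 h)
    rw [← per s m]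
    congr 1
    omega

lemma NFrob.piece (hφ : X.NFrob l φ cc) (w p : ℤ) (x : Tot (W l) X.Y) :
    φ (degProj (W l) X.Y X.ilev 0 w (posProj (W l) X.Y X.ilev p x)) =
      degProj (W l) X.Y X.ilev 0 w (posProj (W l) X.Y X.ilev p (φ x)) := by
  have h1 := LinearMap.congr_fun (hφ.deg w) (posProj (W l) X.Y X.ilev p x)
  have h2 := LinearMap.congr_fun (hφ.pos p) x
  rw [Module.End.mul_apply, Module.End.mul_apply] at h1 h2
  rw [h1, h2]

/-- the normalised Frobenius is injective -/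
lemma NFrob.inj (hφ : X.NFrob l φ cc) (x : Tot (W l) X.Y) (hx : φ x = 0) : x = 0 := by
  obtain ⟨D, hD⟩ := sum_pieces x
  rw [← hD]
  refine Finset.sum_eq_zero fun w _ => Finset.sum_eq_zero fun p _ => ?_
  refine tform_nd (W l) X.Y _ fun y => ?_
  obtain ⟨h1, h2⟩ := piece_hdeg w p x
  have h3 := hφ.form p (w - p) _ h1 h2 y
  rw [hφ.piece, hx, map_zero, map_zero, map_zero, LinearMap.zero_apply] at h3
  exact (mul_eq_zero.1 h3.symm).resolve_left (hφ.c0 _)

/-- the adjoint commutes with the normalised Frobenius -/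
lemma NFrob.adj_comm (hφ : X.NFrob l φ cc) {V : ∀ l, TEnd (W l) X.Y} (hV : Motivic W X.Y V)
    {U' : Module.End (K l) (Tot (W l) X.Y)} (hc : φ * V l = V l * φ)
    (hadj : Adj (tform (W l) X.Y) (V l) U') : φ * U' = U' * φ := by
  have hsurj : Function.Surjective φ := by
    apply (LinearMap.injective_iff_surjective).1
    rw [← LinearMap.ker_eq_bot, LinearMap.ker_eq_bot']
    exact hφ.inj
  have hVφ : ∀ x, V l (φ x) = φ (V l x) := fun x => (LinearMap.congr_fun hc x).symm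
  refine LinearMap.ext fun y => ?_
  rw [Module.End.mul_apply, Module.End.mul_apply, ← sub_eq_zero]
  refine right_nd (tform (W l) X.Y) (tform_nd (W l) X.Y) _ fun z => ?_
  obtain ⟨x, rfl⟩ := hsurj z
  rw [map_sub, sub_eq_zero]
  obtain ⟨D, hD⟩ := sum_pieces x
  rw [← hD]
  simp only [map_sum, LinearMap.sum_apply]
  refine Finset.sum_congr rfl fun w _ => Finset.sum_congr rfl fun p _ => ?_
  obtain ⟨h1, h2⟩ := piece_hdeg w p x
  set x' := degProj (W l) X.Y X.ilev 0 w (posProj (W l) X.Y X.ilev p x) with hx'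
  rw [hφ.form p (w - p) _ h1 h2, ← hadj.1, ← hadj.1, hVφ]
  obtain ⟨D', hD'⟩ := sum_pieces (V l x')
  rw [← hD']
  simp only [map_sum, LinearMap.sum_apply, Finset.mul_sum]
  refine Finset.sum_congr rfl fun w' _ => Finset.sum_congr rfl fun p' _ => ?_
  by_cases he : Even ((w - p) - (w' - p'))
  · obtain ⟨h3, h4⟩ := piece_hdeg w' p' (V l x')
    rw [hφ.form p' (w' - p') _ h3 h4, per_even hφ he]
  · rw [motivic_piece hV he h1, map_zero, map_zero, LinearMap.zero_apply, mul_zero, map_zero,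
      LinearMap.zero_apply]

variable (hW : Compatible W) (hφ : X.NFrob l φ cc)
include hφ

/-- the ring of motivic endomorphisms has all the properties -/
theorem yring_cring [DecidableEq X.J] : X.YRing l (X.cring l hW φ) where
  pos p := (mem_cring hW).2 ⟨⟨_, motivic_posProj hW p, rfl⟩, hφ.pos p⟩
  deg w := by
    refine (mem_cring hW).2 ⟨⟨_, motivic_degProj (fun a n => ?_) w, rfl⟩, hφ.deg w⟩
    exact (X.toLefschetz hW).kunneth hW (⟨a, ⟨0, Nat.succ_pos _⟩⟩ : X.Idx) n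
  res := (mem_cring hW).2 ⟨⟨_, X.motivic.1, rfl⟩, hφ.res⟩
  gys := (mem_cring hW).2 ⟨⟨_, X.motivic.2.1, rfl⟩, hφ.gys⟩
  L := (mem_cring hW).2 ⟨⟨_, X.motivic.2.2.1, rfl⟩, hφ.L⟩
  Lam := (mem_cring hW).2 ⟨⟨_, X.motivic.2.2.2, rfl⟩, hφ.Lam⟩
  rat := by
    intro q U hU
    obtain ⟨⟨V, hV, rfl⟩, h2⟩ := (mem_cring hW).1 hU
    refine (mem_cring hW).2 ⟨⟨_, motivic_smul q hV, rfl⟩, ?_⟩
    rw [mul_smul_comm, smul_mul_assoc, h2]
  star := by
    intro U hU
    obtain ⟨⟨V, hV, rfl⟩, h2⟩ := (mem_cring hW).1 hU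
    obtain ⟨V', hV', h3, h4⟩ := motivic_adj hW hV
    have hadj : Adj (tform (W l) X.Y) (V l) (V' l) := ⟨h3 l, h4 l⟩
    exact ⟨V' l, (mem_cring hW).2 ⟨⟨V', hV', rfl⟩, hφ.adj_comm hV h2 hadj⟩, hadj⟩

theorem yfrob_cring : X.YFrob l (X.cring l hW φ) φ cc :=
  ⟨fun _ hU => ((mem_cring hW).1 hU).2, hφ.c0, hφ.per, hφ.form⟩

omit hφ in
theorem class_cring : ∀ U ∈ X.cring l hW φ, ∀ x, X.IsClass l x → X.IsClass l (U x) := by
  intro U hU x hx
  obtain ⟨⟨V, hV, rfl⟩, -⟩ := (mem_cring hW).1 hU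
  exact isClass_map hW hV hx

end Strata

end Pool.Agent.H62S
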