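import Pool.Agent.W_MP_a3c811_h79.Lap.Quasi
import Pool.Agent.W_MP_a3c811_h79.MF.St2
import Pool.Agent.W_MP_a3c811_h79.MF.ToReal
import Pool.Agent.W_a3c811_h62w.Ab19
import Pool.Agent.W_a3c811_h62w.StCoh
import Pool.Agent.W_a3c811_h62w.TrE
import Pool.Agent.W_a3c811_h62w.TrF
import Pool.Agent.W_a3c811_h62w.TrH

/-! The strata: exceptional pairs, and one theory implies all theories. -/

noncomputable section

set_option linter.unusedSectionVars false

namespace Pool.Agent.H62S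

open Module Polynomial Pool.Agent.WeilH_h6 Pool.Agent.WeilH_h6.VarClass Pool.Agent.H62D
  Pool.Agent.H62A Pool.Agent.H79L Pool.Agent.H62X

universe u v w

variable {k : Type u} [Field k] {𝒱 : VarClass k} {I : Type} {K : I → Type v} [∀ l, Field (K l)]
  [∀ l, CharZero (K l)] {W : ∀ l, Weil.{u, v, w} 𝒱 (K l)} {X : Strata W}

namespace Strata

variable {l : I}

/-- homogeneous vectors of the `E_1`-term -/
lemma at_iff {p w : ℤ} {x : Tot (W l) X.EY} :
    At (K := K l) (E := Tot (W l) X.EY) (posProj (W l) X.EY X.epos)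
      (degProj (W l) X.EY X.epos X.etw) X.n p w x ↔ x ∈ X.part l (w + X.n) p := by
  constructor
  · rintro ⟨h1, h2⟩
    refine ⟨?_, ?_⟩
    · rw [← h2]; exact H62A.degProj_mem _ _ _ _ _ _
    · rw [← h1]; exact H62A.posProj_mem _ _ _ _ _
  · rintro ⟨h1, h2⟩
    exact ⟨posProj_of_mem _ _ _ h2, degProj_of_mem _ _ _ _ h1⟩

/-- isomorphisms on the cohomology -/
lemma ei_of_iso {O : Module.End (K l) (Tot (W l) X.EY)} {p w q u : ℤ}
    (h : IsoCoh (X.ed l) O (X.part l (w + X.n) p) (X.part l (u + X.n) q)) :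
    EI (K := K l) (E := Tot (W l) X.EY) O (X.ed l) (posProj (W l) X.EY X.epos)
      (degProj (W l) X.EY X.epos X.etw) X.n p w q u where
  inj := by
    rintro x hx hdx ⟨y, hy⟩
    obtain ⟨z, hz⟩ := h.1 x (at_iff.1 hx) hdx ⟨y, hy.symm⟩
    exact ⟨z, hz.symm⟩
  surj := by
    intro z hz hdz
    obtain ⟨x, hx, hdx, y, hy⟩ := h.2 z (at_iff.1 hz) hdz
    exact ⟨x, y, at_iff.2 hx, hdx, by rw [hy]; abel⟩

lemma ei_mono {w : ℤ} {i : ℕ} (h : X.MonoAt l (w + X.n) i) :
    EI (K := K l) (E := Tot (W l) X.EY) ((X.eN l) ^ i) (X.ed l) (posProj (W l) X.EY X.epos)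
      (degProj (W l) X.EY X.epos X.etw) X.n (-i) w i w := ei_of_iso h

lemma ei_lef {p : ℤ} {j : ℕ} (h : X.LefAt l p j) :
    EI (K := K l) (E := Tot (W l) X.EY) ((X.eL l) ^ j) (X.ed l) (posProj (W l) X.EY X.epos)
      (degProj (W l) X.EY X.epos X.etw) X.n p (-j) p j := by
  refine ei_of_iso ?_
  have h1 : -(j : ℤ) + X.n = X.n - j := by ring
  have h2 : (j : ℤ) + X.n = X.n + j := by ring
  rw [h1, h2]
  exact h

variable {BY : Subring (Module.End (K l) (Tot (W l) X.Y))} (hY : X.YRing l BY)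
include hY

/-- primitive parts with `n < i + j` are anisotropic -/
lemma str_gt (hW : Compatible W) {i j : ℕ} (h : X.n < i + j) :
    Str (K := K l) (E := Tot (W l) X.EY) (X.eN l) (X.eNd l) (X.eL l) (X.eLam l) (X.ed l) X.n
      (posProj (W l) X.EY X.epos) (degProj (W l) X.EY X.epos X.etw) (X.eS l)
      (X.bring l BY hY.pos) i j := by
  intro u _ _ hp _
  exact LinearMap.ext fun x => eprim_gt hW h (hp x)

/-- The theorem for one theory, with exceptional pairs. -/
theorem zero_strata3 (hW : Compatible W) {Z : Module.End (K l) (Tot (W l) X.EY)}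
    (hZ : Har (K := K l) (E := Tot (W l) X.EY) (X.eN l) (X.eNd l) (X.eL l) (X.eLam l) (X.ed l)
      (posProj (W l) X.EY X.epos) (degProj (W l) X.EY X.epos X.etw) (X.eS l)
      (X.bring l BY hY.pos) Z)
    {Wt : ℕ → ℕ → Prop} (hp : X.YPos l BY Wt)
    (hT : ∀ i j, i + j ≤ X.n →
      Str (K := K l) (E := Tot (W l) X.EY) (X.eN l) (X.eNd l) (X.eL l) (X.eLam l) (X.ed l) X.n
        (posProj (W l) X.EY X.epos) (degProj (W l) X.EY X.epos X.etw) (X.eS l)
        (X.bring l BY hY.pos) i j ∨ Wt i j ∨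
      ((i, j) = ((0, 0) : ℕ × ℕ) ∧ X.MonoAt l (X.n - 1) 1) ∨
      ((i, j) = ((0, 1) : ℕ × ℕ) ∧ X.LefAt l (-1) 2 ∧ X.LefAt l 0 1) ∨
      ((i, j) = ((1, 0) : ℕ × ℕ) ∧ X.MonoAt l (X.n - 1) 2 ∧ X.MonoAt l X.n 1)) :
    (X.ed l : Module.End (K l) (Tot (W l) X.EY)) * Z = 0 := by
  obtain ⟨D, hP⟩ := hY.pol hW
  have hp' : X.YPos l BY (fun i j => Wt i j ∧ i + j ≤ X.n) := fun i j i' j' h1 h2 =>
    hp i j i' j' h1.1 h2.1
  refine main4 hP hZ (fun r u hu => hY.rat_mem r hu)
    (pos_of hY hW (fun i j h => by omega) hp') fun i j => ?_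
  by_cases hij : i + j ≤ X.n
  · rcases hT i j hij with h1 | h1 | h1 | h1 | h1
    · exact Or.inl h1
    · exact Or.inr (Or.inl ⟨h1, hij⟩)
    · refine Or.inr (Or.inr (Or.inl ⟨h1.1, ?_⟩))
      have e1 : ((X.n : ℤ) - 1) = -1 + X.n := by ring
      have h2 := h1.2
      rw [e1] at h2
      have h3 := ei_mono h2
      rw [pow_one] at h3
      exact h3
    · refine Or.inr (Or.inr (Or.inr (Or.inl ⟨h1.1, ei_lef h1.2.1, ?_⟩)))
      have h3 := ei_lef h1.2.2
      rw [pow_one] at h3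
      exact h3
    · refine Or.inr (Or.inr (Or.inr (Or.inr ⟨h1.1, ?_, ?_⟩)))
      · have e1 : ((X.n : ℤ) - 1) = -1 + X.n := by ring
        have h2 := h1.2.1
        rw [e1] at h2
        exact ei_mono h2
      · have e1 : (X.n : ℤ) = 0 + X.n := by ring
        have h2 := h1.2.2
        rw [e1] at h2
        have h3 := ei_mono h2
        rw [pow_one] at h3
        exact h3
  · exact Or.inl (str_gt hY hW (not_le.1 hij))

omit hY in
/-- from one theory to all theories -/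
theorem all_of_zero (hW : Compatible W) (X : Strata W) (hb : ∀ l l', X.betti l = X.betti l')
    (l0 : I)
    (hz : ∀ (p q : ℚ[X]) (_ : Fitting ((X.toLefschetz hW).lapA hW)
      (aeval ((X.toLefschetz hW).lapA hW) p) (aeval ((X.toLefschetz hW).lapA hW) q)),
        (X.complex.d l0 : Module.End (K l0) (Tot (W l0) X.EY)) *
          MA.val (aeval ((X.toLefschetz hW).lapA hW) p) l0 = 0) (M : X.Motive) :
    (∀ l, M.WeightMonodromy l) ∧ M.Independence := by
  have hI : Nonempty I := ⟨l0⟩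
  have hK := (X.toLefschetz hW).kunneth hW
  obtain ⟨χ, hχ⟩ := (X.toLefschetz hW).exists_char hW hK
  obtain ⟨P, Q, F⟩ := hχ.exists_fitting hW
  have hb0 : X.complex.betti l0 = χ.rootMultiplicity 0 := eq_of_zero hχ F (hz P Q F)
  have h0 := fun l' => zero_of_eq hχ F ((hb l' l0).trans hb0)
  have hN : H62A.IsChain X.complex 2 X.eN := ⟨X.motivic_eN hW, X.eN_bidegree,
    fun l x => LinearMap.congr_fun (X.eN_ed l) x⟩
  have hR : (X.toLefschetz hW).Compat (M.toReal hN) := ⟨rfl, M.com_mod⟩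
  exact ⟨fun l => wm_real F h0 hR l, fun w => real_main hK F h0 (M.toReal hN) hR w⟩

omit hY in
/-- the identity as a similitude -/
lemma nfrob_id (l : I) : X.NFrob l (1 : Module.End (K l) (Tot (W l) X.Y)) (fun _ => 1) where
  c0 _ := one_ne_zero
  per _ := rfl
  form _ _ _ _ _ _ := by rw [one_mul]; rfl
  pos _ := by rw [one_mul, mul_one]
  deg _ := by rw [one_mul, mul_one]
  res := by rw [one_mul, mul_one]
  gys := by rw [one_mul, mul_one]
  L := by rw [one_mul, mul_one]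
  Lam := by rw [one_mul, mul_one]

omit hY in
/-- positivity for a ring of motivic endomorphisms -/
lemma ypos_of (hW : Compatible W) {φ : Module.End (K l) (Tot (W l) X.Y)} {R : ℕ → ℕ → Prop}
    (h : X.Positive l R) : X.YPos l (X.cring l hW φ) R := by
  intro i j i' j' hij hij' U hU hm iso
  obtain ⟨⟨V, hV, rfl⟩, -⟩ := (mem_cring hW).1 hU
  exact h V hV i j i' j' hij hij' hm iso

omit hY in
/-- One theory suffices. -/
theorem one_theory (hW : Compatible W) (X : Strata W) (hb : ∀ l l', X.betti l = X.betti l')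
    (l0 : I) (hpos : X.Positive l0 (fun i j => 2 ≤ i + j)) (hL : X.HardLefschetz l0)
    (hN : X.Monodromy l0) (M : X.Motive) : (∀ l, M.WeightMonodromy l) ∧ M.Independence := by
  classical
  refine all_of_zero hW X hb l0 (fun P Q F => ?_) M
  have hφ := nfrob_id (X := X) l0
  have hY := yring_cring hW hφ
  refine zero_strata3 hY hW (har_strata hY hW F) (ypos_of hW hpos) fun i j hij => ?_
  by_cases h2 : 2 ≤ i + j
  · exact Or.inr (Or.inl h2)
  · have h3 : (i, j) = ((0, 0) : ℕ × ℕ) ∨ (i, j) = ((0, 1) : ℕ × ℕ) ∨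
        (i, j) = ((1, 0) : ℕ × ℕ) := by
      simp only [Prod.mk.injEq]
      omega
    rcases h3 with h3 | h3 | h3
    · exact Or.inr (Or.inr (Or.inl ⟨h3, hN _ _⟩))
    · exact Or.inr (Or.inr (Or.inr (Or.inl ⟨h3, hL _ _, hL _ _⟩)))
    · exact Or.inr (Or.inr (Or.inr (Or.inr ⟨h3, hN _ _, hN _ _⟩)))

end Strata

end Pool.Agent.H62S
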