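import Pool.Agent.W_a3c811_h62w.Lin

/-! The decomposition theorem: the Laplacian and the differential vanish on the generalised kernel
of the Laplacian if the primitive parts are anisotropic. -/

set_option linter.unusedSectionVars false
set_option linter.unusedSimpArgs false
set_option linter.unusedVariables false

namespace Pool.Agent.H62W

open Module

section words

variable {K V : Type*} [Field K] [AddCommGroup V] [Module K V] {ι : Type*}

/-- apply a word -/
def wd (c : ι → End K V) (l : List ι) : End K V := (l.map c).prod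

lemma wd_cons (c : ι → End K V) (i : ι) (l : List ι) : wd c (i :: l) = c i * wd c l := by
  simp [wd]

variable {c : ι → End K V} {Z : End K V}

lemma wd_mem {A : Subring (End K V)} (hc : ∀ i, c i ∈ A) (l : List ι) : wd c l ∈ A := by
  induction l with
  | nil => simp [wd, A.one_mem]
  | cons i l ih => rw [wd_cons]; exact A.mul_mem (hc i) ih

lemma wd_kill [DecidableEq ι]
    (anti : ∀ i j l, c i * (c j * (wd c l * Z)) = -(c j * (c i * (wd c l * Z))))
    (sq : ∀ i, c i * c i = 0) (l : List ι) {i : ι} (hi : i ∈ l) : c i * (wd c l * Z) = 0 := by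
  induction l with
  | nil => simp at hi
  | cons j l ih =>
    rw [wd_cons, mul_assoc (c j)]
    by_cases hij : i = j
    · subst hij
      rw [← mul_assoc, sq, zero_mul]
    · rw [anti, ih ((List.mem_cons.1 hi).resolve_left hij), mul_zero, neg_zero]

lemma word_zero [Fintype ι] [DecidableEq ι]
    (anti : ∀ i j l, c i * (c j * (wd c l * Z)) = -(c j * (c i * (wd c l * Z))))
    (sq : ∀ i, c i * c i = 0)
    (hU : ∀ (i : ι) (l : List ι), (∀ j, c j * (wd c (i :: l) * Z) = 0) →
      wd c (i :: l) * Z = 0) :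
    ∀ i, c i * Z = 0 := by
  have key : ∀ n : ℕ, ∀ l : List ι, l.Nodup → l ≠ [] → l.length + n = Fintype.card ι + 1 →
      wd c l * Z = 0 := by
    intro n
    induction n with
    | zero =>
      intro l hl _ hn
      have := hl.length_le_card
      omega
    | succ n ih =>
      intro l hl hne hn
      obtain ⟨j, l', rfl⟩ := List.exists_cons_of_ne_nil hne
      apply hU
      intro i
      by_cases hi : i ∈ j :: l'
      · exact wd_kill anti sq _ hi
      · rw [← mul_assoc, ← wd_cons]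
        exact ih (i :: j :: l') (List.nodup_cons.2 ⟨hi, hl⟩) (by simp)
          (by rw [List.length_cons]; omega)
  intro i
  have hc : 1 ≤ Fintype.card ι := Fintype.card_pos_iff.2 ⟨i⟩
  have := key (Fintype.card ι) [i] (by simp) (by simp) (by simp; omega)
  simpa [wd] using this

end words

variable {K V : Type*} [Field K] [AddCommGroup V] [Module K V]

section last

/-- lowering until killed, for operators -/
lemma exists_last {A : Subring (End K V)} {f v : End K V} (hf : f ∈ A) (hv : v ∈ A) (hv0 : v ≠ 0)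
    (hn : ∃ n, f ^ n * v = 0) : ∃ n, f ^ n * v ∈ A ∧ f ^ n * v ≠ 0 ∧ f * (f ^ n * v) = 0 := by
  have h0 : ¬ (f ^ 0 * v = 0) := by simpa using hv0
  obtain ⟨n, hn, hn'⟩ := Nat.exists_not_and_succ_of_not_zero_of_exists h0 hn
  refine ⟨n, A.mul_mem (A.pow_mem hf n) hv, hn, ?_⟩
  rw [pow_succ', mul_assoc] at hn'
  exact hn'

/-- an eigenvector among the multiples, for operators -/
lemma exists_eig {A : Subring (End K V)} {h v : End K V} (hh : h ∈ A) (hv : v ∈ A) (hv0 : v ≠ 0)
    {s : List ℤ} (hs : (s.map fun p : ℤ => h - (p : End K V)).prod * v = 0) :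
    ∃ (b : End K V) (p : ℤ), b ∈ A ∧ (∀ g : End K V, g * h = h * g → g * b = b * g) ∧ b * v ≠ 0 ∧
      h * (b * v) = (p : End K V) * (b * v) ∧ (∀ U : Submodule K V, (∀ x ∈ U, h x ∈ U) →
        ∀ x ∈ U, b x ∈ U) := by
  induction s with
  | nil => exact absurd (by simpa using hs) hv0
  | cons p s ih =>
    by_cases h1 : (s.map fun p : ℤ => h - (p : End K V)).prod * v = 0
    · exact ih h1
    · refine ⟨(s.map fun p : ℤ => h - (p : End K V)).prod, p, ?_, ?_, h1, ?_, ?_⟩
      · apply A.list_prod_mem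
        intro x hx
        obtain ⟨q, -, rfl⟩ := List.mem_map.1 hx
        exact A.sub_mem hh (intCast_mem A q)
      · intro g hg
        have : Commute g (s.map fun p : ℤ => h - (p : End K V)).prod := by
          apply Commute.list_prod_right
          intro x hx
          obtain ⟨q, -, rfl⟩ := List.mem_map.1 hx
          exact (show Commute g h from hg).sub_right (Int.commute_cast g q)
        exact this.eq
      · have h2 : (h - (p : End K V)) * ((s.map fun p : ℤ => h - (p : End K V)).prod * v) = 0 := by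
          simpa [mul_assoc] using hs
        rw [sub_mul, sub_eq_zero] at h2
        exact h2
      · intro U hU
        have key : ∀ s : List ℤ, ∀ x ∈ U, (s.map fun p : ℤ => h - (p : End K V)).prod x ∈ U := by
          intro s
          induction s with
          | nil => intro x hx; simpa using hx
          | cons q s ih =>
            intro x hx
            rw [List.map_cons, List.prod_cons, Module.End.mul_apply, LinearMap.sub_apply]
            refine U.sub_mem (hU _ (ih x hx)) ?_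
            have : ((q : ℤ) : End K V) = q • (1 : End K V) := by simp
            rw [this, LinearMap.smul_apply, Module.End.one_apply]
            exact zsmul_mem (ih x hx) q
        exact key s

end last

/-- the four components -/
def comp (f1 f2 d : End K V) : Fin 4 → End K V := ![d, br f1 d, br f2 d, br f1 (br f2 d)]

/-- The hypotheses. -/
structure Setup (e1 f1 h1 e2 f2 h2 d : End K V) (φ : V → V → K) (A : Subring (End K V)) :
    Prop where
  ef1 : e1 * f1 - f1 * e1 = h1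
  ef2 : e2 * f2 - f2 * e2 = h2
  he1 : h1 * e1 - e1 * h1 = 2 • e1
  hf1 : h1 * f1 - f1 * h1 = -(2 • f1)
  he2 : h2 * e2 - e2 * h2 = 2 • e2
  hf2 : h2 * f2 - f2 * h2 = -(2 • f2)
  ee : e1 * e2 = e2 * e1
  ef : e1 * f2 = f2 * e1
  fe : f1 * e2 = e2 * f1
  ff : f1 * f2 = f2 * f1
  ed1 : e1 * d = d * e1
  ed2 : e2 * d = d * e2
  hd1 : h1 * d - d * h1 = d
  hd2 : h2 * d - d * h2 = d
  dd : d * d = 0
  sp1 : ∃ s : List ℤ, (s.map fun p : ℤ => h1 - (p : End K V)).prod = 0
  sp2 : ∃ s : List ℤ, (s.map fun p : ℤ => h2 - (p : End K V)).prod = 0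
  add_left : ∀ x x' y, φ (x + x') y = φ x y + φ x' y
  add_right : ∀ x y y', φ x (y + y') = φ x y + φ x y'
  ca : ∀ i x y, comp f1 f2 d i y = 0 → φ (comp f1 f2 d i x) y = 0
  la : ∀ x y, lap f1 f2 d y = 0 → φ (lap f1 f2 d x) y = 0
  me1 : e1 ∈ A
  mf1 : f1 ∈ A
  me2 : e2 ∈ A
  mf2 : f2 ∈ A
  md : d ∈ A
  aniso : ∀ (i j : ℕ) (u : End K V), u ∈ A →
    (∀ x, f1 (u x) = 0 ∧ f2 (u x) = 0 ∧ h1 (u x) = -(i : K) • u x ∧ h2 (u x) = -(j : K) • u x) →
    (∀ x y, φ (u x) ((e1 ^ i) ((e2 ^ j) (u y))) = 0) → u = 0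

namespace Setup

variable {e1 f1 h1 e2 f2 h2 d : End K V} {φ : V → V → K} {A : Subring (End K V)}

lemma br_app (a b : End K V) (x : V) : br a b x = a (b x) - b (a x) := rfl

lemma comm_app {a b : End K V} (h : br a b = 0) (x : V) : a (b x) = b (a x) := by
  have := LinearMap.congr_fun h x
  rw [br_app, LinearMap.zero_apply, sub_eq_zero] at this
  exact this

section easy

variable (H : Setup e1 f1 h1 e2 f2 h2 d φ A)
include H

lemma mh1 : h1 ∈ A := by
  rw [← H.ef1]; exact A.sub_mem (A.mul_mem H.me1 H.mf1) (A.mul_mem H.mf1 H.me1)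

lemma mh2 : h2 ∈ A := by
  rw [← H.ef2]; exact A.sub_mem (A.mul_mem H.me2 H.mf2) (A.mul_mem H.mf2 H.me2)

lemma mlap : (lap f1 f2 d) ∈ A := by
  have m1 : ∀ {a b : End K V}, a ∈ A → b ∈ A → br a b ∈ A := fun ha hb =>
    A.sub_mem (A.mul_mem ha hb) (A.mul_mem hb ha)
  exact A.add_mem (A.mul_mem H.md (m1 H.mf1 (m1 H.mf2 H.md)))
    (A.mul_mem (m1 H.mf1 (m1 H.mf2 H.md)) H.md)

lemma comp_mem (i : Fin 4) : comp f1 f2 d i ∈ A := by
  have m1 : ∀ {a b : End K V}, a ∈ A → b ∈ A → br a b ∈ A := fun ha hb =>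
    A.sub_mem (A.mul_mem ha hb) (A.mul_mem hb ha)
  fin_cases i
  · exact H.md
  · exact m1 H.mf1 H.md
  · exact m1 H.mf2 H.md
  · exact m1 H.mf1 (m1 H.mf2 H.md)

lemma phi_zero (x : V) : φ x 0 = 0 := by
  have := H.add_right x 0 0
  rw [add_zero] at this
  exact left_eq_add.1 this

end easy

variable [CharZero K] [FiniteDimensional K V] (H : Setup e1 f1 h1 e2 f2 h2 d φ A)
include H

lemma toDD : DD e1 f1 h1 e2 f2 h2 d where
  ef1 := H.ef1
  ef2 := H.ef2
  ee := H.ee
  ef := H.ef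
  fe := H.fe
  ff := H.ff
  ed1 := H.ed1
  ed2 := H.ed2
  hd1 := H.hd1
  hd2 := H.hd2
  dd := H.dd
  z1 := ad_sq H.he1 H.hf1 H.ef1 H.hd1 H.ed1
  z2 := ad_sq H.he2 H.hf2 H.ef2 H.hd2 H.ed2

lemma h1e2 : e2 * h1 = h1 * e2 := (comm_of H.ef1 H.ee H.fe).symm
lemma h1f2 : f2 * h1 = h1 * f2 := (comm_of H.ef1 H.ef H.ff).symm
lemma h1h2 : h2 * h1 = h1 * h2 := comm_of H.ef2 H.h1e2 H.h1f2
lemma h2f1 : f1 * h2 = h2 * f1 := (comm_of H.ef2 H.fe.symm H.ff.symm).symm

/-- A member of the ring with image in a stable isotropic subspace is zero. -/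
lemma op_bot {U : Submodule K V} (ue1 : ∀ x ∈ U, e1 x ∈ U) (uf1 : ∀ x ∈ U, f1 x ∈ U)
    (ue2 : ∀ x ∈ U, e2 x ∈ U) (uf2 : ∀ x ∈ U, f2 x ∈ U)
    (iso : ∀ x ∈ U, ∀ y ∈ U, φ x y = 0) {u : End K V} (hu : u ∈ A) (huU : ∀ x, u x ∈ U) :
    u = 0 := by
  by_contra hu0
  have uh1 : ∀ x ∈ U, h1 x ∈ U := by
    intro x hx
    rw [← H.ef1]
    exact U.sub_mem (ue1 _ (uf1 _ hx)) (uf1 _ (ue1 _ hx))
  have uh2 : ∀ x ∈ U, h2 x ∈ U := by
    intro x hx
    rw [← H.ef2]
    exact U.sub_mem (ue2 _ (uf2 _ hx)) (uf2 _ (ue2 _ hx))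
  obtain ⟨s1, hs1⟩ := H.sp1
  obtain ⟨s2, hs2⟩ := H.sp2
  obtain ⟨b1, p, hb1, cb1, hb1u, hp, bU1⟩ := exists_eig H.mh1 hu hu0 (s := s1) (by rw [hs1, zero_mul])
  obtain ⟨b2, q, hb2, cb2, hb2u, hq, bU2⟩ := exists_eig H.mh2 (A.mul_mem hb1 hu) hb1u (s := s2)
    (by rw [hs2, zero_mul])
  obtain ⟨v, hvA, hvU, hv1, hv2, hv0⟩ : ∃ v : End K V, v ∈ A ∧ (∀ x, v x ∈ U) ∧
      h1 * v = (p : End K V) * v ∧ h2 * v = (q : End K V) * v ∧ v ≠ 0 := by
    refine ⟨b2 * (b1 * u), A.mul_mem hb2 (A.mul_mem hb1 hu),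
      fun x => bU2 U uh2 _ (bU1 U uh1 _ (huU x)), ?_, hq, hb2u⟩
    have := cb2 h1 H.h1h2.symm
    rw [← mul_assoc, this, mul_assoc, hp, ← mul_assoc, (Int.commute_cast b2 p).eq, mul_assoc]
  -- nilpotence of the lowering operators
  have key : ∀ {h f : End K V} {c : ℤ} {v : End K V}, h * f - f * h = -(2 • f) →
      h * v = (c : End K V) * v → ∀ n : ℕ, h * (f ^ n * v) = ((c - 2 * n : ℤ) : End K V) * (f ^ n * v) := by
    intro h f c v hf hv n
    induction n with
    | zero => simpa using hv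
    | succ n ih =>
      have h1 : h * f = f * h - 2 • f := by
        rw [sub_eq_iff_eq_add'.1 hf, sub_eq_add_neg]
      rw [pow_succ', mul_assoc, ← mul_assoc, h1, sub_mul, mul_assoc, ih, ← mul_assoc f,
        ← (Int.cast_commute (c - 2 * (n : ℤ)) f).eq, mul_assoc]
      push_cast
      simp only [two_nsmul, add_mul, sub_mul, mul_add, mul_one, two_mul]
      abel
  have nil : ∀ {h f : End K V} {c : ℤ} {v : End K V}, h * f - f * h = -(2 • f) →
      h * v = (c : End K V) * v → ∃ n, f ^ n * v = 0 := by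
    intro h f c v hf hv
    by_contra! contra
    have hk := key hf hv
    have hcast : ∀ (n : ℤ) (y : V), (n : End K V) y = (n : K) • y := by
      intro n y
      rw [Module.End.intCast_apply, Int.cast_smul_eq_zsmul]
    let ev (n : ℕ) : K := ((c - 2 * n : ℤ) : K)
    have h_inj : Function.Injective ev := fun a b hab ↦ by
      have := Int.cast_injective (α := K) hab
      omega
    have hx : ∀ n : ℕ, ∃ x, (f ^ n * v) x ≠ 0 := by
      intro n
      by_contra! hx
      exact contra n (LinearMap.ext hx)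
    choose xs hxs using hx
    have aux (x : Set.range ev) : h.HasEigenvector x ((f ^ x.property.choose * v)
        (xs x.property.choose)) := by
      refine ⟨?_, hxs _⟩
      rw [Module.End.mem_eigenspace_iff]
      have := LinearMap.congr_fun (hk x.property.choose) (xs x.property.choose)
      refine (this.trans ?_).trans (congrArg (· • _) x.property.choose_spec)
      exact hcast _ _
    have _i := (h.eigenvectors_linearIndependent (Set.range ev) _ aux).finite
    exact (Set.infinite_range_of_injective h_inj) (Set.toFinite _)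
  obtain ⟨n, hnA, hn0, hnf⟩ := exists_last H.mf1 hvA hv0 (nil H.hf1 hv1)
  have hn1 := key H.hf1 hv1 n
  have hn2 : h2 * (f1 ^ n * v) = (q : End K V) * (f1 ^ n * v) := by
    have hc : Commute h2 (f1 ^ n) := (show Commute h2 f1 from H.h2f1.symm).pow_right n
    rw [← mul_assoc, hc.eq, mul_assoc, hv2, ← mul_assoc, (Int.commute_cast (f1 ^ n) q).eq,
      mul_assoc]
  obtain ⟨m, hmA, hm0, hmf⟩ := exists_last H.mf2 hnA hn0 (nil H.hf2 hn2)
  have hm2 := key H.hf2 hn2 m
  have hc2 : Commute f1 (f2 ^ m) := (show Commute f1 f2 from H.ff).pow_right m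
  have hm1 : h1 * (f2 ^ m * (f1 ^ n * v)) =
      ((p - 2 * n : ℤ) : End K V) * (f2 ^ m * (f1 ^ n * v)) := by
    have hc : Commute h1 (f2 ^ m) := (show Commute h1 f2 from H.h1f2.symm).pow_right m
    rw [← mul_assoc, hc.eq, mul_assoc, hn1, ← mul_assoc,
      (Int.commute_cast (f2 ^ m) (p - 2 * (n : ℤ))).eq, mul_assoc]
  have hmf1 : f1 * (f2 ^ m * (f1 ^ n * v)) = 0 := by
    rw [← mul_assoc, hc2.eq, mul_assoc, hnf, mul_zero]
  set w := f2 ^ m * (f1 ^ n * v) with hw
  have hwU : ∀ x, w x ∈ U := by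
    have up : ∀ {f : End K V}, (∀ x ∈ U, f x ∈ U) → ∀ m : ℕ, ∀ x ∈ U, (f ^ m) x ∈ U := by
      intro f hf m
      induction m with
      | zero => intro x hx; simpa using hx
      | succ m ih => intro x hx; rw [pow_succ', Module.End.mul_apply]; exact hf _ (ih _ hx)
    intro x
    exact up uf2 m _ (up uf1 n _ (hvU x))
  have hcast : ∀ (n : ℤ) (y : V), (n : End K V) y = (n : K) • y := by
    intro n y
    rw [Module.End.intCast_apply, Int.cast_smul_eq_zsmul]
  obtain ⟨x, hx⟩ : ∃ x, w x ≠ 0 := by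
    by_contra! hx
    exact hm0 (LinearMap.ext hx)
  have w1 : ∀ x, h1 (w x) = ((p - 2 * n : ℤ) : K) • w x := by
    intro x
    exact (LinearMap.congr_fun hm1 x).trans (hcast _ _)
  have w2 : ∀ x, h2 (w x) = ((q - 2 * m : ℤ) : K) • w x := by
    intro x
    exact (LinearMap.congr_fun hm2 x).trans (hcast _ _)
  have w3 : ∀ x, f1 (w x) = 0 := fun x => LinearMap.congr_fun hmf1 x
  have w4 : ∀ x, f2 (w x) = 0 := fun x => LinearMap.congr_fun hmf x
  obtain ⟨i, hi⟩ := lowest_nat H.he1 H.hf1 H.ef1 hx (w1 x) (w3 x)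
  obtain ⟨j, hj⟩ := lowest_nat H.he2 H.hf2 H.ef2 hx (w2 x) (w4 x)
  refine hm0 (H.aniso i j w hmA (fun x => ⟨w3 x, w4 x, ?_, ?_⟩) ?_)
  · rw [w1, hi]
  · rw [w2, hj]
  · intro x y
    have up : ∀ {f : End K V}, (∀ x ∈ U, f x ∈ U) → ∀ m : ℕ, ∀ x ∈ U, (f ^ m) x ∈ U := by
      intro f hf m
      induction m with
      | zero => intro x hx; simpa using hx
      | succ m ih => intro x hx; rw [pow_succ', Module.End.mul_apply]; exact hf _ (ih _ hx)
    exact iso _ (hwU x) _ (up ue1 i _ (up ue2 j _ (hwU y)))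

omit H [FiniteDimensional K V] in
lemma tf : IsAddTorsionFree (End K V) := .of_isTorsionFree K _

omit H [FiniteDimensional K V] [CharZero K] in
lemma stable_of {a : End K V} (ha : br a (lap f1 f2 d) = 0) :
    ∀ x ∈ LinearMap.ker (lap f1 f2 d) ⊓ LinearMap.range (lap f1 f2 d), a x ∈ LinearMap.ker (lap f1 f2 d) ⊓ LinearMap.range (lap f1 f2 d) := by
  rintro x ⟨h1, ⟨y, rfl⟩⟩
  refine ⟨?_, ⟨a y, (comm_app ha y).symm⟩⟩
  have h1' : (lap f1 f2 d) ((lap f1 f2 d) y) = 0 := h1
  change (lap f1 f2 d) (a ((lap f1 f2 d) y)) = 0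
  rw [← comm_app ha, h1', map_zero]

/-- The Laplacian vanishes on its generalised kernel. -/
theorem lap_mul {Z : End K V} (hZ : Z ∈ A) (hM : ∃ M, (lap f1 f2 d) ^ M * Z = 0) :
    (lap f1 f2 d) * Z = 0 := by
  have := tf (K := K) (V := V)
  have D := H.toDD
  have hM' : ∃ M, (lap f1 f2 d) ^ M * ((lap f1 f2 d) * Z) = 0 := by
    obtain ⟨M, hM⟩ := hM
    exact ⟨M, by rw [← mul_assoc, ← pow_succ, pow_succ', mul_assoc, hM, mul_zero]⟩
  by_contra h0
  obtain ⟨n, hnA, hn0, hn⟩ := exists_last H.mlap (A.mul_mem H.mlap hZ) h0 hM'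
  refine hn0 (H.op_bot (stable_of D.lap_e1) (stable_of D.lap_f1) (stable_of D.lap_e2)
    (stable_of D.lap_f2) ?_ hnA ?_)
  · rintro x ⟨-, ⟨a, rfl⟩⟩ y ⟨hy, -⟩
    have hy' : (lap f1 f2 d) y = 0 := hy
    exact H.la _ _ hy'
  · intro x
    refine ⟨LinearMap.congr_fun hn x, ?_⟩
    have : ((lap f1 f2 d) ^ n * ((lap f1 f2 d) * Z)) x = (lap f1 f2 d) (((lap f1 f2 d) ^ n * Z) x) := by
      have : (lap f1 f2 d) ^ n * ((lap f1 f2 d) * Z) = (lap f1 f2 d) * ((lap f1 f2 d) ^ n * Z) := by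
        rw [← mul_assoc, ← pow_succ, pow_succ', mul_assoc]
      rw [this]; rfl
    rw [this]
    exact ⟨_, rfl⟩

lemma comp_anti {Z : End K V} (hZ0 : (lap f1 f2 d) * Z = 0) (i j : Fin 4) :
    comp f1 f2 d i * comp f1 f2 d j * Z = -(comp f1 f2 d j * comp f1 f2 d i * Z) := by
  have := tf (K := K) (V := V)
  have D := H.toDD
  have a12 := D.a12
  have a01 := D.a01
  have a02 := D.a02
  have a11 := D.a11
  have a22 := D.a22
  have a13 := D.a1_12
  have a23 := D.a2_12
  have a33 := D.a12_12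
  have a00 := D.dd
  have a03 : (d * br f1 (br f2 d) + br f1 (br f2 d) * d) * Z = 0 := hZ0
  have b12 : (br f1 d * br f2 d + br f2 d * br f1 d) * Z = 0 := by
    rw [a12, neg_mul, a03, neg_zero]
  rw [eq_neg_iff_add_eq_zero, ← add_mul]
  fin_cases i <;> fin_cases j <;>
    simp only [comp, Fin.zero_eta, Fin.mk_one, Fin.reduceFinMk, Matrix.cons_val_zero,
      Matrix.cons_val_one, Matrix.cons_val, a00, a01, a02, a11, a22, a13, a23, a33, add_zero,
      zero_mul, a03, b12] <;>
    rw [add_comm] <;>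
    simp only [a00, a01, a02, a11, a22, a13, a23, a33, add_zero, zero_mul, a03, b12]

lemma comp_lap (i : Fin 4) : br (comp f1 f2 d i) (lap f1 f2 d) = 0 := by
  have := tf (K := K) (V := V)
  have D := H.toDD
  have key : ∀ {a b : End K V}, br a (lap f1 f2 d) = 0 → br b (lap f1 f2 d) = 0 → br (br a b) (lap f1 f2 d) = 0 := by
    intro a b ha hb
    have := br_br a b (lap f1 f2 d)
    rw [ha, hb, br_zero, br_zero, add_zero] at this
    exact this.symm
  fin_cases i
  · exact D.lap_d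
  · exact key D.lap_f1 D.lap_d
  · exact key D.lap_f2 D.lap_d
  · exact key D.lap_f1 (key D.lap_f2 D.lap_d)

lemma comp_sq (i : Fin 4) : comp f1 f2 d i * comp f1 f2 d i = 0 := by
  have := tf (K := K) (V := V)
  have D := H.toDD
  fin_cases i
  · exact D.dd
  · exact D.a11
  · exact D.a22
  · exact D.a12_12

/-- the bracket of a raising or lowering operator with a component is zero or a component -/
lemma br_comp (i : Fin 4) : ∀ a ∈ ({e1, f1, e2, f2} : Set (End K V)),
    br a (comp f1 f2 d i) = 0 ∨ ∃ j, br a (comp f1 f2 d i) = comp f1 f2 d j := by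
  have := tf (K := K) (V := V)
  have D := H.toDD
  rintro a (rfl | rfl | rfl | rfl)
  · fin_cases i
    · exact Or.inl D.b_e1d
    · exact Or.inr ⟨0, D.b_e1_q1⟩
    · exact Or.inl D.b_e1_q2
    · exact Or.inr ⟨2, D.b_e1_q12⟩
  · fin_cases i
    · exact Or.inr ⟨1, rfl⟩
    · exact Or.inl D.b_f1_q1
    · exact Or.inr ⟨3, rfl⟩
    · exact Or.inl D.b_f1_q12
  · fin_cases i
    · exact Or.inl D.b_e2d
    · exact Or.inl D.b_e2_q1
    · exact Or.inr ⟨0, D.b_e2_q2⟩
    · exact Or.inr ⟨1, D.b_e2_q12⟩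
  · fin_cases i
    · exact Or.inr ⟨2, rfl⟩
    · exact Or.inr ⟨3, D.b_f2_q1⟩
    · exact Or.inl D.b_f2_q2
    · exact Or.inl D.b_f2_q12

omit H in
/-- the vectors killed by the components -/
def annS (f1 f2 d : End K V) : Submodule K V := ⨅ i, LinearMap.ker (comp f1 f2 d i)

omit H in
/-- the sums of values of the components -/
def radS (f1 f2 d : End K V) : Submodule K V := ⨆ i, LinearMap.range (comp f1 f2 d i)

omit H [CharZero K] [FiniteDimensional K V] in
lemma mem_annS {x : V} : x ∈ annS f1 f2 d ↔ ∀ i, comp f1 f2 d i x = 0 := by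
  simp [annS, Submodule.mem_iInf]

lemma annS_stable {a : End K V} (ha : a ∈ ({e1, f1, e2, f2} : Set (End K V))) :
    ∀ x ∈ annS f1 f2 d, a x ∈ annS f1 f2 d := by
  intro x hx
  rw [mem_annS] at hx ⊢
  intro i
  have h1 : a (comp f1 f2 d i x) - comp f1 f2 d i (a x) = br a (comp f1 f2 d i) x := rfl
  have h2 : br a (comp f1 f2 d i) x = 0 := by
    rcases H.br_comp i a ha with h | ⟨j, h⟩
    · rw [h]; rfl
    · rw [h]; exact hx j
  rw [h2, hx i, map_zero, zero_sub, neg_eq_zero] at h1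
  exact h1

lemma radS_stable {a : End K V} (ha : a ∈ ({e1, f1, e2, f2} : Set (End K V))) :
    ∀ x ∈ radS f1 f2 d, a x ∈ radS f1 f2 d := by
  intro x hx
  unfold radS at hx
  induction hx using Submodule.iSup_induction' with
  | mem i x hx =>
    obtain ⟨y, rfl⟩ := hx
    have h1 : a (comp f1 f2 d i y) - comp f1 f2 d i (a y) = br a (comp f1 f2 d i) y := rfl
    rw [sub_eq_iff_eq_add] at h1
    rw [h1]
    refine Submodule.add_mem _ ?_ (Submodule.mem_iSup_of_mem i ⟨_, rfl⟩)
    rcases H.br_comp i a ha with h | ⟨j, h⟩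
    · rw [h]; exact Submodule.zero_mem _
    · rw [h]; exact Submodule.mem_iSup_of_mem j ⟨_, rfl⟩
  | zero => rw [map_zero]; exact Submodule.zero_mem _
  | add x y _ _ h1 h2 => rw [map_add]; exact Submodule.add_mem _ h1 h2

lemma rad_ann {x y : V} (hx : x ∈ radS f1 f2 d) (hy : y ∈ annS f1 f2 d) : φ x y = 0 := by
  rw [mem_annS] at hy
  unfold radS at hx
  induction hx using Submodule.iSup_induction' with
  | mem i x hx =>
    obtain ⟨z, rfl⟩ := hx
    exact H.ca i z y (hy i)
  | zero =>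
    have := H.add_left 0 0 y
    rw [add_zero] at this
    exact left_eq_add.1 this
  | add x x' _ _ h1 h2 => rw [H.add_left, h1, h2, add_zero]

/-- The four components of the differential vanish on the generalised kernel of the Laplacian. -/
theorem comp_mul {Z : End K V} (hZ : Z ∈ A) (hM : ∃ M, (lap f1 f2 d) ^ M * Z = 0) :
    ∀ i, comp f1 f2 d i * Z = 0 := by
  have hZ0 : (lap f1 f2 d) * Z = 0 := H.lap_mul hZ hM
  have hw : ∀ l, (lap f1 f2 d) * (wd (comp f1 f2 d) l * Z) = 0 := by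
    intro l
    induction l with
    | nil => simpa [wd] using hZ0
    | cons i l ih =>
      have := H.comp_lap i
      rw [br_eq_zero] at this
      rw [wd_cons, mul_assoc, ← mul_assoc, ← this, mul_assoc, ih, mul_zero]
  refine word_zero (fun i j l => ?_) H.comp_sq ?_
  · have := H.comp_anti (hw l) i j
    rwa [mul_assoc, mul_assoc] at this
  intro i l hk
  have st : ∀ a ∈ ({e1, f1, e2, f2} : Set (End K V)), ∀ x ∈ annS f1 f2 d ⊓ radS f1 f2 d,
      a x ∈ annS f1 f2 d ⊓ radS f1 f2 d := fun a ha x hx =>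
    ⟨H.annS_stable ha x hx.1, H.radS_stable ha x hx.2⟩
  refine H.op_bot (U := annS f1 f2 d ⊓ radS f1 f2 d) (st e1 (by simp)) (st f1 (by simp))
    (st e2 (by simp)) (st f2 (by simp)) (fun x hx y hy => H.rad_ann hx.2 hy.1)
    (A.mul_mem (wd_mem H.comp_mem _) hZ) ?_
  intro x
  refine ⟨mem_annS.2 fun j => LinearMap.congr_fun (hk j) x, ?_⟩
  rw [wd_cons, mul_assoc, Module.End.mul_apply]
  exact Submodule.mem_iSup_of_mem i ⟨_, rfl⟩

/-- The differential vanishes on the generalised kernel of the Laplacian. -/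
theorem d_mul {Z : End K V} (hZ : Z ∈ A) (hM : ∃ M, (lap f1 f2 d) ^ M * Z = 0) : d * Z = 0 :=
  H.comp_mul hZ hM 0

end Setup

end Pool.Agent.H62W
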