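import Pool.Agent.W_a3c811_h62w.StrataD

/-! The `E_1`-term as a complex of correspondences. -/

noncomputable section

set_option linter.unusedSectionVars false

namespace Pool.Agent.H62S

open Pool.Agent.WeilH_h6 Pool.Agent.WeilH_h6.VarClass Pool.Agent.H62D Pool.Agent.H62A
  Pool.Agent.H79L

universe u v w

variable {k : Type u} [Field k] {𝒱 : VarClass k} {I : Type} {K : I → Type v} [∀ l, Field (K l)]
  [∀ l, CharZero (K l)] {W : ∀ l, Weil.{u, v, w} 𝒱 (K l)} (X : Strata W)

namespace Strata

open Classical in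
lemma slice_single (l : I) (c : X.Idx) (v : (W l).H (X.EY c)) (j : ℕ) :
    X.slice l j (Pi.single c v) =
      if j = (c.2 : ℕ) then (Pi.single c.1 v : Tot (W l) X.Y) else 0 := by
  obtain ⟨a, i⟩ := c
  funext b
  rw [slice_apply]
  by_cases h : j < X.lev b + 1
  · rw [dif_pos h]
    by_cases hb : b = a
    · subst hb
      by_cases hj : j = (i : ℕ)
      · subst hj
        rw [if_pos rfl]
        exact (Pi.single_eq_same (M := fun c => (W l).H (X.EY c)) (⟨b, i⟩ : X.Idx) v).trans
          (Pi.single_eq_same (M := fun a => (W l).H (X.Y a)) b v).symm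
      · rw [if_neg hj]
        refine Pi.single_eq_of_ne (M := fun c => (W l).H (X.EY c)) ?_ v
        intro h1
        apply hj
        have := (Sigma.mk.inj_iff.1 h1).2
        exact congrArg Fin.val (eq_of_heq this)
    · have h1 : (Pi.single (⟨a, i⟩ : X.Idx) v : Tot (W l) X.EY) ⟨b, ⟨j, h⟩⟩ = 0 := by
        refine Pi.single_eq_of_ne (M := fun c => (W l).H (X.EY c)) ?_ v
        intro h1
        exact hb (Sigma.mk.inj_iff.1 h1).1
      rw [h1]
      split_ifs
      · exact (Pi.single_eq_of_ne (M := fun a => (W l).H (X.Y a)) hb v).symm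
      · rfl
  · rw [dif_neg h]
    by_cases hj : j = (i : ℕ)
    · rw [if_pos hj]
      have hb : b ≠ a := by
        rintro rfl
        have := i.2
        omega
      exact (Pi.single_eq_of_ne (M := fun a => (W l).H (X.Y a)) hb v).symm
    · rw [if_neg hj]
      rfl

open Classical in
lemma blk_lift (l : I) (s : ℕ) (T : TEnd (W l) X.Y) (c c' : X.Idx) :
    blk (W l) (X.lift l s T) c c' =
      if (c'.2 : ℕ) = c.2 + s then blk (W l) T c.1 c'.1 else 0 := by
  refine LinearMap.ext fun v => ?_
  change X.lift l s T (Pi.single c v) c' = _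
  rw [lift_apply, slice_single]
  by_cases h : (c'.2 : ℕ) = c.2 + s
  · rw [if_pos (by omega), if_pos (by omega), if_pos h]
    rfl
  · rw [if_neg h]
    by_cases hs : s ≤ (c'.2 : ℕ)
    · rw [if_pos hs, if_neg (by omega), map_zero]
      rfl
    · rw [if_neg hs]
      rfl

lemma motivic_lift (s : ℕ) {T : ∀ l, TEnd (W l) X.Y} (hT : Motivic W X.Y T) :
    Motivic W X.EY (fun l => X.lift l s (T l)) := by
  classical
  rw [motivic_iff] at hT ⊢
  intro c c'
  by_cases h : (c'.2 : ℕ) = c.2 + s
  · have : (fun l => blk (W l) (X.lift l s (T l)) c c') = fun l => blk (W l) (T l) c.1 c'.1 := by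
      funext l
      rw [blk_lift, if_pos h]
    rw [this]
    exact hT c.1 c'.1
  · have : (fun l => blk (W l) (X.lift l s (T l)) c c') = 0 := by
      funext l
      rw [blk_lift, if_neg h]
      rfl
    rw [this]
    exact zero_mem _

lemma motivic_eNd (hW : Compatible W) : Motivic W X.EY X.eNd := by
  classical
  rw [motivic_iff]
  intro c c'
  by_cases h : c.1 = c'.1 ∧ (c.2 : ℕ) = c'.2 + 1
  · obtain ⟨a, i⟩ := c
    obtain ⟨b, j⟩ := c'
    obtain ⟨h1, h2⟩ := h
    simp only at h1 h2
    subst h1
    have : (fun l => blk (W l) (X.eNd l) ⟨a, i⟩ ⟨a, j⟩) =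
        fun l => ((((((j : ℕ) + 1) * (X.lev a - (j : ℕ)) : ℕ) : ℚ) : K l)) •
          (LinearMap.id : (W l).H (X.Y a) →ₗ[K l] (W l).H (X.Y a)) := by
      funext l
      refine LinearMap.ext fun v => ?_
      change X.eNd l (Pi.single (⟨a, i⟩ : X.Idx) v) ⟨a, j⟩ = _
      rw [eNd_apply, slice_single, if_pos h2.symm, LinearMap.smul_apply, LinearMap.id_apply,
        Rat.cast_natCast]
      congr 1
      exact Pi.single_eq_same (M := fun a => (W l).H (X.Y a)) a v
    rw [this]
    exact smul_mem_JHom W _ (id_mem_JHom hW (X.Y a))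
  · have : (fun l => blk (W l) (X.eNd l) c c') = 0 := by
      funext l
      refine LinearMap.ext fun v => ?_
      change X.eNd l (Pi.single c v) c' = 0
      rw [eNd_apply, slice_single]
      by_cases h2 : (c'.2 : ℕ) + 1 = c.2
      · rw [if_pos h2]
        have h3 : c'.1 ≠ c.1 := fun h3 => h ⟨h3.symm, h2.symm⟩
        have h4 : (Pi.single c.1 v : Tot (W l) X.Y) c'.1 = 0 :=
          Pi.single_eq_of_ne (M := fun a => (W l).H (X.Y a)) h3 v
        rw [h4, smul_zero]
      · rw [if_neg h2]
        exact smul_zero _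
    rw [this]
    exact zero_mem _

lemma motivic_id (hW : Compatible W) :
    Motivic W X.Y (fun l => (LinearMap.id : TEnd (W l) X.Y)) := by
  classical
  exact motivic_one hW

lemma motivic_ed : Motivic W X.EY X.ed := by
  classical
  exact motivic_add (X.motivic_lift 1 X.motivic.1) (X.motivic_lift 0 X.motivic.2.1)

lemma motivic_eN (hW : Compatible W) : Motivic W X.EY X.eN := X.motivic_lift 1 (X.motivic_id hW)

lemma motivic_eL : Motivic W X.EY X.eL := X.motivic_lift 0 X.motivic.2.2.1

lemma motivic_eLam : Motivic W X.EY X.eLam := X.motivic_lift 0 X.motivic.2.2.2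

end Strata

end Pool.Agent.H62S
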