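import Pool.Agent.W_MP_a3c811_h79.Lap.Sl2

/-! The lowering operator is self-adjoint if the raising operator is. -/

noncomputable section

namespace Pool.Agent.H79L

open Module

attribute [local instance 100] LieRing.ofAssociativeRing

universe v w

variable {K : Type v} [Field K] [CharZero K] {E : Type w} [AddCommGroup E] [Module K E]
  [FiniteDimensional K E] {N f : Module.End K E} {s : ℤ → Module.End K E} {P : Finset ℤ}

/-- An operator of weight `-2` which commutes with `N` is zero. -/
theorem Sl.eq_zero (h : Sl N f s P) {a : Module.End K E} (hNa : br N a = 0)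
    (hha : br (br N f) a = -(2 • a)) : a = 0 := by
  by_contra ha0
  have hh0 : br N f ≠ 0 := by
    intro h0
    rw [h0] at hha
    have h4 : br (0 : Module.End K E) a = 0 := by unfold br; simp
    rw [h4] at hha
    have := H62W.Setup.tf (K := K) (V := E)
    exact ha0 ((nsmul_eq_zero_iff_right two_ne_zero).1 (neg_eq_zero.1 hha.symm))
  have t : IsSl2Triple (br N f) N f :=
    { h_ne_zero := hh0
      lie_e_f := by rw [Ring.lie_def]; rfl
      lie_h_e_nsmul := by rw [Ring.lie_def]; exact h.hN
      lie_h_f_nsmul := by rw [Ring.lie_def]; exact h.hf }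
  have Pr : t.HasPrimitiveVectorWith a (-2 : K) :=
    { ne_zero := ha0
      lie_h := by
        rw [Ring.lie_def]
        refine Eq.trans (b := -(2 • a)) hha ?_
        rw [neg_smul, ← Nat.cast_smul_eq_nsmul K]
        simp
      lie_e := by rw [Ring.lie_def]; exact hNa }
  obtain ⟨m, hm⟩ := Pr.exists_nat
  have : (-2 : ℤ) = (m : ℤ) := by exact_mod_cast hm
  omega

/-- If `N` is self-adjoint for a nondegenerate form and the parts of position `p` and `q` are
orthogonal for `p + q ≠ 0`, then `f` is self-adjoint. -/
theorem Sl.adj_f (h : Sl N f s P) (B : LinearMap.BilinForm K E)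
    (hB : ∀ x, (∀ y, B x y = 0) → x = 0) (hN : ∀ x y, B (N x) y = B x (N y))
    (hs : ∀ p x y, B (s p x) y = B x (s (-p) y)) (x y : E) : B (f x) y = B x (f y) := by
  have hh : ∀ x y, B (br N f x) y = -B x (br N f y) := by
    intro x y
    have h1 : (∑ p ∈ P, s p) x = x := by rw [h.sum]; rfl
    rw [← h1]
    simp only [LinearMap.sum_apply, map_sum]
    rw [← Finset.sum_neg_distrib]
    refine Finset.sum_congr rfl fun p _ => ?_
    have h2 : br N f (s p x) = (p : K) • s p x := LinearMap.congr_fun (h.h p) x
    have h3 : s (-p) (br N f y) = ((-p : ℤ) : K) • s (-p) y := LinearMap.congr_fun (h.sh (-p)) y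
    rw [h2, hs, h3, map_smul, LinearMap.smul_apply, hs, map_smul]
    push_cast
    simp only [smul_eq_mul]
    ring
  have hnd : B.Nondegenerate := LinearMap.BilinForm.Nondegenerate.ofSeparatingLeft hB
  let g := B.leftAdjointOfNondegenerate hnd f
  have hg : ∀ x y, B (g x) y = B x (f y) := fun x y =>
    LinearMap.BilinForm.isAdjointPairLeftAdjointOfNondegenerate B hnd f x y
  have e1 : br N g = br N f := by
    ext x
    rw [← sub_eq_zero]
    apply hB
    intro y
    rw [map_sub, LinearMap.sub_apply, hh, sub_neg_eq_add]
    have h1 : B (br N g x) y = B x (f (N y)) - B x (N (f y)) := by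
      change B (N (g x) - g (N x)) y = _
      rw [map_sub, LinearMap.sub_apply, hN, hg, hg, hN]
    have h2 : B x (br N f y) = B x (N (f y)) - B x (f (N y)) := by
      change B x (N (f y) - f (N y)) = _
      rw [map_sub]
    rw [h1, h2]
    ring
  have e2 : br (br N f) g = -(2 • g) := by
    ext x
    rw [← sub_eq_zero]
    apply hB
    intro y
    have h1 : B (br (br N f) g x) y = -B x (f (br N f y)) + B x (br N f (f y)) := by
      change B (br N f (g x) - g (br N f x)) y = _
      rw [map_sub, LinearMap.sub_apply, hh, hg, hg, hh]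
      ring
    have h2 : br N f (f y) - f (br N f y) = -(2 • f y) := LinearMap.congr_fun h.hf y
    have h3 : B ((-(2 • g)) x) y = -(2 * B x (f y)) := by
      have : (-(2 • g)) x = -((2 : K) • g x) := by
        simp [two_smul]
      rw [this, map_neg, LinearMap.neg_apply, map_smul, LinearMap.smul_apply, hg, smul_eq_mul]
    have h4 : br N f (f y) = f (br N f y) - (2 : K) • f y := by
      rw [sub_eq_iff_eq_add'.1 h2, two_nsmul, two_smul, sub_eq_add_neg]
    rw [map_sub, LinearMap.sub_apply, h1, h3, h4, map_sub, map_smul, smul_eq_mul]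
    ring
  have e3 : g - f = 0 := by
    refine h.eq_zero ?_ ?_
    · have : br N (g - f) = br N g - br N f := by unfold br; noncomm_ring
      rw [this, e1, sub_self]
    · have : br (br N f) (g - f) = br (br N f) g - br (br N f) f := by
        generalize br N f = c
        unfold br
        noncomm_ring
      have h5 : br (br N f) f = -(2 • f) := h.hf
      rw [this, e2, h5, smul_sub]
      abel
  rw [← hg, sub_eq_zero.1 e3]

end Pool.Agent.H79L
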