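import Pool.Agent.W_a3c811_h62w.StrataB
import Pool.Agent.W_a3c811_h62w.AdjF

/-! Adjointness of the operators of the `E_1`-term. -/

noncomputable section

set_option linter.unusedSectionVars false

namespace Pool.Agent.H62S

open Pool.Agent.WeilH_h6 Pool.Agent.WeilH_h6.VarClass Pool.Agent.H62D Pool.Agent.H62A
  Pool.Agent.H79L

universe u v w

variable {k : Type u} [Field k] {𝒱 : VarClass k} {I : Type} {K : I → Type v} [∀ l, Field (K l)]
  [∀ l, CharZero (K l)] {W : ∀ l, Weil.{u, v, w} 𝒱 (K l)}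

/-- motivic endomorphisms commute with the parity -/
lemma motivic_par {ι : Type} [Fintype ι] {Y : ι → 𝒱.Obj} {T : ∀ l, TEnd (W l) Y}
    (hT : Motivic W Y T) (l : I) (x : Tot (W l) Y) (b : ι) :
    (W l).par (Y b) (T l x b) = T l (fun a => (W l).par (Y a) (x a)) b := by
  classical
  rw [motivic_iff] at hT
  rw [blk_apply, blk_apply, map_sum]
  refine Finset.sum_congr rfl fun a _ => ?_
  obtain ⟨z, ⟨c, hc⟩, hz⟩ := hT a b
  have h1 : blk (W l) (T l) a b = (W l).act (z l) := hz l
  have h2 : blk (W l) (T l) a b ∈ (W l).algHom (Y a) (Y b) := by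
    rw [h1, (W l).act_mem_algHom, hc]
    exact clT_mem_algSpan (W l) c
  exact ((W l).par_algHom h2 (x a)).symm

section one

variable {F : Type v} [Field F] (V : Weil.{u, v, w} 𝒱 F)

lemma tr_kapZ {Y : 𝒱.Obj} (m : ℤ) (x y : V.H Y) :
    V.tr Y (kapZ V Y m x * y) = V.tr Y (x * kapZ V Y (2 * Y.dim - m) y) := by
  refine V.hom_induction (P := fun x => V.tr Y (kapZ V Y m x * y) =
    V.tr Y (x * kapZ V Y (2 * Y.dim - m) y)) (by simp) ?_ ?_ x
  · intro a b ha hb; simp only [map_add, add_mul] at ha hb ⊢; rw [ha, hb]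
  intro i x hx
  refine V.hom_induction (P := fun y => V.tr Y (kapZ V Y m x * y) =
    V.tr Y (x * kapZ V Y (2 * Y.dim - m) y)) (by simp) ?_ ?_ y
  · intro a b ha hb; simp only [map_add, mul_add] at ha hb ⊢; rw [ha, hb]
  intro j y hy
  have hx' : x ∈ gradZ V Y (i : ℤ) := by
    unfold gradZ
    rw [if_pos (by omega), Int.toNat_natCast]
    exact hx
  have hy' : y ∈ gradZ V Y (j : ℤ) := by
    unfold gradZ
    rw [if_pos (by omega), Int.toNat_natCast]
    exact hy
  by_cases h : i + j = 2 * Y.dim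
  · by_cases hm : (i : ℤ) = m
    · rw [← hm, kapZ_of_mem V hx', show 2 * (Y.dim : ℤ) - i = j by omega, kapZ_of_mem V hy']
    · rw [kapZ_of_mem_ne V hm hx', kapZ_of_mem_ne V (by omega) hy', zero_mul, mul_zero]
  · have h0 : V.tr Y (x * y) = 0 := V.tr_grad Y (i + j) _ (V.mul_mem_grad hx hy) h
    have h1 : V.tr Y (kapZ V Y m x * y) = 0 := by
      by_cases hm : (i : ℤ) = m
      · rw [← hm, kapZ_of_mem V hx', h0]
      · rw [kapZ_of_mem_ne V hm hx', zero_mul, map_zero]
    have h2 : V.tr Y (x * kapZ V Y (2 * Y.dim - m) y) = 0 := by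
      by_cases hm : (j : ℤ) = 2 * Y.dim - m
      · rw [← hm, kapZ_of_mem V hy', h0]
      · rw [kapZ_of_mem_ne V hm hy', mul_zero, map_zero]
    rw [h1, h2]

variable {ι : Type} [Fintype ι] (Y : ι → 𝒱.Obj)

instance : FiniteDimensional F (Tot V Y) := by
  have : ∀ a, FiniteDimensional F (V.H (Y a)) := fun a => V.axFinite (Y a)
  infer_instance

/-- the total form -/
def tform : LinearMap.BilinForm F (Tot V Y) :=
  LinearMap.mk₂ F (fun x y => ∑ a, V.deg (x a * y a))
    (fun x x' y => by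
      simp only [Pi.add_apply, add_mul, ← Finset.sum_add_distrib]
      exact Finset.sum_congr rfl fun a _ => map_add (V.tr (Y a)) _ _)
    (fun c x y => by
      simp only [Pi.smul_apply, smul_mul_assoc, Finset.smul_sum]
      exact Finset.sum_congr rfl fun a _ => map_smul (V.tr (Y a)) _ _)
    (fun x y y' => by
      simp only [Pi.add_apply, mul_add, ← Finset.sum_add_distrib]
      exact Finset.sum_congr rfl fun a _ => map_add (V.tr (Y a)) _ _)
    (fun c x y => by
      simp only [Pi.smul_apply, mul_smul_comm, Finset.smul_sum]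
      exact Finset.sum_congr rfl fun a _ => map_smul (V.tr (Y a)) _ _)

lemma tform_apply (x y : Tot V Y) : tform V Y x y = ∑ a, V.deg (x a * y a) := rfl

lemma tform_nd (x : Tot V Y) (h : ∀ y, tform V Y x y = 0) : x = 0 := by
  classical
  funext a
  refine V.axDuality (Y a) (x a) fun v => ?_
  have h1 := h (Pi.single a v)
  rw [tform_apply, Finset.sum_eq_single a] at h1
  · rwa [Pi.single_eq_same] at h1
  · intro b _ hb
    rw [Pi.single_eq_of_ne hb, mul_zero]
    exact map_zero (V.tr (Y b))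
  · intro ha
    exact absurd (Finset.mem_univ a) ha

end one

variable (X : Strata W)

namespace Strata

section single

variable (l : I)

lemma adj_gys (x y : Tot (W l) X.Y) :
    ∑ a, (W l).deg (X.gys l x a * y a) = ∑ a, (W l).deg (x a * X.res l y a) := by
  have h1 : ∀ a, (W l).deg (X.gys l x a * y a) =
      (W l).deg (y a * X.gys l (fun a => (W l).par (X.Y a) (x a)) a) := by
    intro a
    rw [← motivic_par X.motivic.2.1 l x a]
    exact (W l).tr_comm _ _
  have h2 : ∀ a, (W l).deg (x a * X.res l y a) =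
      (W l).deg (X.res l y a * (W l).par (X.Y a) (x a)) := fun a => (W l).tr_comm _ _
  simp only [h1, h2]
  exact ((X.adjoint l).1 y _).symm

lemma tform_deg (w : ℤ) (x y : Tot (W l) X.Y) :
    tform (W l) X.Y (degProj (W l) X.Y X.ilev 0 w x) y =
      tform (W l) X.Y x (degProj (W l) X.Y X.ilev 0 (2 * X.n - w) y) := by
  rw [tform_apply, tform_apply]
  refine Finset.sum_congr rfl fun a _ => ?_
  rw [Proj_degProj_apply, Proj_degProj_apply]
  have h1 := tr_kapZ (W l) (w - X.ilev a - 2 * (0 : X.J → ℤ) a) (x a) (y a)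
  have h2 : 2 * ((X.Y a).dim : ℤ) - (w - X.ilev a - 2 * (0 : X.J → ℤ) a) =
      2 * X.n - w - X.ilev a - 2 * (0 : X.J → ℤ) a := by
    have := X.dim_eq a
    unfold ilev
    simp only [Pi.zero_apply]
    omega
  rw [h2] at h1
  exact h1

/-- the strata as a representation of `sl2` -/
lemma exists_sl : ∃ P : Finset ℤ, Sl (X.L l) (X.Lam l)
    (fun p => degProj (W l) X.Y X.ilev 0 (p + X.n)) P := by
  obtain ⟨D, hD⟩ := exists_sum_degProj (W l) X.Y X.ilev 0
  refine ⟨D.image fun w => w - X.n, ?_, ?_, ?_, ?_, ?_, ?_⟩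
  · rw [Finset.sum_image (fun a _ b _ hab => by simpa using hab)]
    simp only [sub_add_cancel]
    exact hD
  · intro p
    exact LinearMap.ext fun x => degProj_of_mem _ _ _ _ (degProj_mem _ _ _ _ _ _)
  · intro p p' hp
    refine LinearMap.ext fun x => ?_
    exact Proj_degProj_of_mem_ne _ _ _ _ (by omega) (degProj_mem (W l) X.Y X.ilev 0 (p' + X.n) x)
  · intro p
    refine LinearMap.ext fun x => ?_
    have h := X.lefschetz l (p + X.n) _ (degProj_mem (W l) X.Y X.ilev 0 (p + X.n) x)
    have h1 : ((p + (X.n : ℤ) - X.n : ℤ) : K l) = (p : K l) := by push_cast; ring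
    rw [h1] at h
    exact h
  · intro p
    have h := comp_degProj (W l) X.Y X.ilev 0 (X.bidegree l).2.2.1 (p + X.n)
    rw [show p + (X.n : ℤ) + 2 = p + 2 + X.n by ring] at h
    exact h
  · intro p
    have h := comp_degProj (W l) X.Y X.ilev 0 (X.bidegree l).2.2.2 (p + X.n)
    rw [show p + (X.n : ℤ) + -2 = p - 2 + X.n by ring] at h
    exact h

lemma adj_Lam (x y : Tot (W l) X.Y) :
    ∑ a, (W l).deg (X.Lam l x a * y a) = ∑ a, (W l).deg (x a * X.Lam l y a) := by
  obtain ⟨P, hP⟩ := X.exists_sl l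
  refine hP.adj_f (tform (W l) X.Y) (tform_nd (W l) X.Y) (fun x y => (X.adjoint l).2 x y) ?_ x y
  intro p x y
  change tform (W l) X.Y (degProj (W l) X.Y X.ilev 0 (p + X.n) x) y =
    tform (W l) X.Y x (degProj (W l) X.Y X.ilev 0 (-p + X.n) y)
  rw [X.tform_deg l, show 2 * (X.n : ℤ) - (p + X.n) = -p + X.n by ring]

end single

end Strata

end Pool.Agent.H62S
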