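import Pool.Agent.W_a3c811_h62w.Ab25

/-! Hard Lefschetz and weight monodromy for the cohomology, conditions on the primitive parts
`(i, j)` with `i` and `j` positive only. -/

noncomputable section

set_option linter.unusedSectionVars false

namespace Pool.Agent.H62X

open Module Polynomial Pool.Agent.H79L

universe v w

variable {K : Type v} [Field K] [CharZero K] {E : Type w} [AddCommGroup E] [Module K E]
  [FiniteDimensional K E]
  {N f L g d : Module.End K E} {n : ℤ} {s t : ℤ → Module.End K E}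
  {P D : Finset ℤ} {S : E →ₗ[K] E →ₗ[K] K} {B : Subring (Module.End K E)}
  {Z : Module.End K E}

/-- `(g d f d)^2 = - Δ g d f d` -/
lemma gQ_sq (hb : Bi N f L g d n s t P D) :
    g * (d * f * d) * (g * (d * f * d)) = -(lap f g d * (g * (d * f * d))) := by
  obtain ⟨a01, a02, a11, a22, a33, a12, a13, a23⟩ := hb.rel
  have dd : d * d = 0 := hb.dd
  set a := br f d with ha
  set b := br g d with hbb
  set c := br f (br g d) with hc
  have eP : d * f * d = d * a := by
    rw [ha]; unfold br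
    rw [mul_sub, ← mul_assoc d d f, dd, zero_mul, sub_zero, mul_assoc]
  have hlap : lap f g d = d * c + c * d := rfl
  have hc2 : c = g * a - a * g := by
    have h1 : c = f * (g * d - d * g) - (g * d - d * g) * f := rfl
    have h2 : a = f * d - d * f := rfl
    have h3 : f * g = g * f := hb.fg
    rw [h1, h2]
    calc f * (g * d - d * g) - (g * d - d * g) * f =
        (f * g) * d - f * d * g - g * d * f + d * (g * f) := by noncomm_ring
      _ = (g * f) * d - f * d * g - g * d * f + d * (f * g) := by rw [h3]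
      _ = _ := by noncomm_ring
  have hPf : d * a * g = g * (d * a) - (b * a + d * c) := by
    have hb' : b = g * d - d * g := rfl
    rw [hb', hc2]
    noncomm_ring
  have had : a * d = -(d * a) := by
    have := a01
    rw [add_comm] at this
    exact eq_neg_of_add_eq_zero_left this
  have hPP : d * a * (d * a) = 0 := by
    rw [mul_assoc, ← mul_assoc a d a, had, neg_mul, mul_assoc d a a, a11, mul_zero, neg_zero,
      mul_zero]
  have e1 : (b * a + d * c) * (d * a) = lap f g d * (d * a) := by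
    have k1 : b * a * (d * a) = 0 := by
      rw [mul_assoc, ← mul_assoc a d a, had, neg_mul, mul_assoc d a a, a11, mul_zero, neg_zero,
        mul_zero]
    have k2 : d * c * (d * a) = lap f g d * (d * a) := by
      rw [hlap, add_mul]
      have k3 : c * d * (d * a) = 0 := by
        rw [mul_assoc, ← mul_assoc d d a, dd, zero_mul, mul_zero]
      rw [k3, add_zero]
    rw [add_mul, k1, zero_add, k2]
  have hlg : lap f g d * g = g * lap f g d := hb.lap_g
  rw [eP]
  calc g * (d * a) * (g * (d * a)) = g * (d * a * g) * (d * a) := by noncomm_ring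
    _ = g * (g * (d * a) - (b * a + d * c)) * (d * a) := by rw [hPf]
    _ = g * g * (d * a * (d * a)) - g * ((b * a + d * c) * (d * a)) := by noncomm_ring
    _ = -(g * (lap f g d * (d * a))) := by rw [hPP, e1, mul_zero, zero_sub]
    _ = -(lap f g d * (g * (d * a))) := by rw [← mul_assoc, ← hlg, mul_assoc]

section har

variable (h : Pol N f L g d n s t P D S B)
  (hZ : Har N f L g d s t S B Z)
include h hZ

/-- `g d f d` vanishes on the good primitive part `(i + 1, 1)`, the second highest level, if the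
highest level has weight `0` only. -/
theorem gd_gQ {i : ℕ} (hG : Gd N f L g d n s t S B (i + 1) 1)
    (htop : ∀ p : ℤ, p < -((i + 2 : ℕ) : ℤ) → ∀ w, ∀ x ∈ Hs s t n Z p w, x = 0)
    (hw : ∀ w, w ≠ 0 → ∀ x ∈ Hs s t n Z (-((i + 2 : ℕ) : ℤ)) w, x = 0) {x : E}
    (hx : x ∈ prim f g n s t (i + 1) 1) (hzx : Z x = x) : g (d (f (d x))) = 0 := by
  have hb := h.bi
  have lb := lbL h hZ
  have app : ∀ x, (g * (d * f * d) * Z) x = g (d (f (d (Z x)))) := fun x => rfl
  have hZat : ∀ x ∈ prim f g n s t (i + 1) 1,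
      Z x ∈ Hs s t n Z (-((i + 1 : ℕ) : ℤ)) (-1) := fun x hx =>
    Hs.z_at h hZ (by simpa using prim_at hb hx)
  have hfd : ∀ x ∈ prim f g n s t (i + 1) 1,
      f (d (Z x)) ∈ Hs s t n Z (-((i + 2 : ℕ) : ℤ)) 0 := by
    intro x hx
    have := Hs.hf h hZ (Hs.hd h hZ (hZat x hx))
    rwa [show -((i + 1 : ℕ) : ℤ) + 1 - 2 = -((i + 2 : ℕ) : ℤ) by push_cast; ring,
      show (-1 : ℤ) + 1 = 0 by ring] at this
  have hdfd : ∀ x ∈ prim f g n s t (i + 1) 1,
      d (f (d (Z x))) ∈ Hs s t n Z (-((i + 1 : ℕ) : ℤ)) 1 := by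
    intro x hx
    have := Hs.hd h hZ (hfd x hx)
    rwa [show -((i + 2 : ℕ) : ℤ) + 1 = -((i + 1 : ℕ) : ℤ) by push_cast; ring,
      show (0 : ℤ) + 1 = 1 by ring] at this
  have key := hG.nil (u := g * (d * f * d) * Z)
    (mul_mem (mul_mem h.mg (mul_mem (mul_mem h.md h.mf) h.md)) hZ.mem) (fun x => ?_)
    (fun x hx => ?_) (fun x hx y hy => ?_) 2 (fun x hx => ?_) x hx
  · rwa [app, hzx] at key
  · rw [app]
    exact (stab_radS hb).g _ (cmp_mem_radS (f := f) (g := g) (d := d) 0 (f (d (Z x))))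
  · rw [app]
    have h1 := Hs.hg h hZ (hdfd x hx)
    rw [show (1 : ℤ) - 2 = -((1 : ℕ) : ℤ) by norm_num] at h1
    refine prim_of hb h1.1 (htop _ (by push_cast; omega) _ _ (Hs.hf h hZ h1)) ?_
    have h2 : g (f (d (Z x))) = 0 := hw _ (by norm_num) _ (Hs.hg h hZ (hfd x hx))
    rw [lb.ggd, h2, map_zero, map_zero, map_zero, smul_zero, sub_zero]
  · -- self-adjointness
    rw [app, app]
    have cN : ∀ (m : ℕ) z, Z ((N ^ m) z) = (N ^ m) (Z z) := fun m z =>
      LinearMap.congr_fun ((show Commute Z N from hZ.mN).pow_right m).eq z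
    have cgN : ∀ (m : ℕ) z, g ((N ^ m) z) = (N ^ m) (g z) := fun m z =>
      LinearMap.congr_fun ((show Commute g N from hb.Ng.symm).pow_right m).eq z
    have cdN : ∀ (m : ℕ) z, d ((N ^ m) z) = (N ^ m) (d z) := fun m z =>
      LinearMap.congr_fun ((show Commute d N from hb.Nd.symm).pow_right m).eq z
    have hgy : g (L y) = y := by
      have h1 := (prim_at hb hy).brL hb
      rw [((mem_prim_iff hb).1 hy).2.2.2, map_zero] at h1
      have h2 := eq_neg_of_add_eq_zero_left h1.symm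
      rw [h2, ← neg_smul]
      simp
    have hv : L (g (d (f (d (Z y))))) = d (f (d (Z y))) := by
      have h1 := lb.br _ _ _ (hdfd y hy)
      have h2 : L (f (d (Z y))) = 0 := hw _ (by norm_num) _ (Hs.hL h hZ (hfd y hy))
      rw [lb.Ld, h2, map_zero, map_zero, zero_add] at h1
      rw [h1]
      simp
    have e1 : f ((N ^ (i + 1)) (d (Z y))) = (N ^ (i + 1)) (f (d (Z y))) :=
      f_Npow_comm hb.sl (Hs.hd h hZ (hZat y hy)).1.hs
    rw [pow_one, h.ag, h.ad, h.af, h.ad, hZ.adj.1, cgN, hgy, hv]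
    congr 1
    rw [hZ.zd, hZ.zf, hZ.zd, cN, cdN, e1, cdN]
  · -- square zero
    have e1 : ((g * (d * f * d) * Z) ^ 2) x = (g * (d * f * d) * (g * (d * f * d))) (Z x) := by
      have c1 : ∀ x, Z (g (d (f (d x)))) = g (d (f (d (Z x)))) := by
        intro x
        rw [hZ.zg, hZ.zd, hZ.zf, hZ.zd]
      rw [pow_two]
      change g (d (f (d (Z (g (d (f (d (Z x))))))))) = g (d (f (d (g (d (f (d (Z x))))))))
      rw [c1, hZ.zz]
    rw [e1, gQ_sq hb]
    have hl : lap f g d (Z x) = 0 :=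
      gd_lap h hZ hG (hZ.prim h hx) (hZ.zz x)
    have c2 : lap f g d * (g * (d * f * d)) = g * (d * f * d) * lap f g d := by
      have k1 : lap f g d * f = f * lap f g d := hb.lap_f
      have k2 : lap f g d * d = d * lap f g d := hb.lap_d
      have k3 : lap f g d * g = g * lap f g d := hb.lap_g
      calc lap f g d * (g * (d * f * d)) = (lap f g d * g) * (d * f * d) := by noncomm_ring
        _ = g * (lap f g d * d) * (f * d) := by rw [k3]; noncomm_ring
        _ = g * d * (lap f g d * f) * d := by rw [k2]; noncomm_ring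
        _ = g * d * f * (lap f g d * d) := by rw [k1]; noncomm_ring
        _ = g * (d * f * d) * lap f g d := by rw [k2]; noncomm_ring
    rw [c2, LinearMap.neg_apply, Module.End.mul_apply, hl, map_zero, neg_zero]

/-- surjectivity of the powers of `N` on the cohomology -/
lemma sur_EI {w : ℤ} {m : ℕ} (hN : EI (N ^ m) d s t n (-(m : ℤ)) w m w) {z : E}
    (hz : z ∈ Hs s t n Z (m : ℤ) w) (hdz : d z = 0) : ∃ x ∈ Hs s t n Z (-(m : ℤ)) w,
      ∃ y ∈ Hs s t n Z ((m : ℤ) - 1) (w - 1), d x = 0 ∧ z = (N ^ m) x + d y := by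
  obtain ⟨x, y, hx, hdx, hy⟩ := hN.surj z hz.1 hdz
  have h0 : At s t n m w ((N ^ m) x) := by
    have : ∀ k : ℕ, At s t n (-(m : ℤ) + 2 * k) w ((N ^ k) x) := by
      intro k
      induction k with
      | zero => simpa using hx
      | succ k ih =>
        rw [pow_succ', Module.End.mul_apply]
        have := ih.aN h.bi
        rwa [show -(m : ℤ) + 2 * (k : ℤ) + 2 = -(m : ℤ) + 2 * ((k + 1 : ℕ) : ℤ) by
          push_cast; ring] at this
    have := this m
    rwa [show -(m : ℤ) + 2 * (m : ℤ) = m by ring] at this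
  have h3 : z - (N ^ m) x = d y := by rw [hy]; abel
  obtain ⟨y', h1, h2⟩ := at_hom h.bi (hz.1.sub h0) h3
  have cN : ∀ x, Z ((N ^ m) x) = (N ^ m) (Z x) := fun x =>
    LinearMap.congr_fun ((show Commute Z N from hZ.cg 0).pow_right m).eq x
  refine ⟨Z x, Hs.z_at h hZ hx, Z y', Hs.z_at h hZ h1, ?_, ?_⟩
  · rw [← hZ.zd, hdx, map_zero]
  · rw [← cN, ← hZ.zd, ← h2, map_sub, hz.2]
    abel

/-- The weight `0` part of the highest level. -/
theorem rowN (hL : ∀ (p : ℤ) (m : ℕ), EI (L ^ m) d s t n p (-(m : ℤ)) p m) {r : ℕ}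
    (hN : EI (N ^ (r + 1)) d s t n (-((r + 1 : ℕ) : ℤ)) 0 ((r + 1 : ℕ) : ℤ) 0)
    (htop : ∀ p : ℤ, p < -((r + 1 : ℕ) : ℤ) → ∀ w, ∀ x ∈ Hs s t n Z p w, x = 0)
    (hw : ∀ w, w ≠ 0 → ∀ x ∈ Hs s t n Z (-((r + 1 : ℕ) : ℤ)) w, x = 0)
    (g1 : 1 ≤ r → Gd N f L g d n s t S B r 1) :
    ∀ x ∈ Hs s t n Z (-((r + 1 : ℕ) : ℤ)) 0, d x = 0 := by
  have hb := h.bi
  have lc := lcL h hZ hL
  have ln := lbN h hZ
  have hbig : ∀ p : ℤ, ((r + 1 : ℕ) : ℤ) < p → ∀ w, ∀ x ∈ Hs s t n Z p w, x = 0 := by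
    intro p hp w x hx
    obtain ⟨k, rfl⟩ := Int.eq_ofNat_of_zero_le (show 0 ≤ p by omega)
    obtain ⟨y, hy, rfl⟩ := ln.sur w k x hx
    rw [htop _ (by omega) _ _ hy, map_zero]
  have hr1 : ((r : K) + 1) ≠ 0 := by exact_mod_cast Nat.succ_ne_zero r
  -- the first step
  have step : ∀ x ∈ Hs s t n Z (-((r + 1 : ℕ) : ℤ)) 0,
      ∃ t' ∈ Hs s t n Z (-((r + 1 : ℕ) : ℤ)) 0, ∃ s' ∈ Hs s t n Z (-(r : ℤ)) (-1), d t' = 0 ∧
        ((r : K) + 1) • (x - t') = f (d s') := by
    intro x hx
    have hNx := ln.hLp hx (r + 1)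
    rw [show -((r + 1 : ℕ) : ℤ) + 2 * ((r + 1 : ℕ) : ℤ) = ((r + 1 : ℕ) : ℤ) by ring] at hNx
    have hc : d ((N ^ (r + 1)) x) = 0 := hbig _ (by omega) _ _ (Hs.hd h hZ hNx)
    obtain ⟨t', ht', y, hy, hdt, hty⟩ := sur_EI h hZ hN hNx hc
    have hy2 : y ∈ Hs s t n Z (r : ℤ) (-1) := by
      have : y ∈ Hs s t n Z (((r + 1 : ℕ) : ℤ) - 1) (0 - 1) := hy
      rwa [show ((r + 1 : ℕ) : ℤ) - 1 = (r : ℤ) by push_cast; ring, zero_sub] at this
    obtain ⟨s', hs', rfl⟩ := ln.sur (-1) r y hy2
    have hs2 : s' ∈ Hs s t n Z (-(r : ℤ)) (-1) := hs'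
    have hxt : x - t' ∈ Hs s t n Z (-((r + 1 : ℕ) : ℤ)) 0 := Submodule.sub_mem _ hx ht'
    have hκm : N (x - t') - d s' ∈ Hs s t n Z (-(r : ℤ) + 1) 0 := by
      refine Submodule.sub_mem _ ?_ ?_
      · have := Hs.hN h hZ hxt
        rwa [show -((r + 1 : ℕ) : ℤ) + 2 = -(r : ℤ) + 1 by push_cast; ring] at this
      · have := Hs.hd h hZ hs2
        rwa [show (-1 : ℤ) + 1 = 0 by ring] at this
    have hκ : (N ^ r) (N (x - t') - d s') = 0 := by
      have e1 : (N ^ r) (N (x - t')) = (N ^ (r + 1)) x - (N ^ (r + 1)) t' := by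
        rw [← map_sub, pow_succ]; rfl
      have e2 : (N ^ r) (d s') = d ((N ^ r) s') := ln.Lpd r s'
      rw [map_sub, e1, e2, hty]
      abel
    have hfκ : f (N (x - t') - d s') = 0 := by
      rcases Nat.eq_zero_or_pos r with rfl | hr0
      · have : N (x - t') - d s' = 0 := by simpa using hκ
        rw [this, map_zero]
      · obtain ⟨r', rfl⟩ : ∃ r', r = r' + 1 := ⟨r - 1, by omega⟩
        rw [show -((r' + 1 : ℕ) : ℤ) + 1 = -(r' : ℤ) by push_cast; ring] at hκm
        exact ln.low_of (p := 0) hκm hκ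
    refine ⟨t', ht', s', hs2, hdt, ?_⟩
    have h1 := hxt.1.brN hb
    have h2 : f (x - t') = 0 := htop _ (by omega) _ _ (Hs.hf h hZ hxt)
    rw [h2, map_zero] at h1
    rw [map_sub] at hfκ
    rw [← sub_eq_zero.1 hfκ, eq_neg_of_add_eq_zero_left h1.symm, ← neg_smul]
    congr 1
    push_cast
    ring
  rcases Nat.eq_zero_or_pos r with rfl | hr0
  · -- level one
    have step2 : ∀ x ∈ Hs s t n Z (-((0 + 1 : ℕ) : ℤ)) 0,
        ∃ t' ∈ Hs s t n Z (-((0 + 1 : ℕ) : ℤ)) 0, ∃ y ∈ Hs s t n Z (-((0 + 1 : ℕ) : ℤ)) 0,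
          d t' = 0 ∧ x = t' + (f * (d * g * d)) y := by
      intro x hx
      obtain ⟨t', ht', s', hs', hdt, hxs⟩ := step x hx
      have h1 : ((((0 : ℕ) : K)) + 1) = 1 := by simp
      rw [h1, one_smul] at hxs
      have hz : ∀ w, w ≠ 0 → ∀ z ∈ Hs s t n Z 1 w, z = 0 := by
        intro w hw0 z hz
        obtain ⟨y, hy, rfl⟩ := ln.sur w 1 z (by simpa using hz)
        rw [hw w hw0 y (by simpa using hy), map_zero]
      have hs0 : s' ∈ Hs s t n Z 0 (-1) := by simpa using hs'
      have hLs : L s' ∈ Hs s t n Z 0 1 := by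
        have := Hs.hL h hZ hs0
        rwa [show (-1 : ℤ) + 2 = 1 by norm_num] at this
      have hc : d (L s') = 0 := hz 2 (by norm_num) _ (by
        have := Hs.hd h hZ hLs
        rwa [show (0 : ℤ) + 1 = 1 by norm_num, show (1 : ℤ) + 1 = 2 by norm_num] at this)
      obtain ⟨x', hx', y, hy, hdx', hxy⟩ := lc.hsur 0 1 _ (by simpa using hLs) hc
      have hy0 : y ∈ Hs s t n Z (-((0 + 1 : ℕ) : ℤ)) 0 := by simpa using hy
      have hx0 : x' ∈ Hs s t n Z 0 (-1) := by simpa using hx'
      refine ⟨t', ht', y, hy0, hdt, ?_⟩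
      rw [pow_one] at hxy
      have hσ : s' - x' ∈ Hs s t n Z 0 (-1) := Submodule.sub_mem _ hs0 hx0
      have hLσ : L (s' - x') = d y := by rw [map_sub, hxy]; abel
      have hbr := lc.br _ _ _ hσ
      rw [hLσ] at hbr
      have hgσ : d (g (s' - x')) = 0 := hz (-2) (by norm_num) _ (by
        have := Hs.hd h hZ (Hs.hg h hZ hσ)
        rwa [show (0 : ℤ) + 1 = 1 by norm_num, show (-1 : ℤ) - 2 + 1 = -2 by norm_num] at this)
      have h3 : d s' = d (g (d y)) := by
        have h4 := congrArg d hbr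
        rw [← lc.Ld, hgσ, map_zero, map_add, map_smul, map_sub, hdx', sub_zero] at h4
        have h5 : (((-1 : ℤ) : K)) • d s' = -(d s') := by simp
        rw [h5] at h4
        exact (sub_eq_zero.1 (by rw [sub_eq_add_neg]; exact h4.symm)).symm
      rw [h3] at hxs
      have h6 : (f * (d * g * d)) y = f (d (g (d y))) := rfl
      rw [h6, ← hxs]
      abel
    have iter : ∀ k : ℕ, ∀ x ∈ Hs s t n Z (-((0 + 1 : ℕ) : ℤ)) 0,
        ∃ t', ∃ y ∈ Hs s t n Z (-((0 + 1 : ℕ) : ℤ)) 0,
          d t' = 0 ∧ x = t' + ((f * (d * g * d)) ^ (k + 1)) y := by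
      intro k
      induction k with
      | zero =>
        intro x hx
        obtain ⟨t', _, y, hy, h1, h2⟩ := step2 x hx
        exact ⟨t', y, hy, h1, by rw [zero_add, pow_one]; exact h2⟩
      | succ k ih =>
        intro x hx
        obtain ⟨t', y, hy, h1, h2⟩ := ih x hx
        obtain ⟨t2, _, y2, hy2, h3, h4⟩ := step2 y hy
        refine ⟨t', y2, hy2, h1, ?_⟩
        have h5 : ((f * (d * g * d)) ^ (k + 1)) t2 = 0 := by
          rw [pow_succ]
          change ((f * (d * g * d)) ^ k) (f (d (g (d t2)))) = 0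
          rw [h3, map_zero, map_zero, map_zero, map_zero]
        rw [h2, h4, map_add, h5, zero_add, pow_succ (f * (d * g * d)) (k + 1)]
        rfl
    have hpow : ∀ k : ℕ, ∃ c : ℤ, (f * (d * g * d)) ^ (k + 1) =
        (c : Module.End K E) * (f * (d * g * d) * lap f g d ^ k) := by
      have c2 : lap f g d * (f * (d * g * d)) = f * (d * g * d) * lap f g d := by
        have k1 : lap f g d * f = f * lap f g d := hb.lap_f
        have k2 : lap f g d * d = d * lap f g d := hb.lap_d
        have k3 : lap f g d * g = g * lap f g d := hb.lap_g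
        calc lap f g d * (f * (d * g * d)) = (lap f g d * f) * (d * g * d) := by noncomm_ring
          _ = f * (lap f g d * d) * (g * d) := by rw [k1]; noncomm_ring
          _ = f * d * (lap f g d * g) * d := by rw [k2]; noncomm_ring
          _ = f * d * g * (lap f g d * d) := by rw [k3]; noncomm_ring
          _ = f * (d * g * d) * lap f g d := by rw [k2]; noncomm_ring
      intro k
      induction k with
      | zero => exact ⟨1, by simp⟩
      | succ k ih =>
        obtain ⟨c, hc⟩ := ih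
        refine ⟨-c, ?_⟩
        rw [pow_succ', hc]
        calc f * (d * g * d) * ((c : Module.End K E) * (f * (d * g * d) * lap f g d ^ k)) =
            (c : Module.End K E) * ((f * (d * g * d) * (f * (d * g * d))) * lap f g d ^ k) := by
              rw [← mul_assoc, ← (Int.cast_commute c (f * (d * g * d))).eq]
              noncomm_ring
          _ = (c : Module.End K E) * (-(f * (d * g * d) * lap f g d) * lap f g d ^ k) := by
              rw [fP_sq hb, c2]
          _ = _ := by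
              rw [pow_succ']
              push_cast
              noncomm_ring
    intro x hx
    obtain ⟨M, hM⟩ := hZ.nil
    obtain ⟨t', y, hy, h1, h2⟩ := iter M x hx
    obtain ⟨c, hc⟩ := hpow M
    have h3 : (lap f g d ^ M) y = 0 := by
      have := LinearMap.congr_fun hM y
      rw [Module.End.mul_apply, hy.2] at this
      exact this
    have h4 : ((f * (d * g * d)) ^ (M + 1)) y = 0 := by
      rw [hc, Module.End.mul_apply, Module.End.mul_apply, h3, map_zero, map_zero]
    rw [h2, h4, add_zero, h1]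
  · obtain ⟨i, rfl⟩ : ∃ i, r = i + 1 := ⟨r - 1, by omega⟩
    intro x hx
    obtain ⟨t', ht', s', hs', hdt, hxs⟩ := step x hx
    obtain ⟨s0, hs0, s1, hs1, hg0, rfl⟩ := lc.dec (-((i + 1 : ℕ) : ℤ)) 1 s' (by simpa using hs')
    have hs0' : s0 ∈ Hs s t n Z (-((i + 1 : ℕ) : ℤ)) (-((1 : ℕ) : ℤ)) := hs0
    have hp : s0 ∈ prim f g n s t (i + 1) 1 :=
      prim_of hb hs0'.1 (htop _ (by push_cast; omega) _ _ (Hs.hf h hZ hs0')) hg0
    have h1 := gd_gQ h hZ (g1 (by omega)) htop hw hp hs0'.2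
    have h2 : f (d s1) = 0 := by
      refine hw (-(((1 : ℕ) : ℤ)) - 2 + 1) (by norm_num) _ ?_
      have := Hs.hf h hZ (Hs.hd h hZ hs1)
      rwa [show -((i + 1 : ℕ) : ℤ) + 1 - 2 = -((i + 1 + 1 : ℕ) : ℤ) by push_cast; ring] at this
    have h3 : d (f (d s0)) = 0 := by
      have h4 := Hs.hd h hZ (Hs.hf h hZ (Hs.hd h hZ hs0'))
      exact lc.gne _ _ (by norm_num) _ h4 h1
    have h5 := congrArg d hxs
    rw [map_add, map_add, ← lc.Ld, lc.fL, h2, map_zero, add_zero, h3, map_smul, map_sub, hdt,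
      sub_zero] at h5
    exact (smul_eq_zero.1 h5).resolve_left hr1

end har

/-- The second theorem: hard Lefschetz for the cohomology and weight monodromy for the cohomology in
the middle degree, good primitive parts of positive level and positive colevel. -/
theorem thm2 (h : Pol N f L g d n s t P D S B) (hB : ∀ (r : ℚ), ∀ u ∈ B, (r : K) • u ∈ B)
    (hL : ∀ (p : ℤ) (m : ℕ), EI (L ^ m) d s t n p (-(m : ℤ)) p m)
    (hN : ∀ m : ℕ, EI (N ^ m) d s t n (-(m : ℤ)) 0 m 0)
    (hG : ∀ i j, 1 ≤ i → 1 ≤ j → Gd N f L g d n s t S B i j) (hZ : Har N f L g d s t S B Z) :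
    d * Z = 0 := by
  classical
  have hb := h.bi
  have key : ∀ r : ℕ, ∀ Z, Har N f L g d s t S B Z →
      (∀ p : ℤ, p < -(r : ℤ) → ∀ w, ∀ x ∈ Hs s t n Z p w, x = 0) → d * Z = 0 := by
    intro r
    induction r with
    | zero =>
      intro Z hZ htop
      have ln := lbN h hZ
      refine d_zero_of h hZ fun i j x hx hzx => ?_
      have hx' : x ∈ Hs s t n Z (-(i : ℤ)) (-(j : ℤ)) := ⟨prim_at hb hx, hzx⟩
      rcases Nat.eq_zero_or_pos i with rfl | hi
      · have h1 := Hs.hd h hZ hx'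
        have h2 : (-((0 : ℕ) : ℤ) + 1) = ((1 : ℕ) : ℤ) := by norm_num
        rw [h2] at h1
        obtain ⟨y, hy, h3⟩ := ln.sur _ 1 _ h1
        rw [← h3, htop _ (by norm_num) _ _ hy, map_zero]
      · rw [htop _ (by push_cast; omega) _ _ hx', map_zero]
    | succ r ih =>
      intro Z hZ htop
      have hrow := row h hZ hB hL (r := r + 1) (j0 := 1) (by omega) htop
        (fun j hj => hG _ _ (by omega) hj) (fun _ j hj => hG _ _ (by omega) (by omega))
        (fun _ j hj => hG _ _ (by omega) hj)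
      obtain ⟨b0, hb0⟩ := (lbL h hZ).low
      set A : Finset (ℕ × ℕ) :=
        (Finset.range ((-b0).toNat + 1)).image fun j => (r + 1, j + 1) with hA
      obtain ⟨e, he, hk⟩ := exists_isoPr' h hB A
      have hAr : ∀ i j, (i, j) ∈ A → i = r + 1 ∧ 1 ≤ j := by
        intro i j hij
        rw [hA, Finset.mem_image] at hij
        obtain ⟨j', -, h1⟩ := hij
        have h2 := (congrArg Prod.fst h1).symm
        have h3 := (congrArg Prod.snd h1).symm
        exact ⟨h2, by simp only at h3; omega⟩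
      have hAm : ∀ j, 1 ≤ j → (∀ x ∈ prim f g n s t (r + 1) j, Z x = x → x = 0) ∨
          (r + 1, j) ∈ A := by
        intro j hj1
        by_cases hj : j < (-b0).toNat + 1
        · right
          rw [hA, Finset.mem_image]
          exact ⟨j - 1, Finset.mem_range.2 (by omega), by rw [Nat.sub_add_cancel hj1]⟩
        · left
          intro x hx hzx
          exact hb0 (-((r + 1 : ℕ) : ℤ)) (-(j : ℤ)) (by omega) x ⟨prim_at hb hx, hzx⟩
      obtain ⟨hZ', h1⟩ := remove h hZ he hk (fun i j hij x hx hzx => by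
        obtain ⟨rfl, hj⟩ := hAr i j hij
        exact hrow j hj x ⟨prim_at hb hx, hzx⟩)
      rw [h1]
      -- the remaining weight `0` part
      have htop' : ∀ p : ℤ, p < -((r + 1 : ℕ) : ℤ) → ∀ w, ∀ x ∈ Hs s t n (e * Z) p w, x = 0 :=
        fun p hp w x hx => htop p hp w x (Hs_e hZ he hx).1
      have hw : ∀ w, w ≠ 0 → ∀ x ∈ Hs s t n (e * Z) (-((r + 1 : ℕ) : ℤ)) w, x = 0 := by
        have ht := top_e h hZ he (j0 := 1) htop hAm
        intro w hw0 x hx
        rcases Int.le_total w 0 with hw | hw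
        · obtain ⟨m, hm⟩ := Int.eq_ofNat_of_zero_le (neg_nonneg.2 hw)
          obtain rfl : w = -(m : ℤ) := by omega
          exact ht m (by omega) x hx
        · obtain ⟨m, rfl⟩ := Int.eq_ofNat_of_zero_le hw
          obtain ⟨y, hy, rfl⟩ := (lbL h hZ').sur _ m x hx
          rw [ht m (by omega) y hy, map_zero]
      have hrN := rowN h hZ' hL (hN (r + 1)) htop' hw (fun hr => hG _ _ hr le_rfl)
      obtain ⟨e2, he2, hk2⟩ := exists_isoPr' h hB {(r + 1, 0)}
      obtain ⟨hZ2, h2⟩ := remove h hZ' he2 hk2 (fun i j hij x hx hzx => by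
        rw [Finset.mem_singleton, Prod.mk.injEq] at hij
        obtain ⟨rfl, rfl⟩ := hij
        exact hrN x ⟨by simpa using prim_at hb hx, hzx⟩)
      rw [h2]
      refine ih _ hZ2 fun p hp w x hx => ?_
      rcases lt_or_ge p (-((r + 1 : ℕ) : ℤ)) with hp' | hp'
      · exact htop' p hp' w x (Hs_e hZ' he2 hx).1
      · obtain rfl : p = -((r + 1 : ℕ) : ℤ) := by push_cast at hp' ⊢; omega
        by_cases hw0 : w = 0
        · subst hw0
          have ht := top_e h hZ' he2 (r := r + 1) (j0 := 0) htop' (fun j _ => ?_) 0 le_rfl x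
            (by simpa using hx)
          · exact ht
          · rcases Nat.eq_zero_or_pos j with rfl | hj
            · exact Or.inr (Finset.mem_singleton_self _)
            · refine Or.inl fun x hx hzx => hw (-(j : ℤ)) (by omega) x ⟨prim_at hb hx, hzx⟩
        · exact hw w hw0 x (Hs_e hZ' he2 hx).1
  obtain ⟨b, hb1⟩ := hb.sl.low
  exact key (-b).toNat Z hZ fun p hp w x hx => hb1 p (by omega) x hx.1.hs

end Pool.Agent.H62X
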