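import Pool.Agent.W_MP_a3c811_h79.MF.GdY
import Pool.Agent.W_a3c811_h62w.Ab26
import Pool.Agent.W_a3c811_h62w.TrI

/-! Good primitive parts: the two theorems for the strata. -/

noncomputable section

set_option linter.unusedSectionVars false

namespace Pool.Agent.H62S

open Module Polynomial Pool.Agent.WeilH_h6 Pool.Agent.WeilH_h6.VarClass Pool.Agent.H62D
  Pool.Agent.H62A Pool.Agent.H79L Pool.Agent.H62X

universe u v w

variable {k : Type u} [Field k] {𝒱 : VarClass k} {I : Type} {K : I → Type v} [∀ l, Field (K l)]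
  [∀ l, CharZero (K l)] {W : ∀ l, Weil.{u, v, w} 𝒱 (K l)} {X : Strata W}

namespace Strata

section zero

variable {l : I} {BY : Subring (Module.End (K l) (Tot (W l) X.Y))} (hY : X.YRing l BY)

variable (X l) in
/-- the pair `(i, j)` is good for the ring `BY` -/
abbrev EGd (hY : X.YRing l BY) (i j : ℕ) : Prop :=
  Gd (K := K l) (E := Tot (W l) X.EY) (X.eN l) (X.eNd l) (X.eL l) (X.eLam l) (X.ed l) X.n
    (posProj (W l) X.EY X.epos) (degProj (W l) X.EY X.epos X.etw) (X.eS l)
    (X.bring l BY hY.pos) i j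

include hY

/-- hard Lefschetz for one theory -/
theorem zero_T1 (hW : Compatible W) {Z : Module.End (K l) (Tot (W l) X.EY)}
    (hZ : Har (K := K l) (E := Tot (W l) X.EY) (X.eN l) (X.eNd l) (X.eL l) (X.eLam l) (X.ed l)
      (posProj (W l) X.EY X.epos) (degProj (W l) X.EY X.epos X.etw) (X.eS l)
      (X.bring l BY hY.pos) Z) (hL : X.HardLefschetz l)
    (hG : ∀ i j, 1 ≤ i → i + j ≤ X.n → X.EGd l hY i j) :
    (X.ed l : Module.End (K l) (Tot (W l) X.EY)) * Z = 0 := by
  obtain ⟨D, hP⟩ := hY.pol hW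
  refine thm1 hP (fun r u hu => hY.rat_mem r hu) (fun p m => ei_lef (hL p m)) (fun i j hi => ?_)
    hZ
  by_cases hij : i + j ≤ X.n
  · exact hG i j hi hij
  · exact gd_gt hY hW (not_le.1 hij)

/-- hard Lefschetz and weight monodromy in the middle degree for one theory -/
theorem zero_T2 (hW : Compatible W) {Z : Module.End (K l) (Tot (W l) X.EY)}
    (hZ : Har (K := K l) (E := Tot (W l) X.EY) (X.eN l) (X.eNd l) (X.eL l) (X.eLam l) (X.ed l)
      (posProj (W l) X.EY X.epos) (degProj (W l) X.EY X.epos X.etw) (X.eS l)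
      (X.bring l BY hY.pos) Z) (hL : X.HardLefschetz l) (hN : ∀ i : ℕ, X.MonoAt l X.n i)
    (hG : ∀ i j, 1 ≤ i → 1 ≤ j → i + j ≤ X.n → X.EGd l hY i j) :
    (X.ed l : Module.End (K l) (Tot (W l) X.EY)) * Z = 0 := by
  obtain ⟨D, hP⟩ := hY.pol hW
  refine thm2 hP (fun r u hu => hY.rat_mem r hu) (fun p m => ei_lef (hL p m))
    (fun m => ei_mono (w := 0) (by rw [zero_add]; exact hN m)) (fun i j hi hj => ?_) hZ
  by_cases hij : i + j ≤ X.n
  · exact hG i j hi hj hij
  · exact gd_gt hY hW (not_le.1 hij)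

end zero

/-- hard Lefschetz for one theory: all theories -/
theorem all_T1 (hW : Compatible W) (X : Strata W) (hb : ∀ l l', X.betti l = X.betti l')
    (l0 : I) (hL : X.HardLefschetz l0)
    {BY : Subring (Module.End (K l0) (Tot (W l0) X.Y))} (hY : X.YRing l0 BY)
    (hG : ∀ i j, 1 ≤ i → i + j ≤ X.n → X.EGd l0 hY i j) (M : X.Motive) :
    (∀ l, M.WeightMonodromy l) ∧ M.Independence := by
  classical
  exact all_of_zero hW X hb l0 (fun P Q F => zero_T1 hY hW (har_strata hY hW F) hL hG) M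

/-- hard Lefschetz and weight monodromy in the middle degree for one theory: all theories -/
theorem all_T2 (hW : Compatible W) (X : Strata W) (hb : ∀ l l', X.betti l = X.betti l')
    (l0 : I) (hL : X.HardLefschetz l0) (hN : ∀ i : ℕ, X.MonoAt l0 X.n i)
    {BY : Subring (Module.End (K l0) (Tot (W l0) X.Y))} (hY : X.YRing l0 BY)
    (hG : ∀ i j, 1 ≤ i → 1 ≤ j → i + j ≤ X.n → X.EGd l0 hY i j) (M : X.Motive) :
    (∀ l, M.WeightMonodromy l) ∧ M.Independence := by
  classical
  exact all_of_zero hW X hb l0 (fun P Q F => zero_T2 hY hW (har_strata hY hW F) hL hN hG) M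

end Strata

end Pool.Agent.H62S
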