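import Pool.Agent.W_a3c811_h62w.Ab0

/-! Lowering an operator to a primitive part; isotropic stable subspaces contain no image. -/

noncomputable section

set_option linter.unusedSectionVars false

namespace Pool.Agent.H62X

open Module Pool.Agent.H79L

universe v w

variable {K : Type v} [Field K] [CharZero K] {E : Type w} [AddCommGroup E] [Module K E]
  {N f L g d : Module.End K E} {n : ℤ} {s t : ℤ → Module.End K E}
  {P D : Finset ℤ} {S : E →ₗ[K] E →ₗ[K] K} {B : Subring (Module.End K E)}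

section proj

/-- the projectors are adjoint -/
lemma adj_s (sl : Sl N f s P) (aN : ∀ x y, S (N x) y = S x (N y))
    (af : ∀ x y, S (f x) y = S x (f y)) (p : ℤ) (x y : E) : S (s p x) y = S x (s (-p) y) := by
  have hh : ∀ x y, S (br N f x) y = -S x (br N f y) := by
    intro x y
    change S (N (f x) - f (N x)) y = -S x (N (f y) - f (N y))
    rw [map_sub, LinearMap.sub_apply, map_sub, aN, af, af, aN]
    ring
  have key : ∀ p q, q ≠ -p → ∀ x y, S (s p x) (s q y) = 0 := by
    intro p q hpq x y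
    have h1 := hh (s p x) (s q y)
    have h2 : br N f (s p x) = (p : K) • s p x := LinearMap.congr_fun (sl.h p) x
    have h3 : br N f (s q y) = (q : K) • s q y := LinearMap.congr_fun (sl.h q) y
    rw [h2, h3, map_smul, LinearMap.smul_apply, map_smul, smul_eq_mul, smul_eq_mul,
      ← sub_eq_zero, sub_neg_eq_add, ← add_mul] at h1
    refine (mul_eq_zero.1 h1).resolve_left ?_
    intro h0
    have h4 : ((p + q : ℤ) : K) = 0 := by push_cast; exact h0
    have h5 := Int.cast_eq_zero.1 h4
    omega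
  have e1 : S (s p x) y = S (s p x) (s (-p) y) := by
    have h1 : (∑ q ∈ P, s q) y = y := by rw [sl.sum]; rfl
    by_cases hp : (-p) ∈ P
    · conv_lhs => rw [← h1]
      rw [LinearMap.sum_apply, map_sum, Finset.sum_eq_single_of_mem _ hp]
      intro q _ hq
      exact key p q hq x y
    · have h2 : s (-p) y = 0 := by
        have h3 : s (-p) ((∑ q ∈ P, s q) y) = 0 := by
          rw [LinearMap.sum_apply, map_sum]
          refine Finset.sum_eq_zero fun q hq => ?_
          exact LinearMap.congr_fun (sl.orth (-p) q (by rintro rfl; exact hp hq)) y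
        rwa [h1] at h3
      rw [h2, map_zero]
      conv_lhs => rw [← h1]
      rw [LinearMap.sum_apply, map_sum]
      refine Finset.sum_eq_zero fun q hq => ?_
      exact key p q (by rintro rfl; exact hp hq) x y
  have e2 : S x (s (-p) y) = S (s p x) (s (-p) y) := by
    have h1 : (∑ q ∈ P, s q) x = x := by rw [sl.sum]; rfl
    by_cases hp : p ∈ P
    · conv_lhs => rw [← h1]
      rw [LinearMap.sum_apply, map_sum, LinearMap.sum_apply, Finset.sum_eq_single_of_mem _ hp]
      intro q _ hq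
      exact key q (-p) (by omega) x y
    · have h2 : s p x = 0 := by
        have h3 : s p ((∑ q ∈ P, s q) x) = 0 := by
          rw [LinearMap.sum_apply, map_sum]
          refine Finset.sum_eq_zero fun q hq => ?_
          exact LinearMap.congr_fun (sl.orth p q (by rintro rfl; exact hp hq)) x
        rwa [h1] at h3
      rw [h2, map_zero, LinearMap.zero_apply]
      conv_lhs => rw [← h1]
      rw [LinearMap.sum_apply, map_sum, LinearMap.sum_apply]
      refine Finset.sum_eq_zero fun q hq => ?_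
      exact key q (-p) (by rintro h0; exact hp (by rwa [show p = q by omega])) x y
  rw [e1, e2]

end proj

section pol

variable (h : Pol N f L g d n s t P D S B)
include h

lemma Pol.adjs (p : ℤ) : Adj S (s p) (s (-p)) := by
  refine ⟨adj_s h.bi.sl h.aN h.af p, fun x y => ?_⟩
  rw [adj_s h.bi.sl h.aN h.af (-p), neg_neg]

lemma Pol.adjt (w : ℤ) : Adj S (t w) (t (2 * n - w)) := by
  have h1 : ∀ p x y, S (t (p + n) x) y = S x (t (-p + n) y) := adj_s h.bi.sl2 h.aL h.ag
  refine ⟨fun x y => ?_, fun x y => ?_⟩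
  · have := h1 (w - n) x y
    rwa [show w - n + n = w by ring, show -(w - n) + n = 2 * n - w by ring] at this
  · have := h1 (n - w) x y
    rwa [show n - w + n = 2 * n - w by ring, show -(n - w) + n = w by ring] at this

lemma Pol.A0_le {a : Module.End K E} (ha : a ∈ A0 N f L g s t) : a ∈ B := by
  refine Subring.closure_le.2 ?_ ha
  rintro a ((ha | ⟨p, rfl⟩) | ⟨w, rfl⟩)
  · simp only [Set.mem_insert_iff, Set.mem_singleton_iff] at ha
    rcases ha with rfl | rfl | rfl | rfl
    · exact h.mN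
    · exact h.mf
    · exact h.mL
    · exact h.mg
  · exact h.ms p
  · exact h.mt w

lemma Pol.A0_adj {a : Module.End K E} (ha : a ∈ A0 N f L g s t) :
    ∃ a' ∈ A0 N f L g s t, Adj S a a' := by
  unfold A0 at ha
  induction ha using Subring.closure_induction with
  | mem a ha =>
    rcases ha with (ha | ⟨p, rfl⟩) | ⟨w, rfl⟩
    · have ha' : a ∈ A0 N f L g s t := Subring.subset_closure (Or.inl (Or.inl ha))
      simp only [Set.mem_insert_iff, Set.mem_singleton_iff] at ha
      rcases ha with rfl | rfl | rfl | rfl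
      · exact ⟨_, ha', h.adjN⟩
      · exact ⟨_, ha', h.adjf⟩
      · exact ⟨_, ha', h.adjL⟩
      · exact ⟨_, ha', h.adjg⟩
    · exact ⟨s (-p), Subring.subset_closure (Or.inl (Or.inr ⟨_, rfl⟩)), h.adjs p⟩
    · exact ⟨t (2 * n - w), Subring.subset_closure (Or.inr ⟨_, rfl⟩), h.adjt w⟩
  | zero => exact ⟨0, zero_mem _, Adj.zero⟩
  | one => exact ⟨1, one_mem _, Adj.one⟩
  | add a b _ _ ha hb =>
    obtain ⟨a', ha', h1⟩ := ha
    obtain ⟨b', hb', h2⟩ := hb
    exact ⟨_, add_mem ha' hb', h1.add h2⟩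
  | neg a _ ha =>
    obtain ⟨a', ha', h1⟩ := ha
    exact ⟨_, neg_mem ha', h1.neg⟩
  | mul a b _ _ ha hb =>
    obtain ⟨a', ha', h1⟩ := ha
    obtain ⟨b', hb', h2⟩ := hb
    exact ⟨_, mul_mem hb' ha', h1.mul h2⟩

omit h in
/-- `J R` is a left ideal for `A0` -/
lemma J_mul (h : Pol N f L g d n s t P D S B) {R : Submodule K E} (hR : Stab N f L g s t R)
    {a u : Module.End K E} (ha : a ∈ A0 N f L g s t) (hu : J S B R u) : J S B R (a * u) := by
  obtain ⟨a', ha', h1⟩ := h.A0_adj ha
  obtain ⟨hu1, hu2, u', hu3, hu4, hu5⟩ := hu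
  exact ⟨mul_mem (h.A0_le ha) hu1, fun x => A0_stab hR ha _ (hu2 x), u' * a',
    mul_mem hu3 (h.A0_le ha'), h1.mul hu4, fun x => hu5 _⟩

end pol

section low

/-- lowering an operator with homogeneous values -/
lemma exists_low1 (sl : Sl N f s P) {p : ℤ} {u : Module.End K E} (hu : u ≠ 0) (hp : s p * u = u) :
    ∃ (m i : ℕ), f ^ m * u ≠ 0 ∧ f * (f ^ m * u) = 0 ∧ s (-(i : ℤ)) * (f ^ m * u) = f ^ m * u := by
  obtain ⟨B0, hB0⟩ := sl.low
  have hs : ∀ m : ℕ, s (p - 2 * m) * (f ^ m * u) = f ^ m * u := by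
    intro m
    induction m with
    | zero => simpa using hp
    | succ m ih =>
      have e : s (p - 2 * m - 2) * f = f * s (p - 2 * m) := (sl.fs _).symm
      rw [pow_succ', mul_assoc, show p - 2 * ((m + 1 : ℕ) : ℤ) = p - 2 * m - 2 by push_cast; ring,
        ← mul_assoc, e, mul_assoc, ih]
  have hz : ∃ m, f ^ m * u = 0 := by
    refine ⟨(p - B0 + 1).toNat, LinearMap.ext fun x => ?_⟩
    exact hB0 (p - 2 * ((p - B0 + 1).toNat : ℤ)) (by omega) _ (LinearMap.congr_fun (hs _) x)
  have h0 : ¬ (f ^ 0 * u = 0) := by simpa using hu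
  obtain ⟨m, hm, hm'⟩ := Nat.exists_not_and_succ_of_not_zero_of_exists h0 hz
  have hfm : f * (f ^ m * u) = 0 := by rw [pow_succ', mul_assoc] at hm'; exact hm'
  have hle : p - 2 * m ≤ 0 := by
    by_contra hc
    refine hm (LinearMap.ext fun x => ?_)
    exact sl.f_ne (by omega) (LinearMap.congr_fun (hs m) x) (LinearMap.congr_fun hfm x)
  refine ⟨m, (-(p - 2 * (m : ℤ))).toNat, hm, hfm, ?_⟩
  have : -(((-(p - 2 * (m : ℤ))).toNat : ℕ) : ℤ) = p - 2 * m := by omega
  rw [this]
  exact hs m

/-- lowering an operator to a primitive part -/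
lemma exists_low (h : Bi N f L g d n s t P D) {u : Module.End K E} (hu : u ≠ 0) :
    ∃ a ∈ A0 N f L g s t, ∃ i j : ℕ, a * u ≠ 0 ∧ ∀ x, (a * u) x ∈ prim f g n s t i j := by
  obtain ⟨p, hp⟩ : ∃ p, s p * u ≠ 0 := by
    by_contra! hc
    apply hu
    rw [← one_mul u, ← h.sl.sum, Finset.sum_mul]
    exact Finset.sum_eq_zero fun p _ => hc p
  obtain ⟨w, hw⟩ : ∃ w, t w * (s p * u) ≠ 0 := by
    by_contra! hc
    apply hp
    rw [← one_mul (s p * u), ← h.sumt, Finset.sum_mul]
    exact Finset.sum_eq_zero fun p _ => hc p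
  set v := t w * (s p * u) with hv
  have vs : s p * v = v := by
    rw [hv, ← mul_assoc, h.st, mul_assoc, ← mul_assoc (s p), h.sl.idem]
  have vt : t w * v = v := by rw [hv, ← mul_assoc, h.idemt]
  obtain ⟨m, i, hm0, hm1, hm2⟩ := exists_low1 h.sl hw vs
  set v1 := f ^ m * v with hv1
  have hcf : ∀ w (m : ℕ), t w * f ^ m = f ^ m * t w := fun w m =>
    ((show Commute (t w) f from (h.ft w).symm).pow_right m).eq
  have v1t : t w * v1 = v1 := by rw [hv1, ← mul_assoc, hcf, mul_assoc, vt]
  have v1t' : (fun p => t (p + n)) (w - n) * v1 = v1 := by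
    change t (w - n + n) * v1 = v1
    rw [sub_add_cancel, v1t]
  obtain ⟨m', j, k0, k1, k2⟩ := exists_low1 h.sl2 hm0 v1t'
  have hcg : ∀ p (m : ℕ), s p * g ^ m = g ^ m * s p := fun p m =>
    ((show Commute (s p) g from (h.gs p).symm).pow_right m).eq
  refine ⟨g ^ m' * f ^ m * (t w * s p), ?_, i, j, ?_, ?_⟩
  · have mf : f ∈ A0 N f L g s t := Subring.subset_closure (Or.inl (Or.inl (by simp)))
    have mg : g ∈ A0 N f L g s t := Subring.subset_closure (Or.inl (Or.inl (by simp)))
    exact mul_mem (mul_mem (pow_mem mg _) (pow_mem mf _))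
      (mul_mem (Subring.subset_closure (Or.inr ⟨_, rfl⟩))
        (Subring.subset_closure (Or.inl (Or.inr ⟨_, rfl⟩))))
  · have : g ^ m' * f ^ m * (t w * s p) * u = g ^ m' * v1 := by
      rw [hv1, hv]; simp only [mul_assoc]
    rw [this]
    exact k0
  · have e : g ^ m' * f ^ m * (t w * s p) * u = g ^ m' * v1 := by
      rw [hv1, hv]; simp only [mul_assoc]
    rw [e]
    intro x
    have e1 : s (-(i : ℤ)) * (g ^ m' * v1) = g ^ m' * v1 := by
      rw [← mul_assoc, hcg, mul_assoc, hm2]
    have e2 : t (n - j) * (g ^ m' * v1) = g ^ m' * v1 := by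
      have : t (-(j : ℤ) + n) * (g ^ m' * v1) = g ^ m' * v1 := k2
      rwa [show -(j : ℤ) + n = n - j by ring] at this
    have e3 : f * (g ^ m' * v1) = 0 := by
      have hc : f * g ^ m' = g ^ m' * f := ((show Commute f g from h.fg).pow_right m').eq
      rw [← mul_assoc, hc, mul_assoc, hm1, mul_zero]
    refine ⟨?_, LinearMap.congr_fun e3 x, LinearMap.congr_fun k1 x⟩
    have f1 := LinearMap.congr_fun e1 x
    have f2 := LinearMap.congr_fun e2 x
    rw [Module.End.mul_apply] at f1 f2
    rw [f1, f2]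

/-- A member of `J R` with image in a stable isotropic subspace is zero. -/
theorem op_bot (h : Pol N f L g d n s t P D S B) {R U : Submodule K E}
    (hR : Stab N f L g s t R) (hU : Stab N f L g s t U)
    (hA : ∀ i j, (∃ x ∈ U, x ∈ prim f g n s t i j ∧ x ≠ 0) → Aniso N f L g n s t S B R i j)
    (iso : ∀ x ∈ U, ∀ y ∈ U, S x y = 0) {u : Module.End K E} (hu : J S B R u)
    (huU : ∀ x, u x ∈ U) : u = 0 := by
  by_contra hu0
  obtain ⟨a, ha, i, j, h1, h2⟩ := exists_low h.bi hu0
  have haU : ∀ x, (a * u) x ∈ U := fun x => A0_stab hU ha _ (huU x)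
  obtain ⟨x, hx⟩ : ∃ x, (a * u) x ≠ 0 := by
    by_contra! hc
    exact h1 (LinearMap.ext hc)
  refine h1 (hA i j ⟨_, haU x, h2 x, hx⟩ (a * u) (J_mul h hR ha hu) h2 fun x y => ?_)
  refine iso _ (haU x) _ ?_
  have hpow : ∀ {T : Module.End K E} (hT : ∀ x ∈ U, T x ∈ U) (m : ℕ), ∀ x ∈ U, (T ^ m) x ∈ U := by
    intro T hT m
    induction m with
    | zero => intro x hx; simpa using hx
    | succ m ih => intro x hx; rw [pow_succ', Module.End.mul_apply]; exact hT _ (ih _ hx)
  exact hpow hU.N i _ (hpow hU.L j _ (haU y))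

end low

end Pool.Agent.H62X
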