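import Pool.Agent.W_a3c811_h62w.Ab5

/-! Primitive parts of Weil type, and the combined theorem. -/

noncomputable section

set_option linter.unusedSectionVars false

namespace Pool.Agent.H62X

open Module Polynomial Pool.Agent.H79L Pool.Agent.B4801b

universe v w

variable {K : Type v} [Field K] [CharZero K] {E : Type w} [AddCommGroup E] [Module K E]
  [FiniteDimensional K E]
  {N f L g d : Module.End K E} {n : ℤ} {s t : ℤ → Module.End K E}
  {P D : Finset ℤ} {S : E →ₗ[K] E →ₗ[K] K} {B : Subring (Module.End K E)}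

/-- lowering a nonzero subspace to a primitive part -/
lemma exists_low_sub (h : Bi N f L g d n s t P D) {V : Submodule K E} (hV : V ≠ ⊥) :
    ∃ a ∈ A0 N f L g s t, ∃ i j : ℕ, (∀ x ∈ V, a x ∈ prim f g n s t i j) ∧
      ∃ x ∈ V, a x ≠ 0 := by
  obtain ⟨V', hV'⟩ := Submodule.exists_isCompl V
  set u : Module.End K E := V.subtype ∘ₗ V.projectionOnto V' hV' with hu
  have hux : ∀ x ∈ V, u x = x := by
    intro x hx
    have := Submodule.projectionOnto_apply_left hV' (⟨x, hx⟩ : V)
    change ((V.projectionOnto V' hV' x : V) : E) = x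
    rw [this]
  have hur : ∀ x, u x ∈ V := fun x => Submodule.coe_mem _
  have hu0 : u ≠ 0 := by
    intro h0
    apply hV
    rw [Submodule.eq_bot_iff]
    intro x hx
    rw [← hux x hx, h0, LinearMap.zero_apply]
  obtain ⟨a, ha, i, j, h1, h2⟩ := exists_low h hu0
  refine ⟨a, ha, i, j, fun x hx => ?_, ?_⟩
  · have := h2 x
    rwa [Module.End.mul_apply, hux x hx] at this
  · by_contra! hc
    exact h1 (LinearMap.ext fun x => hc _ (hur x))

/-- The strong form of anisotropy of a primitive part: for all members of `B` with values in the sum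
of the images of the components of the differential. -/
def Str (N f L g d : Module.End K E) (n : ℤ) (s t : ℤ → Module.End K E)
    (S : E →ₗ[K] E →ₗ[K] K) (B : Subring (Module.End K E)) (i j : ℕ) : Prop :=
  ∀ u ∈ B, (∀ x, u x ∈ radS f g d) → (∀ x, u x ∈ prim f g n s t i j) →
    (∀ x y, S (u x) ((N ^ i) ((L ^ j) (u y))) = 0) → u = 0

/-- The primitive parts of Weil type: the members of `B` which map one of them to an isotropic
subspace of another one vanish on it. -/
structure WeilT (N f L g : Module.End K E) (n : ℤ) (s t : ℤ → Module.End K E)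
    (S : E →ₗ[K] E →ₗ[K] K) (B : Subring (Module.End K E)) (Wt : ℕ → ℕ → Prop) : Prop where
  proj : ∀ i j, Wt i j → ∃ e ∈ B, (∀ x, e x ∈ prim f g n s t i j) ∧
    ∀ x ∈ prim f g n s t i j, e x = x
  pos : ∀ i j i' j', Wt i j → Wt i' j' → ∀ u ∈ B,
    (∀ x ∈ prim f g n s t i j, u x ∈ prim f g n s t i' j') →
    (∀ x ∈ prim f g n s t i j, ∀ y ∈ prim f g n s t i j,
      S (u x) ((N ^ i') ((L ^ j') (u y))) = 0) → ∀ x ∈ prim f g n s t i j, u x = 0

/-- Anisotropy of the primitive parts of Weil type. -/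
theorem weil_aniso (h : Pol N f L g d n s t P D S B) {Wt : ℕ → ℕ → Prop}
    (hW : WeilT N f L g n s t S B Wt) {R : Submodule K E} (hR : Stab N f L g s t R)
    (hRr : R ≤ radS f g d)
    (hc : ∀ i j, Str N f L g d n s t S B i j ∨ Wt i j ∨ ∀ x ∈ R, x ∈ prim f g n s t i j → x = 0)
    {i j : ℕ} (hij : Wt i j) : Aniso N f L g n s t S B R i j := by
  rintro u ⟨huB, huR, u', hu'B, hadj, hu'R⟩ hup iso
  by_contra hu0
  obtain ⟨x0, hx0⟩ : ∃ x, u x ≠ 0 := by
    by_contra! hc
    exact hu0 (LinearMap.ext hc)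
  obtain ⟨y0, hy0, hy0'⟩ : ∃ y ∈ prim f g n s t i j, S (u x0) ((N ^ i) ((L ^ j) y)) ≠ 0 := by
    by_contra! hc
    exact hx0 (nd_prim h (hup x0) hc)
  set v : Module.End K E := u' * (N ^ i * L ^ j) with hv
  have hvapp : ∀ x, v x = u' ((N ^ i) ((L ^ j) x)) := fun x => rfl
  have hNLB : N ^ i * L ^ j ∈ B := mul_mem (pow_mem h.mN i) (pow_mem h.mL j)
  have hvB : v ∈ B := mul_mem hu'B hNLB
  have hV : (prim f g n s t i j).map v ≠ ⊥ := by
    intro h0
    have h1 : v y0 ∈ (prim f g n s t i j).map v := ⟨y0, hy0, rfl⟩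
    rw [h0, Submodule.mem_bot, hvapp] at h1
    apply hy0'
    rw [hadj.1, h1, map_zero]
  obtain ⟨a, ha, i', j', h1, ⟨x1, hx1, hx1'⟩⟩ := exists_low_sub h.bi hV
  obtain ⟨x2, hx2, rfl⟩ := hx1
  obtain ⟨a', ha', haa⟩ := h.A0_adj ha
  have hNLi : Adj S (N ^ i * L ^ j) (N ^ i * L ^ j) := by
    have := (h.adjN.pow i).mul (h.adjL.pow j)
    rwa [((show Commute N L from h.bi.NL).pow_pow i j).eq.symm] at this
  -- `z` vanishes on the primitive part
  have hz : ∀ x ∈ prim f g n s t i j,
      (u * (a' * (N ^ i' * L ^ j') * a * v)) x = 0 := by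
    refine hW.pos i j i j hij hij _ ?_ ?_ ?_
    · exact mul_mem huB (mul_mem (mul_mem (mul_mem (h.A0_le ha')
        (mul_mem (pow_mem h.mN i') (pow_mem h.mL j'))) (h.A0_le ha)) hvB)
    · intro x _
      exact hup _
    · intro x _ y _
      exact iso _ _
  -- `a v` has isotropic image
  have hw : ∀ x ∈ prim f g n s t i j, ∀ y ∈ prim f g n s t i j,
      S (a (v x)) ((N ^ i') ((L ^ j') (a (v y)))) = 0 := by
    intro x hx y hy
    rw [haa.1, hvapp, hadj.2]
    have e : u (a' ((N ^ i') ((L ^ j') (a (v y))))) =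
        (u * (a' * (N ^ i' * L ^ j') * a * v)) y := rfl
    rw [e, hz y hy, map_zero]
  have hmem : ∀ x ∈ prim f g n s t i j, a (v x) ∈ prim f g n s t i' j' :=
    fun x hx => h1 _ ⟨x, hx, rfl⟩
  have hvR : ∀ x, a (v x) ∈ R := fun x => A0_stab hR ha _ (hu'R _)
  rcases hc i' j' with hs | hw' | h0
  · obtain ⟨e, he, he1, he2⟩ := hW.proj i j hij
    have h3 : a * v * e = 0 := by
      refine hs _ (mul_mem (mul_mem (h.A0_le ha) hvB) he) ?_ ?_ ?_
      · intro x; exact hRr (hvR _)
      · intro x; exact hmem _ (he1 x)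
      · intro x y; exact hw _ (he1 x) _ (he1 y)
    have h4 := LinearMap.congr_fun h3 x2
    simp only [Module.End.mul_apply, LinearMap.zero_apply, he2 x2 hx2] at h4
    exact hx1' h4
  · exact hx1' (hW.pos i j i' j' hij hw' (a * v) (mul_mem (h.A0_le ha) hvB) hmem hw x2 hx2)
  · exact hx1' (h0 _ (hvR _) (hmem x2 hx2))

/-- The combined theorem. -/
theorem main2 (h : Pol N f L g d n s t P D S B) {Z : Module.End K E}
    (hZ : Har N f L g d s t S B Z) {Wt : ℕ → ℕ → Prop}
    (hW : WeilT N f L g n s t S B Wt)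
    (hT : ∀ i j, Str N f L g d n s t S B i j ∨ Wt i j ∨
      ((i, j) = ((0, 0) : ℕ × ℕ) ∧ WM1 N d n s t)) : d * Z = 0 := by
  have hbi := h.bi
  have hsr := stab_radS hbi
  have hst := hsr.inf (stab_tot hbi)
  refine main1 h hZ ?_ ?_
  · intro i j hij
    rcases hT i j with hs | hw | ⟨h0, -⟩
    · rintro u ⟨hu, hur, -⟩ hup iso
      exact hs u hu (fun x => (hur x).1) hup iso
    · refine weil_aniso h hW hst inf_le_left ?_ hw
      intro i' j'
      rcases hT i' j' with hs | hw | ⟨h0, -⟩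
      · exact Or.inl hs
      · exact Or.inr (Or.inl hw)
      · obtain ⟨rfl, rfl⟩ := Prod.mk.inj h0
        exact Or.inr (Or.inr fun x hx hx' => tot_prim h hx.2 hx')
    · exact absurd h0 hij
  · by_cases hwm : WM1 N d n s t
    · exact Or.inr hwm
    · refine Or.inl ?_
      have hT' : ∀ i j, Str N f L g d n s t S B i j ∨ Wt i j := by
        intro i j
        rcases hT i j with hs | hw | ⟨-, h0⟩
        · exact Or.inl hs
        · exact Or.inr hw
        · exact absurd h0 hwm
      rcases hT' 0 0 with hs | hw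
      · rintro u ⟨hu, hur, -⟩ hup iso
        exact hs u hu hur hup iso
      · refine weil_aniso h hW hsr le_rfl ?_ hw
        intro i' j'
        rcases hT' i' j' with hs | hw
        · exact Or.inl hs
        · exact Or.inr (Or.inl hw)

end Pool.Agent.H62X
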