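import Pool.Agent.W_a3c811_h62w.Ab6
import Pool.Agent.W_a3c811_h62w.Ab9

/-! Rational classes with a nonvanishing form on the primitive ones. -/

noncomputable section

set_option linter.unusedSectionVars false

namespace Pool.Agent.H62X

open Module Polynomial Pool.Agent.H79L Pool.Agent.B4801b

universe v w

variable {K : Type v} [Field K] [CharZero K] {E : Type w} [AddCommGroup E] [Module K E]
  [FiniteDimensional K E]
  {N f L g d : Module.End K E} {n : ℤ} {s t : ℤ → Module.End K E}
  {P D : Finset ℤ} {S : E →ₗ[K] E →ₗ[K] K} {B : Subring (Module.End K E)}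

/-- The rational classes: a rational subspace stable under `B` on which the form is rational and
does not vanish on nonzero primitive vectors. -/
structure RatCls (N f L g : Module.End K E) (n : ℤ) (s t : ℤ → Module.End K E)
    (S : E →ₗ[K] E →ₗ[K] K) (B : Subring (Module.End K E)) (Al : AddSubgroup E) : Prop where
  stab : ∀ u ∈ B, ∀ a ∈ Al, u a ∈ Al
  rat : ∀ (q : ℚ), ∀ a ∈ Al, (q : K) • a ∈ Al
  val : ∀ a ∈ Al, ∀ b ∈ Al, ∃ q : ℚ, S a b = q
  hodge : ∀ i j, ∀ a ∈ Al, a ∈ prim f g n s t i j → S a ((N ^ i) ((L ^ j) a)) = 0 → a = 0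

/-- lowering a vector -/
lemma exists_low_vec (h : Bi N f L g d n s t P D) {x : E} (hx : x ≠ 0) :
    ∃ a ∈ A0 N f L g s t, ∃ i j : ℕ, a x ∈ prim f g n s t i j ∧ a x ≠ 0 := by
  have hV : (Submodule.span K {x} : Submodule K E) ≠ ⊥ := by
    rwa [Ne, Submodule.span_singleton_eq_bot]
  obtain ⟨a, ha, i, j, h1, y, hy, hy0⟩ := exists_low_sub h hV
  refine ⟨a, ha, i, j, h1 x (Submodule.mem_span_singleton_self x), ?_⟩
  intro h0
  obtain ⟨c, rfl⟩ := Submodule.mem_span_singleton.1 hy
  rw [map_smul, h0, smul_zero] at hy0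
  exact hy0 rfl

/-- a rational class orthogonal to all rational classes is zero -/
lemma RatCls.nd (h : Pol N f L g d n s t P D S B) {Al : AddSubgroup E}
    (hC : RatCls N f L g n s t S B Al) {x : E} (hx : x ∈ Al) (hx0 : ∀ a ∈ Al, S x a = 0) :
    x = 0 := by
  by_contra hne
  obtain ⟨a, ha, i, j, h1, h2⟩ := exists_low_vec h.bi hne
  refine h2 (hC.hodge i j _ (hC.stab a (h.A0_le ha) x hx) h1 ?_)
  obtain ⟨a', ha', h3⟩ := h.A0_adj ha
  rw [h3.1]
  refine hx0 _ (hC.stab a' (h.A0_le ha') _ ?_)
  exact hC.stab (N ^ i * L ^ j) (mul_mem (pow_mem h.mN i) (pow_mem h.mL j)) _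
    (hC.stab a (h.A0_le ha) x hx)

lemma RatCls.sum {Al : AddSubgroup E} (hC : RatCls N f L g n s t S B Al) {x : E}
    (hx : x ∈ Submodule.span K (Al : Set E)) :
    ∃ y : (Module.Basis.ofVectorSpaceIndex ℚ K) →₀ E, (∀ α, y α ∈ Al) ∧
      x = y.sum fun α z => (Module.Basis.ofVectorSpace ℚ K α) • z := by
  classical
  set b := Module.Basis.ofVectorSpace ℚ K with hb
  -- one term
  have one : ∀ (c : K), ∀ a ∈ Al, ∃ y : (Module.Basis.ofVectorSpaceIndex ℚ K) →₀ E,
      (∀ α, y α ∈ Al) ∧ c • a = y.sum fun α z => b α • z := by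
    intro c a ha
    refine ⟨(b.repr c).mapRange (fun q : ℚ => (q : K) • a) (by simp), fun α => ?_, ?_⟩
    · rw [Finsupp.mapRange_apply]
      exact hC.rat _ a ha
    · rw [Finsupp.sum_mapRange_index (fun α => smul_zero _)]
      have h1 := b.linearCombination_repr c
      rw [Finsupp.linearCombination_apply] at h1
      conv_lhs => rw [← h1]
      rw [Finsupp.sum, Finsupp.sum, Finset.sum_smul]
      refine Finset.sum_congr rfl fun α _ => ?_
      rw [smul_smul, mul_comm, Rat.smul_def]
  obtain ⟨m, c, a, rfl⟩ := Submodule.mem_span_set'.1 hx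
  choose y hy1 hy2 using fun i : Fin m => one (c i) (a i) (a i).2
  refine ⟨∑ i, y i, fun α => ?_, ?_⟩
  · rw [Finsupp.finsetSum_apply]
    exact Al.sum_mem fun i _ => hy1 i α
  · rw [← Finsupp.sum_finsetSum_index (fun α => smul_zero _) (fun α z z' => smul_add _ _ _)]
    exact Finset.sum_congr rfl fun i _ => hy2 i

/-- rational classes give the structure `Cls` -/
theorem RatCls.cls (h : Pol N f L g d n s t P D S B) {Al : AddSubgroup E}
    (hC : RatCls N f L g n s t S B Al) : Cls N f L g n s t S B Al where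
  stab := hC.stab
  hodge := hC.hodge
  disj := by
    classical
    intro x hx hx0
    obtain ⟨y, hy, rfl⟩ := hC.sum hx
    set b := Module.Basis.ofVectorSpace ℚ K with hb
    have hz : ∀ α, y α = 0 := by
      intro α
      refine hC.nd h (hy α) fun a ha => ?_
      choose r hr using fun β => hC.val _ (hy β) a ha
      have h1 := hx0 a ha
      rw [Finsupp.sum, map_sum, LinearMap.sum_apply] at h1
      have h2 : ∑ β ∈ y.support, r β • b β = 0 := by
        rw [← h1]
        refine Finset.sum_congr rfl fun β _ => ?_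
        rw [map_smul, LinearMap.smul_apply, hr, smul_eq_mul, Rat.smul_def, mul_comm]
      by_cases hα : α ∈ y.support
      · have h3 := (linearIndependent_iff'.1 b.linearIndependent) y.support r h2 α hα
        rw [hr, h3, Rat.cast_zero]
      · rw [Finsupp.notMem_support_iff.1 hα, map_zero, LinearMap.zero_apply]
    rw [Finsupp.sum]
    exact Finset.sum_eq_zero fun α _ => by rw [hz α, smul_zero]

end Pool.Agent.H62X
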