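import Pool.Agent.W_a3c811_h62w.Ab4
import Pool.Agent.W_a3c811_h62w.Ab7

/-! Projectors which are polynomials in the Laplacian. -/

noncomputable section

set_option linter.unusedSectionVars false

namespace Pool.Agent.H62X

open Module Polynomial Pool.Agent.H79L Pool.Agent.B4801b

universe v w

variable {K : Type v} [Field K] [CharZero K] {E : Type w} [AddCommGroup E] [Module K E]
  [FiniteDimensional K E]
  {N f L g d : Module.End K E} {n : ℤ} {s t : ℤ → Module.End K E}
  {P D : Finset ℤ} {S : E →ₗ[K] E →ₗ[K] K} {B : Subring (Module.End K E)}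

lemma aeval_comm' {Δ u : Module.End K E} (hu : Δ * u = u * Δ) (q : K[X]) :
    aeval Δ q * u = u * aeval Δ q :=
  LinearMap.ext fun x => aeval_comm hu q x

lemma adj_aeval {Δ : Module.End K E} (h : Adj S Δ Δ) (q : K[X]) :
    Adj S (aeval Δ q) (aeval Δ q) := by
  induction q using Polynomial.induction_on' with
  | add p q hp hq => rw [map_add]; exact hp.add hq
  | monomial m a =>
    rw [aeval_monomial]
    have h1 := h.pow m
    refine ⟨fun x y => ?_, fun x y => ?_⟩
    · change S (a • (Δ ^ m) x) y = S x (a • (Δ ^ m) y)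
      rw [map_smul, LinearMap.smul_apply, map_smul, h1.1]
    · change S (a • (Δ ^ m) x) y = S x (a • (Δ ^ m) y)
      rw [map_smul, LinearMap.smul_apply, map_smul, h1.1]

lemma aeval_mem_rat (hB : ∀ (r : ℚ), ∀ u ∈ B, (r : K) • u ∈ B) {Δ : Module.End K E}
    (hΔ : Δ ∈ B) (q : ℚ[X]) : aeval Δ (q.map (algebraMap ℚ K)) ∈ B := by
  induction q using Polynomial.induction_on' with
  | add p q hp hq => rw [Polynomial.map_add, map_add]; exact add_mem hp hq
  | monomial m a =>
    rw [Polynomial.map_monomial, aeval_monomial]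
    have h1 := hB a _ (pow_mem hΔ m)
    have h2 : algebraMap K (Module.End K E) (algebraMap ℚ K a) * Δ ^ m = (a : K) • Δ ^ m := by
      refine LinearMap.ext fun x => ?_
      change (algebraMap ℚ K a) • (Δ ^ m) x = (a : K) • (Δ ^ m) x
      rw [eq_ratCast]
    rw [h2]
    exact h1

/-- a projector which is a polynomial in the Laplacian -/
theorem har_of (h : Pol N f L g d n s t P D S B) {Z : Module.End K E} (q : K[X])
    (hZ : Z = aeval (lap f g d) q) (mem : Z ∈ B) (idem : Z * Z = Z)
    (nil : ∃ M, lap f g d ^ M * Z = 0) : Har N f L g d s t S B Z where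
  mem := mem
  cg := fun b => by rw [hZ]; exact aeval_comm' (lap_gen h.bi b).symm q
  cs := fun p => by rw [hZ]; exact aeval_comm' (lap_s h.bi p).symm q
  ct := fun w => by rw [hZ]; exact aeval_comm' (lap_t h.bi w).symm q
  cd := by
    rw [hZ]
    exact aeval_comm' (cmp_lap h.bi 0).symm q
  adj := by rw [hZ]; exact adj_aeval (adj_lap h) q
  idem := idem
  nil := nil

end Pool.Agent.H62X
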