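import Pool.Agent.W_MP_a3c811_h79.Lap.Eig
import Pool.Agent.W_a3c811_h62w.Ab11

/-! The projector onto the lowest weight vectors is a rational polynomial in the operators. -/

noncomputable section

set_option linter.unusedSectionVars false

namespace Pool.Agent.H62X

open Module Polynomial Pool.Agent.H79L

universe v w

variable {K : Type v} [Field K] [CharZero K] {E : Type w} [AddCommGroup E] [Module K E]
  [FiniteDimensional K E] {N f : Module.End K E} {s : ℤ → Module.End K E} {P : Finset ℤ}

/-- the eigenvalues of `N f` in position `-j` -/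
def ceig (j i : ℕ) : ℚ := i * (j + i + 1)

/-- the polynomial with these roots -/
def qeig (j r : ℕ) : ℚ[X] := ∏ i ∈ Finset.range r, (X - C (ceig j i))

lemma sl_fT (h : Sl N f s P) {j : ℕ} {x : E} (hx : s (-(j : ℤ)) x = x) :
    f (N (f x)) = N (f (f x)) + ((j : K) + 2) • f x := by
  have h1 := h.mem_f hx
  have h2 := h.wt h1
  have h3 : N (f (f x)) - f (N (f x)) = ((-(j : ℤ) - 2 : ℤ) : K) • f x := h2
  have h4 : f (N (f x)) = N (f (f x)) - ((-(j : ℤ) - 2 : ℤ) : K) • f x := by
    rw [← h3]; abel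
  rw [h4]
  push_cast
  rw [sub_eq_add_neg, ← neg_smul]
  congr 2
  ring

lemma sl_Tmem (h : Sl N f s P) {p : ℤ} {x : E} (hx : s p x = x) : s p (N (f x)) = N (f x) := by
  have := h.mem_N (h.mem_f hx)
  rwa [sub_add_cancel] at this

lemma sl_aeval_mem (h : Sl N f s P) {p : ℤ} (Q : K[X]) {x : E} (hx : s p x = x) :
    s p (aeval (N * f) Q x) = aeval (N * f) Q x := by
  have h1 : (N * f) * s p = s p * (N * f) := by
    rw [mul_assoc, h.fs, ← mul_assoc, h.Ns, sub_add_cancel, mul_assoc]
  have h2 := LinearMap.congr_fun (aeval_comm' h1 Q) x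
  rw [Module.End.mul_apply, Module.End.mul_apply, hx] at h2
  exact h2.symm

lemma sl_f_aeval (h : Sl N f s P) {j : ℕ} (Q : K[X]) {x : E} (hx : s (-(j : ℤ)) x = x) :
    f (aeval (N * f) Q x) = aeval (N * f) (Q.comp (X + C ((j : K) + 2))) (f x) := by
  have hpow : ∀ m : ℕ, f (((N * f) ^ m) x) =
      ((N * f + algebraMap K (Module.End K E) ((j : K) + 2)) ^ m) (f x) := by
    intro m
    induction m with
    | zero => rfl
    | succ m ih =>
      rw [pow_succ', pow_succ']
      change f (N (f (((N * f) ^ m) x))) =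
        (N * f + algebraMap K (Module.End K E) ((j : K) + 2))
          (((N * f + algebraMap K (Module.End K E) ((j : K) + 2)) ^ m) (f x))
      rw [← ih]
      have h1 : s (-(j : ℤ)) (((N * f) ^ m) x) = ((N * f) ^ m) x := by
        have := sl_aeval_mem h (X ^ m) hx
        rwa [aeval_X_pow] at this
      exact sl_fT h h1
  induction Q using Polynomial.induction_on' with
  | add p q hp hq => simp only [map_add, add_comp, LinearMap.add_apply, hp, hq]
  | monomial m a =>
    rw [← C_mul_X_pow_eq_monomial, mul_comp, C_comp, pow_comp, X_comp, map_mul, map_mul, aeval_C,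
      map_pow, map_pow, map_add, aeval_X, aeval_C]
    change f (a • ((N * f) ^ m) x) =
      a • ((N * f + algebraMap K (Module.End K E) ((j : K) + 2)) ^ m) (f x)
    rw [map_smul, hpow]

lemma qeig_comp (j r : ℕ) :
    (∏ i ∈ Finset.range r, (X - C (ceig j (i + 1)))).comp (X + C ((j : ℚ) + 2)) =
      qeig (j + 2) r := by
  unfold qeig
  rw [prod_comp]
  refine Finset.prod_congr rfl fun i _ => ?_
  rw [sub_comp, X_comp, C_comp, add_sub_assoc, ← C_sub, sub_eq_add_neg X, ← C_neg]
  congr 2
  unfold ceig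
  push_cast
  ring

lemma sl_qeig_zero (h : Sl N f s P) (r : ℕ) : ∀ (j : ℕ) (x : E), s (-(j : ℤ)) x = x →
    (f ^ r) x = 0 → aeval (N * f) ((qeig j r).map (algebraMap ℚ K)) x = 0 := by
  induction r with
  | zero =>
    intro j x _ h0
    have : x = 0 := h0
    rw [this, map_zero]
  | succ r ih =>
    intro j x hx h0
    have e1 : qeig j (r + 1) = X * ∏ i ∈ Finset.range r, (X - C (ceig j (i + 1))) := by
      unfold qeig
      rw [Finset.prod_range_succ', mul_comm]
      congr 1
      unfold ceig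
      simp
    rw [e1, Polynomial.map_mul, map_X, map_mul, aeval_X, Module.End.mul_apply]
    change N (f _) = 0
    rw [sl_f_aeval h _ hx]
    have e2 : ((∏ i ∈ Finset.range r, (X - C (ceig j (i + 1)))).map (algebraMap ℚ K)).comp
        (X + C ((j : K) + 2)) = (qeig (j + 2) r).map (algebraMap ℚ K) := by
      rw [← qeig_comp, Polynomial.map_comp, Polynomial.map_add, map_X, map_C]
      congr 3
      simp
    rw [e2, ih (j + 2) (f x) ?_ ?_, map_zero]
    · have := h.mem_f hx
      have e3 : -((j + 2 : ℕ) : ℤ) = -(j : ℤ) - 2 := by push_cast; ring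
      rw [e3]
      exact this
    · rw [← Module.End.mul_apply, ← pow_succ]
      exact h0

/-- the projector onto the lowest weight vectors of position `-j` -/
theorem sl_exists_proj (h : Sl N f s P) (j : ℕ) : ∃ Q : ℚ[X],
    (∀ x, f (aeval (N * f) (Q.map (algebraMap ℚ K)) (s (-(j : ℤ)) x)) = 0) ∧
      ∀ x, f x = 0 → aeval (N * f) (Q.map (algebraMap ℚ K)) x = x := by
  obtain ⟨B0, hB0⟩ := h.low
  set r := (-(j : ℤ) - B0 + 1).toNat with hr
  have hs : ∀ (x : E) (m : ℕ), s (-(j : ℤ)) x = x → s (-(j : ℤ) - 2 * m) ((f ^ m) x) =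
      (f ^ m) x := by
    intro x m hx
    induction m with
    | zero => simpa using hx
    | succ m ih =>
      rw [pow_succ', Module.End.mul_apply]
      have := h.mem_f ih
      rw [show -(j : ℤ) - 2 * ((m + 1 : ℕ) : ℤ) = -(j : ℤ) - 2 * m - 2 by push_cast; ring]
      exact this
  have hz : ∀ x : E, s (-(j : ℤ)) x = x → (f ^ (r + 1)) x = 0 := by
    intro x hx
    exact hB0 _ (by omega) _ (hs x (r + 1) hx)
  set Q : ℚ[X] := ∏ i ∈ Finset.range r, (C (-ceig j (i + 1))⁻¹ * (X - C (ceig j (i + 1)))) with hQ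
  have hc : ∀ i, -ceig j (i + 1) ≠ 0 := by
    intro i
    unfold ceig
    rw [neg_ne_zero]
    positivity
  have e1 : X * Q = C (∏ i ∈ Finset.range r, (-ceig j (i + 1))⁻¹) * qeig j (r + 1) := by
    have e0 : qeig j (r + 1) = X * ∏ i ∈ Finset.range r, (X - C (ceig j (i + 1))) := by
      unfold qeig
      rw [Finset.prod_range_succ', mul_comm]
      congr 1
      unfold ceig
      simp
    rw [e0, hQ, Finset.prod_mul_distrib, map_prod]
    ring
  refine ⟨Q, fun x => ?_, fun x hx => ?_⟩
  · have hsx : s (-(j : ℤ)) (s (-(j : ℤ)) x) = s (-(j : ℤ)) x := LinearMap.congr_fun (h.idem _) x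
    apply h.ker_N
    have e2 : N (f (aeval (N * f) (Q.map (algebraMap ℚ K)) (s (-(j : ℤ)) x))) =
        aeval (N * f) ((X * Q).map (algebraMap ℚ K)) (s (-(j : ℤ)) x) := by
      rw [Polynomial.map_mul, map_X, map_mul, aeval_X]
      rfl
    rw [e2, e1, Polynomial.map_mul, map_mul, Module.End.mul_apply,
      sl_qeig_zero h (r + 1) j _ hsx (hz _ hsx), map_zero]
  · have h0 : (N * f) x = (0 : K) • x := by
      rw [Module.End.mul_apply, hx, map_zero, zero_smul]
    rw [aeval_eig h0]
    have e3 : (Q.map (algebraMap ℚ K)).eval 0 = 1 := by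
      have : Q.eval 0 = 1 := by
        rw [hQ, eval_prod]
        refine Finset.prod_eq_one fun i _ => ?_
        rw [eval_mul, eval_C, eval_sub, eval_X, eval_C, zero_sub, inv_mul_cancel₀ (hc i)]
      have h3 : (Q.map (algebraMap ℚ K)).eval 0 = algebraMap ℚ K (Q.eval 0) := by
        rw [Polynomial.eval_map, ← map_zero (algebraMap ℚ K), Polynomial.eval₂_at_apply]
      rw [h3, this, map_one]
    rw [e3, one_smul]

end Pool.Agent.H62X
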