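import Pool.Agent.W_a3c811_h62w.Ab12

/-! The Casimir operator of a triple and the projectors onto its eigenspaces. -/

noncomputable section

set_option linter.unusedSectionVars false

namespace Pool.Agent.H62X

open Module Polynomial Pool.Agent.H79L

universe v w

variable {K : Type v} [Field K] [CharZero K] {E : Type w} [AddCommGroup E] [Module K E]
  [FiniteDimensional K E] {N f : Module.End K E} {s : ℤ → Module.End K E} {P : Finset ℤ}

/-- the Casimir operator -/
def cas (N f : Module.End K E) : Module.End K E :=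
  (4 : K) • (N * f) + (br N f - 1) * (br N f - 1)

lemma cas_at (h : Sl N f s P) {p : ℤ} {x : E} (hx : s p x = x) :
    cas N f x = (4 : K) • N (f x) + (((p - 1) ^ 2 : ℤ) : K) • x := by
  have h1 := h.wt hx
  change (4 : K) • (N (f x)) + (br N f (br N f x - x) - (br N f x - x)) = _
  rw [h1, map_sub, map_smul, h1, smul_smul]
  push_cast
  have e : (((p : K) * p) • x - (p : K) • x) - ((p : K) • x - x) = (((p : K) - 1) ^ 2) • x := by
    rw [← sub_smul]
    nth_rewrite 3 [← one_smul K x]
    rw [← sub_smul, ← sub_smul]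
    congr 1
    ring
  rw [e]

lemma cas_s (h : Sl N f s P) (p : ℤ) : cas N f * s p = s p * cas N f := by
  have hNf : N * f * s p = s p * (N * f) := by
    rw [mul_assoc, h.fs, ← mul_assoc, h.Ns, sub_add_cancel, mul_assoc]
  have hfN : f * N * s p = s p * (f * N) := by
    rw [mul_assoc, h.Ns, ← mul_assoc, h.fs, add_sub_cancel_right, mul_assoc]
  have hb : br N f * s p = s p * br N f := by
    unfold br
    rw [sub_mul, mul_sub, hNf, hfN]
  have hb1 : (br N f - 1) * s p = s p * (br N f - 1) := by
    rw [sub_mul, mul_sub, hb, one_mul, mul_one]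
  unfold cas
  rw [add_mul, mul_add, smul_mul_assoc, hNf, mul_smul_comm, mul_assoc (br N f - 1) (br N f - 1),
    hb1, ← mul_assoc (br N f - 1) (s p), hb1, mul_assoc (s p) (br N f - 1)]

lemma cas_N (h : Sl N f s P) : cas N f * N = N * cas N f := by
  refine h.ext_sum fun p => LinearMap.ext fun x => ?_
  have hx : s p (s p x) = s p x := LinearMap.congr_fun (h.idem p) x
  change cas N f (N (s p x)) = N (cas N f (s p x))
  generalize s p x = y at hx
  have h1 := h.comm_app hx
  have h2 : f (N y) = N (f y) - (p : K) • y := by rw [h1]; abel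
  rw [cas_at h (h.mem_N hx), cas_at h hx, h2, map_sub, map_smul, map_add, map_smul, map_smul,
    smul_sub, smul_smul, sub_add_eq_add_sub, add_sub_assoc, ← sub_smul]
  congr 2
  push_cast
  ring

lemma cas_f (h : Sl N f s P) : cas N f * f = f * cas N f := by
  refine h.ext_sum fun p => LinearMap.ext fun x => ?_
  have hx : s p (s p x) = s p x := LinearMap.congr_fun (h.idem p) x
  change cas N f (f (s p x)) = f (cas N f (s p x))
  generalize s p x = y at hx
  have h1 := h.comm_app (h.mem_f hx)
  rw [cas_at h (h.mem_f hx), cas_at h hx, map_add, map_smul, map_smul, h1, smul_add, smul_smul,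
    add_assoc, ← add_smul]
  congr 2
  push_cast
  ring

/-- an operator which commutes with `N` and `f` commutes with the Casimir operator -/
lemma cas_comm {T : Module.End K E} (h1 : T * N = N * T) (h2 : T * f = f * T) :
    T * cas N f = cas N f * T := by
  have h3 : T * (N * f) = N * f * T := by rw [← mul_assoc, h1, mul_assoc, h2, mul_assoc]
  have h4 : T * (f * N) = f * N * T := by rw [← mul_assoc, h2, mul_assoc, h1, mul_assoc]
  have h5 : T * br N f = br N f * T := by unfold br; rw [mul_sub, sub_mul, h3, h4]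
  have h6 : T * (br N f - 1) = (br N f - 1) * T := by rw [mul_sub, sub_mul, h5, mul_one, one_mul]
  unfold cas
  rw [mul_add, add_mul, mul_smul_comm, h3, smul_mul_assoc, ← mul_assoc T, h6,
    mul_assoc (br N f - 1) T, h6, mul_assoc (br N f - 1)]

/-- the value of the Casimir operator on lowest weight vectors -/
lemma cas_low (h : Sl N f s P) {j : ℕ} {x : E} (hx : s (-(j : ℤ)) x = x) (hf : f x = 0) :
    cas N f x = (((j + 1) ^ 2 : ℕ) : K) • x := by
  rw [cas_at h hx, hf, map_zero, smul_zero, zero_add]
  congr 1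
  push_cast
  ring

/-- the polynomial which kills the Casimir operator -/
def casP (M : ℕ) : ℚ[X] := ∏ k ∈ Finset.range M, (X - C (((k + 1) ^ 2 : ℕ) : ℚ))

/-- `4 ^ r qeig (N f)` in terms of the Casimir operator -/
lemma qeig_cas (j r : ℕ) : (∏ i ∈ Finset.range r, (X - C (((j + 2 * i + 1) ^ 2 : ℕ) : ℚ))).comp
    (C 4 * X + C (((j + 1) ^ 2 : ℕ) : ℚ)) = C (4 ^ r) * qeig j r := by
  unfold qeig
  rw [prod_comp, C_pow, ← Finset.card_range r, ← Finset.prod_const, Finset.card_range,
    ← Finset.prod_mul_distrib]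
  refine Finset.prod_congr rfl fun i _ => ?_
  have e : (((j + 1) ^ 2 : ℕ) : ℚ) - (((j + 2 * i + 1) ^ 2 : ℕ) : ℚ) = -(4 * ceig j i) := by
    unfold ceig
    push_cast
    ring
  rw [sub_comp, X_comp, C_comp, mul_sub, ← C_mul, add_sub_assoc, ← C_sub, e, C_neg]
  ring

lemma aeval_cas (h : Sl N f s P) {j : ℕ} (Q : K[X]) {x : E} (hx : s (-(j : ℤ)) x = x) :
    aeval (cas N f) Q x =
      aeval (N * f) (Q.comp (C 4 * X + C ((((j + 1) ^ 2 : ℕ) : K)))) x := by
  have hpow : ∀ m : ℕ, ((cas N f) ^ m) x =
      ((algebraMap K (Module.End K E) 4 * (N * f) +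
        algebraMap K (Module.End K E) (((j + 1) ^ 2 : ℕ) : K)) ^ m) x := by
    intro m
    induction m with
    | zero => rfl
    | succ m ih =>
      have h1 : s (-(j : ℤ)) (((cas N f) ^ m) x) = ((cas N f) ^ m) x := by
        have h2 := ((show Commute (cas N f) (s (-(j : ℤ))) from cas_s h _).pow_left m).eq
        have h3 := LinearMap.congr_fun h2 x
        rw [Module.End.mul_apply, Module.End.mul_apply, hx] at h3
        exact h3.symm
      rw [pow_succ', pow_succ', Module.End.mul_apply, Module.End.mul_apply, ← ih,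
        cas_at h h1]
      change _ = (4 : K) • (N (f (((cas N f) ^ m) x))) +
        ((((j + 1) ^ 2 : ℕ) : K)) • (((cas N f) ^ m) x)
      congr 2
      push_cast
      ring
  induction Q using Polynomial.induction_on' with
  | add p q hp hq => simp only [map_add, add_comp, LinearMap.add_apply, hp, hq]
  | monomial m a =>
    rw [← C_mul_X_pow_eq_monomial, mul_comp, C_comp, pow_comp, X_comp, map_mul, map_mul, aeval_C,
      map_pow, map_pow, map_add, map_mul, aeval_X, aeval_X, aeval_C, aeval_C, aeval_C]
    change a • ((cas N f) ^ m) x = a • ((algebraMap K (Module.End K E) 4 * (N * f) +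
        algebraMap K (Module.End K E) (((j + 1) ^ 2 : ℕ) : K)) ^ m) x
    rw [hpow]

/-- On a nonpositive position the Casimir operator is killed by a product. -/
lemma cas_prod_zero (h : Sl N f s P) {j r : ℕ} {x : E} (hx : s (-(j : ℤ)) x = x)
    (h0 : (f ^ r) x = 0) :
    aeval (cas N f) ((∏ i ∈ Finset.range r, (X - C (((j + 2 * i + 1) ^ 2 : ℕ) : ℚ))).map
      (algebraMap ℚ K)) x = 0 := by
  rw [aeval_cas h _ hx]
  have h1 : ((∏ i ∈ Finset.range r, (X - C (((j + 2 * i + 1) ^ 2 : ℕ) : ℚ))).map
      (algebraMap ℚ K)).comp (C 4 * X + C ((((j + 1) ^ 2 : ℕ) : K))) =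
      (C (4 ^ r) * qeig j r).map (algebraMap ℚ K) := by
    rw [← qeig_cas, Polynomial.map_comp, Polynomial.map_add, Polynomial.map_mul, map_X, map_C,
      map_C]
    congr 3
    · simp
    · simp
  rw [h1, Polynomial.map_mul, map_mul, Module.End.mul_apply, sl_qeig_zero h r j x hx h0, map_zero]

end Pool.Agent.H62X
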