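import Pool.Agent.W_a3c811_h62w.Ab13

/-! The projectors onto the eigenspaces of the Casimir operator. -/

noncomputable section

set_option linter.unusedSectionVars false

namespace Pool.Agent.H62X

open Module Polynomial Pool.Agent.H79L

universe v w

variable {K : Type v} [Field K] [CharZero K] {E : Type w} [AddCommGroup E] [Module K E]
  [FiniteDimensional K E] {N f : Module.End K E} {s : ℤ → Module.End K E} {P : Finset ℤ}

/-- the eigenvalue of the Casimir operator on the representation of dimension `k + 1` -/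
def cv (k : ℕ) : ℚ := (((k + 1) ^ 2 : ℕ) : ℚ)

lemma cv_inj {k i : ℕ} (h : cv k = cv i) : k = i := by
  unfold cv at h
  have h1 : (k + 1) ^ 2 = (i + 1) ^ 2 := by exact_mod_cast h
  have h2 := Nat.pow_left_injective (n := 2) two_ne_zero h1
  omega

/-- a bound for the representations which occur -/
theorem cas_min (h : Sl N f s P) : ∃ M0, ∀ M, M0 ≤ M →
    aeval (cas N f) ((casP M).map (algebraMap ℚ K)) = 0 := by
  obtain ⟨B0, hB0⟩ := h.low
  refine ⟨(-B0).toNat + 2 * ((-B0).toNat + 1) + 1, fun M hM => ?_⟩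
  have hs : ∀ (j : ℕ) (x : E) (m : ℕ), s (-(j : ℤ)) x = x → s (-(j : ℤ) - 2 * m) ((f ^ m) x) =
      (f ^ m) x := by
    intro j x m hx
    induction m with
    | zero => simpa using hx
    | succ m ih =>
      rw [pow_succ', Module.End.mul_apply]
      have := h.mem_f ih
      rw [show -(j : ℤ) - 2 * ((m + 1 : ℕ) : ℤ) = -(j : ℤ) - 2 * m - 2 by push_cast; ring]
      exact this
  have neg : ∀ (j : ℕ) (x : E), s (-(j : ℤ)) x = x →
      aeval (cas N f) ((casP M).map (algebraMap ℚ K)) x = 0 := by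
    intro j x hx
    by_cases hj : (-B0).toNat < j
    · rw [hB0 (-(j : ℤ)) (by omega) x hx, map_zero]
    · have h1 := cas_prod_zero h (r := (-B0).toNat + 1) hx
        (hB0 _ (by push_cast; omega) _ (hs j x _ hx))
      have hd : (∏ i ∈ Finset.range ((-B0).toNat + 1), (X - C (((j + 2 * i + 1) ^ 2 : ℕ) : ℚ))) ∣
          casP M := by
        unfold casP
        have e : ∏ i ∈ Finset.range ((-B0).toNat + 1), (X - C (((j + 2 * i + 1) ^ 2 : ℕ) : ℚ)) =
            ∏ k ∈ (Finset.range ((-B0).toNat + 1)).image (fun i => j + 2 * i),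
              (X - C (((k + 1) ^ 2 : ℕ) : ℚ)) := by
          rw [Finset.prod_image]
          intro a _ b _ hab
          simp only at hab
          omega
        rw [e]
        refine Finset.prod_dvd_prod_of_subset _ _ _ ?_
        intro k hk
        rw [Finset.mem_image] at hk
        obtain ⟨i, hi, rfl⟩ := hk
        rw [Finset.mem_range] at hi ⊢
        omega
      obtain ⟨Q, hQ⟩ := hd
      rw [hQ, mul_comm, Polynomial.map_mul, map_mul, Module.End.mul_apply, h1, map_zero]
  refine h.ext_sum fun p => LinearMap.ext fun x => ?_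
  have hx : s p (s p x) = s p x := LinearMap.congr_fun (h.idem p) x
  rw [Module.End.mul_apply, Module.End.mul_apply, LinearMap.zero_apply]
  generalize s p x = y at hx
  rcases Int.le_total 0 p with hp | hp
  · obtain ⟨j, rfl⟩ := Int.eq_ofNat_of_zero_le hp
    obtain ⟨z, hz, rfl⟩ := (h.bij j).surjOn (h.mem_range.2 hx)
    have hz1 : s (-(j : ℤ)) z = z := h.mem_range.1 hz
    have hc : Commute (cas N f) (N ^ j) := (show Commute (cas N f) N from cas_N h).pow_right j
    have h2 := LinearMap.congr_fun (aeval_comm' hc.eq ((casP M).map (algebraMap ℚ K))) z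
    rw [Module.End.mul_apply, Module.End.mul_apply] at h2
    rw [h2, neg j z hz1, map_zero]
  · obtain ⟨j, hj⟩ := Int.eq_ofNat_of_zero_le (neg_nonneg.2 hp)
    have hp' : p = -(j : ℤ) := by omega
    rw [hp'] at hx
    exact neg j y hx

/-- the interpolation polynomial -/
def lag (M k : ℕ) : ℚ[X] :=
  ∏ i ∈ (Finset.range M).erase k, (C (cv k - cv i)⁻¹ * (X - C (cv i)))

lemma lag_self (M k : ℕ) : (lag M k).eval (cv k) = 1 := by
  unfold lag
  rw [eval_prod]
  refine Finset.prod_eq_one fun i hi => ?_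
  rw [eval_mul, eval_C, eval_sub, eval_X, eval_C]
  refine inv_mul_cancel₀ (sub_ne_zero.2 fun h0 => ?_)
  exact (Finset.mem_erase.1 hi).1 (cv_inj h0).symm

lemma lag_ne {M k i : ℕ} (hi : i < M) (hik : i ≠ k) : (lag M k).eval (cv i) = 0 := by
  unfold lag
  rw [eval_prod]
  refine Finset.prod_eq_zero (Finset.mem_erase.2 ⟨hik, Finset.mem_range.2 hi⟩) ?_
  rw [eval_mul, eval_sub, eval_X, eval_C, eval_C, sub_self, mul_zero]

lemma lag_mul {M k : ℕ} (hk : k < M) : ∃ c : ℚ, (X - C (cv k)) * lag M k = C c * casP M := by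
  refine ⟨∏ i ∈ (Finset.range M).erase k, (cv k - cv i)⁻¹, ?_⟩
  unfold lag casP
  rw [Finset.prod_mul_distrib, map_prod, mul_left_comm,
    Finset.mul_prod_erase (Finset.range M) (fun i => (X - C (cv i) : ℚ[X]))
      (Finset.mem_range.2 hk)]
  rfl

/-- the projector onto the eigenspace of the Casimir operator -/
def eps (N f : Module.End K E) (M k : ℕ) : Module.End K E :=
  aeval (cas N f) ((lag M k).map (algebraMap ℚ K))

lemma eval_map_rat (Q : ℚ[X]) (a : ℚ) :
    (Q.map (algebraMap ℚ K)).eval (a : K) = ((Q.eval a : ℚ) : K) := by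
  rw [← eq_ratCast (algebraMap ℚ K) a, ← eq_ratCast (algebraMap ℚ K) (Q.eval a),
    Polynomial.eval_map, Polynomial.eval₂_at_apply]

lemma eps_id (M : ℕ) {k : ℕ} {x : E} (hx : cas N f x = (cv k : K) • x) : eps N f M k x = x := by
  unfold eps
  rw [aeval_eig hx, eval_map_rat, lag_self, Rat.cast_one, one_smul]

lemma eps_ne {M k i : ℕ} (hi : i < M) (hik : i ≠ k) {x : E}
    (hx : cas N f x = (cv i : K) • x) : eps N f M k x = 0 := by
  unfold eps
  rw [aeval_eig hx, eval_map_rat, lag_ne hi hik, Rat.cast_zero, zero_smul]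

lemma cas_eps {M k : ℕ} (hk : k < M)
    (hM : aeval (cas N f) ((casP M).map (algebraMap ℚ K)) = 0) (x : E) :
    cas N f (eps N f M k x) = (cv k : K) • eps N f M k x := by
  obtain ⟨c, hc⟩ := lag_mul hk
  have h1 : aeval (cas N f) (((X - C (cv k)) * lag M k).map (algebraMap ℚ K)) = 0 := by
    rw [hc, Polynomial.map_mul, map_mul, hM, mul_zero]
  rw [Polynomial.map_mul, Polynomial.map_sub, map_X, map_C, map_mul, map_sub, aeval_X,
    aeval_C] at h1
  have h2 := LinearMap.congr_fun h1 x
  rw [Module.End.mul_apply, LinearMap.sub_apply, LinearMap.zero_apply, sub_eq_zero] at h2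
  rw [eq_ratCast] at h2
  exact h2

/-- an operator which commutes with the Casimir operator commutes with the projectors -/
lemma eps_comm {T : Module.End K E} (hT : cas N f * T = T * cas N f) (M k : ℕ) :
    eps N f M k * T = T * eps N f M k := aeval_comm' hT _

lemma eps_idem {M k : ℕ} (hk : k < M)
    (hM : aeval (cas N f) ((casP M).map (algebraMap ℚ K)) = 0) :
    eps N f M k * eps N f M k = eps N f M k :=
  LinearMap.ext fun x => eps_id M (cas_eps hk hM x)

lemma eps_orth {M k i : ℕ} (hi : i < M) (hik : i ≠ k)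
    (hM : aeval (cas N f) ((casP M).map (algebraMap ℚ K)) = 0) :
    eps N f M k * eps N f M i = 0 :=
  LinearMap.ext fun x => eps_ne hi hik (cas_eps hi hM x)

/-- the positions which occur in an eigenspace of the Casimir operator -/
theorem cas_supp (h : Sl N f s P) {k : ℕ} {p : ℤ} {x : E} (hx : s p x = x) (hx0 : x ≠ 0)
    (hc : cas N f x = (cv k : K) • x) : |p| ≤ k ∧ Even (p + k) := by
  have neg : ∀ (j : ℕ) (x : E), s (-(j : ℤ)) x = x → x ≠ 0 → cas N f x = (cv k : K) • x →
      ∃ i : ℕ, k = j + 2 * i := by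
    intro j x hx hx0 hc
    obtain ⟨B0, hB0⟩ := h.low
    have hs : ∀ (m : ℕ), s (-(j : ℤ) - 2 * m) ((f ^ m) x) = (f ^ m) x := by
      intro m
      induction m with
      | zero => simpa using hx
      | succ m ih =>
        rw [pow_succ', Module.End.mul_apply]
        have := h.mem_f ih
        rw [show -(j : ℤ) - 2 * ((m + 1 : ℕ) : ℤ) = -(j : ℤ) - 2 * m - 2 by push_cast; ring]
        exact this
    have h1 := cas_prod_zero h (r := (-B0).toNat + 1) hx
        (hB0 _ (by push_cast; omega) _ (hs _))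
    rw [aeval_eig hc, eval_map_rat] at h1
    have h2 := (smul_eq_zero.1 h1).resolve_right hx0
    rw [Rat.cast_eq_zero, eval_prod, Finset.prod_eq_zero_iff] at h2
    obtain ⟨i, -, hi⟩ := h2
    rw [eval_sub, eval_X, eval_C, sub_eq_zero] at hi
    exact ⟨i, cv_inj (hi.trans (by unfold cv; push_cast; ring))⟩
  rcases Int.le_total 0 p with hp | hp
  · obtain ⟨j, rfl⟩ := Int.eq_ofNat_of_zero_le hp
    obtain ⟨z, hz, rfl⟩ := (h.bij j).surjOn (h.mem_range.2 hx)
    have hz1 : s (-(j : ℤ)) z = z := h.mem_range.1 hz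
    have hcN : Commute (cas N f) (N ^ j) := (show Commute (cas N f) N from cas_N h).pow_right j
    have h2 : cas N f ((N ^ j) z) = (N ^ j) (cas N f z) := LinearMap.congr_fun hcN.eq z
    have hz0 : z ≠ 0 := by rintro rfl; exact hx0 (map_zero _)
    have hcz : cas N f z = (cv k : K) • z := by
      have h3 : s (-(j : ℤ)) (cas N f z) = cas N f z := by
        have := LinearMap.congr_fun (cas_s h (-(j : ℤ))) z
        rw [Module.End.mul_apply, Module.End.mul_apply, hz1] at this
        exact this.symm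
      rw [← sub_eq_zero]
      refine h.inj j j le_rfl _ ?_ ?_
      · rw [map_sub, map_smul, h3, hz1]
      · rw [map_sub, map_smul, ← h2, hc, sub_self]
    obtain ⟨i, hi⟩ := neg j z hz1 hz0 hcz
    refine ⟨?_, ⟨j + i, by rw [hi]; push_cast; ring⟩⟩
    rw [abs_of_nonneg hp, hi]
    push_cast
    omega
  · obtain ⟨j, hj⟩ := Int.eq_ofNat_of_zero_le (neg_nonneg.2 hp)
    have hp' : p = -(j : ℤ) := by omega
    subst hp'
    obtain ⟨i, hi⟩ := neg j x hx hx0 hc
    refine ⟨?_, ⟨i, by rw [hi]; push_cast; ring⟩⟩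
    rw [abs_of_nonpos hp, hi]
    push_cast
    omega

/-- membership in a ring closed under rational multiples -/
lemma eps_mem {B : Subring (Module.End K E)} (hB : ∀ (r : ℚ), ∀ u ∈ B, (r : K) • u ∈ B)
    (hN : N ∈ B) (hf : f ∈ B) (M k : ℕ) : eps N f M k ∈ B := by
  have h1 : cas N f ∈ B := by
    have h4 := hB 4 _ (mul_mem hN hf)
    have hb : br N f ∈ B := sub_mem (mul_mem hN hf) (mul_mem hf hN)
    have hb1 : br N f - 1 ∈ B := sub_mem hb (one_mem _)
    have h5 : ((4 : ℚ) : K) = 4 := by norm_num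
    rw [h5] at h4
    exact add_mem h4 (mul_mem hb1 hb1)
  exact aeval_mem_rat hB h1 _

/-- stability of subspaces -/
lemma eps_stab {U : Submodule K E} (hN : ∀ x ∈ U, N x ∈ U) (hf : ∀ x ∈ U, f x ∈ U) (M k : ℕ) :
    ∀ x ∈ U, eps N f M k x ∈ U := by
  have h1 : ∀ x ∈ U, cas N f x ∈ U := by
    intro x hx
    have hb : ∀ x ∈ U, (br N f - 1) x ∈ U := by
      intro x hx
      exact U.sub_mem (U.sub_mem (hN _ (hf _ hx)) (hf _ (hN _ hx))) hx
    exact U.add_mem (U.smul_mem _ (hN _ (hf _ hx))) (hb _ (hb _ hx))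
  intro x hx
  have hpow : ∀ m : ℕ, ((cas N f) ^ m) x ∈ U := by
    intro m
    induction m with
    | zero => simpa using hx
    | succ m ih => rw [pow_succ', Module.End.mul_apply]; exact h1 _ ih
  unfold eps
  generalize (lag M k).map (algebraMap ℚ K) = Q
  induction Q using Polynomial.induction_on' with
  | add p q hp hq => rw [map_add]; exact U.add_mem hp hq
  | monomial m a =>
    rw [aeval_monomial]
    exact U.smul_mem a (hpow m)

end Pool.Agent.H62X
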