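import Pool.Agent.W_a3c811_h62w.Ab9
import Pool.Agent.W_a3c811_h62w.Ab14

/-! The projector which removes finitely many isotypic parts. -/

noncomputable section

set_option linter.unusedSectionVars false

namespace Pool.Agent.H62X

open Module Polynomial Pool.Agent.H79L

universe v w

variable {K : Type v} [Field K] [CharZero K] {E : Type w} [AddCommGroup E] [Module K E]
  [FiniteDimensional K E]
  {N f L g d : Module.End K E} {n : ℤ} {s t : ℤ → Module.End K E}
  {P D : Finset ℤ} {S : E →ₗ[K] E →ₗ[K] K} {B : Subring (Module.End K E)}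

/-- `e` is the projector onto the sum of the isotypic parts `(i, j)` which are not in `A`. -/
structure IsoPr (N f L g : Module.End K E) (n : ℤ) (s t : ℤ → Module.End K E)
    (S : E →ₗ[K] E →ₗ[K] K) (B : Subring (Module.End K E)) (A : Finset (ℕ × ℕ))
    (e : Module.End K E) : Prop where
  mem : e ∈ B
  cs : ∀ p, e * s p = s p * e
  ct : ∀ w, e * t w = t w * e
  cg : ∀ b, e * gen N f L g b = gen N f L g b * e
  comm : ∀ T, (∀ b, T * gen N f L g b = gen N f L g b * T) → e * T = T * e
  adj : Adj S e e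
  idem : e * e = e
  stab : ∀ U, Stab N f L g s t U → ∀ x ∈ U, e x ∈ U
  kill : ∀ i j, (i, j) ∈ A → ∀ x ∈ prim f g n s t i j, e x = 0
  supp : ∀ x p w, e x = 0 → s p x = x → t (w + n) x = x → x ≠ 0 →
    ∃ ij ∈ A, (|p| ≤ (ij.1 : ℤ) ∧ Even (p + ij.1)) ∧ |w| ≤ (ij.2 : ℤ) ∧ Even (w + ij.2)

lemma adj_cas (aN : Adj S N N) (af : Adj S f f) : Adj S (cas N f) (cas N f) := by
  have h1 : Adj S (br N f) (-(br N f)) := by
    have := (aN.mul af).sub (af.mul aN)
    have e : f * N - N * f = -(br N f) := by unfold br; abel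
    rwa [e] at this
  have h2 : Adj S (br N f - 1) (-(br N f) - 1) := h1.sub Adj.one
  have h3 : Adj S ((4 : K) • (N * f)) ((4 : K) • (f * N)) := by
    have h4 := aN.mul af
    refine ⟨fun x y => ?_, fun x y => ?_⟩
    · change S ((4 : K) • (N * f) x) y = S x ((4 : K) • (f * N) y)
      rw [map_smul, LinearMap.smul_apply, map_smul, h4.1]
    · change S ((4 : K) • (f * N) x) y = S x ((4 : K) • (N * f) y)
      rw [map_smul, LinearMap.smul_apply, map_smul, h4.2]
  have h5 := h3.add (h2.mul h2)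
  have e : (4 : K) • (f * N) + (-(br N f) - 1) * (-(br N f) - 1) = cas N f := by
    unfold cas
    have e1 : f * N = N * f - br N f := by unfold br; abel
    rw [e1, smul_sub]
    have e2 : (-(br N f) - 1) * (-(br N f) - 1) =
        (br N f - 1) * (br N f - 1) + (4 : K) • br N f := by
      have e3 : (4 : K) • br N f = br N f + br N f + br N f + br N f := by
        rw [show (4 : K) = 1 + 1 + 1 + 1 by norm_num, add_smul, add_smul, add_smul, one_smul]
      rw [e3]
      noncomm_ring
    rw [e2]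
    abel
  rw [e] at h5
  exact h5

lemma adj_aeval_rat {T : Module.End K E} (h : Adj S T T) (q : K[X]) :
    Adj S (aeval T q) (aeval T q) := adj_aeval h q

lemma lt_of_cas {T : Module.End K E} {M i : ℕ}
    (hM : aeval T ((casP M).map (algebraMap ℚ K)) = 0) {x : E} (hx0 : x ≠ 0)
    (hx : T x = (cv i : K) • x) : i < M := by
  have h1 := LinearMap.congr_fun hM x
  rw [aeval_eig hx, eval_map_rat, LinearMap.zero_apply] at h1
  have h2 := (smul_eq_zero.1 h1).resolve_right hx0
  rw [Rat.cast_eq_zero] at h2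
  unfold casP at h2
  rw [eval_prod, Finset.prod_eq_zero_iff] at h2
  obtain ⟨k, hk, hk'⟩ := h2
  rw [eval_sub, eval_X, eval_C, sub_eq_zero] at hk'
  rw [cv_inj (i := k) (k := i) (hk'.trans (by unfold cv; rfl))]
  exact Finset.mem_range.1 hk

theorem exists_isoPr' (h : Pol N f L g d n s t P D S B)
    (hB : ∀ (r : ℚ), ∀ u ∈ B, (r : K) • u ∈ B) (A : Finset (ℕ × ℕ)) :
    ∃ e, IsoPr N f L g n s t S B A e ∧
      ∀ i j, (i, j) ∉ A → ∀ x ∈ prim f g n s t i j, e x = x := by
  classical
  have hbi := h.bi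
  obtain ⟨M1, hM1⟩ := cas_min hbi.sl
  obtain ⟨M2, hM2⟩ := cas_min hbi.sl2
  set M := max (max M1 M2) (A.sup (fun ij => max ij.1 ij.2) + 1) with hM
  have m1 := hM1 M (by omega)
  have m2 := hM2 M (by omega)
  have hA : ∀ ij ∈ A, ij.1 < M ∧ ij.2 < M := by
    intro ij hij
    have h0 : max ij.1 ij.2 ≤ A.sup (fun ij => max ij.1 ij.2) :=
      Finset.le_sup (f := fun ij : ℕ × ℕ => max ij.1 ij.2) hij
    omega
  -- commutation of the Casimir operators
  have cN : ∀ {T : Module.End K E}, T * N = N * T → T * f = f * T →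
      cas N f * T = T * cas N f := fun h1 h2 => (cas_comm h1 h2).symm
  have cL : ∀ {T : Module.End K E}, T * L = L * T → T * g = g * T →
      cas L g * T = T * cas L g := fun h1 h2 => (cas_comm h1 h2).symm
  have hNL : cas N f * L = L * cas N f := cN hbi.NL.symm hbi.fL.symm
  have hNg : cas N f * g = g * cas N f := cN hbi.Ng.symm hbi.fg.symm
  have hLN : cas L g * N = N * cas L g := cL hbi.NL hbi.Ng
  have hLf : cas L g * f = f * cas L g := cL hbi.fL hbi.fg
  have hcc : cas N f * cas L g = cas L g * cas N f := cN hLN hLf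
  have ee : ∀ i j, eps N f M i * eps L g M j = eps L g M j * eps N f M i := by
    intro i j
    refine eps_comm ?_ M i
    exact (eps_comm hcc.symm M j).symm
  set F : ℕ × ℕ → Module.End K E := fun ij => eps N f M ij.1 * eps L g M ij.2 with hF
  have Fc : ∀ {T : Module.End K E}, cas N f * T = T * cas N f → cas L g * T = T * cas L g →
      ∀ ij, F ij * T = T * F ij := by
    intro T h1 h2 ij
    change eps N f M ij.1 * eps L g M ij.2 * T = T * (eps N f M ij.1 * eps L g M ij.2)
    rw [mul_assoc, eps_comm h2, ← mul_assoc, eps_comm h1, mul_assoc]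
  have sumc : ∀ {T : Module.End K E}, cas N f * T = T * cas N f → cas L g * T = T * cas L g →
      (1 - ∑ ij ∈ A, F ij) * T = T * (1 - ∑ ij ∈ A, F ij) := by
    intro T h1 h2
    rw [sub_mul, mul_sub, one_mul, mul_one, Finset.sum_mul, Finset.mul_sum]
    congr 1
    exact Finset.sum_congr rfl fun ij _ => Fc h1 h2 ij
  have ev1 : ∀ ij ∈ A, ∀ x, cas N f (F ij x) = (cv ij.1 : K) • F ij x := fun ij hij x =>
    cas_eps (hA ij hij).1 m1 _
  have ev2 : ∀ ij ∈ A, ∀ x, cas L g (F ij x) = (cv ij.2 : K) • F ij x := by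
    intro ij hij x
    have : F ij = eps L g M ij.2 * eps N f M ij.1 := ee _ _
    rw [this]
    exact cas_eps (hA ij hij).2 m2 _
  have Fid : ∀ ij, ∀ x, cas N f x = (cv ij.1 : K) • x → cas L g x = (cv ij.2 : K) • x →
      F ij x = x := by
    intro ij x h1 h2
    change eps N f M ij.1 (eps L g M ij.2 x) = x
    rw [eps_id M h2, eps_id M h1]
  have Fne : ∀ ij ∈ A, ∀ ij', ij ≠ ij' → ∀ x, cas N f x = (cv ij.1 : K) • x →
      cas L g x = (cv ij.2 : K) • x → F ij' x = 0 := by
    intro ij hij ij' hne x h1 h2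
    by_cases h3 : ij.2 = ij'.2
    · have h4 : ij.1 ≠ ij'.1 := fun h4 => hne (Prod.ext h4 h3)
      change eps N f M ij'.1 (eps L g M ij'.2 x) = 0
      rw [← h3, eps_id M h2]
      exact eps_ne (hA ij hij).1 h4 h1
    · change eps N f M ij'.1 (eps L g M ij'.2 x) = 0
      rw [eps_ne (hA ij hij).2 h3 h2, map_zero]
  have Fsum : ∀ ij ∈ A, ∀ x, cas N f x = (cv ij.1 : K) • x → cas L g x = (cv ij.2 : K) • x →
      (∑ ij ∈ A, F ij) x = x := by
    intro ij hij x h1 h2
    rw [LinearMap.sum_apply, Finset.sum_eq_single_of_mem ij hij, Fid ij x h1 h2]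
    intro ij' _ hne
    exact Fne ij hij ij' (Ne.symm hne) x h1 h2
  have comm' : ∀ T, (∀ b, T * gen N f L g b = gen N f L g b * T) →
      (1 - ∑ ij ∈ A, F ij) * T = T * (1 - ∑ ij ∈ A, F ij) := fun T hT =>
    sumc (cN (hT 0) (hT 1)) (cL (hT 2) (hT 3))
  refine ⟨1 - ∑ ij ∈ A, F ij, ⟨?_, ?_, ?_, ?_, comm', ?_, ?_, ?_, ?_, ?_⟩, ?_⟩
  · exact sub_mem (one_mem _) (sum_mem fun ij _ =>
      mul_mem (eps_mem hB h.mN h.mf _ _) (eps_mem hB h.mL h.mg _ _))
  · intro p
    exact sumc (cas_s hbi.sl p) (cL (hbi.Ls p).symm (hbi.gs p).symm)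
  · intro w
    refine sumc (cN (hbi.Nt w).symm (hbi.ft w).symm) ?_
    have := cas_s hbi.sl2 (w - n)
    simp only [sub_add_cancel] at this
    exact this
  · intro b
    fin_cases b
    · exact sumc (cas_N hbi.sl) hLN
    · exact sumc (cas_f hbi.sl) hLf
    · exact sumc hNL (cas_N hbi.sl2)
    · exact sumc hNg (cas_f hbi.sl2)
  · have h1 : Adj S (∑ ij ∈ A, F ij) (∑ ij ∈ A, F ij) := by
      have h2 : ∀ A' : Finset (ℕ × ℕ), Adj S (∑ ij ∈ A', F ij) (∑ ij ∈ A', F ij) := by
        intro A'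
        induction A' using Finset.induction_on with
        | empty => rw [Finset.sum_empty]; exact Adj.zero
        | insert ij A' hij ih =>
          rw [Finset.sum_insert hij]
          refine Adj.add ?_ ih
          have h3 := (adj_aeval_rat (adj_cas h.adjN h.adjf)
            ((lag M ij.1).map (algebraMap ℚ K))).mul (adj_aeval_rat (adj_cas h.adjL h.adjg)
              ((lag M ij.2).map (algebraMap ℚ K)))
          change Adj S (eps N f M ij.1 * eps L g M ij.2) (eps L g M ij.2 * eps N f M ij.1) at h3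
          rwa [← ee] at h3
      exact h2 A
    exact Adj.one.sub h1
  · have h1 : ∀ x, (∑ ij ∈ A, F ij) ((∑ ij ∈ A, F ij) x) = (∑ ij ∈ A, F ij) x := by
      intro x
      have e0 : (∑ ij ∈ A, F ij) x = ∑ ij ∈ A, F ij x := LinearMap.sum_apply _ _ _
      have e1 : (∑ ij ∈ A, F ij) (∑ ij ∈ A, F ij x) = ∑ ij ∈ A, F ij x := by
        rw [map_sum]
        exact Finset.sum_congr rfl fun ij hij => Fsum ij hij _ (ev1 ij hij x) (ev2 ij hij x)
      rw [e0]
      exact e1
    have h2 : (∑ ij ∈ A, F ij) * (∑ ij ∈ A, F ij) = ∑ ij ∈ A, F ij := LinearMap.ext h1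
    rw [sub_mul, mul_sub, mul_sub, h2]
    simp
  · intro U hU x hx
    refine U.sub_mem hx ?_
    rw [LinearMap.sum_apply]
    exact U.sum_mem fun ij _ => eps_stab hU.N hU.f M _ _ (eps_stab hU.L hU.g M _ _ hx)
  · intro i j hij x hx
    obtain ⟨h1, h2, h3, h4⟩ := (mem_prim_iff hbi).1 hx
    have e1 : cas N f x = (cv i : K) • x := by
      rw [cas_low hbi.sl h1 h3]
      congr 1
      unfold cv
      push_cast
      ring
    have e2 : cas L g x = (cv j : K) • x := by
      rw [cas_low hbi.sl2 (j := j) (by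
        change t (-(j : ℤ) + n) x = x
        rw [show -(j : ℤ) + n = n - j by ring, h2]) h4]
      congr 1
      unfold cv
      push_cast
      ring
    change x - (∑ ij ∈ A, F ij) x = 0
    rw [Fsum (i, j) hij x e1 e2, sub_self]
  · intro x p w hx hp hw hx0
    have h1 : x = (∑ ij ∈ A, F ij) x := sub_eq_zero.1 hx
    rw [LinearMap.sum_apply] at h1
    have h2 : ∑ ij ∈ A, F ij x ≠ 0 := by rw [← h1]; exact hx0
    obtain ⟨ij, hij, hne⟩ := Finset.exists_ne_zero_of_sum_ne_zero h2
    refine ⟨ij, hij, cas_supp hbi.sl ?_ hne (ev1 ij hij x), cas_supp hbi.sl2 (p := w) ?_ hne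
      (ev2 ij hij x)⟩
    · have := LinearMap.congr_fun (Fc (cas_s hbi.sl p) (cL (hbi.Ls p).symm (hbi.gs p).symm) ij) x
      rw [Module.End.mul_apply, Module.End.mul_apply, hp] at this
      exact this.symm
    · have hc : cas L g * t (w + n) = t (w + n) * cas L g := cas_s hbi.sl2 w
      have := LinearMap.congr_fun (Fc (cN (hbi.Nt (w + n)).symm (hbi.ft (w + n)).symm) hc ij) x
      rw [Module.End.mul_apply, Module.End.mul_apply, hw] at this
      exact this.symm
  · intro i j hij x hx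
    obtain ⟨h1, h2, h3, h4⟩ := (mem_prim_iff hbi).1 hx
    have e1 : cas N f x = (cv i : K) • x := by
      rw [cas_low hbi.sl h1 h3]
      congr 1
      unfold cv
      push_cast
      ring
    have e2 : cas L g x = (cv j : K) • x := by
      rw [cas_low hbi.sl2 (j := j) (by
        change t (-(j : ℤ) + n) x = x
        rw [show -(j : ℤ) + n = n - j by ring, h2]) h4]
      congr 1
      unfold cv
      push_cast
      ring
    change x - (∑ ij ∈ A, F ij) x = x
    rw [LinearMap.sum_apply, Finset.sum_eq_zero, sub_zero]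
    intro ij' hij'
    by_cases hx0 : x = 0
    · rw [hx0, map_zero]
    have hne : (i, j) ≠ ij' := by rintro rfl; exact hij hij'
    by_cases h3 : j = ij'.2
    · have h4 : i ≠ ij'.1 := fun h4 => hne (Prod.ext h4 h3)
      change eps N f M ij'.1 (eps L g M ij'.2 x) = 0
      rw [← h3, eps_id M e2]
      exact eps_ne (lt_of_cas m1 hx0 e1) h4 e1
    · change eps N f M ij'.1 (eps L g M ij'.2 x) = 0
      rw [eps_ne (lt_of_cas m2 hx0 e2) h3 e2, map_zero]

theorem exists_isoPr (h : Pol N f L g d n s t P D S B)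
    (hB : ∀ (r : ℚ), ∀ u ∈ B, (r : K) • u ∈ B) (A : Finset (ℕ × ℕ)) :
    ∃ e, IsoPr N f L g n s t S B A e := by
  obtain ⟨e, he, -⟩ := exists_isoPr' h hB A
  exact ⟨e, he⟩

end Pool.Agent.H62X
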