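import Pool.Agent.W_a3c811_h62w.Ab15

/-! The kernel part of the Laplacian outside an exceptional set of isotypic parts. -/

noncomputable section

set_option linter.unusedSectionVars false

namespace Pool.Agent.H62X

open Module Pool.Agent.H79L

universe v w

variable {K : Type v} [Field K] [CharZero K] {E : Type w} [AddCommGroup E] [Module K E]
  [FiniteDimensional K E]
  {N f L g d : Module.End K E} {n : ℤ} {s t : ℤ → Module.End K E}
  {P D : Finset ℤ} {S : E →ₗ[K] E →ₗ[K] K} {B : Subring (Module.End K E)}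
  {A : Finset (ℕ × ℕ)} {e Z : Module.End K E}

section e

variable (he : IsoPr N f L g n s t S B A e)
include he

lemma IsoPr.ee (x : E) : e (e x) = e x := LinearMap.congr_fun he.idem x

lemma IsoPr.mem_range {x : E} : x ∈ LinearMap.range e ↔ e x = x := by
  constructor
  · rintro ⟨y, rfl⟩
    exact he.ee y
  · intro h
    exact ⟨x, h⟩

lemma IsoPr.stabR : Stab N f L g s t (LinearMap.range e) := by
  have key : ∀ T : Module.End K E, e * T = T * e → ∀ x ∈ LinearMap.range e,
      T x ∈ LinearMap.range e := by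
    rintro T hT x ⟨y, rfl⟩
    exact ⟨T y, LinearMap.congr_fun hT y⟩
  exact stab_of_gen (fun b => key _ (he.cg b)) (fun p => key _ (he.cs p))
    (fun w => key _ (he.ct w))

lemma IsoPr.lap (h : Pol N f L g d n s t P D S B) : e * lap f g d = H79L.lap f g d * e :=
  he.comm _ fun b => (lap_gen h.bi b).symm

lemma IsoPr.lap_pow (h : Pol N f L g d n s t P D S B) (m : ℕ) :
    e * H79L.lap f g d ^ m = H79L.lap f g d ^ m * e :=
  ((show Commute e (H79L.lap f g d) from he.lap h).pow_right m).eq

lemma IsoPr.cZ (hZ : Har N f L g d s t S B Z) : e * Z = Z * e := he.comm _ hZ.cg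

end e

variable (h : Pol N f L g d n s t P D S B)
  (hZ : Har N f L g d s t S B Z) (he : IsoPr N f L g n s t S B A e)
include h hZ he

/-- membership in `J` -/
lemma J_of_e {X X' : Module.End K E} (hX : X ∈ B) (hX' : X' ∈ B) (hadj : Adj S X X')
    (r1 : ∀ x, X x ∈ radS f g d) (r2 : ∀ x, X' x ∈ radS f g d) :
    J S B (radS f g d ⊓ LinearMap.range e) (e * X * (e * Z)) := by
  refine ⟨mul_mem (mul_mem he.mem hX) (mul_mem he.mem hZ.mem), fun x => ⟨?_, ⟨_, rfl⟩⟩,
    Z * e * (X' * e), mul_mem (mul_mem hZ.mem he.mem) (mul_mem hX' he.mem),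
    (he.adj.mul hadj).mul (he.adj.mul hZ.adj), fun x => ?_⟩
  · exact he.stab _ (stab_radS h.bi) _ (r1 _)
  · have e1 : (Z * e * (X' * e)) x = e (Z (X' (e x))) := by
      rw [← he.cZ hZ]; rfl
    rw [e1]
    exact ⟨he.stab _ (stab_radS h.bi) _ (hZ.radS h _ (r2 _)), ⟨_, rfl⟩⟩

variable (hA : ∀ i j, (i, j) ∉ A →
  Aniso N f L g n s t S B (radS f g d ⊓ LinearMap.range e) i j)

omit h hZ in
lemma aniso_e {U : Submodule K E} (hU : U ≤ LinearMap.range e)
    (hA : ∀ i j, (i, j) ∉ A →
      Aniso N f L g n s t S B (radS f g d ⊓ LinearMap.range e) i j) :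
    ∀ i j, (∃ x ∈ U, x ∈ prim f g n s t i j ∧ x ≠ 0) →
      Aniso N f L g n s t S B (radS f g d ⊓ LinearMap.range e) i j := by
  rintro i j ⟨x, hxU, hxp, hx0⟩
  refine hA i j fun hij => hx0 ?_
  have h1 := he.mem_range.1 (hU hxU)
  rw [← h1]
  exact he.kill i j hij x hxp

include hA

/-- The Laplacian vanishes on the image of `e Z`. -/
lemma lap_zero_e : lap f g d * (e * Z) = 0 := by
  have hbi := h.bi
  by_contra h0
  obtain ⟨M, hM⟩ := hZ.nil
  have hM' : ∃ M, lap f g d ^ M * (lap f g d * (e * Z)) = 0 := by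
    refine ⟨M, ?_⟩
    rw [← mul_assoc, ← pow_succ, pow_succ', mul_assoc, ← mul_assoc _ _ Z,
      ← he.lap_pow h, mul_assoc, hM, mul_zero, mul_zero]
  obtain ⟨m, -, hm0, hm⟩ := H62W.exists_last (A := B) (lap_mem h)
    (mul_mem (lap_mem h) (mul_mem he.mem hZ.mem)) h0 hM'
  have e1 : lap f g d ^ m * (lap f g d * (e * Z)) =
      e * lap f g d ^ (m + 1) * (e * Z) := by
    have e2 : e * lap f g d ^ (m + 1) * (e * Z) = lap f g d ^ (m + 1) * (e * Z) := by
      rw [he.lap_pow h, mul_assoc, ← mul_assoc e e Z, he.idem]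
    rw [e2, ← mul_assoc, ← pow_succ]
  refine hm0 (op_bot h ((stab_radS hbi).inf he.stabR)
    (((stab_ker_lap hbi).inf (stab_range_lap hbi)).inf he.stabR)
    (aniso_e he (fun x hx => hx.2) hA) ?_ ?_ ?_)
  · rintro x ⟨⟨-, ⟨y, rfl⟩⟩, -⟩ z ⟨⟨hz, -⟩, -⟩
    have hz' : lap f g d z = 0 := hz
    rw [(adj_lap h).1, hz', map_zero]
  · rw [e1]
    exact J_of_e h hZ he (pow_mem (lap_mem h) _) (pow_mem (lap_mem h) _) ((adj_lap h).pow _)
      (fun x => lap_pow_mem_radS m x) (fun x => lap_pow_mem_radS m x)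
  · intro x
    refine ⟨⟨LinearMap.congr_fun hm x, ?_⟩, ?_⟩
    · rw [e1, he.lap_pow h, pow_succ', mul_assoc, mul_assoc]
      exact ⟨_, rfl⟩
    · rw [e1]
      exact ⟨_, rfl⟩

/-- the words of length at least `m` map the image of `e Z` to the kernel of `e` -/
def Qe (f g d Z e : Module.End K E) (m : ℕ) : Prop :=
  ∀ l : List (Fin 4), m ≤ l.length → e * H62W.wd (cmp f g d) l * (e * Z) = 0

lemma Qe_five : Qe f g d Z e 5 := by
  have hbi := h.bi
  have hlap : ∀ (l : List (Fin 4)), lap f g d *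
      (H62W.wd (cmp f g d) l * (e * Z)) = 0 := by
    intro l
    induction l with
    | nil => simpa [H62W.wd] using lap_zero_e h hZ he hA
    | cons i l ih => rw [H62W.wd_cons, mul_assoc, ← mul_assoc, ← cmp_lap hbi, mul_assoc, ih, mul_zero]
  have anti : ∀ (i j : Fin 4) (l : List (Fin 4)),
      cmp f g d i * (cmp f g d j * (H62W.wd (cmp f g d) l * (e * Z))) =
      -(cmp f g d j * (cmp f g d i * (H62W.wd (cmp f g d) l * (e * Z)))) := by
    intro i j l
    have := cmp_anti hbi (hlap l) i j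
    rwa [mul_assoc, mul_assoc] at this
  have key : ∀ l : List (Fin 4), ¬ l.Nodup → H62W.wd (cmp f g d) l * (e * Z) = 0 := by
    intro l
    induction l with
    | nil => intro h1; exact absurd List.nodup_nil h1
    | cons i l ih =>
      intro h1
      rw [H62W.wd_cons, mul_assoc]
      by_cases hi : i ∈ l
      · exact H62W.wd_kill anti (cmp_sq hbi) l hi
      · have h2 : ¬ l.Nodup := fun h2 => h1 (List.nodup_cons.2 ⟨hi, h2⟩)
        rw [ih h2, mul_zero]
  intro l hl
  have hnd : ¬ l.Nodup := by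
    intro h1
    have := h1.length_le_card
    simp only [Fintype.card_fin] at this
    omega
  rw [mul_assoc, key l hnd, mul_zero]

omit hA in
lemma Qe_step (hA : ∀ i j, (i, j) ∉ A →
      Aniso N f L g n s t S B (radS f g d ⊓ LinearMap.range e) i j) {m : ℕ} (hm : 2 ≤ m)
    (hQ : Qe f g d Z e m) : Qe f g d Z e (m - 1) := by
  have hbi := h.bi
  set V := LinearMap.range (e * Z) with hVdef
  have hV : Stab N f L g s t V := by
    have key : ∀ T : Module.End K E, e * T = T * e → Z * T = T * Z → ∀ x ∈ V, T x ∈ V := by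
      rintro T hT hT' x ⟨y, rfl⟩
      refine ⟨T y, ?_⟩
      have h1 : e * Z * T = T * (e * Z) := by rw [mul_assoc, hT', ← mul_assoc, hT, mul_assoc]
      exact LinearMap.congr_fun h1 y
    exact stab_of_gen (fun b => key _ (he.cg b) (hZ.cg b)) (fun p => key _ (he.cs p) (hZ.cs p))
      (fun w => key _ (he.ct w) (hZ.ct w))
  intro l hl
  by_cases hl' : m ≤ l.length
  · exact hQ l hl'
  have hlen : l.length = m - 1 := by omega
  have hne : l ≠ [] := by rintro rfl; simp at hlen; omega
  -- the isotropic subspace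
  have hU : Stab N f L g s t (Um f g d V (m - 1) ⊓ LinearMap.range e) :=
    (stab_Um h hV (m - 1)).inf he.stabR
  have iso : ∀ x ∈ Um f g d V (m - 1) ⊓ LinearMap.range e,
      ∀ y ∈ Um f g d V (m - 1) ⊓ LinearMap.range e, S x y = 0 := by
    rintro x ⟨hx, -⟩ y ⟨hy, -⟩
    refine Um_induction (p := fun x => S x y = 0) ?_ (by simp) ?_ hx
    · intro l1 hl1 x hx
      refine Um_induction (p := fun y => S (H62W.wd (cmp f g d) l1 x) y = 0) ?_ (by simp) ?_ hy
      · rintro l2 hl2 y ⟨y, rfl⟩
        obtain ⟨c', -, h1, h2⟩ := adj_wd h l1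
        rw [h1.1]
        have h3 := hQ (l1.reverse ++ l2)
          (by rw [List.length_append, List.length_reverse, hl1, hl2]; omega)
        have h4 : H62W.wd (cmp f g d) (l1.reverse ++ l2) =
            H62W.wd (cmp f g d) l1.reverse * H62W.wd (cmp f g d) l2 := by
          unfold H62W.wd
          rw [List.map_append, List.prod_append]
        have h6 : e (H62W.wd (cmp f g d) l1.reverse (H62W.wd (cmp f g d) l2 ((e * Z) y))) = 0 := by
          have := LinearMap.congr_fun h3 y
          rw [h4] at this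
          exact this
        have h7 : e x = x := by
          obtain ⟨x', rfl⟩ := hx
          exact he.ee _
        have h5 : S x (H62W.wd (cmp f g d) l1.reverse (H62W.wd (cmp f g d) l2 ((e * Z) y))) =
            0 := by
          rw [← h7, he.adj.1, h6, map_zero]
        rcases h2 with rfl | rfl
        · exact h5
        · rw [LinearMap.neg_apply, map_neg, h5, neg_zero]
      · intro y y' h1 h2; rw [map_add, h1, h2, add_zero]
    · intro x x' h1 h2; rw [map_add, LinearMap.add_apply, h1, h2, add_zero]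
  obtain ⟨c', hc', h1, h2⟩ := adj_wd h l
  have hr' : ∀ x, c' x ∈ H62X.radS f g d := by
    intro x
    have h3 := wd_mem_radS' hbi l.reverse (by simpa using hne) x
    rcases h2 with rfl | rfl
    · exact h3
    · exact Submodule.neg_mem _ h3
  have hwB : H62W.wd (cmp f g d) l ∈ B := by
    rcases h2 with h3 | h3
    all_goals exact H62W.wd_mem (cmp_mem h) l
  refine op_bot h ((stab_radS hbi).inf he.stabR) hU (aniso_e he (fun x hx => hx.2) hA) iso ?_ ?_
  · exact J_of_e h hZ he hwB hc' h1 (fun x => wd_mem_radS' hbi l hne x) hr'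
  · intro x
    refine ⟨?_, ⟨_, rfl⟩⟩
    refine he.stab _ (stab_Um h hV (m - 1)) _ ?_
    rw [← hlen]
    exact Um_mem ⟨x, rfl⟩

/-- all words map the image of `e Z` to the kernel of `e` -/
theorem Qe_one : Qe f g d Z e 1 := by
  have h4 : Qe f g d Z e 4 := Qe_step h hZ he hA (by norm_num) (Qe_five h hZ he hA)
  have h3 : Qe f g d Z e 3 := Qe_step h hZ he hA (by norm_num) h4
  have h2 : Qe f g d Z e 2 := Qe_step h hZ he hA (by norm_num) h3
  exact Qe_step h hZ he hA (by norm_num) h2

end Pool.Agent.H62X
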