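import Pool.Agent.W_a3c811_h62w.Ab16

/-! The exceptional isotypic parts: homogeneous vectors. -/

noncomputable section

set_option linter.unusedSectionVars false

namespace Pool.Agent.H62X

open Module Pool.Agent.H79L

universe v w

variable {K : Type v} [Field K] [CharZero K] {E : Type w} [AddCommGroup E] [Module K E]
  [FiniteDimensional K E]
  {N f L g d : Module.End K E} {n : ℤ} {s t : ℤ → Module.End K E}
  {P D : Finset ℤ} {S : E →ₗ[K] E →ₗ[K] K} {B : Subring (Module.End K E)}
  {A : Finset (ℕ × ℕ)} {e Z : Module.End K E}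

/-- homogeneous vectors of position `p` and degree `w + n` -/
structure At (s t : ℤ → Module.End K E) (n p w : ℤ) (x : E) : Prop where
  hs : s p x = x
  ht : t (w + n) x = x

section at'

variable (h : Bi N f L g d n s t P D)

lemma At.sub {p w : ℤ} {x y : E} (hx : At s t n p w x) (hy : At s t n p w y) :
    At s t n p w (x - y) := ⟨by rw [map_sub, hx.hs, hy.hs], by rw [map_sub, hx.ht, hy.ht]⟩

lemma At.of_comm {T : Module.End K E} {p w a b : ℤ} {x : E} (hx : At s t n p w x)
    (h1 : T * s p = s (p + a) * T) (h2 : T * t (w + n) = t (w + b + n) * T) :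
    At s t n (p + a) (w + b) (T x) := by
  have e1 := LinearMap.congr_fun h1 x
  have e2 := LinearMap.congr_fun h2 x
  rw [Module.End.mul_apply, Module.End.mul_apply, hx.hs] at e1
  rw [Module.End.mul_apply, Module.End.mul_apply, hx.ht] at e2
  exact ⟨e1.symm, e2.symm⟩

lemma At.of_comm0 {T : Module.End K E} {p w : ℤ} {x : E} (hx : At s t n p w x)
    (h1 : ∀ p, T * s p = s p * T) (h2 : ∀ w, T * t w = t w * T) : At s t n p w (T x) := by
  have := hx.of_comm (T := T) (a := 0) (b := 0) (by rw [add_zero]; exact h1 p)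
    (by rw [add_zero]; exact h2 _)
  rwa [add_zero, add_zero] at this

include h

lemma At.ad {p w : ℤ} {x : E} (hx : At s t n p w x) : At s t n (p + 1) (w + 1) (d x) :=
  hx.of_comm (h.ds p) (by rw [show w + 1 + n = w + n + 1 by ring]; exact h.dt _)

lemma At.aN {p w : ℤ} {x : E} (hx : At s t n p w x) : At s t n (p + 2) w (N x) := by
  have := hx.of_comm (T := N) (a := 2) (b := 0) (h.sl.Ns p) (by rw [add_zero]; exact h.Nt _)
  rwa [add_zero] at this

lemma At.af {p w : ℤ} {x : E} (hx : At s t n p w x) : At s t n (p - 2) w (f x) := by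
  have := hx.of_comm (T := f) (a := -2) (b := 0) (h.sl.fs p) (by rw [add_zero]; exact h.ft _)
  rwa [add_zero] at this

lemma At.aL {p w : ℤ} {x : E} (hx : At s t n p w x) : At s t n p (w + 2) (L x) := by
  have := hx.of_comm (T := L) (a := 0) (b := 2) (by rw [add_zero]; exact h.Ls p)
    (by rw [show w + 2 + n = w + n + 2 by ring]; exact h.Lt _)
  rwa [add_zero] at this

lemma At.ag {p w : ℤ} {x : E} (hx : At s t n p w x) : At s t n p (w - 2) (g x) := by
  have := hx.of_comm (T := g) (a := 0) (b := -2) (by rw [add_zero]; exact h.gs p)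
    (by rw [show w + -2 + n = w + n - 2 by ring]; exact h.gt _)
  rwa [add_zero] at this

lemma At.brN {p w : ℤ} {x : E} (hx : At s t n p w x) : N (f x) = f (N x) + (p : K) • x :=
  h.sl.comm_app hx.hs

lemma At.brL {p w : ℤ} {x : E} (hx : At s t n p w x) : L (g x) = g (L x) + (w : K) • x :=
  h.sl2.comm_app (p := w) hx.ht

/-- the homogeneous component -/
lemma at_comp (p w : ℤ) (x : E) : At s t n p w (t (w + n) (s p x)) := by
  refine ⟨?_, LinearMap.congr_fun (h.idemt _) _⟩
  have e1 := LinearMap.congr_fun (h.st (w + n) p) (s p x)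
  have e2 : s p (s p x) = s p x := LinearMap.congr_fun (h.sl.idem p) x
  rw [Module.End.mul_apply, Module.End.mul_apply, e2] at e1
  exact e1

lemma comp_of_at {p w : ℤ} {x : E} (hx : At s t n p w x) : t (w + n) (s p x) = x := by
  rw [hx.hs, hx.ht]

/-- a homogeneous boundary is the boundary of a homogeneous vector -/
lemma at_hom {p w : ℤ} {x y : E} (hx : At s t n p w x) (hy : x = d y) :
    ∃ y', At s t n (p - 1) (w - 1) y' ∧ x = d y' := by
  refine ⟨_, at_comp h (p - 1) (w - 1) y, ?_⟩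
  have h1 := comp_of_at h hx
  have h2 := LinearMap.congr_fun (h.ds (p - 1)) y
  rw [Module.End.mul_apply, Module.End.mul_apply, sub_add_cancel] at h2
  have h3 := LinearMap.congr_fun (h.dt (w - 1 + n)) (s (p - 1) y)
  rw [Module.End.mul_apply, Module.End.mul_apply, h2, ← hy,
    show w - 1 + n + 1 = w + n by ring, h1] at h3
  exact h3.symm

end at'

section ctx

variable (h : Pol N f L g d n s t P D S B)
  (hZ : Har N f L g d s t S B Z) (he : IsoPr N f L g n s t S B A e)

lemma Har.app_comm {T : Module.End K E} (hT : Z * T = T * Z) (x : E) : Z (T x) = T (Z x) :=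
  LinearMap.congr_fun hT x

lemma app_comm {T U : Module.End K E} (hT : T * U = U * T) (x : E) : T (U x) = U (T x) :=
  LinearMap.congr_fun hT x

include h hZ he

/-- the vectors of the image of `e Z` -/
structure InH (e Z : Module.End K E) (x : E) : Prop where
  e : e x = x
  z : Z x = x

omit h in
lemma inH_of (y : E) : InH e Z (e (Z y)) := by
  refine ⟨he.ee _, ?_⟩
  have h1 : Z (e (Z y)) = e (Z (Z y)) := (app_comm (he.cZ hZ) (Z y)).symm
  have h2 : Z (Z y) = Z y := LinearMap.congr_fun hZ.idem y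
  rw [h1, h2]

omit h hZ he in
lemma InH.sub {x y : E} (hx : InH e Z x) (hy : InH e Z y) : InH e Z (x - y) :=
  ⟨by rw [map_sub, hx.e, hy.e], by rw [map_sub, hx.z, hy.z]⟩

omit h hZ he in
lemma InH.app {x : E} (hx : InH e Z x) {T : Module.End K E} (h1 : e * T = T * e)
    (h2 : Z * T = T * Z) : InH e Z (T x) :=
  ⟨by rw [app_comm h1, hx.e], by rw [app_comm h2, hx.z]⟩

omit h hZ he in
/-- words map the image of `e Z` to the kernel of `e` -/
lemma Qe.app (hQ : Qe f g d Z e 1) {l : List (Fin 4)} (hl : l ≠ []) {x : E} (hx : InH e Z x) :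
    e (H62W.wd (cmp f g d) l x) = 0 := by
  have h1 := LinearMap.congr_fun (hQ l (List.length_pos_iff.2 hl)) x
  rw [Module.End.mul_apply, Module.End.mul_apply, Module.End.mul_apply, hx.z, hx.e] at h1
  exact h1

omit h hZ he in
lemma Qe.qd (hQ : Qe f g d Z e 1) {x : E} (hx : InH e Z x) : e (d x) = 0 := by
  have h1 := hQ.app (l := [0]) (by simp) hx
  have e0 : H62W.wd (cmp f g d) [0] = d := by
    unfold H62W.wd
    simp only [List.map_cons, List.map_nil, List.prod_cons, List.prod_nil, mul_one]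
    rfl
  rwa [e0] at h1

omit h hZ he in
lemma Qe.d1 (hQ : Qe f g d Z e 1) {x : E} (hx : InH e Z x) : e (d (f (d x) - d (f x))) = 0 := by
  have h1 := hQ.app (l := [0, 1]) (by simp) hx
  have e0 : H62W.wd (cmp f g d) [0, 1] = d * br f d := by
    unfold H62W.wd
    simp only [List.map_cons, List.map_nil, List.prod_cons, List.prod_nil, mul_one]
    rfl
  rwa [e0] at h1

omit h hZ he in
lemma Qe.d2 (hQ : Qe f g d Z e 1) {x : E} (hx : InH e Z x) : e (d (g (d x) - d (g x))) = 0 := by
  have h1 := hQ.app (l := [0, 2]) (by simp) hx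
  have e0 : H62W.wd (cmp f g d) [0, 2] = d * br g d := by
    unfold H62W.wd
    simp only [List.map_cons, List.map_nil, List.prod_cons, List.prod_nil, mul_one]
    rfl
  rwa [e0] at h1

/-- vectors of the image of `Z` in a bidegree which does not occur in the kernel of `e` lie in the
image of `e Z` -/
lemma inH_of_nz {p w : ℤ} (hn : ∀ x, e x = 0 → At s t n p w x → x = 0) {x : E}
    (hx : At s t n p w x) (hzx : Z x = x) : InH e Z x := by
  have h1 : At s t n p w (e x) := hx.of_comm0 he.cs he.ct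
  have h2 := hn (x - e x) (by rw [map_sub, he.ee, sub_self]) (hx.sub h1)
  exact ⟨(sub_eq_zero.1 h2).symm, hzx⟩

/-- The first argument: `O` maps the cohomology of one bidegree onto that of another one. -/
lemma kill1 (hQ : Qe f g d Z e 1) {O : Module.End K E}
    (cZ : Z * O = O * Z) (ce : e * O = O * e) {p w q u : ℤ}
    (hO : ∀ x, At s t n p w x → At s t n q u (O x))
    (inj : ∀ x, At s t n p w x → O x = 0 → x = 0)
    (surj : ∀ z, At s t n q u z → d z = 0 →
      ∃ x y, At s t n p w x ∧ d x = 0 ∧ z = O x + d y)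
    (n1 : ∀ x, e x = 0 → At s t n (q + 1) (u + 1) x → x = 0)
    (n2 : ∀ x, e x = 0 → At s t n p w x → x = 0)
    (n3 : ∀ x, e x = 0 → At s t n (q - 1) (u - 1) x → x = 0) {v : E} (hv : InH e Z v)
    (hvat : At s t n p w v) : d v = 0 := by
  have hbi := h.bi
  have hOv : InH e Z (O v) := hv.app ce cZ
  have hz : At s t n q u (O v) := hO v hvat
  have hdz : d (O v) = 0 := n1 _ (hQ.qd hOv) (hz.ad hbi)
  obtain ⟨x, y, hx, hdx, hxy⟩ := surj _ hz hdz
  have e1 : O v = O x + d (t (u - 1 + n) (s (q - 1) y)) := by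
    have h1 : O v - O x = d y := by rw [hxy]; abel
    have h2 : At s t n q u (O v - O x) := hz.sub (hO x hx)
    have h3 := comp_of_at hbi h2
    have h4 := LinearMap.congr_fun (hbi.ds (q - 1)) y
    rw [Module.End.mul_apply, Module.End.mul_apply, sub_add_cancel] at h4
    have h5 := LinearMap.congr_fun (hbi.dt (u - 1 + n)) (s (q - 1) y)
    rw [Module.End.mul_apply, Module.End.mul_apply, h4, ← h1,
      show u - 1 + n + 1 = u + n by ring, h3] at h5
    rw [h5]
    abel
  set y' := t (u - 1 + n) (s (q - 1) y) with hy'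
  have hy'at : At s t n (q - 1) (u - 1) y' := at_comp hbi _ _ _
  have cdZ : Z * d = d * Z := hZ.cd
  have hZZ : ∀ x, Z (Z x) = Z x := fun x => LinearMap.congr_fun hZ.idem x
  have e2 : O v = O (Z x) + d (Z y') := by
    have := congrArg Z e1
    rwa [map_add, app_comm cZ, app_comm cZ, app_comm cdZ, hv.z] at this
  have hZx : At s t n p w (Z x) := hx.of_comm0 hZ.cs hZ.ct
  have hZy : At s t n (q - 1) (u - 1) (Z y') := hy'at.of_comm0 hZ.cs hZ.ct
  have i1 : InH e Z (Z x) := inH_of_nz h hZ he n2 hZx (hZZ x)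
  have i2 : InH e Z (Z y') := inH_of_nz h hZ he n3 hZy (hZZ y')
  have e3 : O v = O (Z x) := by
    have := congrArg e e2
    rwa [map_add, app_comm ce, app_comm ce, hv.e, i1.e, hQ.qd i2, add_zero] at this
  have e4 : v - Z x = 0 := inj _ (hvat.sub hZx) (by rw [map_sub, e3, sub_self])
  rw [sub_eq_zero.1 e4, ← app_comm cdZ, hdx, map_zero]

end ctx

/-- The data of one of the two triples used below. -/
structure Half (L g d e Z : Module.End K E) (H : ℤ → ℤ → E → Prop) : Prop where
  hL : ∀ p w x, H p w x → H p (w + 2) (L x)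
  hg : ∀ p w x, H p w x → H p (w - 2) (g x)
  hd : ∀ p w x, H p w x → H (p + 1) (w + 1) (d x)
  hZ : ∀ p w x, H p w x → H p w (Z x)
  br : ∀ p w x, H p w x → L (g x) = g (L x) + (w : K) • x
  Ld : L * d = d * L
  dd : d * d = 0
  cL : Z * L = L * Z ∧ e * L = L * e
  cg : Z * g = g * Z ∧ e * g = g * e
  cd : Z * d = d * Z
  zz : Z * Z = Z
  F1 : ∀ x, InH e Z x → e (d x) = 0
  F2 : ∀ x, InH e Z x → e (d (g (d x) - d (g x))) = 0
  hom : ∀ p w x y, H p w x → x = d y → ∃ y', H (p - 1) (w - 1) y' ∧ x = d y'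
  nz : ∀ p w, (∀ x, e x = 0 → H p w x → x = 0) → ∀ x, H p w x → Z x = x → InH e Z x

/-- The second argument, for vectors killed by `g`. -/
lemma kill2 {H : ℤ → ℤ → E → Prop} (hh : Half L g d e Z H)
    (nA : ∀ x, e x = 0 → H 0 3 x → x = 0) (nB : ∀ x, e x = 0 → H (-1) (-2) x → x = 0)
    (nC : ∀ x, e x = 0 → H 1 0 x → x = 0)
    (k1 : ∀ v, InH e Z v → H (-1) (-2) v → d v = 0)
    (inj : ∀ x, H 0 (-1) x → d x = 0 → (∃ y, L x = d y) → ∃ y, x = d y)
    {v : E} (hv : InH e Z v) (hvat : H (-1) 0 v) (hgv : g v = 0) : d v = 0 := by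
  have hdv : H 0 1 (d v) := by
    have := hh.hd _ _ _ hvat
    rwa [show (-1 : ℤ) + 1 = 0 by norm_num, zero_add] at this
  have hLdv : L (d v) = 0 := by
    refine nA _ ?_ ?_
    · rw [app_comm hh.cL.2, hh.F1 v hv, map_zero]
    · have := hh.hL _ _ _ hdv
      rwa [show (1 : ℤ) + 2 = 3 by norm_num] at this
  set z := g (d v) with hz
  have hzat : H 0 (-1) z := by
    have := hh.hg _ _ _ hdv
    rwa [show (1 : ℤ) - 2 = -1 by norm_num] at this
  have hLz : L z = d v := by
    have := hh.br _ _ _ hdv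
    rwa [hLdv, map_zero, zero_add, Int.cast_one, one_smul] at this
  have hdz : d z = 0 := by
    refine nC _ ?_ ?_
    · have := hh.F2 v hv
      rwa [hgv, map_zero, sub_zero] at this
    · have := hh.hd _ _ _ hzat
      rwa [zero_add, show (-1 : ℤ) + 1 = 0 by norm_num] at this
  obtain ⟨y, hy⟩ := inj z hzat hdz ⟨v, hLz⟩
  obtain ⟨y', hy'at, hy'⟩ := hh.hom _ _ _ _ hzat hy
  rw [show (0 : ℤ) - 1 = -1 by norm_num, show (-1 : ℤ) - 1 = -2 by norm_num] at hy'at
  have hZZ : ∀ x, Z (Z x) = Z x := fun x => LinearMap.congr_fun hh.zz x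
  have i1 : InH e Z (Z y') := hh.nz _ _ nB _ (hh.hZ _ _ _ hy'at) (hZZ _)
  have hk := k1 _ i1 (hh.hZ _ _ _ hy'at)
  have hzz : Z z = z := by
    rw [hz, app_comm hh.cg.1, app_comm hh.cd, hv.z]
  have hz0 : z = 0 := by
    rw [← hzz, hy', app_comm hh.cd, hk]
  rw [← hLz, hz0, map_zero]

end Pool.Agent.H62X
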