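import Pool.Agent.W_a3c811_h62w.Ab17

/-! The exceptional isotypic parts: the differential vanishes on the rest. -/

noncomputable section

set_option linter.unusedSectionVars false

namespace Pool.Agent.H62X

open Module Pool.Agent.H79L

universe v w

variable {K : Type v} [Field K] [CharZero K] {E : Type w} [AddCommGroup E] [Module K E]
  [FiniteDimensional K E]
  {N f L g d : Module.End K E} {n : ℤ} {s t : ℤ → Module.End K E}
  {P D : Finset ℤ} {S : E →ₗ[K] E →ₗ[K] K} {B : Subring (Module.End K E)}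
  {A : Finset (ℕ × ℕ)} {e Z : Module.End K E}

/-- `O` induces an isomorphism from the cohomology of bidegree `(p, w)` to that of bidegree
`(q, u)`. -/
structure EI (O d : Module.End K E) (s t : ℤ → Module.End K E) (n p w q u : ℤ) : Prop where
  inj : ∀ x, At s t n p w x → d x = 0 → (∃ y, O x = d y) → ∃ y, x = d y
  surj : ∀ z, At s t n q u z → d z = 0 → ∃ x y, At s t n p w x ∧ d x = 0 ∧ z = O x + d y

/-- the bidegrees of the kernel of `e` -/
lemma supp3 (he : IsoPr N f L g n s t S B A e)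
    (hA3 : ∀ ij ∈ A, ij = (0, 0) ∨ ij = (0, 1) ∨ ij = (1, 0)) {p w : ℤ} {x : E}
    (hex : e x = 0) (hx : At s t n p w x) (hx0 : x ≠ 0) :
    ((0, 0) ∈ A ∧ p = 0 ∧ w = 0) ∨ ((0, 1) ∈ A ∧ p = 0 ∧ (w = 1 ∨ w = -1)) ∨
      ((1, 0) ∈ A ∧ (p = 1 ∨ p = -1) ∧ w = 0) := by
  obtain ⟨ij, hij, ⟨a1, a2⟩, b1, b2⟩ := he.supp x p w hex hx.hs hx.ht hx0
  rw [abs_le] at a1 b1
  rcases hA3 ij hij with rfl | rfl | rfl
  · refine Or.inl ⟨hij, ?_, ?_⟩
    · push_cast at a1; omega
    · push_cast at b1; omega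
  · obtain ⟨r, hr⟩ := b2
    refine Or.inr (Or.inl ⟨hij, ?_, ?_⟩)
    · push_cast at a1; omega
    · push_cast at b1 hr; omega
  · obtain ⟨r, hr⟩ := a2
    refine Or.inr (Or.inr ⟨hij, ?_, ?_⟩)
    · push_cast at a1 hr; omega
    · push_cast at b1; omega

variable (h : Pol N f L g d n s t P D S B)
  (hZ : Har N f L g d s t S B Z) (he : IsoPr N f L g n s t S B A e)
include h hZ he

/-- the data for `L` and `g` -/
lemma halfL (hQ : Qe f g d Z e 1) : Half L g d e Z (fun p w x => At s t n p w x) where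
  hL _ _ _ hx := hx.aL h.bi
  hg _ _ _ hx := hx.ag h.bi
  hd _ _ _ hx := hx.ad h.bi
  hZ _ _ _ hx := hx.of_comm0 hZ.cs hZ.ct
  br _ _ _ hx := hx.brL h.bi
  Ld := h.bi.Ld
  dd := h.bi.dd
  cL := ⟨hZ.cg 2, he.cg 2⟩
  cg := ⟨hZ.cg 3, he.cg 3⟩
  cd := hZ.cd
  zz := hZ.idem
  F1 _ hx := hQ.qd hx
  F2 _ hx := hQ.d2 hx
  hom _ _ _ _ hx hy := at_hom h.bi hx hy
  nz _ _ hn _ hx hzx := inH_of_nz h hZ he hn hx hzx

/-- the data for `N` and `f` -/
lemma halfN (hQ : Qe f g d Z e 1) : Half N f d e Z (fun p w x => At s t n w p x) where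
  hL _ _ _ hx := hx.aN h.bi
  hg _ _ _ hx := hx.af h.bi
  hd _ _ _ hx := hx.ad h.bi
  hZ _ _ _ hx := hx.of_comm0 hZ.cs hZ.ct
  br _ _ _ hx := hx.brN h.bi
  Ld := h.bi.Nd
  dd := h.bi.dd
  cL := ⟨hZ.cg 0, he.cg 0⟩
  cg := ⟨hZ.cg 1, he.cg 1⟩
  cd := hZ.cd
  zz := hZ.idem
  F1 _ hx := hQ.qd hx
  F2 _ hx := hQ.d1 hx
  hom _ _ _ _ hx hy := by
    obtain ⟨y', h1, h2⟩ := at_hom h.bi hx hy
    exact ⟨y', h1, h2⟩
  nz _ _ hn _ hx hzx := inH_of_nz h hZ he hn hx hzx

omit h in
/-- the projection to the image of `e Z` -/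
lemma proj_inH {x : E} (hx : InH e Z x) : e (Z x) = x := by rw [hx.z, hx.e]

/-- splitting off the lowest weight vectors for `L` in degree `n` -/
lemma splitL {p : ℤ} {v : E} (hv : InH e Z v) (hat : At s t n p 0 v) :
    ∃ y z, v = y + L z ∧ g y = 0 ∧ (At s t n p 0 y ∧ InH e Z y) ∧
      (At s t n p (-2) z ∧ InH e Z z) := by
  have hbi := h.bi
  obtain ⟨y0, y1, h1, h2, h3⟩ := exists_dec hbi.sl2 (i := 0) (y := v) (by
    change t (-((0 : ℕ) : ℤ) + n) v = v
    have := hat.ht
    simpa using this)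
  have h1' : t (0 + n) y0 = y0 := by simpa using h1
  have cZg : Z * g = g * Z := hZ.cg 3
  have ceg : e * g = g * e := he.cg 3
  have cZL : Z * L = L * Z := hZ.cg 2
  have ceL : e * L = L * e := he.cg 2
  refine ⟨e (Z (s p y0)), e (Z (t (-2 + n) (s p y1))), ?_, ?_, ⟨?_, inH_of hZ he _⟩,
    ⟨?_, inH_of hZ he _⟩⟩
  · have e1 : s p v = s p y0 + L (s p (t (-2 + n) y1)) := by
      have e2 : t (0 + n) v = t (0 + n) y0 + t (0 + n) (L y1) := by rw [← map_add, ← h3]
      have e3 : t (0 + n) (L y1) = L (t (-2 + n) y1) := by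
        have := LinearMap.congr_fun (hbi.Lt (-2 + n)) y1
        rw [Module.End.mul_apply, Module.End.mul_apply, show -2 + n + 2 = 0 + n by ring] at this
        exact this.symm
      have e4 : s p (L (t (-2 + n) y1)) = L (s p (t (-2 + n) y1)) :=
        (LinearMap.congr_fun (hbi.Ls p) _).symm
      rw [hat.ht, h1', e3] at e2
      rw [e2, map_add, e4]
    have e5 : s p (t (-2 + n) y1) = t (-2 + n) (s p y1) :=
      LinearMap.congr_fun (hbi.st (-2 + n) p) y1
    rw [hat.hs, e5] at e1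
    have := congrArg (fun x => e (Z x)) e1
    simp only [map_add] at this
    rwa [proj_inH hZ he hv, app_comm cZL, app_comm ceL] at this
  · have e1 : g (s p y0) = s p (g y0) := LinearMap.congr_fun (hbi.gs p) y0
    rw [← app_comm ceg, ← app_comm cZg, e1, h2, map_zero, map_zero, map_zero]
  · have e1 : At s t n p 0 (s p y0) := by
      have := at_comp hbi p 0 y0
      have e2 : t (0 + n) (s p y0) = s p (t (0 + n) y0) :=
        (LinearMap.congr_fun (hbi.st (0 + n) p) y0).symm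
      rwa [e2, h1'] at this
    exact (e1.of_comm0 hZ.cs hZ.ct).of_comm0 he.cs he.ct
  · exact ((at_comp hbi p (-2) y1).of_comm0 hZ.cs hZ.ct).of_comm0 he.cs he.ct

/-- splitting off the lowest weight vectors for `N` in position `0` -/
lemma splitN {w : ℤ} {v : E} (hv : InH e Z v) (hat : At s t n 0 w v) :
    ∃ y z, v = y + N z ∧ f y = 0 ∧ (At s t n 0 w y ∧ InH e Z y) ∧
      (At s t n (-2) w z ∧ InH e Z z) := by
  have hbi := h.bi
  obtain ⟨y0, y1, h1, h2, h3⟩ := exists_dec hbi.sl (i := 0) (y := v) (by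
    have := hat.hs
    simpa using this)
  have h1' : s 0 y0 = y0 := by simpa using h1
  have cZf : Z * f = f * Z := hZ.cg 1
  have cef : e * f = f * e := he.cg 1
  have cZN : Z * N = N * Z := hZ.cg 0
  have ceN : e * N = N * e := he.cg 0
  refine ⟨e (Z (t (w + n) y0)), e (Z (t (w + n) (s (-2) y1))), ?_, ?_, ⟨?_, inH_of hZ he _⟩,
    ⟨?_, inH_of hZ he _⟩⟩
  · have e2 : s 0 v = s 0 y0 + s 0 (N y1) := by rw [← map_add, ← h3]
    have e3 : s 0 (N y1) = N (s (-2) y1) := by
      have := LinearMap.congr_fun (hbi.sl.Ns (-2)) y1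
      rw [Module.End.mul_apply, Module.End.mul_apply, show (-2 : ℤ) + 2 = 0 by ring] at this
      exact this.symm
    rw [hat.hs, h1', e3] at e2
    have e1 : t (w + n) v = t (w + n) y0 + N (t (w + n) (s (-2) y1)) := by
      have e4 : t (w + n) (N (s (-2) y1)) = N (t (w + n) (s (-2) y1)) :=
        (LinearMap.congr_fun (hbi.Nt (w + n)) _).symm
      rw [e2, map_add, e4]
    rw [hat.ht] at e1
    have := congrArg (fun x => e (Z x)) e1
    simp only [map_add] at this
    rwa [proj_inH hZ he hv, app_comm cZN, app_comm ceN] at this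
  · have e1 : f (t (w + n) y0) = t (w + n) (f y0) := LinearMap.congr_fun (hbi.ft (w + n)) y0
    rw [← app_comm cef, ← app_comm cZf, e1, h2, map_zero, map_zero, map_zero]
  · have e1 : At s t n 0 w (t (w + n) y0) := by
      have := at_comp hbi 0 w y0
      rwa [h1'] at this
    exact (e1.of_comm0 hZ.cs hZ.ct).of_comm0 he.cs he.ct
  · exact ((at_comp hbi (-2) w y1).of_comm0 hZ.cs hZ.ct).of_comm0 he.cs he.ct

/-- a vector of bidegree `(-1, 0)` killed by `g` is in the image of `N` -/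
lemma imN_of (h10 : (1, 0) ∈ A) {v : E} (hv : InH e Z v) (hat : At s t n (-1) 0 v)
    (hgv : g v = 0) : ∃ z, v = N z ∧ At s t n (-3) 0 z ∧ InH e Z z := by
  have hbi := h.bi
  obtain ⟨y0, y1, h1, h2, h3⟩ := exists_dec hbi.sl (i := 1) (y := v) (by
    have := hat.hs
    simpa using this)
  have h1' : s (-1) y0 = y0 := by simpa using h1
  have cZf : Z * f = f * Z := hZ.cg 1
  have cef : e * f = f * e := he.cg 1
  have cZN : Z * N = N * Z := hZ.cg 0
  have ceN : e * N = N * e := he.cg 0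
  set z0 := e (Z (t (0 + n) y0)) with hz0
  set z1 := e (Z (t (0 + n) (s (-3) y1))) with hz1
  have e1 : v = z0 + N z1 := by
    have e2 : s (-1) v = s (-1) y0 + s (-1) (N y1) := by rw [← map_add, ← h3]
    have e3 : s (-1) (N y1) = N (s (-3) y1) := by
      have := LinearMap.congr_fun (hbi.sl.Ns (-3)) y1
      rw [Module.End.mul_apply, Module.End.mul_apply, show (-3 : ℤ) + 2 = -1 by ring] at this
      exact this.symm
    rw [hat.hs, h1', e3] at e2
    have e1 : t (0 + n) v = t (0 + n) y0 + N (t (0 + n) (s (-3) y1)) := by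
      have e4 : t (0 + n) (N (s (-3) y1)) = N (t (0 + n) (s (-3) y1)) :=
        (LinearMap.congr_fun (hbi.Nt (0 + n)) _).symm
      rw [e2, map_add, e4]
    rw [hat.ht] at e1
    have := congrArg (fun x => e (Z x)) e1
    simp only [map_add] at this
    rwa [proj_inH hZ he hv, app_comm cZN, app_comm ceN] at this
  have hf0 : f z0 = 0 := by
    have e1 : f (t (0 + n) y0) = t (0 + n) (f y0) := LinearMap.congr_fun (hbi.ft (0 + n)) y0
    rw [hz0, ← app_comm cef, ← app_comm cZf, e1, h2, map_zero, map_zero, map_zero]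
  have at0 : At s t n (-1) 0 z0 := by
    have e1 : At s t n (-1) 0 (t (0 + n) y0) := by
      have := at_comp hbi (-1) 0 y0
      rwa [h1'] at this
    exact (e1.of_comm0 hZ.cs hZ.ct).of_comm0 he.cs he.ct
  have at1 : At s t n (-3) 0 z1 :=
    ((at_comp hbi (-3) 0 y1).of_comm0 hZ.cs hZ.ct).of_comm0 he.cs he.ct
  have i0 : InH e Z z0 := inH_of hZ he _
  have i1 : InH e Z z1 := inH_of hZ he _
  have cgN : ∀ x, g (N x) = N (g x) := fun x => (LinearMap.congr_fun hbi.Ng x).symm
  have cfg : ∀ x, f (g x) = g (f x) := fun x => LinearMap.congr_fun hbi.fg x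
  have hg1 : g z0 = -N (g z1) := by
    have := congrArg g e1
    rw [hgv, map_add, cgN] at this
    exact (neg_eq_of_add_eq_zero_left this.symm).symm
  have hgz1 : g z1 = 0 := by
    refine hbi.sl.fN_inj (p := -3) (by norm_num) (at1.ag hbi).hs ?_
    have h4 : N (g z1) = -g z0 := by rw [hg1, neg_neg]
    rw [h4, map_neg, cfg, hf0, map_zero, neg_zero]
  have hg0 : g z0 = 0 := by rw [hg1, hgz1, map_zero, neg_zero]
  have hp : z0 ∈ prim f g n s t 1 0 := by
    rw [mem_prim_iff hbi]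
    refine ⟨?_, ?_, hf0, hg0⟩
    · have := at0.hs; simpa using this
    · have := at0.ht; simpa using this
  have hz00 : z0 = 0 := by
    rw [← i0.e]
    exact he.kill 1 0 h10 _ hp
  exact ⟨z1, by rw [e1, hz00, zero_add], at1, i1⟩

/-- a vector of bidegree `(0, -1)` killed by `f` is in the image of `L` -/
lemma imL_of (h01 : (0, 1) ∈ A) {v : E} (hv : InH e Z v) (hat : At s t n 0 (-1) v)
    (hfv : f v = 0) : ∃ z, v = L z ∧ At s t n 0 (-3) z ∧ InH e Z z := by
  have hbi := h.bi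
  obtain ⟨y0, y1, h1, h2, h3⟩ := exists_dec hbi.sl2 (i := 1) (y := v) (by
    change t (-((1 : ℕ) : ℤ) + n) v = v
    have := hat.ht
    simpa using this)
  have h1' : t (-1 + n) y0 = y0 := by simpa using h1
  have cZg : Z * g = g * Z := hZ.cg 3
  have ceg : e * g = g * e := he.cg 3
  have cZL : Z * L = L * Z := hZ.cg 2
  have ceL : e * L = L * e := he.cg 2
  set z0 := e (Z (s 0 y0)) with hz0
  set z1 := e (Z (t (-3 + n) (s 0 y1))) with hz1
  have e1 : v = z0 + L z1 := by
    have e1 : s 0 v = s 0 y0 + L (s 0 (t (-3 + n) y1)) := by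
      have e2 : t (-1 + n) v = t (-1 + n) y0 + t (-1 + n) (L y1) := by rw [← map_add, ← h3]
      have e3 : t (-1 + n) (L y1) = L (t (-3 + n) y1) := by
        have := LinearMap.congr_fun (hbi.Lt (-3 + n)) y1
        rw [Module.End.mul_apply, Module.End.mul_apply, show -3 + n + 2 = -1 + n by ring] at this
        exact this.symm
      have e4 : s 0 (L (t (-3 + n) y1)) = L (s 0 (t (-3 + n) y1)) :=
        (LinearMap.congr_fun (hbi.Ls 0) _).symm
      rw [hat.ht, h1', e3] at e2
      rw [e2, map_add, e4]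
    have e5 : s 0 (t (-3 + n) y1) = t (-3 + n) (s 0 y1) :=
      LinearMap.congr_fun (hbi.st (-3 + n) 0) y1
    rw [hat.hs, e5] at e1
    have := congrArg (fun x => e (Z x)) e1
    simp only [map_add] at this
    rwa [proj_inH hZ he hv, app_comm cZL, app_comm ceL] at this
  have hg0 : g z0 = 0 := by
    have e1 : g (s 0 y0) = s 0 (g y0) := LinearMap.congr_fun (hbi.gs 0) y0
    rw [hz0, ← app_comm ceg, ← app_comm cZg, e1, h2, map_zero, map_zero, map_zero]
  have at0 : At s t n 0 (-1) z0 := by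
    have e1 : At s t n 0 (-1) (s 0 y0) := by
      have := at_comp hbi 0 (-1) y0
      have e2 : t (-1 + n) (s 0 y0) = s 0 (t (-1 + n) y0) :=
        (LinearMap.congr_fun (hbi.st (-1 + n) 0) y0).symm
      rwa [e2, h1'] at this
    exact (e1.of_comm0 hZ.cs hZ.ct).of_comm0 he.cs he.ct
  have at1 : At s t n 0 (-3) z1 :=
    ((at_comp hbi 0 (-3) y1).of_comm0 hZ.cs hZ.ct).of_comm0 he.cs he.ct
  have i0 : InH e Z z0 := inH_of hZ he _
  have i1 : InH e Z z1 := inH_of hZ he _
  have cfL : ∀ x, f (L x) = L (f x) := fun x => LinearMap.congr_fun hbi.fL x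
  have cfg : ∀ x, g (f x) = f (g x) := fun x => (LinearMap.congr_fun hbi.fg x).symm
  have hf1 : f z0 = -L (f z1) := by
    have := congrArg f e1
    rw [hfv, map_add, cfL] at this
    exact (neg_eq_of_add_eq_zero_left this.symm).symm
  have hfz1 : f z1 = 0 := by
    refine hbi.sl2.fN_inj (p := -3) (by norm_num) (at1.af hbi).ht ?_
    have h4 : L (f z1) = -f z0 := by rw [hf1, neg_neg]
    rw [h4, map_neg, cfg, hg0, map_zero, neg_zero]
  have hf0 : f z0 = 0 := by rw [hf1, hfz1, map_zero, neg_zero]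
  have hp : z0 ∈ prim f g n s t 0 1 := by
    rw [mem_prim_iff hbi]
    refine ⟨?_, ?_, hf0, hg0⟩
    · have := at0.hs; simpa using this
    · have := at0.ht
      rw [show n - ((1 : ℕ) : ℤ) = -1 + n by push_cast; ring]
      exact this
  have hz00 : z0 = 0 := by
    rw [← i0.e]
    exact he.kill 0 1 h01 _ hp
  exact ⟨z1, by rw [e1, hz00, zero_add], at1, i1⟩

end Pool.Agent.H62X
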