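import Pool.Agent.W_a3c811_h62w.Ab1

/-! The form is nondegenerate on the primitive parts. -/

noncomputable section

set_option linter.unusedSectionVars false

namespace Pool.Agent.H62X

open Module Pool.Agent.H79L

universe v w

variable {K : Type v} [Field K] [CharZero K] {E : Type w} [AddCommGroup E] [Module K E]
  {N f L g d : Module.End K E} {n : ℤ} {s t : ℤ → Module.End K E}
  {P D : Finset ℤ} {S : E →ₗ[K] E →ₗ[K] K} {B : Subring (Module.End K E)}

/-- the restriction of a triple to a stable subspace -/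
lemma sl_restrict (sl : Sl N f s P) {U : Submodule K E} (hN : ∀ x ∈ U, N x ∈ U)
    (hf : ∀ x ∈ U, f x ∈ U) (hs : ∀ p, ∀ x ∈ U, s p x ∈ U) :
    Sl (N.restrict hN) (f.restrict hf) (fun p => (s p).restrict (hs p)) P where
  sum := by
    refine LinearMap.ext fun x => Subtype.ext ?_
    have h1 := LinearMap.congr_fun sl.sum (x : E)
    rw [LinearMap.sum_apply] at h1 ⊢
    rw [AddSubmonoidClass.coe_finsetSum]
    exact h1
  idem p := LinearMap.ext fun x => Subtype.ext (LinearMap.congr_fun (sl.idem p) (x : E))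
  orth p p' hp := LinearMap.ext fun x => Subtype.ext (LinearMap.congr_fun (sl.orth p p' hp) (x : E))
  h p := LinearMap.ext fun x => Subtype.ext (LinearMap.congr_fun (sl.h p) (x : E))
  Ns p := LinearMap.ext fun x => Subtype.ext (LinearMap.congr_fun (sl.Ns p) (x : E))
  fs p := LinearMap.ext fun x => Subtype.ext (LinearMap.congr_fun (sl.fs p) (x : E))

/-- a lowest weight vector of position `-i` is killed by `N ^ (i + 1)` -/
lemma Npow_kill (sl : Sl N f s P) {i : ℕ} {x : E} (hx : s (-(i : ℤ)) x = x) (hf : f x = 0) :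
    (N ^ (i + 1)) x = 0 := by
  have h1 := sl.f_Npow hx i
  rw [hf, map_zero, show ((i : ℤ) + 1) * (-(i : ℤ) + i) = 0 by ring, Int.cast_zero, zero_smul,
    sub_zero, map_zero] at h1
  rw [pow_succ', Module.End.mul_apply] at h1 ⊢
  exact sl.ker_f _ h1

variable [FiniteDimensional K E]

/-- the Lefschetz decomposition of one negative position -/
lemma exists_dec (sl : Sl N f s P) {i : ℕ} {y : E} (hy : s (-(i : ℤ)) y = y) :
    ∃ y0 y1, s (-(i : ℤ)) y0 = y0 ∧ f y0 = 0 ∧ y = y0 + N y1 := by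
  let V := LinearMap.range (s (-(i : ℤ) - 2))
  have hV : ∀ x, x ∈ V ↔ s (-(i : ℤ) - 2) x = x := fun x => sl.mem_range
  have hmap : ∀ x ∈ V, f (N x) ∈ V := by
    intro x hx
    rw [hV] at hx ⊢
    have h1 := sl.mem_f (sl.mem_N hx)
    rwa [add_sub_cancel_right] at h1
  let F : V →ₗ[K] V := (f * N).restrict hmap
  have hF : Function.Injective F := by
    rw [← LinearMap.ker_eq_bot, LinearMap.ker_eq_bot']
    intro x hx
    have h1 : f (N (x : E)) = 0 := congrArg Subtype.val hx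
    exact Subtype.ext (sl.fN_inj (by omega) ((hV _).1 x.2) h1)
  have hF' := LinearMap.injective_iff_surjective.1 hF
  have hfy : f y ∈ V := (hV _).2 (sl.mem_f hy)
  obtain ⟨z, hz⟩ := hF' ⟨f y, hfy⟩
  have hz' : f (N (z : E)) = f y := congrArg Subtype.val hz
  refine ⟨y - N z, z, ?_, ?_, by abel⟩
  · have h1 := sl.mem_N ((hV _).1 z.2)
    rw [sub_add_cancel] at h1
    rw [map_sub, hy, h1]
  · rw [map_sub, hz', sub_self]

/-- a functional which is homogeneous and kills `N ^ (i + 1)` and the primitive part is zero -/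
lemma functional_zero (sl : Sl N f s P) {i : ℕ} (φ : E →ₗ[K] K)
    (h1 : ∀ y, φ y = φ (s i y)) (h2 : ∀ y, φ ((N ^ (i + 1)) y) = 0)
    (h3 : ∀ y, s (-(i : ℤ)) y = y → f y = 0 → φ ((N ^ i) y) = 0) (y : E) : φ y = 0 := by
  rw [h1]
  have hm : s i y ∈ LinearMap.range (s (i : ℤ)) := ⟨y, rfl⟩
  obtain ⟨z, hz, hz'⟩ := (sl.bij i).surjOn hm
  have hz1 : s (-(i : ℤ)) z = z := sl.mem_range.1 hz
  obtain ⟨y0, y1, k1, k2, rfl⟩ := exists_dec sl hz1
  rw [← hz', map_add, map_add, h3 y0 k1 k2, zero_add, ← Module.End.mul_apply, ← pow_succ]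
  exact h2 y1

/-- the form is nondegenerate on the primitive parts -/
theorem nd_prim (h : Pol N f L g d n s t P D S B) {i j : ℕ} {x : E}
    (hx : x ∈ prim f g n s t i j)
    (hyp : ∀ y ∈ prim f g n s t i j, S x ((N ^ i) ((L ^ j) y)) = 0) : x = 0 := by
  obtain ⟨hx1, hx2, hx3⟩ := hx
  have xs : s (-(i : ℤ)) x = x := by
    have : s (-(i : ℤ)) (t (n - j) (s (-i) x)) = t (n - j) (s (-i) x) := by
      have e : s (-(i : ℤ)) * (t (n - j) * s (-i)) = t (n - j) * s (-i) := by
        rw [← mul_assoc, h.bi.st, mul_assoc, h.bi.sl.idem]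
      exact LinearMap.congr_fun e x
    rwa [hx1] at this
  have xt : t (n - j) x = x := by
    have : t (n - j) (t (n - j) (s (-i) x)) = t (n - j) (s (-i) x) :=
      LinearMap.congr_fun (h.bi.idemt _) _
    rwa [hx1] at this
  apply h.ndl
  have hNi : ∀ m : ℕ, ∀ x y, S ((N ^ m) x) y = S x ((N ^ m) y) := fun m => (h.adjN.pow m).1
  have hLi : ∀ m : ℕ, ∀ x y, S ((L ^ m) x) y = S x ((L ^ m) y) := fun m => (h.adjL.pow m).1
  refine functional_zero h.bi.sl (i := i) (S x) ?_ ?_ ?_
  · intro y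
    have h1 := (h.adjs (-(i : ℤ))).1 x y
    rwa [xs, neg_neg] at h1
  · intro y
    rw [← hNi, Npow_kill h.bi.sl xs hx2, map_zero, LinearMap.zero_apply]
  · intro y hy1 hy2
    -- the second triple on the lowest weight vectors of the first
    let U : Submodule K E := LinearMap.range (s (-(i : ℤ))) ⊓ LinearMap.ker f
    have hU : ∀ z, z ∈ U ↔ s (-(i : ℤ)) z = z ∧ f z = 0 := fun z => by
      rw [Submodule.mem_inf, h.bi.sl.mem_range, LinearMap.mem_ker]
    have comm : ∀ {T : Module.End K E}, (∀ p, T * s p = s p * T) → f * T = T * f →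
        ∀ z ∈ U, T z ∈ U := by
      intro T h1 h2 z hz
      rw [hU] at hz ⊢
      have e1 := LinearMap.congr_fun (h1 (-(i : ℤ))) z
      have e2 := LinearMap.congr_fun h2 z
      simp only [Module.End.mul_apply] at e1 e2
      exact ⟨by rw [← e1, hz.1], by rw [e2, hz.2, map_zero]⟩
    have uL := comm h.bi.Ls h.bi.fL
    have ug := comm h.bi.gs h.bi.fg
    have ut : ∀ w, ∀ z ∈ U, (fun p => t (p + n)) w z ∈ U := fun w =>
      comm (fun p => (h.bi.st (w + n) p).symm) (h.bi.ft (w + n))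
    have slU := sl_restrict h.bi.sl2 uL ug ut
    have hpow : ∀ (m : ℕ) (z : U), (((L.restrict uL) ^ m) z : E) = (L ^ m) (z : E) := by
      intro m z
      induction m with
      | zero => rfl
      | succ m ih =>
        rw [pow_succ', pow_succ', Module.End.mul_apply, Module.End.mul_apply, ← ih]
        rfl
    have hcNL : ∀ (m : ℕ) (z : E), (N ^ i) ((L ^ m) z) = (L ^ m) ((N ^ i) z) := fun m z =>
      LinearMap.congr_fun (((show Commute N L from h.bi.NL).pow_pow i m).eq) z
    have key := functional_zero slU (i := j)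
      ((S x ∘ₗ (N ^ i)) ∘ₗ U.subtype) ?_ ?_ ?_ (⟨y, (hU y).2 ⟨hy1, hy2⟩⟩ : U)
    · exact key
    · intro z
      change S x ((N ^ i) (z : E)) = S x ((N ^ i) (t (j + n) (z : E)))
      have hc : (N ^ i) (t (j + n) (z : E)) = t (j + n) ((N ^ i) (z : E)) :=
        LinearMap.congr_fun (((show Commute N (t (j + n)) from h.bi.Nt _).pow_left i).eq) (z : E)
      have h1 := (h.adjt (n - j)).1 x ((N ^ i) (z : E))
      rw [xt, show 2 * n - (n - (j : ℤ)) = j + n by ring] at h1
      rw [hc, h1]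
    · intro z
      change S x ((N ^ i) ((((L.restrict uL) ^ (j + 1)) z : U) : E)) = 0
      rw [hpow, hcNL, ← hLi, Npow_kill h.bi.sl2 (i := j) (x := x) ?_ hx3, map_zero,
        LinearMap.zero_apply]
      rw [show -(j : ℤ) + n = n - j by ring, xt]
    · intro z hz1 hz2
      change S x ((N ^ i) ((((L.restrict uL) ^ j) z : U) : E)) = 0
      rw [hpow]
      refine hyp _ ⟨?_, ((hU _).1 z.2).2, ?_⟩
      · have e1 : t (-(j : ℤ) + n) (z : E) = (z : E) := congrArg Subtype.val hz1
        rw [show -(j : ℤ) + n = n - j by ring] at e1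
        rw [((hU _).1 z.2).1, e1]
      · exact congrArg Subtype.val hz2

omit [CharZero K] [FiniteDimensional K E] in
lemma mem_triv {x : E} : x ∈ triv N f L g ↔ N x = 0 ∧ f x = 0 ∧ L x = 0 ∧ g x = 0 := by
  unfold triv
  simp only [Submodule.mem_inf, LinearMap.mem_ker, and_assoc]

/-- the common kernel is the primitive part `(0, 0)` -/
lemma prim_zero (h : Bi N f L g d n s t P D) {x : E} :
    x ∈ prim f g n s t 0 0 ↔ x ∈ triv N f L g := by
  constructor
  · rintro ⟨hx1, hx2, hx3⟩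
    have xs : s (-((0 : ℕ) : ℤ)) x = x := by
      have : s (-((0 : ℕ) : ℤ)) (t (n - (0 : ℕ)) (s (-((0 : ℕ) : ℤ)) x)) =
          t (n - (0 : ℕ)) (s (-((0 : ℕ) : ℤ)) x) := by
        have e : s (-((0 : ℕ) : ℤ)) * (t (n - (0 : ℕ)) * s (-((0 : ℕ) : ℤ))) =
            t (n - (0 : ℕ)) * s (-((0 : ℕ) : ℤ)) := by
          rw [← mul_assoc, h.st, mul_assoc, h.sl.idem]
        exact LinearMap.congr_fun e x
      rwa [hx1] at this
    have xt : t (n - (0 : ℕ)) x = x := by
      have : t (n - (0 : ℕ)) (t (n - (0 : ℕ)) (s (-((0 : ℕ) : ℤ)) x)) =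
          t (n - (0 : ℕ)) (s (-((0 : ℕ) : ℤ)) x) :=
        LinearMap.congr_fun (h.idemt _) _
      rwa [hx1] at this
    have h1 := Npow_kill h.sl xs hx2
    have h2 := Npow_kill h.sl2 (i := 0) (x := x) (by
      rw [show -((0 : ℕ) : ℤ) + n = n - (0 : ℕ) by ring, xt]) hx3
    rw [zero_add, pow_one] at h1 h2
    exact mem_triv.2 ⟨h1, hx2, h2, hx3⟩
  · intro hx
    obtain ⟨h1, h2, h3, h4⟩ := mem_triv.1 hx
    have e1 : s 0 x = x := h.sl.proj_of (p := 0) (by
      change N (f x) - f (N x) = _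
      rw [h1, h2]; simp)
    have e2 : t (0 + n) x = x := h.sl2.proj_of (p := 0) (by
      change L (g x) - g (L x) = _
      rw [h3, h4]; simp)
    refine ⟨?_, h2, h4⟩
    rw [Nat.cast_zero, neg_zero, sub_zero, e1]
    rwa [zero_add] at e2

/-- the form pairs `tot` and the common kernel to zero -/
lemma tot_triv (h : Pol N f L g d n s t P D S B) {x y : E} (hx : x ∈ tot N f L g)
    (hy : y ∈ triv N f L g) : S x y = 0 := by
  obtain ⟨h1, h2, h3, h4⟩ := mem_triv.1 hy
  unfold tot at hx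
  obtain ⟨a1, ha1, b, ⟨b, rfl⟩, rfl⟩ := Submodule.mem_sup.1 hx
  obtain ⟨a2, ha2, c, ⟨c, rfl⟩, rfl⟩ := Submodule.mem_sup.1 ha1
  obtain ⟨a3, ⟨a, rfl⟩, e, ⟨e, rfl⟩, rfl⟩ := Submodule.mem_sup.1 ha2
  simp only [map_add, LinearMap.add_apply, h.aN, h.af, h.aL, h.ag, h1, h2, h3, h4, map_zero,
    add_zero]

/-- the primitive part `(0, 0)` meets `tot` in zero -/
lemma tot_prim (h : Pol N f L g d n s t P D S B) {x : E} (hx : x ∈ tot N f L g)
    (hx' : x ∈ prim f g n s t 0 0) : x = 0 := by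
  refine nd_prim h hx' fun y hy => ?_
  rw [pow_zero, pow_zero]
  exact tot_triv h hx ((prim_zero h.bi).1 hy)

end Pool.Agent.H62X
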