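import Mathlib

/-! Hard Lefschetz on the cohomology: the two arguments on the lowest positions. -/

noncomputable section

set_option linter.unusedSectionVars false

namespace Pool.Agent.H62X

open Module

universe v w

variable {K : Type v} [Field K] [CharZero K] {E : Type w} [AddCommGroup E] [Module K E]

/-- The context for the arguments on the lowest positions: a bigraded space with a triple `L, g`, a
differential `d` and a lowering operator `f`. -/
structure Lb (f L g d : Module.End K E) (H : ℤ → ℤ → Submodule K E) : Prop where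
  hf : ∀ p w x, x ∈ H p w → f x ∈ H (p - 2) w
  hL : ∀ p w x, x ∈ H p w → L x ∈ H p (w + 2)
  hg : ∀ p w x, x ∈ H p w → g x ∈ H p (w - 2)
  hd : ∀ p w x, x ∈ H p w → d x ∈ H (p + 1) (w + 1)
  br : ∀ p w x, x ∈ H p w → L (g x) = g (L x) + (w : K) • x
  Ld : ∀ x, L (d x) = d (L x)
  fL : ∀ x, f (L x) = L (f x)
  fg : ∀ x, f (g x) = g (f x)
  dd : ∀ x, d (d x) = 0
  ggd : ∀ x, g (g (d x)) = (2 : K) • g (d (g x)) - d (g (g x))
  dec : ∀ (p : ℤ) (m : ℕ) (x : E), x ∈ H p (-(m : ℤ)) → ∃ x0 ∈ H p (-(m : ℤ)),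
    ∃ x1 ∈ H p (-(m : ℤ) - 2), g x0 = 0 ∧ x = x0 + L x1
  inj : ∀ (p : ℤ) (m k : ℕ), k ≤ m → ∀ x ∈ H p (-(m : ℤ)), (L ^ k) x = 0 → x = 0
  sur : ∀ (p : ℤ) (m : ℕ), ∀ z ∈ H p (m : ℤ), ∃ x ∈ H p (-(m : ℤ)), (L ^ m) x = z
  kill : ∀ (p : ℤ) (m : ℕ), ∀ x ∈ H p (-(m : ℤ)), g x = 0 → (L ^ (m + 1)) x = 0
  gne : ∀ p w, 0 < w → ∀ x ∈ H p w, g x = 0 → x = 0
  gL : ∀ p w, w < 0 → ∀ x ∈ H p w, g (L x) = 0 → x = 0
  low : ∃ b : ℤ, ∀ p w, w < b → ∀ x ∈ H p w, x = 0

/-- The same with the hard Lefschetz theorem for the cohomology. -/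
structure Lc (f L g d : Module.End K E) (H : ℤ → ℤ → Submodule K E) : Prop
    extends Lb f L g d H where
  hinj : ∀ (p : ℤ) (m : ℕ), ∀ x ∈ H p (-(m : ℤ)), d x = 0 → (∃ y, (L ^ m) x = d y) →
    ∃ y ∈ H (p - 1) (-(m : ℤ) - 1), x = d y
  hsur : ∀ (p : ℤ) (m : ℕ), ∀ z ∈ H p (m : ℤ), d z = 0 → ∃ x ∈ H p (-(m : ℤ)),
    ∃ y ∈ H (p - 1) ((m : ℤ) - 1), d x = 0 ∧ z = (L ^ m) x + d y

variable {f L g d : Module.End K E} {H : ℤ → ℤ → Submodule K E}

section base

variable (h : Lb f L g d H)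
include h

namespace Lb

lemma Lpd (m : ℕ) (x : E) : (L ^ m) (d x) = d ((L ^ m) x) := by
  induction m with
  | zero => rfl
  | succ m ih => rw [pow_succ', Module.End.mul_apply, Module.End.mul_apply, ih, h.Ld]

lemma hLp {p w : ℤ} {x : E} (hx : x ∈ H p w) (m : ℕ) : (L ^ m) x ∈ H p (w + 2 * m) := by
  induction m with
  | zero => simpa using hx
  | succ m ih =>
    rw [pow_succ', Module.End.mul_apply]
    have := h.hL _ _ _ ih
    rwa [show w + 2 * (m : ℤ) + 2 = w + 2 * ((m + 1 : ℕ) : ℤ) by push_cast; ring] at this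

/-- `P = d g d` commutes with `L` -/
lemma PL {p w : ℤ} {x : E} (hx : x ∈ H p w) : d (g (d (L x))) = L (d (g (d x))) := by
  have h1 := h.br _ _ _ (h.hd _ _ _ hx)
  rw [h.Ld, h1, map_add, map_smul, h.dd, smul_zero, add_zero, h.Ld]

lemma PLp {p w : ℤ} {x : E} (hx : x ∈ H p w) (m : ℕ) :
    d (g (d ((L ^ m) x))) = (L ^ m) (d (g (d x))) := by
  induction m with
  | zero => rfl
  | succ m ih =>
    rw [pow_succ', Module.End.mul_apply, Module.End.mul_apply, h.PL (h.hLp hx m), ih]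

/-- `P = d g d` commutes with `g` -/
lemma Pg (x : E) : d (g (d (g x))) = g (d (g (d x))) := by
  have h1 := congrArg d (h.ggd x)
  rw [map_sub, map_smul, h.dd, sub_zero] at h1
  have h2 := h.ggd (d x)
  rw [h.dd, map_zero, map_zero] at h2
  have h3 : (2 : K) • g (d (g (d x))) = d (g (g (d x))) := (sub_eq_zero.1 h2.symm)
  rw [h1] at h3
  exact (smul_right_injective E (two_ne_zero (α := K)) h3).symm

/-- the components of `d x` for a lowest weight vector `x` -/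
lemma splitd {p : ℤ} {m : ℕ} {x : E} (hx : x ∈ H p (-(m : ℤ))) (hgx : g x = 0) :
    g (d x) ∈ H (p + 1) (-((m + 1 : ℕ) : ℤ)) ∧ g (g (d x)) = 0 ∧ ∃ z0 ∈ H (p + 1) (-(m : ℤ) + 1),
      g z0 = 0 ∧ (L ^ m) z0 = 0 ∧ d x = z0 + ((m : K) + 1)⁻¹ • L (g (d x)) := by
  have hz := h.hd _ _ _ hx
  have hm : ((m : K) + 1) ≠ 0 := by exact_mod_cast Nat.succ_ne_zero m
  have hb : g (d x) ∈ H (p + 1) (-((m + 1 : ℕ) : ℤ)) := by
    have := h.hg _ _ _ hz
    rwa [show -(m : ℤ) + 1 - 2 = -((m + 1 : ℕ) : ℤ) by push_cast; ring] at this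
  have hgb : g (g (d x)) = 0 := by rw [h.ggd, hgx, map_zero, map_zero, map_zero, smul_zero, sub_zero]
  refine ⟨hb, hgb, d x - ((m : K) + 1)⁻¹ • L (g (d x)), ?_, ?_, ?_, by abel⟩
  · refine Submodule.sub_mem _ hz (Submodule.smul_mem _ _ ?_)
    have := h.hL _ _ _ hb
    rwa [show -((m + 1 : ℕ) : ℤ) + 2 = -(m : ℤ) + 1 by push_cast; ring] at this
  · have h1 := h.br _ _ _ hb
    rw [hgb, map_zero] at h1
    have h2 : g (L (g (d x))) = ((m : K) + 1) • g (d x) := by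
      have h3 := eq_neg_of_add_eq_zero_left h1.symm
      rw [h3, ← neg_smul]
      congr 1
      push_cast
      ring
    rw [map_sub, map_smul, h2, smul_smul, inv_mul_cancel₀ hm, one_smul, sub_self]
  · have hz0 : d x - ((m : K) + 1)⁻¹ • L (g (d x)) ∈ H (p + 1) (-(m : ℤ) + 1) := by
      refine Submodule.sub_mem _ hz (Submodule.smul_mem _ _ ?_)
      have := h.hL _ _ _ hb
      rwa [show -((m + 1 : ℕ) : ℤ) + 2 = -(m : ℤ) + 1 by push_cast; ring] at this
    have hgz0 : g (d x - ((m : K) + 1)⁻¹ • L (g (d x))) = 0 := by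
      have h1 := h.br _ _ _ hb
      rw [hgb, map_zero] at h1
      have h2 : g (L (g (d x))) = ((m : K) + 1) • g (d x) := by
        have h3 := eq_neg_of_add_eq_zero_left h1.symm
        rw [h3, ← neg_smul]
        congr 1
        push_cast
        ring
      rw [map_sub, map_smul, h2, smul_smul, inv_mul_cancel₀ hm, one_smul, sub_self]
    rcases Nat.eq_zero_or_pos m with rfl | hm0
    · have h1 := h.gne _ _ (by norm_num) _ hz0 hgz0
      rw [h1, map_zero]
    · obtain ⟨m', rfl⟩ := Nat.exists_eq_add_of_lt hm0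
      rw [zero_add] at *
      refine h.kill (p + 1) m' _ ?_ hgz0
      rwa [show -((m' + 1 : ℕ) : ℤ) + 1 = -(m' : ℤ) by push_cast; ring] at hz0

/-- the powers of `L` on these components -/
lemma Lgd {p : ℤ} {m : ℕ} {x : E} (hx : x ∈ H p (-(m : ℤ))) (hgx : g x = 0) :
    (L ^ (m + 1)) (g (d x)) = d (((m : K) + 1) • (L ^ m) x) := by
  obtain ⟨-, -, z0, -, -, h1, h2⟩ := h.splitd hx hgx
  have hm : ((m : K) + 1) ≠ 0 := by exact_mod_cast Nat.succ_ne_zero m
  have h3 := congrArg (L ^ m) h2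
  have h4 : (L ^ m) (L (g (d x))) = (L ^ (m + 1)) (g (d x)) := by rw [pow_succ]; rfl
  rw [map_add, h1, zero_add, map_smul, h4, h.Lpd] at h3
  rw [map_smul, h3, smul_smul, mul_inv_cancel₀ hm, one_smul]

/-- uniqueness of the Lefschetz decomposition, for `P x` -/
lemma Pdec {p : ℤ} {m : ℕ} {x0 x1 : E}
    (h1 : x1 ∈ H p (-(m : ℤ) - 2)) (hg0 : g x0 = 0) (hP : d (g (d (x0 + L x1))) = 0) :
    d (g (d x0)) = 0 ∧ d (g (d x1)) = 0 := by
  rw [map_add, map_add, map_add, h.PL h1] at hP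
  have e1 : g (d (g (d x0))) = 0 := by rw [← h.Pg, hg0, map_zero, map_zero, map_zero]
  have e2 : g (L (d (g (d x1)))) = 0 := by
    have := congrArg g hP
    rwa [map_add, e1, zero_add, map_zero] at this
  have h3 := h.hd _ _ _ (h.hg _ _ _ (h.hd _ _ _ h1))
  have h4 := h.gL _ _ (by omega) _ h3 e2
  rw [h4, map_zero, add_zero] at hP
  exact ⟨hP, h4⟩

/-- a vector killed by `L ^ (m + 1)` in weight `-m` is a lowest weight vector -/
lemma low_of {p : ℤ} {m : ℕ} {x : E} (hx : x ∈ H p (-(m : ℤ))) (hk : (L ^ (m + 1)) x = 0) :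
    g x = 0 := by
  obtain ⟨x0, hx0, x1, hx1, hg0, rfl⟩ := h.dec _ _ _ hx
  have h0 := h.kill _ _ _ hx0 hg0
  rw [map_add, h0, zero_add, ← Module.End.mul_apply, ← pow_succ] at hk
  rw [show -(m : ℤ) - 2 = -((m + 2 : ℕ) : ℤ) by push_cast; ring] at hx1
  have h1 := h.inj _ (m + 2) (m + 1 + 1) le_rfl _ hx1 hk
  rw [h1, map_zero, add_zero, hg0]

end Lb

end base

variable (h : Lc f L g d H)
include h

namespace Lc

/-- In the lowest position the kernel of `P` is the kernel of `d`. -/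
theorem h1 {q : ℤ} (hq : ∀ w, ∀ x ∈ H (q - 1) w, x = 0) :
    ∀ w, ∀ x ∈ H q w, d (g (d x)) = 0 → d x = 0 := by
  obtain ⟨b0, hb0⟩ := h.low
  have key : ∀ a m : ℕ, -(m : ℤ) < b0 + a → ∀ x ∈ H q (-(m : ℤ)), d (g (d x)) = 0 → d x = 0 := by
    intro a
    induction a with
    | zero =>
      intro m hm x hx _
      rw [hb0 _ _ (by simpa using hm) x hx, map_zero]
    | succ a ih =>
      intro m hm x hx hPx
      obtain ⟨x0, hx0, x1, hx1, hgx0, rfl⟩ := h.dec _ _ _ hx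
      obtain ⟨hP0, hP1⟩ := h.Pdec hx1 hgx0 hPx
      have e2 : -(m : ℤ) - 2 = -((m + 2 : ℕ) : ℤ) := by push_cast; ring
      have hlt : -((m + 2 : ℕ) : ℤ) < b0 + a := by push_cast at hm ⊢; omega
      have hx1' := hx1
      rw [e2] at hx1'
      have hd1 : d x1 = 0 := ih (m + 2) hlt x1 hx1' hP1
      obtain ⟨hb, hgb, z0, hz0, hgz0, hLz0, hdx⟩ := h.splitd hx0 hgx0
      have hinj := h.hinj (q + 1) (m + 1) (g (d x0)) hb hP0 ⟨_, h.Lgd hx0 hgx0⟩
      obtain ⟨y, hy, hby⟩ := hinj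
      rw [show q + 1 - 1 = q by ring, show -((m + 1 : ℕ) : ℤ) - 1 = -((m + 2 : ℕ) : ℤ) by
        push_cast; ring] at hy
      have hPy : d (g (d y)) = 0 := by rw [← hby, hgb, map_zero]
      have hdy := ih (m + 2) hlt y hy hPy
      rw [hdy] at hby
      rw [hby, map_zero, smul_zero, add_zero] at hdx
      -- `L ^ m x0` is a cocycle
      have hc : d ((L ^ m) x0) = 0 := by rw [← h.Lpd, hdx, hLz0]
      have hLx := h.hLp hx0 m
      rw [show -(m : ℤ) + 2 * (m : ℤ) = (m : ℤ) by ring] at hLx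
      obtain ⟨t, ht, s, hs, hdt, hts⟩ := h.hsur q m _ hLx hc
      rw [hq _ s hs, map_zero, add_zero] at hts
      have h5 := h.inj q m m le_rfl (x0 - t) (Submodule.sub_mem _ hx0 ht)
        (by rw [map_sub, hts, sub_self])
      have h6 : d x0 = 0 := by rw [sub_eq_zero.1 h5, hdt]
      rw [map_add, h6, ← h.Ld, hd1, map_zero, add_zero]
  intro w x hx hPx
  rcases Int.le_total w 0 with hw | hw
  · obtain ⟨m, hm⟩ := Int.eq_ofNat_of_zero_le (neg_nonneg.2 hw)
    have hm' : w = -(m : ℤ) := by omega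
    subst hm'
    exact key (-(m : ℤ) - b0 + 1).toNat m (by omega) x hx hPx
  · obtain ⟨m, rfl⟩ := Int.eq_ofNat_of_zero_le hw
    obtain ⟨y, hy, rfl⟩ := h.sur _ _ x hx
    rw [h.PLp hy] at hPx
    have h3 := h.hd _ _ _ (h.hg _ _ _ (h.hd _ _ _ hy))
    rw [show -(m : ℤ) + 1 - 2 + 1 = -(m : ℤ) by ring] at h3
    have h4 := h.inj _ m m le_rfl _ h3 hPx
    have h5 := key (-(m : ℤ) - b0 + 1).toNat m (by omega) y hy h4
    rw [← h.Lpd, h5, map_zero]

/-- In the second lowest position `P b = 0` implies `f d b = 0`. -/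
theorem d1 {q : ℤ} {j0 : ℕ} (hP : ∀ m : ℕ, j0 ≤ m → ∀ x ∈ H q (-(m : ℤ)), f (d (g (d x))) = 0) :
    ∀ k : ℕ, j0 + 1 ≤ k → ∀ b ∈ H (q + 1) (-(k : ℤ)), d (g (d b)) = 0 → f (d b) = 0 := by
  obtain ⟨b0, hb0⟩ := h.low
  have key : ∀ a k : ℕ, -(k : ℤ) < b0 + a → j0 + 1 ≤ k → ∀ b ∈ H (q + 1) (-(k : ℤ)),
      d (g (d b)) = 0 → f (d b) = 0 := by
    intro a
    induction a with
    | zero =>
      intro k hk _ b hb _
      rw [hb0 _ _ (by simpa using hk) b hb, map_zero, map_zero]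
    | succ a ih =>
      intro k hk hjk b hb hPb
      have e2 : -(k : ℤ) - 2 = -((k + 2 : ℕ) : ℤ) := by push_cast; ring
      have hlt : -((k + 2 : ℕ) : ℤ) < b0 + a := by push_cast at hk ⊢; omega
      have hlow : ∀ b ∈ H (q + 1) (-(k : ℤ)), g b = 0 → d (g (d b)) = 0 → f (d b) = 0 := by
        clear hPb hb b
        intro b hb hgb hPb
        obtain ⟨hc, hgc, z0, hz0, hgz0, hLz0, hdb⟩ := h.splitd hb hgb
        obtain ⟨y, hy, hcy⟩ := h.hinj (q + 1 + 1) (k + 1) _ hc hPb ⟨_, h.Lgd hb hgb⟩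
        rw [show q + 1 + 1 - 1 = q + 1 by ring, show -((k + 1 : ℕ) : ℤ) - 1 =
          -((k + 2 : ℕ) : ℤ) by push_cast; ring] at hy
        have hPy : d (g (d y)) = 0 := by rw [← hcy, hgc, map_zero]
        have hfy := ih (k + 2) hlt (by omega) y hy hPy
        have hfc : f (g (d b)) = 0 := by rw [hcy, hfy]
        have hkK : ((k : K) + 1) ≠ 0 := by exact_mod_cast Nat.succ_ne_zero k
        -- the corrected vector
        have hLy : L y ∈ H (q + 1) (-(k : ℤ)) := by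
          have := h.hL _ _ _ hy
          rwa [show -((k + 2 : ℕ) : ℤ) + 2 = -(k : ℤ) by push_cast; ring] at this
        obtain ⟨t0, ht0, hdt0⟩ : ∃ t0 ∈ H (q + 1) (-(k : ℤ)), d t0 = z0 := by
          refine ⟨b - ((k : K) + 1)⁻¹ • L y,
            Submodule.sub_mem _ hb (Submodule.smul_mem _ _ hLy), ?_⟩
          rw [map_sub, map_smul, ← h.Ld, ← hcy]
          nth_rewrite 1 [hdb]
          rw [add_sub_cancel_right]
        have hcoc : d ((L ^ k) t0) = 0 := by rw [← h.Lpd, hdt0, hLz0]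
        have hLt0 := h.hLp ht0 k
        rw [show -(k : ℤ) + 2 * (k : ℤ) = (k : ℤ) by ring] at hLt0
        obtain ⟨t, ht, s, hs, hdt, hts⟩ := h.hsur (q + 1) k _ hLt0 hcoc
        obtain ⟨k', rfl⟩ : ∃ k', k = k' + 1 := ⟨k - 1, by omega⟩
        rw [show q + 1 - 1 = q by ring, show ((k' + 1 : ℕ) : ℤ) - 1 = (k' : ℤ) by push_cast; ring]
          at hs
        obtain ⟨s', hs', rfl⟩ := h.sur _ _ s hs
        obtain ⟨τ, hτ, hdτ, hLτ⟩ : ∃ τ ∈ H (q + 1) (-((k' + 1 : ℕ) : ℤ)), d τ = z0 ∧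
            (L ^ (k' + 1)) τ = (L ^ k') (d s') := by
          refine ⟨t0 - t, Submodule.sub_mem _ ht0 ht, by rw [map_sub, hdt0, hdt, sub_zero], ?_⟩
          rw [map_sub, hts, h.Lpd]
          abel
        have hκm : L τ - d s' ∈ H (q + 1) (-(k' : ℤ) + 1) := by
          refine Submodule.sub_mem _ ?_ (h.hd _ _ _ hs')
          have := h.hL _ _ _ hτ
          rwa [show -((k' + 1 : ℕ) : ℤ) + 2 = -(k' : ℤ) + 1 by push_cast; ring] at this
        have hκL : (L ^ k') (L τ - d s') = 0 := by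
          rw [map_sub, ← hLτ, pow_succ, Module.End.mul_apply, sub_self]
        have hgκ : g (L τ - d s') = 0 := by
          rcases Nat.eq_zero_or_pos k' with rfl | hk0
          · have : L τ - d s' = 0 := by simpa using hκL
            rw [this, map_zero]
          · obtain ⟨k'', rfl⟩ : ∃ k'', k' = k'' + 1 := ⟨k' - 1, by omega⟩
            rw [show -((k'' + 1 : ℕ) : ℤ) + 1 = -(k'' : ℤ) by push_cast; ring] at hκm
            exact h.low_of hκm hκL
        have hPτ : d (g (d τ)) = 0 := by rw [hdτ, hgz0, map_zero]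
        have hgτ : g τ ∈ H (q + 1) (-((k' + 1 + 2 : ℕ) : ℤ)) := by
          have := h.hg _ _ _ hτ
          rwa [show -((k' + 1 : ℕ) : ℤ) - 2 = -((k' + 1 + 2 : ℕ) : ℤ) by push_cast; ring] at this
        have hfgτ := ih (k' + 1 + 2) hlt (by omega) (g τ) hgτ (by rw [h.Pg, hPτ, map_zero])
        have hbr := h.br _ _ _ hτ
        -- `(k' + 1) z0 = P s' - L d g τ`
        have e3 : d (g (L τ)) = L (d (g τ)) + ((k' : K) + 1) • z0 := by
          have e4 : g (L τ) = L (g τ) + ((k' : K) + 1) • τ := by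
            rw [hbr, add_assoc, ← add_smul]
            have : ((-((k' + 1 : ℕ) : ℤ) : ℤ) : K) + ((k' : K) + 1) = 0 := by push_cast; ring
            rw [this, zero_smul, add_zero]
          rw [e4, map_add, map_smul, hdτ, h.Ld]
        have e5 : d (g (L τ)) = d (g (d s')) := by
          have := congrArg d hgκ
          rw [map_sub, map_sub, map_zero] at this
          exact sub_eq_zero.1 this
        have e6 : ((k' : K) + 1) • f z0 = 0 := by
          have e7 := congrArg f (e3.symm.trans e5)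
          rw [map_add, map_smul, h.fL, hfgτ, map_zero, zero_add,
            hP k' (by omega) s' hs'] at e7
          exact e7
        have hk1 : ((k' : K) + 1) ≠ 0 := by exact_mod_cast Nat.succ_ne_zero k'
        have hfz0 : f z0 = 0 := (smul_eq_zero.1 e6).resolve_left hk1
        rw [hdb, map_add, map_smul, h.fL, hfc, hfz0, map_zero, smul_zero, add_zero]
      obtain ⟨b1, hb1, b2, hb2, hg1, rfl⟩ := h.dec _ _ _ hb
      obtain ⟨hP1, hP2⟩ := h.Pdec hb2 hg1 hPb
      rw [e2] at hb2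
      rw [map_add, map_add, hlow b1 hb1 hg1 hP1, ← h.Ld, h.fL,
        ih (k + 2) hlt (by omega) b2 hb2 hP2, map_zero, add_zero]
  intro k hk b hb hPb
  exact key (-(k : ℤ) - b0 + 1).toNat k (by omega) hk b hb hPb

end Lc

end Pool.Agent.H62X
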