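import Pool.Agent.W_a3c811_h62w.Ab18
import Pool.Agent.W_a3c811_h62w.Ab20

/-! The homogeneous vectors of the kernel part of the Laplacian. -/

noncomputable section

set_option linter.unusedSectionVars false

namespace Pool.Agent.H62X

open Module Pool.Agent.H79L

universe v w

variable {K : Type v} [Field K] [CharZero K] {E : Type w} [AddCommGroup E] [Module K E]
  [FiniteDimensional K E]
  {N f L g d : Module.End K E} {n : ℤ} {s t : ℤ → Module.End K E}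
  {P D : Finset ℤ} {S : E →ₗ[K] E →ₗ[K] K} {B : Subring (Module.End K E)}
  {Z : Module.End K E}

/-- the vectors of bidegree `(p, w)` in the image of the projector `Z` -/
def Hs (s t : ℤ → Module.End K E) (n : ℤ) (Z : Module.End K E) (p w : ℤ) : Submodule K E where
  carrier := {x | At s t n p w x ∧ Z x = x}
  zero_mem' := ⟨⟨map_zero _, map_zero _⟩, map_zero _⟩
  add_mem' := by
    rintro x y ⟨hx, hx'⟩ ⟨hy, hy'⟩
    exact ⟨⟨by rw [map_add, hx.hs, hy.hs], by rw [map_add, hx.ht, hy.ht]⟩,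
      by rw [map_add, hx', hy']⟩
  smul_mem' := by
    rintro c x ⟨hx, hx'⟩
    exact ⟨⟨by rw [map_smul, hx.hs], by rw [map_smul, hx.ht]⟩, by rw [map_smul, hx']⟩

lemma mem_Hs {p w : ℤ} {x : E} : x ∈ Hs s t n Z p w ↔ At s t n p w x ∧ Z x = x := Iff.rfl

section sl

variable {s : ℤ → Module.End K E} {P : Finset ℤ}

/-- the Lefschetz decomposition in the image of an idempotent which commutes with the triple -/
lemma dec_pr (sl : Sl N f s P) {Q : Module.End K E} (hQN : Q * N = N * Q) (hQf : Q * f = f * Q)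
    (hQs : ∀ p, Q * s p = s p * Q) (hQ : Q * Q = Q) {i : ℕ} {y : E}
    (hy : s (-(i : ℤ)) y = y) (hQy : Q y = y) :
    ∃ y0 y1, (s (-(i : ℤ)) y0 = y0 ∧ Q y0 = y0) ∧ (s (-(i : ℤ) - 2) y1 = y1 ∧ Q y1 = y1) ∧
      f y0 = 0 ∧ y = y0 + N y1 := by
  obtain ⟨y0, y1, h1, h2, h3⟩ := exists_dec sl hy
  have hQQ : ∀ x, Q (Q x) = Q x := fun x => LinearMap.congr_fun hQ x
  have cN : ∀ x, Q (N x) = N (Q x) := fun x => LinearMap.congr_fun hQN x
  have cf : ∀ x, Q (f x) = f (Q x) := fun x => LinearMap.congr_fun hQf x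
  have cs : ∀ p x, Q (s p x) = s p (Q x) := fun p x => LinearMap.congr_fun (hQs p) x
  have hss : ∀ p x, s p (s p x) = s p x := fun p x => LinearMap.congr_fun (sl.idem p) x
  refine ⟨Q y0, Q (s (-(i : ℤ) - 2) y1), ⟨by rw [← cs, h1], hQQ _⟩, ⟨by rw [cs, hss], hQQ _⟩,
    by rw [← cf, h2, map_zero], ?_⟩
  have e1 : s (-(i : ℤ)) (N y1) = N (s (-(i : ℤ) - 2) y1) := by
    have := LinearMap.congr_fun (sl.Ns (-(i : ℤ) - 2)) y1
    rw [Module.End.mul_apply, Module.End.mul_apply, sub_add_cancel] at this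
    exact this.symm
  have e2 := congrArg (fun x => Q (s (-(i : ℤ)) x)) h3
  simp only [map_add] at e2
  rwa [hy, hQy, h1, e1, cN] at e2

lemma sur_pr (sl : Sl N f s P) {Q : Module.End K E} (hQN : Q * N = N * Q)
    (hQs : ∀ p, Q * s p = s p * Q) (hQ : Q * Q = Q) {i : ℕ} {z : E} (hz : s (i : ℤ) z = z)
    (hQz : Q z = z) : ∃ x, (s (-(i : ℤ)) x = x ∧ Q x = x) ∧ (N ^ i) x = z := by
  have hm : z ∈ LinearMap.range (s (i : ℤ)) := ⟨z, hz⟩
  obtain ⟨x, hx, hxz⟩ := (sl.bij i).surjOn hm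
  have hx1 : s (-(i : ℤ)) x = x := sl.mem_range.1 hx
  refine ⟨Q x, ⟨?_, LinearMap.congr_fun hQ x⟩, ?_⟩
  · have := LinearMap.congr_fun (hQs (-(i : ℤ))) x
    rw [Module.End.mul_apply, Module.End.mul_apply, hx1] at this
    exact this.symm
  · have h1 : Q ((N ^ i) x) = (N ^ i) (Q x) :=
      LinearMap.congr_fun ((show Commute Q N from hQN).pow_right i).eq x
    rw [← h1, hxz, hQz]

end sl

section har

variable (hZ : Har N f L g d s t S B Z)
include hZ

lemma Har.mN : Z * N = N * Z := hZ.cg 0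
lemma Har.mf : Z * f = f * Z := hZ.cg 1
lemma Har.mL : Z * L = L * Z := hZ.cg 2
lemma Har.mg : Z * g = g * Z := hZ.cg 3
lemma Har.zN (x : E) : Z (N x) = N (Z x) := LinearMap.congr_fun hZ.mN x
lemma Har.zf (x : E) : Z (f x) = f (Z x) := LinearMap.congr_fun hZ.mf x
lemma Har.zL (x : E) : Z (L x) = L (Z x) := LinearMap.congr_fun hZ.mL x
lemma Har.zg (x : E) : Z (g x) = g (Z x) := LinearMap.congr_fun hZ.mg x
lemma Har.zd (x : E) : Z (d x) = d (Z x) := LinearMap.congr_fun hZ.cd x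
lemma Har.zz (x : E) : Z (Z x) = Z x := LinearMap.congr_fun hZ.idem x

end har

variable (h : Pol N f L g d n s t P D S B)
  (hZ : Har N f L g d s t S B Z)
include h hZ

lemma Hs.z_at {p w : ℤ} {x : E} (hx : At s t n p w x) : Z x ∈ Hs s t n Z p w :=
  ⟨hx.of_comm0 hZ.cs hZ.ct, LinearMap.congr_fun hZ.idem x⟩

lemma Hs.hN {p w : ℤ} {x : E} (hx : x ∈ Hs s t n Z p w) : N x ∈ Hs s t n Z (p + 2) w :=
  ⟨hx.1.aN h.bi, by rw [hZ.zN, hx.2]⟩

lemma Hs.hf {p w : ℤ} {x : E} (hx : x ∈ Hs s t n Z p w) : f x ∈ Hs s t n Z (p - 2) w :=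
  ⟨hx.1.af h.bi, by rw [hZ.zf, hx.2]⟩

lemma Hs.hL {p w : ℤ} {x : E} (hx : x ∈ Hs s t n Z p w) : L x ∈ Hs s t n Z p (w + 2) :=
  ⟨hx.1.aL h.bi, by rw [hZ.zL, hx.2]⟩

lemma Hs.hg {p w : ℤ} {x : E} (hx : x ∈ Hs s t n Z p w) : g x ∈ Hs s t n Z p (w - 2) :=
  ⟨hx.1.ag h.bi, by rw [hZ.zg, hx.2]⟩

lemma Hs.hd {p w : ℤ} {x : E} (hx : x ∈ Hs s t n Z p w) : d x ∈ Hs s t n Z (p + 1) (w + 1) :=
  ⟨hx.1.ad h.bi, by rw [hZ.zd, hx.2]⟩

omit hZ in
lemma br_app2 {a b : Module.End K E} (hab : br a (br a b) = 0) (x : E) :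
    a (a (b x)) = (2 : K) • a (b (a x)) - b (a (a x)) := by
  have h1 : a (a (b x) - b (a x)) - (a (b (a x)) - b (a (a x))) = 0 := LinearMap.congr_fun hab x
  rw [map_sub] at h1
  have h2 : a (a (b x)) = a (b (a x)) + (a (b (a x)) - b (a (a x))) := by
    have := sub_eq_zero.1 h1
    rw [← this]; abel
  rw [h2, two_smul]
  abel

/-- the base structure for `L` and `g` -/
theorem lbL : Lb f L g d (Hs s t n Z) where
  hf _ _ _ hx := Hs.hf h hZ hx
  hL _ _ _ hx := Hs.hL h hZ hx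
  hg _ _ _ hx := Hs.hg h hZ hx
  hd _ _ _ hx := Hs.hd h hZ hx
  br _ _ _ hx := hx.1.brL h.bi
  Ld x := LinearMap.congr_fun h.bi.Ld x
  fL x := LinearMap.congr_fun h.bi.fL x
  fg x := LinearMap.congr_fun h.bi.fg x
  dd x := LinearMap.congr_fun h.bi.dd x
  ggd x := br_app2 h h.bi.ggd x
  dec p m x hx := by
    have cZs : (Z * s p) * (Z * s p) = Z * s p := by
      rw [mul_assoc, ← mul_assoc (s p) Z, ← hZ.cs, mul_assoc Z (s p) (s p), h.bi.sl.idem,
        ← mul_assoc, hZ.idem]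
    have c1 : Z * s p * L = L * (Z * s p) := by
      rw [mul_assoc, ← h.bi.Ls, ← mul_assoc, hZ.mL, mul_assoc]
    have c2 : Z * s p * g = g * (Z * s p) := by
      rw [mul_assoc, ← h.bi.gs, ← mul_assoc, hZ.mg, mul_assoc]
    have c3 : ∀ w, Z * s p * (fun p => t (p + n)) w = (fun p => t (p + n)) w * (Z * s p) := by
      intro w
      change Z * s p * t (w + n) = t (w + n) * (Z * s p)
      rw [mul_assoc, h.bi.st, ← mul_assoc, hZ.ct, mul_assoc]
    have hQ : ∀ {x : E}, (Z * s p) x = x → s p x = x ∧ Z x = x := by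
      intro x hx
      have hx' : Z (s p x) = x := hx
      refine ⟨?_, ?_⟩
      · have h1 : s p (Z (s p x)) = Z (s p (s p x)) := (app_comm (hZ.cs p) _).symm
        have h2 : s p (s p x) = s p x := LinearMap.congr_fun (h.bi.sl.idem p) x
        rw [h2, hx'] at h1
        exact h1
      · have h1 : Z (Z (s p x)) = Z (s p x) := LinearMap.congr_fun hZ.idem _
        rwa [hx'] at h1
    obtain ⟨y0, y1, ⟨a1, a2⟩, ⟨b1, b2⟩, e1, e2⟩ := dec_pr h.bi.sl2 c1 c2 c3 cZs (i := m) (y := x)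
      hx.1.ht (by change Z (s p x) = x; rw [hx.1.hs, hx.2])
    exact ⟨y0, ⟨⟨(hQ a2).1, a1⟩, (hQ a2).2⟩, y1, ⟨⟨(hQ b2).1, b1⟩, (hQ b2).2⟩, e1, e2⟩
  inj p m k hk x hx h0 := h.bi.sl2.inj m k hk x hx.1.ht h0
  sur p m z hz := by
    have cZs : (Z * s p) * (Z * s p) = Z * s p := by
      rw [mul_assoc, ← mul_assoc (s p) Z, ← hZ.cs, mul_assoc Z (s p) (s p), h.bi.sl.idem,
        ← mul_assoc, hZ.idem]
    have c1 : Z * s p * L = L * (Z * s p) := by
      rw [mul_assoc, ← h.bi.Ls, ← mul_assoc, hZ.mL, mul_assoc]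
    have c3 : ∀ w, Z * s p * (fun p => t (p + n)) w = (fun p => t (p + n)) w * (Z * s p) := by
      intro w
      change Z * s p * t (w + n) = t (w + n) * (Z * s p)
      rw [mul_assoc, h.bi.st, ← mul_assoc, hZ.ct, mul_assoc]
    obtain ⟨x, ⟨a1, a2⟩, a3⟩ := sur_pr h.bi.sl2 c1 c3 cZs (i := m) (z := z) hz.1.ht
      (by change Z (s p z) = z; rw [hz.1.hs, hz.2])
    have hx' : Z (s p x) = x := a2
    refine ⟨x, ⟨⟨?_, a1⟩, ?_⟩, a3⟩
    · have h1 : s p (Z (s p x)) = Z (s p (s p x)) := (app_comm (hZ.cs p) _).symm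
      have h2 : s p (s p x) = s p x := LinearMap.congr_fun (h.bi.sl.idem p) x
      rw [h2, hx'] at h1
      exact h1
    · have h1 : Z (Z (s p x)) = Z (s p x) := LinearMap.congr_fun hZ.idem _
      rwa [hx'] at h1
  kill p m x hx hg := Npow_kill h.bi.sl2 hx.1.ht hg
  gne p w hw x hx hg := h.bi.sl2.f_ne hw hx.1.ht hg
  gL p w hw x hx hg := h.bi.sl2.fN_inj hw hx.1.ht hg
  low := by
    obtain ⟨b, hb⟩ := h.bi.sl2.low
    exact ⟨b, fun p w hw x hx => hb w hw x hx.1.ht⟩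

/-- the base structure for `N` and `f` -/
theorem lbN : Lb g N f d (fun w p => Hs s t n Z p w) where
  hf _ _ _ hx := Hs.hg h hZ hx
  hL _ _ _ hx := Hs.hN h hZ hx
  hg _ _ _ hx := Hs.hf h hZ hx
  hd _ _ _ hx := Hs.hd h hZ hx
  br _ _ _ hx := hx.1.brN h.bi
  Ld x := LinearMap.congr_fun h.bi.Nd x
  fL x := (LinearMap.congr_fun h.bi.Ng x).symm
  fg x := (LinearMap.congr_fun h.bi.fg x).symm
  dd x := LinearMap.congr_fun h.bi.dd x
  ggd x := br_app2 h h.bi.ffd x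
  dec w m x hx := by
    have cZt : (Z * t (w + n)) * (Z * t (w + n)) = Z * t (w + n) := by
      rw [mul_assoc, ← mul_assoc (t (w + n)) Z, ← hZ.ct, mul_assoc Z (t (w + n)) (t (w + n)),
        h.bi.idemt, ← mul_assoc, hZ.idem]
    have c1 : Z * t (w + n) * N = N * (Z * t (w + n)) := by
      rw [mul_assoc, ← h.bi.Nt, ← mul_assoc, hZ.mN, mul_assoc]
    have c2 : Z * t (w + n) * f = f * (Z * t (w + n)) := by
      rw [mul_assoc, ← h.bi.ft, ← mul_assoc, hZ.mf, mul_assoc]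
    have c3 : ∀ p, Z * t (w + n) * s p = s p * (Z * t (w + n)) := by
      intro p
      rw [mul_assoc, ← h.bi.st, ← mul_assoc, hZ.cs, mul_assoc]
    have hQ : ∀ {x : E}, (Z * t (w + n)) x = x → t (w + n) x = x ∧ Z x = x := by
      intro x hx
      have hx' : Z (t (w + n) x) = x := hx
      refine ⟨?_, ?_⟩
      · have h1 : t (w + n) (Z (t (w + n) x)) = Z (t (w + n) (t (w + n) x)) :=
          (app_comm (hZ.ct _) _).symm
        have h2 : t (w + n) (t (w + n) x) = t (w + n) x := LinearMap.congr_fun (h.bi.idemt _) x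
        rw [h2, hx'] at h1
        exact h1
      · have h1 : Z (Z (t (w + n) x)) = Z (t (w + n) x) := LinearMap.congr_fun hZ.idem _
        rwa [hx'] at h1
    obtain ⟨y0, y1, ⟨a1, a2⟩, ⟨b1, b2⟩, e1, e2⟩ := dec_pr h.bi.sl c1 c2 c3 cZt (i := m) (y := x)
      hx.1.hs (by change Z (t (w + n) x) = x; rw [hx.1.ht, hx.2])
    exact ⟨y0, ⟨⟨a1, (hQ a2).1⟩, (hQ a2).2⟩, y1, ⟨⟨b1, (hQ b2).1⟩, (hQ b2).2⟩, e1, e2⟩
  inj w m k hk x hx h0 := h.bi.sl.inj m k hk x hx.1.hs h0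
  sur w m z hz := by
    have cZt : (Z * t (w + n)) * (Z * t (w + n)) = Z * t (w + n) := by
      rw [mul_assoc, ← mul_assoc (t (w + n)) Z, ← hZ.ct, mul_assoc Z (t (w + n)) (t (w + n)),
        h.bi.idemt, ← mul_assoc, hZ.idem]
    have c1 : Z * t (w + n) * N = N * (Z * t (w + n)) := by
      rw [mul_assoc, ← h.bi.Nt, ← mul_assoc, hZ.mN, mul_assoc]
    have c3 : ∀ p, Z * t (w + n) * s p = s p * (Z * t (w + n)) := by
      intro p
      rw [mul_assoc, ← h.bi.st, ← mul_assoc, hZ.cs, mul_assoc]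
    obtain ⟨x, ⟨a1, a2⟩, a3⟩ := sur_pr h.bi.sl c1 c3 cZt (i := m) (z := z) hz.1.hs
      (by change Z (t (w + n) z) = z; rw [hz.1.ht, hz.2])
    have hx' : Z (t (w + n) x) = x := a2
    refine ⟨x, ⟨⟨a1, ?_⟩, ?_⟩, a3⟩
    · have h1 : t (w + n) (Z (t (w + n) x)) = Z (t (w + n) (t (w + n) x)) :=
        (app_comm (hZ.ct _) _).symm
      have h2 : t (w + n) (t (w + n) x) = t (w + n) x := LinearMap.congr_fun (h.bi.idemt _) x
      rw [h2, hx'] at h1
      exact h1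
    · have h1 : Z (Z (t (w + n) x)) = Z (t (w + n) x) := LinearMap.congr_fun hZ.idem _
      rwa [hx'] at h1
  kill w m x hx hg := Npow_kill h.bi.sl hx.1.hs hg
  gne w p hp x hx hg := h.bi.sl.f_ne hp hx.1.hs hg
  gL w p hp x hx hg := h.bi.sl.fN_inj hp hx.1.hs hg
  low := by
    obtain ⟨b, hb⟩ := h.bi.sl.low
    exact ⟨b, fun w p hp x hx => hb p hp x hx.1.hs⟩

/-- the hard Lefschetz theorem for the cohomology -/
theorem lcL (hL : ∀ (p : ℤ) (m : ℕ), EI (L ^ m) d s t n p (-(m : ℤ)) p m) :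
    Lc f L g d (Hs s t n Z) where
  toLb := lbL h hZ
  hinj p m x hx hdx hy := by
    obtain ⟨y, hy'⟩ := (hL p m).inj x hx.1 hdx hy
    obtain ⟨y', h1, h2⟩ := at_hom h.bi hx.1 hy'
    refine ⟨Z y', Hs.z_at h hZ h1, ?_⟩
    rw [← hZ.zd, ← h2, hx.2]
  hsur p m z hz hdz := by
    obtain ⟨x, y, hx, hdx, hy⟩ := (hL p m).surj z hz.1 hdz
    have h0 : At s t n p m ((L ^ m) x) := by
      have : ∀ k : ℕ, At s t n p (-(m : ℤ) + 2 * k) ((L ^ k) x) := by
        intro k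
        induction k with
        | zero => simpa using hx
        | succ k ih =>
          rw [pow_succ', Module.End.mul_apply]
          have := ih.aL h.bi
          rwa [show -(m : ℤ) + 2 * (k : ℤ) + 2 = -(m : ℤ) + 2 * ((k + 1 : ℕ) : ℤ) by
            push_cast; ring] at this
      have := this m
      rwa [show -(m : ℤ) + 2 * (m : ℤ) = m by ring] at this
    have h3 : z - (L ^ m) x = d y := by rw [hy]; abel
    obtain ⟨y', h1, h2⟩ := at_hom h.bi (hz.1.sub h0) h3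
    have cL : ∀ x, Z ((L ^ m) x) = (L ^ m) (Z x) := fun x =>
      LinearMap.congr_fun ((show Commute Z L from hZ.cg 2).pow_right m).eq x
    refine ⟨Z x, Hs.z_at h hZ hx, Z y', Hs.z_at h hZ h1, ?_, ?_⟩
    · rw [← hZ.zd, hdx, map_zero]
    · rw [← cL, ← hZ.zd, ← h2, map_sub, hz.2]
      abel

/-- weight monodromy for the cohomology -/
theorem lcN (hN : ∀ (w : ℤ) (m : ℕ), EI (N ^ m) d s t n (-(m : ℤ)) w m w) :
    Lc g N f d (fun w p => Hs s t n Z p w) where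
  toLb := lbN h hZ
  hinj w m x hx hdx hy := by
    obtain ⟨y, hy'⟩ := (hN w m).inj x hx.1 hdx hy
    obtain ⟨y', h1, h2⟩ := at_hom h.bi hx.1 hy'
    refine ⟨Z y', Hs.z_at h hZ h1, ?_⟩
    rw [← hZ.zd, ← h2, hx.2]
  hsur w m z hz hdz := by
    obtain ⟨x, y, hx, hdx, hy⟩ := (hN w m).surj z hz.1 hdz
    have h0 : At s t n m w ((N ^ m) x) := by
      have : ∀ k : ℕ, At s t n (-(m : ℤ) + 2 * k) w ((N ^ k) x) := by
        intro k
        induction k with
        | zero => simpa using hx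
        | succ k ih =>
          rw [pow_succ', Module.End.mul_apply]
          have := ih.aN h.bi
          rwa [show -(m : ℤ) + 2 * (k : ℤ) + 2 = -(m : ℤ) + 2 * ((k + 1 : ℕ) : ℤ) by
            push_cast; ring] at this
      have := this m
      rwa [show -(m : ℤ) + 2 * (m : ℤ) = m by ring] at this
    have h3 : z - (N ^ m) x = d y := by rw [hy]; abel
    obtain ⟨y', h1, h2⟩ := at_hom h.bi (hz.1.sub h0) h3
    have cN : ∀ x, Z ((N ^ m) x) = (N ^ m) (Z x) := fun x =>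
      LinearMap.congr_fun ((show Commute Z N from hZ.cg 0).pow_right m).eq x
    refine ⟨Z x, Hs.z_at h hZ hx, Z y', Hs.z_at h hZ h1, ?_, ?_⟩
    · rw [← hZ.zd, hdx, map_zero]
    · rw [← cN, ← hZ.zd, ← h2, map_sub, hz.2]
      abel

end Pool.Agent.H62X
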