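import Pool.Agent.W_a3c811_h62w.Ab21

/-! Primitive parts without self-adjoint operators of square zero. -/

noncomputable section

set_option linter.unusedSectionVars false

namespace Pool.Agent.H62X

open Module Pool.Agent.H79L

universe v w

variable {K : Type v} [Field K] [CharZero K] {E : Type w} [AddCommGroup E] [Module K E]
  [FiniteDimensional K E]
  {N f L g d : Module.End K E} {n : ℤ} {s t : ℤ → Module.End K E}
  {P D : Finset ℤ} {S : E →ₗ[K] E →ₗ[K] K} {B : Subring (Module.End K E)}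
  {Z : Module.End K E}

/-- Every member of `B` with values in the sum of the images of the components of the differential
which maps the primitive part `(i, j)` into itself, is self-adjoint there and of square zero,
vanishes there. -/
def Gd (N f L g d : Module.End K E) (n : ℤ) (s t : ℤ → Module.End K E)
    (S : E →ₗ[K] E →ₗ[K] K) (B : Subring (Module.End K E)) (i j : ℕ) : Prop :=
  ∀ u ∈ B, (∀ x, u x ∈ radS f g d) → (∀ x ∈ prim f g n s t i j, u x ∈ prim f g n s t i j) →
    (∀ x ∈ prim f g n s t i j, ∀ y ∈ prim f g n s t i j,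
      S (u x) ((N ^ i) ((L ^ j) y)) = S x ((N ^ i) ((L ^ j) (u y)))) →
    (∀ x ∈ prim f g n s t i j, u (u x) = 0) → ∀ x ∈ prim f g n s t i j, u x = 0

section gd

variable {i j : ℕ} (hG : Gd N f L g d n s t S B i j)
include hG

/-- nilpotent instead of square zero -/
theorem Gd.nil {u : Module.End K E} (hu : u ∈ B) (hr : ∀ x, u x ∈ radS f g d)
    (hp : ∀ x ∈ prim f g n s t i j, u x ∈ prim f g n s t i j)
    (hs : ∀ x ∈ prim f g n s t i j, ∀ y ∈ prim f g n s t i j,
      S (u x) ((N ^ i) ((L ^ j) y)) = S x ((N ^ i) ((L ^ j) (u y)))) (M : ℕ)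
    (hM : ∀ x ∈ prim f g n s t i j, (u ^ M) x = 0) : ∀ x ∈ prim f g n s t i j, u x = 0 := by
  have hpk : ∀ k : ℕ, ∀ x ∈ prim f g n s t i j, (u ^ k) x ∈ prim f g n s t i j := by
    intro k
    induction k with
    | zero => intro x hx; exact hx
    | succ k ih =>
      intro x hx
      rw [pow_succ', Module.End.mul_apply]
      exact hp _ (ih x hx)
  have hsk : ∀ k : ℕ, ∀ x ∈ prim f g n s t i j, ∀ y ∈ prim f g n s t i j,
      S ((u ^ k) x) ((N ^ i) ((L ^ j) y)) = S x ((N ^ i) ((L ^ j) ((u ^ k) y))) := by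
    intro k
    induction k with
    | zero => intro x _ y _; rfl
    | succ k ih =>
      intro x hx y hy
      have e1 : (u ^ (k + 1)) x = (u ^ k) (u x) := by rw [pow_succ]; rfl
      have e2 : (u ^ (k + 1)) y = u ((u ^ k) y) := by rw [pow_succ']; rfl
      rw [e1, e2, ih _ (hp x hx) y hy, hs x hx _ (hpk k y hy)]
  revert hM
  induction M with
  | zero =>
    intro hM x hx
    have : x = 0 := hM x hx
    rw [this, map_zero]
  | succ M ih =>
    intro hM
    rcases Nat.eq_zero_or_pos M with rfl | hM0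
    · intro x hx
      have := hM x hx
      rwa [zero_add, pow_one] at this
    · refine ih ?_
      obtain ⟨m, rfl⟩ : ∃ m, M = m + 1 := ⟨M - 1, by omega⟩
      refine hG (u ^ (m + 1)) (pow_mem hu _) (fun x => ?_) (hpk _) (hsk _) fun x hx => ?_
      · rw [pow_succ', Module.End.mul_apply]
        exact hr _
      · have e1 : (u ^ (m + 1)) ((u ^ (m + 1)) x) = (u ^ m) ((u ^ (m + 1 + 1)) x) := by
          rw [← Module.End.mul_apply, ← pow_add, ← Module.End.mul_apply, ← pow_add]
          congr 2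
          omega
        rw [e1, hM x hx, map_zero]

end gd

/-- operators commuting with `f`, `g` and the projectors preserve the primitive parts -/
lemma prim_comm (hb : Bi N f L g d n s t P D) {T : Module.End K E} (hf : T * f = f * T)
    (hg : T * g = g * T) (hs : ∀ p, T * s p = s p * T) (ht : ∀ w, T * t w = t w * T) {i j : ℕ}
    {x : E} (hx : x ∈ prim f g n s t i j) : T x ∈ prim f g n s t i j := by
  rw [mem_prim_iff hb] at hx ⊢
  obtain ⟨h1, h2, h3, h4⟩ := hx
  refine ⟨?_, ?_, ?_, ?_⟩
  · rw [← app_comm (hs _), h1]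
  · rw [← app_comm (ht _), h2]
  · rw [← app_comm hf, h3, map_zero]
  · rw [← app_comm hg, h4, map_zero]

lemma prim_at (hb : Bi N f L g d n s t P D) {i j : ℕ} {x : E} (hx : x ∈ prim f g n s t i j) :
    At s t n (-(i : ℤ)) (-(j : ℤ)) x := by
  obtain ⟨h1, h2, -, -⟩ := (mem_prim_iff hb).1 hx
  exact ⟨h1, by rw [show -(j : ℤ) + n = n - j by ring, h2]⟩

lemma prim_of (hb : Bi N f L g d n s t P D) {i j : ℕ} {x : E}
    (hx : At s t n (-(i : ℤ)) (-(j : ℤ)) x) (h1 : f x = 0) (h2 : g x = 0) :
    x ∈ prim f g n s t i j := by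
  rw [mem_prim_iff hb]
  refine ⟨hx.hs, ?_, h1, h2⟩
  have := hx.ht
  rwa [show -(j : ℤ) + n = n - j by ring] at this

section ops

variable (hb : Bi N f L g d n s t P D)
include hb

/-- `P = d g d` -/
lemma P_comm_N : d * g * d * N = N * (d * g * d) := by
  have h1 : N * d = d * N := hb.Nd
  have h2 : N * g = g * N := hb.Ng
  rw [mul_assoc (d * g) d N, ← h1, ← mul_assoc, mul_assoc d g N, ← h2, ← mul_assoc, ← h1]
  noncomm_ring

/-- `(f P)^2 = - Δ f P` -/
lemma fP_sq : f * (d * g * d) * (f * (d * g * d)) = -(lap f g d * (f * (d * g * d))) := by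
  obtain ⟨a01, a02, a11, a22, a33, a12, a13, a23⟩ := hb.rel
  have dd : d * d = 0 := hb.dd
  set a := br f d with ha
  set b := br g d with hbb
  set c := br f (br g d) with hc
  have eP : d * g * d = d * b := by
    rw [hbb]; unfold br
    rw [mul_sub, ← mul_assoc d d g, dd, zero_mul, sub_zero, mul_assoc]
  have hlap : lap f g d = d * c + c * d := rfl
  have hPf : d * b * f = f * (d * b) - (a * b + d * c) := by
    have ha' : a = f * d - d * f := rfl
    have hc' : c = f * b - b * f := rfl
    rw [ha', hc']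
    noncomm_ring
  have hbd : b * d = -(d * b) := by
    have := a02
    rw [add_comm] at this
    exact eq_neg_of_add_eq_zero_left this
  have hPP : d * b * (d * b) = 0 := by
    rw [mul_assoc, ← mul_assoc b d b, hbd, neg_mul, mul_assoc d b b, a22, mul_zero, neg_zero,
      mul_zero]
  have e1 : (a * b + d * c) * (d * b) = lap f g d * (d * b) := by
    have k1 : a * b * (d * b) = 0 := by
      rw [mul_assoc, ← mul_assoc b d b, hbd, neg_mul, mul_assoc d b b, a22, mul_zero, neg_zero,
        mul_zero]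
    have k2 : d * c * (d * b) = lap f g d * (d * b) := by
      rw [hlap, add_mul]
      have k3 : c * d * (d * b) = 0 := by
        rw [mul_assoc, ← mul_assoc d d b, dd, zero_mul, mul_zero]
      rw [k3, add_zero]
    rw [add_mul, k1, zero_add, k2]
  have hlf : lap f g d * f = f * lap f g d := hb.lap_f
  rw [eP]
  calc f * (d * b) * (f * (d * b)) = f * (d * b * f) * (d * b) := by noncomm_ring
    _ = f * (f * (d * b) - (a * b + d * c)) * (d * b) := by rw [hPf]
    _ = f * f * (d * b * (d * b)) - f * ((a * b + d * c) * (d * b)) := by noncomm_ring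
    _ = -(f * (lap f g d * (d * b))) := by rw [hPP, e1, mul_zero, zero_sub]
    _ = -(lap f g d * (f * (d * b))) := by rw [← mul_assoc, ← hlf, mul_assoc]

end ops

section har

variable (h : Pol N f L g d n s t P D S B)
  (hZ : Har N f L g d s t S B Z)
include h hZ

lemma Har.prim {i j : ℕ} {x : E} (hx : x ∈ prim f g n s t i j) : Z x ∈ H79L.prim f g n s t i j :=
  prim_comm h.bi hZ.mf hZ.mg hZ.cs hZ.ct hx

lemma Har.lapZ_pow (m : ℕ) : (lap f g d * Z) ^ (m + 1) = lap f g d ^ (m + 1) * Z := by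
  have c : Z * lap f g d = lap f g d * Z := by
    have h3 := hZ.c_cmp h 3
    have h3' : Z * br f (br g d) = br f (br g d) * Z := h3
    unfold lap
    rw [mul_add, add_mul]
    congr 1
    · rw [← mul_assoc, hZ.cd, mul_assoc, h3', ← mul_assoc]
    · rw [← mul_assoc, h3', mul_assoc, hZ.cd, ← mul_assoc]
  have cm : ∀ m : ℕ, Z * lap f g d ^ m = lap f g d ^ m * Z := fun m =>
    ((show Commute Z (lap f g d) from c).pow_right m).eq
  induction m with
  | zero => rw [zero_add, pow_one, pow_one]
  | succ m ih =>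
    rw [pow_succ, ih, mul_assoc, ← mul_assoc Z, c, mul_assoc (lap f g d) Z Z, hZ.idem,
      ← mul_assoc, ← pow_succ]

/-- The Laplacian vanishes on the good primitive parts. -/
theorem gd_lap {i j : ℕ} (hG : Gd N f L g d n s t S B i j) {x : E}
    (hx : x ∈ prim f g n s t i j) (hzx : Z x = x) : lap f g d x = 0 := by
  have hb := h.bi
  obtain ⟨M, hM⟩ := hZ.nil
  have key := hG.nil (u := lap f g d * Z) (mul_mem (lap_mem h) hZ.mem)
    (fun x => lap_mem_radS (Z x)) (fun x hx => ?_) (fun x hx y hy => ?_) (M + 1) (fun x hx => ?_)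
    x hx
  · rwa [Module.End.mul_apply, hzx] at key
  · rw [Module.End.mul_apply]
    exact prim_comm hb hb.lap_f hb.lap_g (fun p => (lap_s hb p).symm) (fun w => (lap_t hb w).symm)
      (hZ.prim h hx)
  · rw [Module.End.mul_apply, (adj_lap h).1, hZ.adj.1]
    have e1 : ∀ z, lap f g d ((N ^ i) z) = (N ^ i) (lap f g d z) := fun z =>
      LinearMap.congr_fun ((show Commute (lap f g d) N from hb.lap_N).pow_right i).eq z
    have e2 : ∀ z, lap f g d ((L ^ j) z) = (L ^ j) (lap f g d z) := fun z =>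
      LinearMap.congr_fun ((show Commute (lap f g d) L from hb.lap_L).pow_right j).eq z
    have e3 : ∀ z, Z ((N ^ i) z) = (N ^ i) (Z z) := fun z =>
      LinearMap.congr_fun ((show Commute Z N from hZ.mN).pow_right i).eq z
    have e4 : ∀ z, Z ((L ^ j) z) = (L ^ j) (Z z) := fun z =>
      LinearMap.congr_fun ((show Commute Z L from hZ.mL).pow_right j).eq z
    have e5 : Z (lap f g d y) = lap f g d (Z y) := by
      have h1 := hZ.lapZ_pow h 0
      have h3 := hZ.c_cmp h 3
      have h3' : Z * br f (br g d) = br f (br g d) * Z := h3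
      have c : Z * lap f g d = lap f g d * Z := by
        unfold lap
        rw [mul_add, add_mul]
        congr 1
        · rw [← mul_assoc, hZ.cd, mul_assoc, h3', ← mul_assoc]
        · rw [← mul_assoc, h3', mul_assoc, hZ.cd, ← mul_assoc]
      exact LinearMap.congr_fun c y
    rw [e1, e2, e3, e4, e5, Module.End.mul_apply]
  · rw [hZ.lapZ_pow h, pow_succ', mul_assoc, hM, mul_zero, LinearMap.zero_apply]

/-- `f P` vanishes on the good primitive parts of the two highest levels. -/
theorem gd_fP {i j : ℕ} (hG : Gd N f L g d n s t S B (i + 1) j)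
    (hq : ∀ w, ∀ x ∈ Hs s t n Z (-((i + 1 : ℕ) : ℤ) - 2) w, x = 0) {x : E}
    (hx : x ∈ prim f g n s t (i + 1) j) (hzx : Z x = x) : f (d (g (d x))) = 0 := by
  have hb := h.bi
  have lb := lbL h hZ
  have app : ∀ x, (f * (d * g * d) * Z) x = f (d (g (d (Z x)))) := fun x => rfl
  have hZat : ∀ x ∈ prim f g n s t (i + 1) j,
      Z x ∈ Hs s t n Z (-((i + 1 : ℕ) : ℤ)) (-(j : ℤ)) := fun x hx => Hs.z_at h hZ (prim_at hb hx)
  have hPat : ∀ x ∈ prim f g n s t (i + 1) j,
      d (g (d (Z x))) ∈ Hs s t n Z (-(i : ℤ) + 1) (-(j : ℤ)) := by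
    intro x hx
    have := Hs.hd h hZ (Hs.hg h hZ (Hs.hd h hZ (hZat x hx)))
    rwa [show -((i + 1 : ℕ) : ℤ) + 1 + 1 = -(i : ℤ) + 1 by push_cast; ring,
      show -(j : ℤ) + 1 - 2 + 1 = -(j : ℤ) by ring] at this
  have hg0 : ∀ x ∈ prim f g n s t (i + 1) j, g (d (g (d (Z x)))) = 0 := by
    intro x hx
    have h1 : g (Z x) = 0 := by rw [← hZ.zg, ((mem_prim_iff hb).1 hx).2.2.2, map_zero]
    rw [← lb.Pg, h1, map_zero, map_zero, map_zero]
  have key := hG.nil (u := f * (d * g * d) * Z)
    (mul_mem (mul_mem h.mf (mul_mem (mul_mem h.md h.mg) h.md)) hZ.mem) (fun x => ?_)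
    (fun x hx => ?_) (fun x hx y hy => ?_) 2 (fun x hx => ?_) x hx
  · rwa [app, hzx] at key
  · rw [app]
    exact (stab_radS hb).f _ (cmp_mem_radS (f := f) (g := g) (d := d) 0 (g (d (Z x))))
  · rw [app]
    have h1 := Hs.hf h hZ (hPat x hx)
    rw [show -(i : ℤ) + 1 - 2 = -((i + 1 : ℕ) : ℤ) by push_cast; ring] at h1
    refine prim_of hb h1.1 (hq _ _ (Hs.hf h hZ h1)) ?_
    rw [← lb.fg, hg0 x hx, map_zero]
  · -- self-adjointness
    rw [app, app]
    have cN : ∀ (m : ℕ) z, Z ((N ^ m) z) = (N ^ m) (Z z) := fun m z =>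
      LinearMap.congr_fun ((show Commute Z N from hZ.mN).pow_right m).eq z
    have cL : ∀ (m : ℕ) z, Z ((L ^ m) z) = (L ^ m) (Z z) := fun m z =>
      LinearMap.congr_fun ((show Commute Z L from hZ.mL).pow_right m).eq z
    have cNL : ∀ (m k : ℕ) z, (N ^ m) ((L ^ k) z) = (L ^ k) ((N ^ m) z) := fun m k z =>
      LinearMap.congr_fun ((show Commute N L from hb.NL).pow_pow m k).eq z
    have cfL : ∀ (m : ℕ) z, f ((L ^ m) z) = (L ^ m) (f z) := fun m z =>
      LinearMap.congr_fun ((show Commute f L from hb.fL).pow_right m).eq z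
    have aL : ∀ (m : ℕ) x y, S ((L ^ m) x) y = S x ((L ^ m) y) := fun m => (h.adjL.pow m).1
    have hPN : ∀ (m : ℕ) z, d (g (d ((N ^ m) z))) = (N ^ m) (d (g (d z))) := by
      intro m z
      have := ((show Commute (d * g * d) N from P_comm_N hb).pow_right m).eq
      exact LinearMap.congr_fun this z
    have hy' := hZat y hy
    -- the left side
    have l1 : f ((N ^ (i + 1)) ((L ^ j) y)) = ((i : K) + 1) • (N ^ i) ((L ^ j) y) := by
      have h1 : s (-((i + 1 : ℕ) : ℤ)) ((L ^ j) y) = (L ^ j) y := by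
        have h2 : ∀ z, s (-((i + 1 : ℕ) : ℤ)) ((L ^ j) z) = (L ^ j) (s (-((i + 1 : ℕ) : ℤ)) z) :=
          fun z => (LinearMap.congr_fun ((show Commute (s (-((i + 1 : ℕ) : ℤ))) L from
            (hb.Ls _).symm).pow_right j).eq z)
        rw [h2, ((mem_prim_iff hb).1 hy).1]
      have h3 := hb.sl.f_Npow h1 i
      rw [cfL, ((mem_prim_iff hb).1 hy).2.2.1, map_zero, map_zero, zero_sub] at h3
      rw [h3, map_neg, map_smul, ← neg_smul]
      congr 1
      push_cast
      ring
    have l2 : S (f (d (g (d (Z x))))) ((N ^ (i + 1)) ((L ^ j) y)) =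
        ((i : K) + 1) * S x ((N ^ i) ((L ^ j) (d (g (d (Z y)))))) := by
      rw [h.af, l1, map_smul, smul_eq_mul, h.ad, h.ag, h.ad, hZ.adj.1]
      congr 2
      rw [hPN, cN, hZ.zd, hZ.zg, hZ.zd, cL, lb.PLp hy']
    -- the right side
    have r1 : (N ^ (i + 1)) (f (d (g (d (Z y))))) = f ((N ^ (i + 1)) (d (g (d (Z y))))) +
        ((i : K) + 1) • (N ^ i) (d (g (d (Z y)))) := by
      have h3 := hb.sl.f_Npow (hPat y hy).1.hs i
      rw [h3, map_sub, map_smul]
      have h4 : (N ^ i) (N (f (d (g (d (Z y)))))) = (N ^ (i + 1)) (f (d (g (d (Z y))))) := by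
        rw [pow_succ]; rfl
      have h5 : ((((i : ℤ) + 1) * (-(i : ℤ) + 1 + i) : ℤ) : K) = (i : K) + 1 := by
        push_cast; ring
      rw [h4, h5, sub_add_cancel]
    have r2 : S x ((N ^ (i + 1)) ((L ^ j) (f (d (g (d (Z y))))))) =
        ((i : K) + 1) * S x ((N ^ i) ((L ^ j) (d (g (d (Z y)))))) := by
      rw [cNL, r1, map_add, map_smul, ← cfL, map_add, ← h.af, ((mem_prim_iff hb).1 hx).2.2.1,
        map_zero, LinearMap.zero_apply, zero_add, map_smul, smul_eq_mul, cNL]
    rw [l2, r2]
  · -- square zero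
    have e1 : ((f * (d * g * d) * Z) ^ 2) x = (f * (d * g * d) * (f * (d * g * d))) (Z x) := by
      have c1 : ∀ x, Z (f (d (g (d x)))) = f (d (g (d (Z x)))) := by
        intro x
        rw [hZ.zf, hZ.zd, hZ.zg, hZ.zd]
      rw [pow_two]
      change f (d (g (d (Z (f (d (g (d (Z x))))))))) = f (d (g (d (f (d (g (d (Z x))))))))
      rw [c1, hZ.zz]
    rw [e1, fP_sq hb]
    have hl : lap f g d (Z x) = 0 :=
      gd_lap h hZ hG (hZ.prim h hx) (hZ.zz x)
    have c2 : lap f g d * (f * (d * g * d)) = f * (d * g * d) * lap f g d := by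
      have k1 : lap f g d * f = f * lap f g d := hb.lap_f
      have k2 : lap f g d * d = d * lap f g d := hb.lap_d
      have k3 : lap f g d * g = g * lap f g d := hb.lap_g
      calc lap f g d * (f * (d * g * d)) = (lap f g d * f) * (d * g * d) := by noncomm_ring
        _ = f * (lap f g d * d) * (g * d) := by rw [k1]; noncomm_ring
        _ = f * d * (lap f g d * g) * d := by rw [k2]; noncomm_ring
        _ = f * d * g * (lap f g d * d) := by rw [k3]; noncomm_ring
        _ = f * (d * g * d) * lap f g d := by rw [k2]; noncomm_ring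
    rw [c2, LinearMap.neg_apply, Module.End.mul_apply, hl, map_zero, neg_zero]

end har

end Pool.Agent.H62X
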