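import Pool.Agent.W_a3c811_h62w.Ab21

/-! Long words vanish on the kernel part of the Laplacian; the projectors onto the primitive
parts. -/

noncomputable section

set_option linter.unusedSectionVars false

namespace Pool.Agent.H62X

open Module Polynomial Pool.Agent.H79L

universe v w

variable {K : Type v} [Field K] [CharZero K] {E : Type w} [AddCommGroup E] [Module K E]
  [FiniteDimensional K E]
  {N f L g d : Module.End K E} {n : ℤ} {s t : ℤ → Module.End K E}
  {P D : Finset ℤ} {S : E →ₗ[K] E →ₗ[K] K} {B : Subring (Module.End K E)}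
  {Z : Module.End K E}

section words

/-- the anticommutators of the components -/
lemma cmp_acomm (hb : Bi N f L g d n s t P D) (i j : Fin 4) :
    cmp f g d i * cmp f g d j + cmp f g d j * cmp f g d i = 0 ∨
      cmp f g d i * cmp f g d j + cmp f g d j * cmp f g d i = lap f g d ∨
      cmp f g d i * cmp f g d j + cmp f g d j * cmp f g d i = -lap f g d := by
  obtain ⟨a01, a02, a11, a22, a33, a12, a13, a23⟩ := hb.rel
  have dd : d * d = 0 := hb.dd
  have e00 : d * d + d * d = 0 := by rw [dd, add_zero]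
  have e11 : br f d * br f d + br f d * br f d = 0 := by rw [a11, add_zero]
  have e22 : br g d * br g d + br g d * br g d = 0 := by rw [a22, add_zero]
  have e33 : br f (br g d) * br f (br g d) + br f (br g d) * br f (br g d) = 0 := by
    rw [a33, add_zero]
  have e03 : d * br f (br g d) + br f (br g d) * d = lap f g d := rfl
  have e30 : br f (br g d) * d + d * br f (br g d) = lap f g d := by rw [add_comm]; rfl
  have e10 : br f d * d + d * br f d = 0 := by rw [add_comm, a01]
  have e20 : br g d * d + d * br g d = 0 := by rw [add_comm, a02]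
  have e21 : br g d * br f d + br f d * br g d = -lap f g d := by rw [add_comm, a12]
  have e31 : br f (br g d) * br f d + br f d * br f (br g d) = 0 := by rw [add_comm, a13]
  have e32 : br f (br g d) * br g d + br g d * br f (br g d) = 0 := by rw [add_comm, a23]
  fin_cases i
  · fin_cases j
    · exact Or.inl e00
    · exact Or.inl a01
    · exact Or.inl a02
    · exact Or.inr (Or.inl e03)
  · fin_cases j
    · exact Or.inl e10
    · exact Or.inl e11
    · exact Or.inr (Or.inr a12)
    · exact Or.inl a13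
  · fin_cases j
    · exact Or.inl e20
    · exact Or.inr (Or.inr e21)
    · exact Or.inl e22
    · exact Or.inl a23
  · fin_cases j
    · exact Or.inr (Or.inl e30)
    · exact Or.inl e31
    · exact Or.inl e32
    · exact Or.inl e33

variable (h : Pol N f L g d n s t P D S B)
  (hZ : Har N f L g d s t S B Z)
include h hZ

lemma Har.zwd (l : List (Fin 4)) (x : E) :
    Z (H62W.wd (cmp f g d) l x) = H62W.wd (cmp f g d) l (Z x) := by
  induction l with
  | nil => rfl
  | cons i l ih =>
    rw [H62W.wd_cons, Module.End.mul_apply, Module.End.mul_apply,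
      app_comm (hZ.c_cmp h i), ih]

lemma Har.clap : Z * lap f g d = lap f g d * Z := by
  have h3 := hZ.c_cmp h 3
  have h3' : Z * br f (br g d) = br f (br g d) * Z := h3
  unfold lap
  rw [mul_add, add_mul]
  congr 1
  · rw [← mul_assoc, hZ.cd, mul_assoc, h3', ← mul_assoc]
  · rw [← mul_assoc, h3', mul_assoc, hZ.cd, ← mul_assoc]

/-- a component maps the image of the Laplacian to itself -/
lemma cmp_RR (i : Fin 4) {x : E} (hx : ∃ y, Z y = y ∧ x = lap f g d y) :
    ∃ y, Z y = y ∧ cmp f g d i x = lap f g d y := by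
  obtain ⟨y, hy, rfl⟩ := hx
  refine ⟨cmp f g d i y, ?_, ?_⟩
  · rw [app_comm (hZ.c_cmp h i), hy]
  · exact LinearMap.congr_fun (cmp_lap h.bi i) y

omit h hZ in
lemma RR_add {x x' : E} (hx : ∃ y, Z y = y ∧ x = lap f g d y)
    (hx' : ∃ y, Z y = y ∧ x' = lap f g d y) : ∃ y, Z y = y ∧ x + x' = lap f g d y := by
  obtain ⟨y, hy, rfl⟩ := hx
  obtain ⟨y', hy', rfl⟩ := hx'
  exact ⟨y + y', by rw [map_add, hy, hy'], by rw [map_add]⟩

omit h hZ in
lemma RR_neg {x : E} (hx : ∃ y, Z y = y ∧ x = lap f g d y) :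
    ∃ y, Z y = y ∧ -x = lap f g d y := by
  obtain ⟨y, hy, rfl⟩ := hx
  exact ⟨-y, by rw [map_neg, hy], by rw [map_neg]⟩

lemma kill_RR (l : List (Fin 4)) : ∀ i, i ∈ l → ∀ x, Z x = x →
    ∃ y, Z y = y ∧ cmp f g d i (H62W.wd (cmp f g d) l x) = lap f g d y := by
  induction l with
  | nil => intro i hi; simp at hi
  | cons j l ih =>
    intro i hi x hx
    rw [H62W.wd_cons, Module.End.mul_apply]
    by_cases hij : i = j
    · subst hij
      refine ⟨0, map_zero _, ?_⟩
      rw [map_zero, ← Module.End.mul_apply, cmp_sq h.bi, LinearMap.zero_apply]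
    · have h1 := ih i ((List.mem_cons.1 hi).resolve_left hij) x hx
      have h2 := RR_neg (cmp_RR h hZ j h1)
      set y := H62W.wd (cmp f g d) l x with hy
      have hzy : Z y = y := by rw [hy, hZ.zwd h, hx]
      have e1 : cmp f g d i (cmp f g d j y) =
          (cmp f g d i * cmp f g d j + cmp f g d j * cmp f g d i) y +
            -(cmp f g d j (cmp f g d i y)) := by
        rw [LinearMap.add_apply, Module.End.mul_apply, Module.End.mul_apply]
        abel
      rw [e1]
      refine RR_add ?_ h2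
      rcases cmp_acomm h.bi i j with h3 | h3 | h3
      · exact ⟨0, map_zero _, by rw [h3, map_zero, LinearMap.zero_apply]⟩
      · exact ⟨y, hzy, by rw [h3]⟩
      · exact ⟨-y, by rw [map_neg, hzy], by rw [h3, map_neg, LinearMap.neg_apply]⟩

lemma nodup_RR (l : List (Fin 4)) (hl : ¬ l.Nodup) (x : E) (hx : Z x = x) :
    ∃ y, Z y = y ∧ H62W.wd (cmp f g d) l x = lap f g d y := by
  induction l with
  | nil => exact absurd List.nodup_nil hl
  | cons i l ih =>
    rw [H62W.wd_cons, Module.End.mul_apply]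
    by_cases hi : i ∈ l
    · exact kill_RR h hZ l i hi x hx
    · have h2 : ¬ l.Nodup := fun h2 => hl (List.nodup_cons.2 ⟨hi, h2⟩)
      exact cmp_RR h hZ i (ih h2)

/-- words of length `5 m` have values in the image of the `m`-th power of the Laplacian -/
lemma words_RR (m : ℕ) : ∀ l : List (Fin 4), 5 * m ≤ l.length → ∀ x, Z x = x →
    ∃ y, Z y = y ∧ H62W.wd (cmp f g d) l x = (lap f g d ^ m) y := by
  induction m with
  | zero =>
    intro l _ x hx
    exact ⟨H62W.wd (cmp f g d) l x, by rw [hZ.zwd h, hx], rfl⟩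
  | succ m ih =>
    intro l hl x hx
    have e1 : l = l.take (l.length - 5) ++ l.drop (l.length - 5) :=
      (List.take_append_drop _ _).symm
    have e2 : H62W.wd (cmp f g d) l = H62W.wd (cmp f g d) (l.take (l.length - 5)) *
        H62W.wd (cmp f g d) (l.drop (l.length - 5)) := by
      conv_lhs => rw [e1]
      unfold H62W.wd
      rw [List.map_append, List.prod_append]
    have h5 : (l.drop (l.length - 5)).length = 5 := by rw [List.length_drop]; omega
    have hnd : ¬ (l.drop (l.length - 5)).Nodup := by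
      intro h1
      have := h1.length_le_card
      simp only [Fintype.card_fin] at this
      omega
    obtain ⟨y, hy, h6⟩ := nodup_RR h hZ _ hnd x hx
    obtain ⟨y', hy', h7⟩ := ih (l.take (l.length - 5)) (by rw [List.length_take]; omega) y hy
    refine ⟨y', hy', ?_⟩
    have cl : ∀ (l : List (Fin 4)) (y : E), H62W.wd (cmp f g d) l (lap f g d y) =
        lap f g d (H62W.wd (cmp f g d) l y) := by
      intro l y
      induction l with
      | nil => rfl
      | cons i l ih =>
        rw [H62W.wd_cons, Module.End.mul_apply, ih, Module.End.mul_apply,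
          app_comm (cmp_lap h.bi i)]
    rw [e2, Module.End.mul_apply, h6, cl, h7, pow_succ', Module.End.mul_apply]

/-- long words vanish -/
theorem words_nil : ∃ k : ℕ, ∀ l : List (Fin 4), k ≤ l.length → ∀ x, Z x = x →
    H62W.wd (cmp f g d) l x = 0 := by
  obtain ⟨M, hM⟩ := hZ.nil
  refine ⟨5 * M, fun l hl x hx => ?_⟩
  obtain ⟨y, hy, h1⟩ := words_RR h hZ M l hl x hx
  rw [h1, ← hy]
  exact LinearMap.congr_fun hM y

lemma Um_bot : ∃ k : ℕ, ∀ m, k ≤ m → ∀ x ∈ Um f g d (LinearMap.range Z) m, x = 0 := by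
  obtain ⟨k, hk⟩ := words_nil h hZ
  refine ⟨k, fun m hm x hx => ?_⟩
  refine Um_induction (p := fun x => x = (0 : E)) ?_ rfl ?_ hx
  · rintro l hl x ⟨y, rfl⟩
    exact hk l (by omega) _ (hZ.zz y)
  · rintro x y rfl rfl
    rw [add_zero]

lemma Um_Z {m : ℕ} {x : E} (hx : x ∈ Um f g d (LinearMap.range Z) m) : Z x = x := by
  refine Um_induction (p := fun x => Z x = x) ?_ (map_zero _) ?_ hx
  · rintro l hl x ⟨y, rfl⟩
    rw [hZ.zwd h, hZ.zz]
  · intro x y h1 h2
    rw [map_add, h1, h2]

lemma stab_range : Stab N f L g s t (LinearMap.range Z) := by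
  have key : ∀ T : Module.End K E, Z * T = T * Z → ∀ x ∈ LinearMap.range Z,
      T x ∈ LinearMap.range Z := by
    rintro T hT x ⟨y, rfl⟩
    exact ⟨T y, LinearMap.congr_fun hT y⟩
  exact stab_of_gen (fun b => key _ (hZ.cg b)) (fun p => key _ (hZ.cs p))
    (fun w => key _ (hZ.ct w))

end words

section proj

lemma aeval_semi {a b u : Module.End K E} (hu : a * u = u * b) (q : K[X]) :
    aeval a q * u = u * aeval b q := by
  induction q using Polynomial.induction_on' with
  | add p q hp hq => rw [map_add, map_add, add_mul, mul_add, hp, hq]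
  | monomial m c =>
    rw [aeval_monomial, aeval_monomial]
    have h1 : a ^ m * u = u * b ^ m := by
      induction m with
      | zero => simp
      | succ m ih => rw [pow_succ, mul_assoc, hu, ← mul_assoc, ih, mul_assoc, ← pow_succ]
    have h2 : algebraMap K (Module.End K E) c * u = u * algebraMap K (Module.End K E) c :=
      Algebra.commutes c u
    rw [mul_assoc, h1, ← mul_assoc, h2, mul_assoc]

lemma aeval_stab {T : Module.End K E} {U : Submodule K E} (hT : ∀ x ∈ U, T x ∈ U) (q : K[X]) :
    ∀ x ∈ U, aeval T q x ∈ U := by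
  induction q using Polynomial.induction_on' with
  | add p q hp hq =>
    intro x hx
    rw [map_add, LinearMap.add_apply]
    exact U.add_mem (hp x hx) (hq x hx)
  | monomial m c =>
    intro x hx
    have h1 : ∀ k : ℕ, (T ^ k) x ∈ U := by
      intro k
      induction k with
      | zero => exact hx
      | succ k ih =>
        rw [pow_succ', Module.End.mul_apply]
        exact hT _ ih
    rw [aeval_monomial]
    exact U.smul_mem c (h1 m)

/-- The projector onto the primitive part `(i, j)`. -/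
theorem exists_q (h : Pol N f L g d n s t P D S B)
    (hB : ∀ (r : ℚ), ∀ u ∈ B, (r : K) • u ∈ B) (i j : ℕ) :
    ∃ q ∈ B, (∀ x, q x ∈ prim f g n s t i j) ∧ (∀ x ∈ prim f g n s t i j, q x = x) ∧
      (∀ U, Stab N f L g s t U → ∀ x ∈ U, q x ∈ U) ∧ (∀ x, q (N x) = 0) ∧ ∀ x, q (L x) = 0 := by
  have hb := h.bi
  obtain ⟨Q1, h1, h1'⟩ := sl_exists_proj hb.sl i
  obtain ⟨Q2, h2, h2'⟩ := sl_exists_proj hb.sl2 j
  set q1 := aeval (N * f) (Q1.map (algebraMap ℚ K)) with hq1
  set q2 := aeval (L * g) (Q2.map (algebraMap ℚ K)) with hq2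
  -- commutations
  have c1 : ∀ {T : Module.End K E}, T * N = N * T → T * f = f * T → q1 * T = T * q1 := by
    intro T hN hf
    exact aeval_semi (by rw [mul_assoc, ← hf, ← mul_assoc, ← hN, mul_assoc]) _
  have c2 : ∀ {T : Module.End K E}, T * L = L * T → T * g = g * T → q2 * T = T * q2 := by
    intro T hN hf
    exact aeval_semi (by rw [mul_assoc, ← hf, ← mul_assoc, ← hN, mul_assoc]) _
  have c1L : q1 * L = L * q1 := c1 hb.NL.symm hb.fL.symm
  have c1g : q1 * g = g * q1 := c1 hb.Ng.symm hb.fg.symm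
  have c2N : q2 * N = N * q2 := c2 hb.NL hb.Ng
  have c2f : q2 * f = f * q2 := c2 hb.fL hb.fg
  have c1s : ∀ p, q1 * s p = s p * q1 := by
    intro p
    refine aeval_semi ?_ _
    rw [mul_assoc, hb.sl.fs, ← mul_assoc, hb.sl.Ns, sub_add_cancel, mul_assoc]
  have c2t : ∀ w, q2 * t w = t w * q2 := by
    intro w
    refine aeval_semi ?_ _
    rw [mul_assoc, hb.gt, ← mul_assoc, hb.Lt, sub_add_cancel, mul_assoc]
  have c1t : ∀ w, q1 * t w = t w * q1 := fun w => c1 (hb.Nt w).symm (hb.ft w).symm
  have c2s : ∀ p, q2 * s p = s p * q2 := fun p => c2 (hb.Ls p).symm (hb.gs p).symm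
  have hF : ∀ x, f (q1 (s (-(i : ℤ)) x)) = 0 := h1
  have hG : ∀ x, g (q2 (t (n - j) x)) = 0 := by
    intro x
    have := h2 x
    change g (q2 (t (-(j : ℤ) + n) x)) = 0 at this
    rwa [show -(j : ℤ) + n = n - j by ring] at this
  have h2i : ∀ x, g x = 0 → q2 x = x := h2'
  have h1i : ∀ x, f x = 0 → q1 x = x := h1'
  have ap : ∀ x, (q1 * s (-(i : ℤ)) * (q2 * t (n - j))) x =
      q1 (s (-(i : ℤ)) (q2 (t (n - j) x))) := fun x => rfl
  refine ⟨q1 * s (-(i : ℤ)) * (q2 * t (n - j)), ?_, ?_, ?_, ?_, ?_, ?_⟩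
  · exact mul_mem (mul_mem (aeval_mem_rat hB (mul_mem h.mN h.mf) _) (h.ms _))
      (mul_mem (aeval_mem_rat hB (mul_mem h.mL h.mg) _) (h.mt _))
  · intro x
    rw [mem_prim_iff hb, ap]
    refine ⟨?_, ?_, hF _, ?_⟩
    · have e1 : s (-(i : ℤ)) (s (-(i : ℤ)) (q2 (t (n - j) x))) =
          s (-(i : ℤ)) (q2 (t (n - j) x)) := LinearMap.congr_fun (hb.sl.idem _) _
      rw [← app_comm (c1s _), e1]
    · have e1 : t (n - j) (s (-(i : ℤ)) (q2 (t (n - j) x))) =
          s (-(i : ℤ)) (t (n - j) (q2 (t (n - j) x))) :=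
        (LinearMap.congr_fun (hb.st _ _) _).symm
      have e2 : t (n - j) (q2 (t (n - j) x)) = q2 (t (n - j) (t (n - j) x)) :=
        (app_comm (c2t _) _).symm
      have e3 : t (n - j) (t (n - j) x) = t (n - j) x := LinearMap.congr_fun (hb.idemt _) _
      rw [← app_comm (c1t _), e1, e2, e3]
    · have e1 : g (s (-(i : ℤ)) (q2 (t (n - j) x))) = s (-(i : ℤ)) (g (q2 (t (n - j) x))) :=
        LinearMap.congr_fun (hb.gs _) _
      rw [← app_comm c1g, e1, hG, map_zero, map_zero]
  · intro x hx
    obtain ⟨k1, k2, k3, k4⟩ := (mem_prim_iff hb).1 hx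
    rw [ap, k2, h2i x k4, k1, h1i x k3]
  · intro U hU x hx
    rw [ap]
    refine aeval_stab (T := N * f) (U := U) (fun x hx => hU.N _ (hU.f _ hx)) _ _ (hU.s _ _ ?_)
    exact aeval_stab (T := L * g) (U := U) (fun x hx => hU.L _ (hU.g _ hx)) _ _ (hU.t _ _ hx)
  · intro x
    rw [ap]
    have e1 : t (n - j) (N x) = N (t (n - j) x) := (LinearMap.congr_fun (hb.Nt _) _).symm
    rw [e1, app_comm c2N]
    generalize q2 (t (n - j) x) = y
    have e2 : s (-(i : ℤ)) (N y) = N (s (-(i : ℤ) - 2) y) := by
      have := LinearMap.congr_fun (hb.sl.Ns (-(i : ℤ) - 2)) y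
      rw [sub_add_cancel] at this
      exact this.symm
    have e3 : q1 (N (s (-(i : ℤ) - 2) y)) =
        N (aeval (f * N) (Q1.map (algebraMap ℚ K)) (s (-(i : ℤ) - 2) y)) :=
      LinearMap.congr_fun (aeval_semi (a := N * f) (b := f * N) (u := N)
        (by rw [mul_assoc]) (Q1.map (algebraMap ℚ K))) _
    rw [e2, e3]
    refine hb.sl.ker_f _ ?_
    rw [← e3, ← e2]
    exact hF _
  · intro x
    rw [ap]
    have e2 : t (n - j) (L x) = L (t (n - j - 2) x) := by
      have := LinearMap.congr_fun (hb.Lt (n - j - 2)) x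
      rw [sub_add_cancel] at this
      exact this.symm
    have e3 : q2 (L (t (n - j - 2) x)) =
        L (aeval (g * L) (Q2.map (algebraMap ℚ K)) (t (n - j - 2) x)) :=
      LinearMap.congr_fun (aeval_semi (a := L * g) (b := g * L) (u := L)
        (by rw [mul_assoc]) (Q2.map (algebraMap ℚ K))) _
    have e4 : q2 (t (n - j) (L x)) = 0 := by
      rw [e2, e3]
      refine hb.sl2.ker_f _ ?_
      rw [← e3, ← e2]
      exact hG _
    rw [e4, map_zero, map_zero]

end proj

end Pool.Agent.H62X
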