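import Pool.Agent.W_a3c811_h62w.Ab22
import Pool.Agent.W_a3c811_h62w.Ab23

/-! The differential vanishes on the highest level. -/

noncomputable section

set_option linter.unusedSectionVars false

namespace Pool.Agent.H62X

open Module Polynomial Pool.Agent.H79L

universe v w

variable {K : Type v} [Field K] [CharZero K] {E : Type w} [AddCommGroup E] [Module K E]

/-- induction over the weights -/
lemma Lb.ind {f L g d : Module.End K E} {H : ℤ → ℤ → Submodule K E} (h : Lb f L g d H) {p : ℤ}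
    {j0 : ℕ} (C : E → Prop) (hadd : ∀ x y, C x → C y → C (x + y)) (h0 : C 0)
    (hL : ∀ w x, x ∈ H p w → C x → C (L x))
    (hlow : ∀ m : ℕ, j0 ≤ m → ∀ x ∈ H p (-(m : ℤ)), g x = 0 → C x) :
    ∀ m : ℕ, j0 ≤ m → ∀ x ∈ H p (-(m : ℤ)), C x := by
  obtain ⟨b0, hb0⟩ := h.low
  have key : ∀ a m : ℕ, -(m : ℤ) < b0 + a → j0 ≤ m → ∀ x ∈ H p (-(m : ℤ)), C x := by
    intro a
    induction a with
    | zero =>
      intro m hm _ x hx
      rw [hb0 _ _ (by simpa using hm) x hx]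
      exact h0
    | succ a ih =>
      intro m hm hjm x hx
      obtain ⟨x0, hx0, x1, hx1, hgx0, rfl⟩ := h.dec _ _ _ hx
      have e2 : -(m : ℤ) - 2 = -((m + 2 : ℕ) : ℤ) := by push_cast; ring
      rw [e2] at hx1
      exact hadd _ _ (hlow m hjm x0 hx0 hgx0)
        (hL _ _ hx1 (ih (m + 2) (by push_cast at hm ⊢; omega) (by omega) x1 hx1))
  intro m hm x hx
  exact key (-(m : ℤ) - b0 + 1).toNat m (by omega) hm x hx

variable [FiniteDimensional K E]
  {N f L g d : Module.End K E} {n : ℤ} {s t : ℤ → Module.End K E}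
  {P D : Finset ℤ} {S : E →ₗ[K] E →ₗ[K] K} {B : Subring (Module.End K E)}
  {Z : Module.End K E}

/-- `f` commutes with `N ^ i` on the position `-i + 1` -/
lemma f_Npow_comm {s : ℤ → Module.End K E} {P : Finset ℤ} (sl : Sl N f s P) {i : ℕ} {z : E}
    (hz : s (-(i : ℤ) + 1) z = z) : f ((N ^ i) z) = (N ^ i) (f z) := by
  cases i with
  | zero => rfl
  | succ m =>
    have h1 := sl.f_Npow hz m
    have h2 : ((((m : ℤ) + 1) * (-((m + 1 : ℕ) : ℤ) + 1 + m) : ℤ) : K) = 0 := by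
      push_cast; ring
    rw [h1, h2, zero_smul, sub_zero, pow_succ]
    rfl

variable (h : Pol N f L g d n s t P D S B)
  (hZ : Har N f L g d s t S B Z)
include h hZ

/-- the double Lefschetz decomposition -/
lemma dec2 {i j : ℕ} {z : E} (hz : z ∈ Hs s t n Z (-(i : ℤ)) (-(j : ℤ))) :
    ∃ z0 ∈ prim f g n s t i j, Z z0 = z0 ∧ ∃ a b, z = z0 + N a + L b := by
  have lb := lbL h hZ
  have ln := lbN h hZ
  obtain ⟨z1, hz1, b, hb, hg1, rfl⟩ := lb.dec _ _ _ hz
  obtain ⟨z0, hz0, a, ha, hf0, rfl⟩ := ln.dec (-(j : ℤ)) i z1 hz1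
  have h1 : f (N (g a)) = 0 := by
    have h2 := congrArg f hg1
    rw [map_add, map_add, lb.fg z0, hf0, map_zero, map_zero, zero_add] at h2
    have h3 : g (N a) = N (g a) := (LinearMap.congr_fun h.bi.Ng a).symm
    rwa [h3] at h2
  have h2 : g a = 0 := ln.gL _ _ (by omega) _ (Hs.hg h hZ ha) h1
  have h3 : g z0 = 0 := by
    have h3 : g (N a) = N (g a) := (LinearMap.congr_fun h.bi.Ng a).symm
    rwa [map_add, h3, h2, map_zero, add_zero] at hg1
  exact ⟨z0, prim_of h.bi hz0.1 hf0 h3, hz0.2, a, b, rfl⟩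

/-- the two-step operators vanish on the good primitive parts -/
theorem gd_A {i j : ℕ} (hG : Gd N f L g d n s t S B i j) {q : Module.End K E} (hqB : q ∈ B)
    (hq1 : ∀ x, q x ∈ prim f g n s t i j) (hq2 : ∀ x ∈ prim f g n s t i j, q x = x)
    (hq3 : ∀ U, Stab N f L g s t U → ∀ x ∈ U, q x ∈ U) (hq4 : ∀ x, q (N x) = 0)
    (hq5 : ∀ x, q (L x) = 0) {x : E} (hx : x ∈ prim f g n s t i j) (hzx : Z x = x) :
    q (d (f (g (d x)))) = 0 := by
  have hb := h.bi
  have lb := lbL h hZ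
  have app : ∀ x, (q * (d * f * g * d) * Z) x = q (d (f (g (d (Z x))))) := fun x => rfl
  have hZat : ∀ x ∈ prim f g n s t i j, Z x ∈ Hs s t n Z (-(i : ℤ)) (-(j : ℤ)) := fun x hx =>
    Hs.z_at h hZ (prim_at hb hx)
  have hv : ∀ x ∈ prim f g n s t i j, d (f (g (d (Z x)))) ∈ Hs s t n Z (-(i : ℤ)) (-(j : ℤ)) := by
    intro x hx
    have := Hs.hd h hZ (Hs.hf h hZ (Hs.hg h hZ (Hs.hd h hZ (hZat x hx))))
    rwa [show -(i : ℤ) + 1 - 2 + 1 = -(i : ℤ) by ring, show -(j : ℤ) + 1 - 2 + 1 = -(j : ℤ) by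
      ring] at this
  have aN : ∀ (m : ℕ) x y, S ((N ^ m) x) y = S x ((N ^ m) y) := fun m => (h.adjN.pow m).1
  have aL : ∀ (m : ℕ) x y, S ((L ^ m) x) y = S x ((L ^ m) y) := fun m => (h.adjL.pow m).1
  have cNL : ∀ (m k : ℕ) z, (N ^ m) ((L ^ k) z) = (L ^ k) ((N ^ m) z) := fun m k z =>
    LinearMap.congr_fun ((show Commute N L from hb.NL).pow_pow m k).eq z
  -- powers kill the primitive vectors
  have kN : ∀ y ∈ prim f g n s t i j, (N ^ (i + 1)) y = 0 := fun y hy =>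
    Npow_kill hb.sl ((mem_prim_iff hb).1 hy).1 ((mem_prim_iff hb).1 hy).2.2.1
  have kL : ∀ y ∈ prim f g n s t i j, (L ^ (j + 1)) y = 0 := fun y hy =>
    Npow_kill hb.sl2 (prim_at hb hy).ht ((mem_prim_iff hb).1 hy).2.2.2
  -- pairing with `q v`
  have pr1 : ∀ v ∈ Hs s t n Z (-(i : ℤ)) (-(j : ℤ)), ∀ y ∈ prim f g n s t i j,
      S (q v) ((N ^ i) ((L ^ j) y)) = S v ((N ^ i) ((L ^ j) y)) := by
    intro v hv y hy
    obtain ⟨z0, hz0, -, a, b, rfl⟩ := dec2 h hZ hv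
    rw [map_add q, map_add q, hq4, hq5, add_zero, add_zero, hq2 z0 hz0]
    have e1 : S (N a) ((N ^ i) ((L ^ j) y)) = 0 := by
      rw [h.aN, ← Module.End.mul_apply N, ← pow_succ', cNL, kN y hy, map_zero, map_zero]
    have e2 : S (L b) ((N ^ i) ((L ^ j) y)) = 0 := by
      have e3 : L ((N ^ i) ((L ^ j) y)) = (N ^ i) ((L ^ (j + 1)) y) := by
        rw [cNL, ← Module.End.mul_apply L, ← pow_succ', cNL]
      rw [h.aL, e3, kL y hy, map_zero, map_zero]
    rw [map_add, map_add, LinearMap.add_apply, LinearMap.add_apply, e1, e2, add_zero, add_zero]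
  have pr2 : ∀ v ∈ Hs s t n Z (-(i : ℤ)) (-(j : ℤ)), ∀ y ∈ prim f g n s t i j,
      S y ((N ^ i) ((L ^ j) (q v))) = S y ((N ^ i) ((L ^ j) v)) := by
    intro v hv y hy
    obtain ⟨z0, hz0, -, a, b, rfl⟩ := dec2 h hZ hv
    rw [map_add q, map_add q, hq4, hq5, add_zero, add_zero, hq2 z0 hz0]
    have e1 : S y ((N ^ i) ((L ^ j) (N a))) = 0 := by
      have e3 : (N ^ i) ((L ^ j) (N a)) = (N ^ (i + 1)) ((L ^ j) a) := by
        have e4 : (L ^ j) (N a) = N ((L ^ j) a) := by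
          have := cNL 1 j a
          rw [pow_one] at this
          exact this.symm
        rw [e4, pow_succ]
        rfl
      rw [e3, ← aN, kN y hy, map_zero, LinearMap.zero_apply]
    have e2 : S y ((N ^ i) ((L ^ j) (L b))) = 0 := by
      have e3 : (L ^ j) (L b) = (L ^ (j + 1)) b := by rw [pow_succ]; rfl
      rw [e3, cNL, ← aL, kL y hy, map_zero, LinearMap.zero_apply]
    rw [map_add, map_add, map_add, map_add, map_add, map_add, e1, e2, add_zero, add_zero]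
  obtain ⟨k0, hk0⟩ := Um_bot h hZ
  have key := hG.nil (u := q * (d * f * g * d) * Z)
    (mul_mem (mul_mem hqB (mul_mem (mul_mem (mul_mem h.md h.mf) h.mg) h.md)) hZ.mem)
    (fun x => ?_) (fun x hx => ?_) (fun x hx y hy => ?_) (k0 + 1) (fun x hx => ?_) x hx
  · rwa [app, hzx] at key
  · rw [app]
    exact hq3 _ (stab_radS hb) _ (cmp_mem_radS (f := f) (g := g) (d := d) 0 _)
  · rw [app]
    exact hq1 _
  · -- self-adjointness
    rw [app, app, pr1 _ (hv x hx) y hy, pr2 _ (hv y hy) x hx]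
    have cN : ∀ (m : ℕ) z, Z ((N ^ m) z) = (N ^ m) (Z z) := fun m z =>
      LinearMap.congr_fun ((show Commute Z N from hZ.mN).pow_right m).eq z
    have cL : ∀ (m : ℕ) z, Z ((L ^ m) z) = (L ^ m) (Z z) := fun m z =>
      LinearMap.congr_fun ((show Commute Z L from hZ.mL).pow_right m).eq z
    have cgN : ∀ (m : ℕ) z, g ((N ^ m) z) = (N ^ m) (g z) := fun m z =>
      LinearMap.congr_fun ((show Commute g N from hb.Ng.symm).pow_right m).eq z
    have cdN : ∀ (m : ℕ) z, d ((N ^ m) z) = (N ^ m) (d z) := fun m z =>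
      LinearMap.congr_fun ((show Commute d N from hb.Nd.symm).pow_right m).eq z
    have cdL : ∀ (m : ℕ) z, d ((L ^ m) z) = (L ^ m) (d z) := fun m z =>
      LinearMap.congr_fun ((show Commute d L from hb.Ld.symm).pow_right m).eq z
    have hdy := Hs.hd h hZ (hZat y hy)
    have sL : ∀ (m : ℕ) {p : ℤ} {z : E}, s p z = z → s p ((L ^ m) z) = (L ^ m) z := by
      intro m p z hz
      have := LinearMap.congr_fun ((show Commute (s p) L from (hb.Ls p).symm).pow_right m).eq z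
      rw [Module.End.mul_apply, Module.End.mul_apply, hz] at this
      exact this
    have e1 : f ((N ^ i) ((L ^ j) (d (Z y)))) = (N ^ i) ((L ^ j) (f (d (Z y)))) := by
      rw [f_Npow_comm hb.sl (sL j hdy.1.hs)]
      congr 1
      exact LinearMap.congr_fun ((show Commute f L from hb.fL).pow_right j).eq _
    have e2 : g ((L ^ j) (f (d (Z y)))) = (L ^ j) (g (f (d (Z y)))) := by
      refine f_Npow_comm hb.sl2 ?_
      have := (Hs.hf h hZ hdy).1.ht
      exact this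
    rw [h.ad, h.af, h.ag, h.ad, hZ.adj.1, cdN, cdL, ← lb.fg]
    have e3 : Z (d (f (g ((N ^ i) ((L ^ j) (d y)))))) =
        d (g (f ((N ^ i) ((L ^ j) (d (Z y)))))) := by
      rw [hZ.zd, hZ.zf, hZ.zg, cN, cL, hZ.zd, lb.fg]
    rw [e3, e1, cgN, e2, cdN, cdL, lb.fg]
  · -- nilpotency
    have hst : ∀ m, Stab N f L g s t (Um f g d (LinearMap.range Z) m) := fun m =>
      stab_Um h (stab_range h hZ) m
    have step : ∀ m, ∀ x ∈ Um f g d (LinearMap.range Z) m,
        (q * (d * f * g * d) * Z) x ∈ Um f g d (LinearMap.range Z) (m + 2) := by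
      intro m x hx
      rw [app, Um_Z h hZ hx]
      exact hq3 _ (hst _) _ (cmp_Um 0 ((hst _).f _ ((hst _).g _ (cmp_Um 0 hx))))
    have pw : ∀ m, ∀ x ∈ Um f g d (LinearMap.range Z) 0,
        ((q * (d * f * g * d) * Z) ^ m) x ∈ Um f g d (LinearMap.range Z) (2 * m) := by
      intro m
      induction m with
      | zero => intro x hx; exact hx
      | succ m ih =>
        intro x hx
        rw [pow_succ', Module.End.mul_apply]
        exact step _ _ (ih x hx)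
    have h0 : Z x ∈ Um f g d (LinearMap.range Z) 0 :=
      Um_mem (f := f) (g := g) (d := d) (l := []) ⟨x, rfl⟩
    have e1 : ((q * (d * f * g * d) * Z) ^ (k0 + 1)) x =
        ((q * (d * f * g * d) * Z) ^ (k0 + 1)) (Z x) := by
      have : (q * (d * f * g * d) * Z) * Z = q * (d * f * g * d) * Z := by
        rw [mul_assoc, hZ.idem]
      rw [pow_succ, Module.End.mul_apply, Module.End.mul_apply]
      exact congrArg _ (LinearMap.congr_fun this x).symm
    rw [e1]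
    exact hk0 _ (by omega) _ (pw _ _ h0)

/-- The differential vanishes on the good primitive parts of the highest level. -/
theorem row (hB : ∀ (r : ℚ), ∀ u ∈ B, (r : K) • u ∈ B)
    (hL : ∀ (p : ℤ) (m : ℕ), EI (L ^ m) d s t n p (-(m : ℤ)) p m) {r j0 : ℕ} (hr : 1 ≤ r)
    (htop : ∀ p : ℤ, p < -(r : ℤ) → ∀ w, ∀ x ∈ Hs s t n Z p w, x = 0)
    (g1 : ∀ j, j0 ≤ j → Gd N f L g d n s t S B r j)
    (g2 : 2 ≤ r → ∀ j, j0 + 1 ≤ j → Gd N f L g d n s t S B (r - 1) j)
    (g3 : 3 ≤ r → ∀ j, j0 ≤ j → Gd N f L g d n s t S B (r - 2) j) :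
    ∀ m : ℕ, j0 ≤ m → ∀ x ∈ Hs s t n Z (-(r : ℤ)) (-(m : ℤ)), d x = 0 := by
  have hb := h.bi
  have lc := lcL h hZ hL
  have ln := lbN h hZ
  have hf0 : ∀ w, ∀ x ∈ Hs s t n Z (-(r : ℤ)) w, f x = 0 := fun w x hx =>
    htop _ (by omega) _ _ (Hs.hf h hZ hx)
  have hf1 : ∀ w, ∀ x ∈ Hs s t n Z (-(r : ℤ) + 1) w, f x = 0 := fun w x hx =>
    htop _ (by omega) _ _ (Hs.hf h hZ hx)
  have hbig : ∀ p : ℤ, (r : ℤ) < p → ∀ w, ∀ x ∈ Hs s t n Z p w, x = 0 := by
    intro p hp w x hx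
    obtain ⟨k, rfl⟩ := Int.eq_ofNat_of_zero_le (show 0 ≤ p by omega)
    obtain ⟨y, hy, rfl⟩ := ln.sur w k x hx
    rw [htop _ (by omega) _ _ hy, map_zero]
  -- `f P = 0` on the two highest levels
  have P0 : ∀ m : ℕ, j0 ≤ m → ∀ x ∈ Hs s t n Z (-(r : ℤ)) (-(m : ℤ)),
      f (d (g (d x))) = 0 := by
    refine lc.toLb.ind (fun x => f (d (g (d x))) = 0) (fun x y hx hy => ?_) (by simp)
      (fun w x hx hC => ?_) fun m hm x hx hgx => ?_
    · rw [map_add, map_add, map_add, map_add, hx, hy, add_zero]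
    · rw [lc.PL hx, lc.fL, hC, map_zero]
    · obtain ⟨i, rfl⟩ : ∃ i, r = i + 1 := ⟨r - 1, by omega⟩
      exact gd_fP h hZ (g1 m hm) (fun w x hx => htop _ (by omega) _ _ hx)
        (prim_of hb hx.1 (hf0 _ _ hx) hgx) hx.2
  have P1 : 2 ≤ r → ∀ m : ℕ, j0 + 1 ≤ m → ∀ x ∈ Hs s t n Z (-(r : ℤ) + 1) (-(m : ℤ)),
      f (d (g (d x))) = 0 := by
    intro hr2
    refine lc.toLb.ind (fun x => f (d (g (d x))) = 0) (fun x y hx hy => ?_) (by simp)
      (fun w x hx hC => ?_) fun m hm x hx hgx => ?_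
    · rw [map_add, map_add, map_add, map_add, hx, hy, add_zero]
    · rw [lc.PL hx, lc.fL, hC, map_zero]
    · obtain ⟨i, rfl⟩ : ∃ i, r = i + 2 := ⟨r - 2, by omega⟩
      have hx' := hx.1
      rw [show -((i + 2 : ℕ) : ℤ) + 1 = -((i + 1 : ℕ) : ℤ) by push_cast; ring] at hx'
      exact gd_fP h hZ (g2 hr2 m hm) (fun w x hx => htop _ (by push_cast; omega) _ _ hx)
        (prim_of hb hx' (hf1 _ _ hx) hgx) hx.2
  have D1 := lc.d1 P0
  have H1 := lc.h1 (q := -(r : ℤ)) (fun w x hx => htop _ (by omega) _ _ hx)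
  refine lc.toLb.ind (fun x => d x = 0) (fun x y hx hy => by rw [map_add, hx, hy, add_zero])
    (map_zero _) (fun w x _ hC => by rw [← lc.Ld, hC, map_zero]) fun m hm x hx hgx => ?_
  refine H1 _ x hx ?_
  have hv : d (g (d x)) ∈ Hs s t n Z (-(r : ℤ) + 1 + 1) (-(m : ℤ)) := by
    have := Hs.hd h hZ (Hs.hg h hZ (Hs.hd h hZ hx))
    rwa [show -(m : ℤ) + 1 - 2 + 1 = -(m : ℤ) by ring] at this
  have hfv := P0 m hm x hx
  have hgv : g (d (g (d x))) = 0 := by rw [← lc.Pg, hgx, map_zero, map_zero, map_zero]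
  rcases Nat.lt_or_ge r 2 with hr2 | hr2
  · obtain rfl : r = 1 := by omega
    exact ln.gne _ _ (by norm_num) _ hv hfv
  obtain ⟨i, rfl⟩ : ∃ i, r = i + 2 := ⟨r - 2, by omega⟩
  rw [show -((i + 2 : ℕ) : ℤ) + 1 + 1 = -(i : ℤ) by push_cast; ring] at hv
  refine nd_prim h (prim_of hb hv.1 hfv hgv) fun y hy => ?_
  -- reduce to `Z y`
  have cN : ∀ (m : ℕ) z, Z ((N ^ m) z) = (N ^ m) (Z z) := fun m z =>
    LinearMap.congr_fun ((show Commute Z N from hZ.mN).pow_right m).eq z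
  have cL : ∀ (m : ℕ) z, Z ((L ^ m) z) = (L ^ m) (Z z) := fun m z =>
    LinearMap.congr_fun ((show Commute Z L from hZ.mL).pow_right m).eq z
  have cNL : ∀ (m k : ℕ) z, (N ^ m) ((L ^ k) z) = (L ^ k) ((N ^ m) z) := fun m k z =>
    LinearMap.congr_fun ((show Commute N L from hb.NL).pow_pow m k).eq z
  have cdN : ∀ (m : ℕ) z, d ((N ^ m) z) = (N ^ m) (d z) := fun m z =>
    LinearMap.congr_fun ((show Commute d N from hb.Nd.symm).pow_right m).eq z
  have hPN : ∀ (m : ℕ) z, d (g (d ((N ^ m) z))) = (N ^ m) (d (g (d z))) := by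
    intro m z
    have := ((show Commute (d * g * d) N from P_comm_N hb).pow_right m).eq
    exact LinearMap.congr_fun this z
  have hyp := hZ.prim h hy
  have hyZ := Hs.z_at h hZ (prim_at hb hy)
  have e1 : S (d (g (d x))) ((N ^ i) ((L ^ m) y)) =
      S (d (g (d x))) ((N ^ i) ((L ^ m) (Z y))) := by
    rw [← cL, ← cN, ← hZ.adj.1, hv.2]
  rw [e1, h.ad, h.ag, h.ad, hPN, lc.PLp hyZ, cNL]
  have hgy : g (Z y) = 0 := ((mem_prim_iff hb).1 hyp).2.2.2
  have hfy : f (Z y) = 0 := ((mem_prim_iff hb).1 hyp).2.2.1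
  generalize hy' : Z y = y' at hyZ hgy hfy hyp
  have hzy' : Z y' = y' := hyZ.2
  suffices hNP : (N ^ i) (d (g (d y'))) = 0 by rw [hNP, map_zero, map_zero]
  -- the vector `b`
  have hz : g (d y') ∈ Hs s t n Z (-(i : ℤ) + 1) (-((m + 1 : ℕ) : ℤ)) := by
    have := Hs.hg h hZ (Hs.hd h hZ hyZ)
    rwa [show -(m : ℤ) + 1 - 2 = -((m + 1 : ℕ) : ℤ) by push_cast; ring] at this
  have hbm : f (g (d y')) ∈ Hs s t n Z (-((i + 2 : ℕ) : ℤ) + 1) (-((m + 1 : ℕ) : ℤ)) := by
    have := Hs.hf h hZ hz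
    rwa [show -(i : ℤ) + 1 - 2 = -((i + 2 : ℕ) : ℤ) + 1 by push_cast; ring] at this
  have hgb : g (f (g (d y'))) = 0 := by
    rw [← lc.fg, lc.ggd, hgy, map_zero, map_zero, map_zero, smul_zero, sub_zero, map_zero]
  have hPb : d (g (d (f (g (d y'))))) = 0 := by
    have hfPb := P1 hr2 (m + 1) (by omega) _ hbm
    have hPbm := Hs.hd h hZ (Hs.hg h hZ (Hs.hd h hZ hbm))
    rcases Nat.eq_zero_or_pos i with rfl | hi
    · exact ln.gne _ _ (by norm_num) _ hPbm hfPb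
    · obtain ⟨q, hqB, hq1, hq2, hq3, hq4, hq5⟩ := exists_q h hB i m
      have hA := gd_A h hZ (g3 (by omega) m hm) hqB hq1 hq2 hq3 hq4 hq5 hyp hzy'
      obtain ⟨-, -, z0, hz0, hgz0, -, hdb⟩ := lc.splitd hbm hgb
      rw [show -((i + 2 : ℕ) : ℤ) + 1 + 1 = -(i : ℤ) by push_cast; ring,
        show -((m + 1 : ℕ) : ℤ) + 1 = -(m : ℤ) by push_cast; ring] at hz0
      have hqz : q z0 = 0 := by
        rw [hdb, map_add, map_smul, hq5, smul_zero, add_zero] at hA
        exact hA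
      obtain ⟨A0, hA0, A1, hA1, hfA0, rfl⟩ := ln.dec (-(m : ℤ)) i z0 hz0
      have h1 : f (N (g A1)) = 0 := by
        have h2 := congrArg f hgz0
        rw [map_add, map_add, lc.fg A0, hfA0, map_zero, map_zero, zero_add] at h2
        have h3 : g (N A1) = N (g A1) := (LinearMap.congr_fun hb.Ng A1).symm
        rwa [h3] at h2
      have h2 : g A1 = 0 := ln.gL _ _ (by omega) _ (Hs.hg h hZ hA1) h1
      have h3 : g A0 = 0 := by
        have h3 : g (N A1) = N (g A1) := (LinearMap.congr_fun hb.Ng A1).symm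
        rwa [map_add, h3, h2, map_zero, add_zero] at hgz0
      have hA00 : A0 = 0 := by
        rw [map_add, hq4, add_zero, hq2 A0 (prim_of hb hA0.1 hfA0 h3)] at hqz
        exact hqz
      rw [hA00, zero_add] at hdb
      have hdd := congrArg d hdb
      rw [lc.dd, map_add, map_smul, ← lc.Ld] at hdd
      have hNd : d (N A1) = N (d A1) := (LinearMap.congr_fun hb.Nd A1).symm
      have hdA1 : d A1 = 0 := by
        refine ln.gL _ _ (by omega) _ (Hs.hd h hZ hA1) ?_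
        have h5 := congrArg f hdd
        rw [map_zero, map_add, map_smul, lc.fL, hfPb, map_zero, smul_zero, add_zero, hNd] at h5
        exact h5.symm
      rw [hNd, hdA1, map_zero, zero_add] at hdd
      have hm1 : ((((m + 1 : ℕ) : K) + 1)⁻¹) ≠ 0 :=
        inv_ne_zero (by exact_mod_cast Nat.succ_ne_zero (m + 1))
      have hLP := (smul_eq_zero.1 hdd.symm).resolve_left hm1
      refine lc.gL _ _ ?_ _ hPbm (by rw [hLP, map_zero])
      push_cast
      omega
  have hfdb := D1 (m + 1) (by omega) _ hbm hPb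
  -- transfer to the top
  have hdbm := Hs.hd h hZ hbm
  rw [show -((i + 2 : ℕ) : ℤ) + 1 + 1 = -(i : ℤ) by push_cast; ring] at hdbm
  have hk : (N ^ (i + 1)) (d (f (g (d y')))) = 0 := ln.kill _ i _ hdbm hfdb
  have hfN := hb.sl.f_Npow hz.1.hs i
  have hN0 : (N ^ (i + 1)) (g (d y')) = 0 := by
    refine hbig (-(i : ℤ) + 1 + 2 * ((i + 1 : ℕ) : ℤ)) (by push_cast; omega) _ _
      (ln.hLp (p := -((m + 1 : ℕ) : ℤ)) hz (i + 1))
  have h5 : ((((i : ℤ) + 1) * (-(i : ℤ) + 1 + i) : ℤ) : K) = (i : K) + 1 := by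
    push_cast; ring
  rw [hN0, map_zero, h5, map_sub, map_smul] at hfN
  have h6 : ((i : K) + 1) • (N ^ i) (g (d y')) = (N ^ (i + 1)) (f (g (d y'))) := by
    have : (N ^ i) (N (f (g (d y')))) = (N ^ (i + 1)) (f (g (d y'))) := by rw [pow_succ]; rfl
    rw [← this]
    exact (sub_eq_zero.1 hfN.symm).symm
  have h7 : ((i : K) + 1) • (N ^ i) (d (g (d y'))) = 0 := by
    rw [← cdN, ← map_smul, h6, cdN, hk]
  exact (smul_eq_zero.1 h7).resolve_left (by exact_mod_cast Nat.succ_ne_zero i)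

end Pool.Agent.H62X
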