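import Pool.Agent.W_a3c811_h62w.Ab24

/-! Hard Lefschetz and no conditions on the lowest level: the differential vanishes on the kernel
part of the Laplacian. -/

noncomputable section

set_option linter.unusedSectionVars false

namespace Pool.Agent.H62X

open Module Polynomial Pool.Agent.H79L

universe v w

variable {K : Type v} [Field K] [CharZero K] {E : Type w} [AddCommGroup E] [Module K E]
  [FiniteDimensional K E]
  {N f L g d : Module.End K E} {n : ℤ} {s t : ℤ → Module.End K E}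
  {P D : Finset ℤ} {S : E →ₗ[K] E →ₗ[K] K} {B : Subring (Module.End K E)}
  {Z : Module.End K E}

section ind

variable (h : Pol N f L g d n s t P D S B)
  (hZ : Har N f L g d s t S B Z)
include h hZ

lemma Hs.hNp {p w : ℤ} {x : E} (hx : x ∈ Hs s t n Z p w) (k : ℕ) :
    (N ^ k) x ∈ Hs s t n Z (p + 2 * k) w := (lbN h hZ).hLp (p := w) hx k

lemma Hs.hLp {p w : ℤ} {x : E} (hx : x ∈ Hs s t n Z p w) (k : ℕ) :
    (L ^ k) x ∈ Hs s t n Z p (w + 2 * k) := (lbL h hZ).hLp hx k

/-- induction over the homogeneous vectors -/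
theorem Hs_ind (C : E → Prop) (hadd : ∀ x y, C x → C y → C (x + y)) (h0 : C 0)
    (hN : ∀ x, C x → C (N x)) (hL : ∀ x, C x → C (L x))
    (hp : ∀ i j : ℕ, ∀ x ∈ prim f g n s t i j, Z x = x → C x) :
    ∀ p w, ∀ x ∈ Hs s t n Z p w, C x := by
  have lb := lbL h hZ
  have ln := lbN h hZ
  have hb := h.bi
  obtain ⟨b0, hb0⟩ := ln.low
  -- lowest weight vectors for `g`
  have key1 : ∀ a i : ℕ, -(i : ℤ) < b0 + a → ∀ m : ℕ, ∀ x ∈ Hs s t n Z (-(i : ℤ)) (-(m : ℤ)),
      g x = 0 → C x := by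
    intro a
    induction a with
    | zero =>
      intro i hi m x hx _
      rw [hb0 (-(m : ℤ)) (-(i : ℤ)) (by simpa using hi) x hx]
      exact h0
    | succ a ih =>
      intro i hi m x hx hgx
      obtain ⟨x0, hx0, x1, hx1, hfx0, rfl⟩ := ln.dec (-(m : ℤ)) i x hx
      have h1 : f (N (g x1)) = 0 := by
        have h2 := congrArg f hgx
        rw [map_add, map_add, lb.fg x0, hfx0, map_zero, map_zero, zero_add] at h2
        have h3 : g (N x1) = N (g x1) := (LinearMap.congr_fun hb.Ng x1).symm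
        rwa [h3] at h2
      have h2 : g x1 = 0 := ln.gL _ _ (by omega) _ (Hs.hg h hZ hx1) h1
      have h3 : g x0 = 0 := by
        have h3 : g (N x1) = N (g x1) := (LinearMap.congr_fun hb.Ng x1).symm
        rwa [map_add, h3, h2, map_zero, add_zero] at hgx
      refine hadd _ _ (hp i m x0 (prim_of hb hx0.1 hfx0 h3) hx0.2) (hN _ ?_)
      have e2 : -(i : ℤ) - 2 = -((i + 2 : ℕ) : ℤ) := by push_cast; ring
      rw [e2] at hx1
      exact ih (i + 2) (by push_cast at hi ⊢; omega) m x1 hx1 h2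
  have key2 : ∀ i m : ℕ, ∀ x ∈ Hs s t n Z (-(i : ℤ)) (-(m : ℤ)), C x := fun i m x hx =>
    lb.ind (p := -(i : ℤ)) (j0 := 0) C hadd h0 (fun w x _ hC => hL x hC)
      (fun m _ x hx hgx => key1 (-(i : ℤ) - b0 + 1).toNat i (by omega) m x hx hgx) m
      (Nat.zero_le _) x hx
  have key3 : ∀ (i : ℕ) (w : ℤ), ∀ x ∈ Hs s t n Z (-(i : ℤ)) w, C x := by
    intro i w x hx
    rcases Int.le_total w 0 with hw | hw
    · obtain ⟨m, hm⟩ := Int.eq_ofNat_of_zero_le (neg_nonneg.2 hw)
      obtain rfl : w = -(m : ℤ) := by omega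
      exact key2 i m x hx
    · obtain ⟨m, rfl⟩ := Int.eq_ofNat_of_zero_le hw
      obtain ⟨y, hy, rfl⟩ := lb.sur _ m x hx
      have : ∀ k : ℕ, C ((L ^ k) y) := by
        intro k
        induction k with
        | zero => exact key2 i m y hy
        | succ k ih => rw [pow_succ', Module.End.mul_apply]; exact hL _ ih
      exact this m
  intro p w x hx
  rcases Int.le_total p 0 with hp' | hp'
  · obtain ⟨i, hi⟩ := Int.eq_ofNat_of_zero_le (neg_nonneg.2 hp')
    obtain rfl : p = -(i : ℤ) := by omega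
    exact key3 i w x hx
  · obtain ⟨i, rfl⟩ := Int.eq_ofNat_of_zero_le hp'
    obtain ⟨y, hy, rfl⟩ := ln.sur w i x hx
    have : ∀ k : ℕ, C ((N ^ k) y) := by
      intro k
      induction k with
      | zero => exact key3 i w y hy
      | succ k ih => rw [pow_succ', Module.End.mul_apply]; exact hN _ ih
    exact this i

/-- from the homogeneous vectors to all vectors -/
theorem Hs_all (C : E → Prop) (hadd : ∀ x y, C x → C y → C (x + y)) (h0 : C 0)
    (hom : ∀ p w, ∀ x ∈ Hs s t n Z p w, C x) (x : E) : C (Z x) := by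
  have hb := h.bi
  have hsum : ∀ (ι : Finset ℤ) (F : ℤ → E), (∀ i ∈ ι, C (F i)) → C (∑ i ∈ ι, F i) := by
    intro ι F
    classical
    induction ι using Finset.induction_on with
    | empty => intro _; rw [Finset.sum_empty]; exact h0
    | insert i ι hi ih =>
      intro hF
      rw [Finset.sum_insert hi]
      exact hadd _ _ (hF i (Finset.mem_insert_self _ _))
        (ih fun j hj => hF j (Finset.mem_insert_of_mem hj))
  rw [hb.decomp (Z x)]
  refine hsum _ _ fun w _ => hsum _ _ fun p _ => hom p (w - n) _ ⟨?_, ?_⟩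
  · have := at_comp hb p (w - n) (Z x)
    rwa [sub_add_cancel] at this
  · rw [app_comm (hZ.ct w), app_comm (hZ.cs p), hZ.zz]

/-- the differential is determined by the primitive vectors -/
theorem d_zero_of (hd : ∀ i j : ℕ, ∀ x ∈ prim f g n s t i j, Z x = x → d x = 0) :
    d * Z = 0 := by
  refine LinearMap.ext fun x => ?_
  refine Hs_all h hZ (fun x => d x = 0) (fun x y h1 h2 => by rw [map_add, h1, h2, add_zero])
    (map_zero _) (Hs_ind h hZ _ (fun x y h1 h2 => by rw [map_add, h1, h2, add_zero])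
      (map_zero _) (fun x h1 => ?_) (fun x h1 => ?_) hd) x
  · have : d (N x) = N (d x) := (LinearMap.congr_fun h.bi.Nd x).symm
    rw [this, h1, map_zero]
  · have : d (L x) = L (d x) := (LinearMap.congr_fun h.bi.Ld x).symm
    rw [this, h1, map_zero]

/-- Removing isotypic parts on which the differential vanishes. -/
theorem remove {A : Finset (ℕ × ℕ)} {e : Module.End K E} (he : IsoPr N f L g n s t S B A e)
    (hk : ∀ i j, (i, j) ∉ A → ∀ x ∈ prim f g n s t i j, e x = x)
    (hd : ∀ i j, (i, j) ∈ A → ∀ x ∈ prim f g n s t i j, Z x = x → d x = 0) :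
    Har N f L g d s t S B (e * Z) ∧ d * Z = d * (e * Z) := by
  have hb := h.bi
  have heN : e * N = N * e := he.cg 0
  have heL : e * L = L * e := he.cg 2
  have h1 : d * Z = d * (e * Z) := by
    refine LinearMap.ext fun x => ?_
    have hC : ∀ x, d (Z x) = d (e (Z x)) := by
      intro x
      refine Hs_all h hZ (fun x => d x = d (e x))
        (fun x y h1 h2 => by rw [map_add, map_add, map_add, h1, h2]) (by simp)
        (Hs_ind h hZ _ (fun x y h1 h2 => by rw [map_add, map_add, map_add, h1, h2])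
          (by simp) (fun x h1 => ?_) (fun x h1 => ?_) (fun i j x hx hzx => ?_)) x
      · have e1 : ∀ x, d (N x) = N (d x) := fun x => (LinearMap.congr_fun hb.Nd x).symm
        rw [app_comm heN, e1, e1, h1]
      · have e1 : ∀ x, d (L x) = L (d x) := fun x => (LinearMap.congr_fun hb.Ld x).symm
        rw [app_comm heL, e1, e1, h1]
      · by_cases hij : (i, j) ∈ A
        · rw [hd i j hij x hx hzx, he.kill i j hij x hx, map_zero]
        · rw [hk i j hij x hx]
    exact hC x
  have cZe : e * Z = Z * e := he.cZ hZ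
  have h2 : Z * d = e * Z * d := by
    refine LinearMap.ext fun x => ?_
    rw [← sub_eq_zero]
    refine h.ndl _ fun y => ?_
    have a1 : Adj S (Z * d) (d * Z) := hZ.adj.mul h.adjd
    have a2 : Adj S (e * Z * d) (d * (Z * e)) := (he.adj.mul hZ.adj).mul h.adjd
    rw [map_sub, LinearMap.sub_apply, a1.1, a2.1, ← cZe, ← h1, sub_self]
  refine ⟨⟨mul_mem he.mem hZ.mem, fun b => ?_, fun p => ?_, fun w => ?_, ?_, ?_, ?_, ?_⟩, h1⟩
  · rw [mul_assoc, hZ.cg, ← mul_assoc, he.cg, mul_assoc]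
  · rw [mul_assoc, hZ.cs, ← mul_assoc, he.cs, mul_assoc]
  · rw [mul_assoc, hZ.ct, ← mul_assoc, he.ct, mul_assoc]
  · rw [← h2, hZ.cd, h1]
  · have := he.adj.mul hZ.adj
    rwa [← cZe] at this
  · rw [mul_assoc, ← mul_assoc Z e Z, ← cZe, mul_assoc e Z Z, hZ.idem, ← mul_assoc, he.idem]
  · obtain ⟨M, hM⟩ := hZ.nil
    refine ⟨M, ?_⟩
    rw [← mul_assoc, ← he.lap_pow h, mul_assoc, hM, mul_zero]

omit h hZ in
/-- the image of `e Z` -/
lemma Hs_e {A : Finset (ℕ × ℕ)} {e : Module.End K E} (hZ : Har N f L g d s t S B Z)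
    (he : IsoPr N f L g n s t S B A e) {p w : ℤ} {x : E}
    (hx : x ∈ Hs s t n (e * Z) p w) : x ∈ Hs s t n Z p w ∧ e x = x := by
  obtain ⟨h1, h2⟩ := hx
  have h3 : e (Z x) = x := h2
  have h4 : e x = x := by
    have := he.ee (Z x)
    rwa [h3] at this
  refine ⟨⟨h1, ?_⟩, h4⟩
  have h5 : Z (e x) = e (Z x) := (app_comm (he.cZ hZ) x).symm
  rw [h4, h3] at h5
  exact h5

/-- the highest level is removed -/
lemma top_e {A : Finset (ℕ × ℕ)} {e : Module.End K E} (he : IsoPr N f L g n s t S B A e)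
    {r j0 : ℕ} (htop : ∀ p : ℤ, p < -(r : ℤ) → ∀ w, ∀ x ∈ Hs s t n Z p w, x = 0)
    (hA : ∀ j, j0 ≤ j → (∀ x ∈ prim f g n s t r j, Z x = x → x = 0) ∨ (r, j) ∈ A) :
    ∀ m : ℕ, j0 ≤ m → ∀ x ∈ Hs s t n (e * Z) (-(r : ℤ)) (-(m : ℤ)), x = 0 := by
  intro m hm x hx
  obtain ⟨hx1, hx2⟩ := Hs_e hZ he hx
  rw [← hx2]
  have lb := lbL h hZ
  have heL : e * L = L * e := he.cg 2
  refine lb.ind (p := -(r : ℤ)) (j0 := j0) (fun x => e x = 0)
    (fun x y h1 h2 => by rw [map_add, h1, h2, add_zero]) (map_zero _)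
    (fun w x _ h1 => by rw [app_comm heL, h1, map_zero]) (fun m hm x hx hgx => ?_) m hm x hx1
  have hp : x ∈ prim f g n s t r m :=
    prim_of h.bi hx.1 (htop _ (by omega) _ _ (Hs.hf h hZ hx)) hgx
  rcases hA m hm with h1 | h1
  · rw [h1 x hp hx.2, map_zero]
  · exact he.kill r m h1 x hp

end ind

/-- The first theorem: hard Lefschetz for the cohomology and good primitive parts of positive
level. -/
theorem thm1 (h : Pol N f L g d n s t P D S B) (hB : ∀ (r : ℚ), ∀ u ∈ B, (r : K) • u ∈ B)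
    (hL : ∀ (p : ℤ) (m : ℕ), EI (L ^ m) d s t n p (-(m : ℤ)) p m)
    (hG : ∀ i j, 1 ≤ i → Gd N f L g d n s t S B i j) (hZ : Har N f L g d s t S B Z) :
    d * Z = 0 := by
  classical
  have hb := h.bi
  have key : ∀ r : ℕ, ∀ Z, Har N f L g d s t S B Z →
      (∀ p : ℤ, p < -(r : ℤ) → ∀ w, ∀ x ∈ Hs s t n Z p w, x = 0) → d * Z = 0 := by
    intro r
    induction r with
    | zero =>
      intro Z hZ htop
      have ln := lbN h hZ
      refine d_zero_of h hZ fun i j x hx hzx => ?_
      have hx' : x ∈ Hs s t n Z (-(i : ℤ)) (-(j : ℤ)) := ⟨prim_at hb hx, hzx⟩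
      rcases Nat.eq_zero_or_pos i with rfl | hi
      · have h1 := Hs.hd h hZ hx'
        have h2 : (-((0 : ℕ) : ℤ) + 1) = ((1 : ℕ) : ℤ) := by norm_num
        rw [h2] at h1
        obtain ⟨y, hy, h3⟩ := ln.sur _ 1 _ h1
        rw [← h3, htop _ (by norm_num) _ _ hy, map_zero]
      · rw [htop _ (by push_cast; omega) _ _ hx', map_zero]
    | succ r ih =>
      intro Z hZ htop
      have hrow := row h hZ hB hL (r := r + 1) (j0 := 0) (by omega) htop
        (fun j _ => hG _ _ (by omega)) (fun _ j _ => hG _ _ (by omega))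
        (fun _ j _ => hG _ _ (by omega))
      obtain ⟨b0, hb0⟩ := (lbL h hZ).low
      set A : Finset (ℕ × ℕ) := (Finset.range ((-b0).toNat + 1)).image fun j => (r + 1, j) with hA
      obtain ⟨e, he, hk⟩ := exists_isoPr' h hB A
      have hAr : ∀ i j, (i, j) ∈ A → i = r + 1 := by
        intro i j hij
        rw [hA, Finset.mem_image] at hij
        obtain ⟨j', -, h1⟩ := hij
        exact (congrArg Prod.fst h1).symm
      have hAm : ∀ j, 0 ≤ j → (∀ x ∈ prim f g n s t (r + 1) j, Z x = x → x = 0) ∨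
          (r + 1, j) ∈ A := by
        intro j _
        by_cases hj : j < (-b0).toNat + 1
        · right
          rw [hA, Finset.mem_image]
          exact ⟨j, Finset.mem_range.2 hj, rfl⟩
        · left
          intro x hx hzx
          exact hb0 (-((r + 1 : ℕ) : ℤ)) (-(j : ℤ)) (by omega) x ⟨prim_at hb hx, hzx⟩
      obtain ⟨hZ', h1⟩ := remove h hZ he hk (fun i j hij x hx hzx => by
        obtain rfl := hAr i j hij
        exact hrow j (Nat.zero_le _) x ⟨prim_at hb hx, hzx⟩)
      rw [h1]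
      refine ih _ hZ' fun p hp w x hx => ?_
      rcases lt_or_ge p (-((r + 1 : ℕ) : ℤ)) with hp' | hp'
      · exact htop p hp' w x (Hs_e hZ he hx).1
      · obtain rfl : p = -((r + 1 : ℕ) : ℤ) := by push_cast at hp' ⊢; omega
        have ht := top_e h hZ he (j0 := 0) htop hAm
        rcases Int.le_total w 0 with hw | hw
        · obtain ⟨m, hm⟩ := Int.eq_ofNat_of_zero_le (neg_nonneg.2 hw)
          obtain rfl : w = -(m : ℤ) := by omega
          exact ht m (Nat.zero_le _) x hx
        · obtain ⟨m, rfl⟩ := Int.eq_ofNat_of_zero_le hw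
          obtain ⟨y, hy, rfl⟩ := (lbL h hZ').sur _ m x hx
          rw [ht m (Nat.zero_le _) y hy, map_zero]
  obtain ⟨b, hb1⟩ := hb.sl.low
  exact key (-b).toNat Z hZ fun p hp w x hx => hb1 p (by omega) x hx.1.hs

end Pool.Agent.H62X
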