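import Pool.Agent.W_a3c811_h62w.Ab0

/-! The four components of the differential and words in them. -/

noncomputable section

set_option linter.unusedSectionVars false
set_option linter.unusedSimpArgs false

namespace Pool.Agent.H62X

open Module Pool.Agent.H79L

universe v w

variable {K : Type v} [Field K] [CharZero K] {E : Type w} [AddCommGroup E] [Module K E]
  [FiniteDimensional K E]
  {N f L g d : Module.End K E} {n : ℤ} {s t : ℤ → Module.End K E}
  {P D : Finset ℤ} {S : E →ₗ[K] E →ₗ[K] K} {B : Subring (Module.End K E)}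

/-- the operators `N, f, L, g` -/
def gen (N f L g : Module.End K E) : Fin 4 → Module.End K E := ![N, f, L, g]

/-- the components of the differential -/
abbrev cmp (f g d : Module.End K E) : Fin 4 → Module.End K E := H62W.comp f g d

section ring

variable (h : Bi N f L g d n s t P D)
include h

lemma br_cmp (b i : Fin 4) : br (gen N f L g b) (cmp f g d i) = 0 ∨
    ∃ j, br (gen N f L g b) (cmp f g d i) = cmp f g d j := by
  have := H62W.Setup.tf (K := K) (V := E)
  have D := h.dd'
  fin_cases b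
  · fin_cases i
    · exact Or.inl D.b_e1d
    · exact Or.inr ⟨0, D.b_e1_q1⟩
    · exact Or.inl D.b_e1_q2
    · exact Or.inr ⟨2, D.b_e1_q12⟩
  · fin_cases i
    · exact Or.inr ⟨1, rfl⟩
    · exact Or.inl D.b_f1_q1
    · exact Or.inr ⟨3, rfl⟩
    · exact Or.inl D.b_f1_q12
  · fin_cases i
    · exact Or.inl D.b_e2d
    · exact Or.inl D.b_e2_q1
    · exact Or.inr ⟨0, D.b_e2_q2⟩
    · exact Or.inr ⟨1, D.b_e2_q12⟩
  · fin_cases i
    · exact Or.inr ⟨2, rfl⟩
    · exact Or.inr ⟨3, D.b_f2_q1⟩
    · exact Or.inl D.b_f2_q2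
    · exact Or.inl D.b_f2_q12

lemma cmp_sq (i : Fin 4) : cmp f g d i * cmp f g d i = 0 := by
  have := H62W.Setup.tf (K := K) (V := E)
  have D := h.dd'
  fin_cases i
  · exact D.dd
  · exact D.a11
  · exact D.a22
  · exact D.a12_12

lemma cmp_anti {Z : Module.End K E} (hZ0 : lap f g d * Z = 0) (i j : Fin 4) :
    cmp f g d i * cmp f g d j * Z = -(cmp f g d j * cmp f g d i * Z) := by
  have := H62W.Setup.tf (K := K) (V := E)
  have D := h.dd'
  have a12 := D.a12
  have a01 := D.a01
  have a02 := D.a02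
  have a11 := D.a11
  have a22 := D.a22
  have a13 := D.a1_12
  have a23 := D.a2_12
  have a33 := D.a12_12
  have a00 := D.dd
  have a03 : (d * H62W.br f (H62W.br g d) + H62W.br f (H62W.br g d) * d) * Z = 0 := hZ0
  have b12 : (H62W.br f d * H62W.br g d + H62W.br g d * H62W.br f d) * Z = 0 := by
    rw [a12, neg_mul, a03, neg_zero]
  rw [eq_neg_iff_add_eq_zero, ← add_mul]
  fin_cases i <;> fin_cases j <;>
    simp only [cmp, H62W.comp, Fin.zero_eta, Fin.mk_one, Fin.reduceFinMk, Matrix.cons_val_zero,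
      Matrix.cons_val_one, Matrix.cons_val, a00, a01, a02, a11, a22, a13, a23, a33, add_zero,
      zero_mul, a03, b12] <;>
    rw [add_comm] <;>
    simp only [a00, a01, a02, a11, a22, a13, a23, a33, add_zero, zero_mul, a03, b12]

lemma cmp_lap (i : Fin 4) : cmp f g d i * lap f g d = lap f g d * cmp f g d i := by
  have := H62W.Setup.tf (K := K) (V := E)
  have D := h.dd'
  have key : ∀ {a b : Module.End K E}, H62W.br a (lap f g d) = 0 → H62W.br b (lap f g d) = 0 →
      H62W.br (H62W.br a b) (lap f g d) = 0 := by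
    intro a b ha hb
    have := H62W.br_br a b (lap f g d)
    rw [ha, hb, H62W.br_zero, H62W.br_zero, add_zero] at this
    exact this.symm
  have e : H62W.br (cmp f g d i) (lap f g d) = 0 := by
    fin_cases i
    · exact D.lap_d
    · exact key D.lap_f1 D.lap_d
    · exact key D.lap_f2 D.lap_d
    · exact key D.lap_f1 (key D.lap_f2 D.lap_d)
  exact H62W.br_eq_zero.1 e

/-- shift of position and degree -/
lemma shift_cmp (i : Fin 4) : ∃ a b : ℤ, (∀ p, cmp f g d i * s p = s (p + a) * cmp f g d i) ∧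
    ∀ w, cmp f g d i * t w = t (w + b) * cmp f g d i := by
  have key : ∀ {r : ℤ → Module.End K E} {X Y : Module.End K E} {a b : ℤ},
      (∀ p, X * r p = r (p + a) * X) → (∀ p, Y * r p = r (p + b) * Y) → ∀ p,
      br X Y * r p = r (p + (a + b)) * br X Y := by
    intro r X Y a b hX hY p
    change (X * Y - Y * X) * r p = r (p + (a + b)) * (X * Y - Y * X)
    have e1 : X * Y * r p = r (p + (a + b)) * (X * Y) := by
      rw [mul_assoc, hY, ← mul_assoc, hX, mul_assoc, show p + b + a = p + (a + b) by ring]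
    have e2 : Y * X * r p = r (p + (a + b)) * (Y * X) := by
      rw [mul_assoc, hX, ← mul_assoc, hY, mul_assoc, show p + a + b = p + (a + b) by ring]
    rw [sub_mul, mul_sub, e1, e2]
  have hf : ∀ p, f * s p = s (p + -2) * f := h.sl.fs
  have hg : ∀ p, g * s p = s (p + 0) * g := fun p => by rw [h.gs, add_zero]
  have hf' : ∀ p, f * t p = t (p + 0) * f := fun p => by rw [h.ft, add_zero]
  have hg' : ∀ p, g * t p = t (p + -2) * g := h.gt
  fin_cases i
  · exact ⟨1, 1, h.ds, h.dt⟩
  · exact ⟨_, _, key hf h.ds, key hf' h.dt⟩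
  · exact ⟨_, _, key hg h.ds, key hg' h.dt⟩
  · exact ⟨_, _, key hf (key hg h.ds), key hf' (key hg' h.dt)⟩

end ring

section pol

variable (h : Pol N f L g d n s t P D S B)
include h

lemma adj_cmp (i : Fin 4) : ∃ c' ∈ B, Adj S (cmp f g d i) c' ∧
    (c' = cmp f g d i ∨ c' = -cmp f g d i) := by
  have e1 : Adj S (br f d) (-(br f d)) := by
    have := (h.adjf.mul h.adjd).sub (h.adjd.mul h.adjf)
    have e : d * f - f * d = -(br f d) := by unfold br; abel
    rwa [e] at this
  have e2 : Adj S (br g d) (-(br g d)) := by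
    have := (h.adjg.mul h.adjd).sub (h.adjd.mul h.adjg)
    have e : d * g - g * d = -(br g d) := by unfold br; abel
    rwa [e] at this
  have e3 : Adj S (br f (br g d)) (br f (br g d)) := by
    have := (h.adjf.mul e2).sub (e2.mul h.adjf)
    have e : -(br g d) * f - f * -(br g d) = br f (br g d) := by unfold br; noncomm_ring
    rwa [e] at this
  have m1 : br f d ∈ B := sub_mem (mul_mem h.mf h.md) (mul_mem h.md h.mf)
  have m2 : br g d ∈ B := sub_mem (mul_mem h.mg h.md) (mul_mem h.md h.mg)
  have m3 : br f (br g d) ∈ B := sub_mem (mul_mem h.mf m2) (mul_mem m2 h.mf)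
  fin_cases i
  · exact ⟨_, h.md, h.adjd, Or.inl rfl⟩
  · exact ⟨_, neg_mem m1, e1, Or.inr rfl⟩
  · exact ⟨_, neg_mem m2, e2, Or.inr rfl⟩
  · exact ⟨_, m3, e3, Or.inl rfl⟩

lemma adj_gen (b : Fin 4) : Adj S (gen N f L g b) (gen N f L g b) := by
  fin_cases b
  · exact h.adjN
  · exact h.adjf
  · exact h.adjL
  · exact h.adjg

lemma gen_mem (b : Fin 4) : gen N f L g b ∈ B := by
  fin_cases b
  · exact h.mN
  · exact h.mf
  · exact h.mL
  · exact h.mg

lemma cmp_mem (i : Fin 4) : cmp f g d i ∈ B := by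
  obtain ⟨c', hc', -, h1 | h1⟩ := adj_cmp h i
  · rwa [← h1]
  · have := neg_mem hc'
    rwa [h1, neg_neg] at this

lemma adj_lap : Adj S (lap f g d) (lap f g d) := by
  obtain ⟨c0, -, h0, -⟩ := adj_cmp h 0
  have e3 : Adj S (br f (br g d)) (br f (br g d)) := by
    obtain ⟨c3, -, h3, h3'⟩ := adj_cmp h 3
    have e2 : Adj S (br g d) (-(br g d)) := by
      have := (h.adjg.mul h.adjd).sub (h.adjd.mul h.adjg)
      have e : d * g - g * d = -(br g d) := by unfold br; abel
      rwa [e] at this
    have := (h.adjf.mul e2).sub (e2.mul h.adjf)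
    have e : -(br g d) * f - f * -(br g d) = br f (br g d) := by unfold br; noncomm_ring
    rwa [e] at this
  have := (h.adjd.mul e3).add (e3.mul h.adjd)
  rw [add_comm] at this
  have e : br f (br g d) * d + d * br f (br g d) = lap f g d := by
    unfold lap; rw [add_comm]
  rw [e] at this
  exact this

lemma lap_mem : lap f g d ∈ B := by
  have m3 : br f (br g d) ∈ B := cmp_mem h 3
  exact add_mem (mul_mem h.md m3) (mul_mem m3 h.md)

/-- the adjoint of a word -/
lemma adj_wd (l : List (Fin 4)) : ∃ c' ∈ B, Adj S (H62W.wd (cmp f g d) l) c' ∧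
    (c' = H62W.wd (cmp f g d) l.reverse ∨ c' = -H62W.wd (cmp f g d) l.reverse) := by
  induction l with
  | nil => exact ⟨1, one_mem _, Adj.one, Or.inl (by simp [H62W.wd])⟩
  | cons i l ih =>
    obtain ⟨c', hc', h1, h2⟩ := ih
    obtain ⟨c, hc, h3, h4⟩ := adj_cmp h i
    refine ⟨c' * c, mul_mem hc' hc, ?_, ?_⟩
    · rw [H62W.wd_cons]
      exact h3.mul h1
    · have e : H62W.wd (cmp f g d) (i :: l).reverse =
          H62W.wd (cmp f g d) l.reverse * cmp f g d i := by
        unfold H62W.wd
        rw [List.reverse_cons, List.map_append, List.prod_append]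
        simp
      rw [e]
      rcases h2 with rfl | rfl <;> rcases h4 with rfl | rfl
      · exact Or.inl rfl
      · exact Or.inr (by rw [mul_neg])
      · exact Or.inr (by rw [neg_mul])
      · exact Or.inl (by rw [neg_mul, mul_neg, neg_neg])

end pol

section stable

/-- stability from commutation -/
lemma stab_of_gen {U : Submodule K E} (h1 : ∀ b, ∀ x ∈ U, gen N f L g b x ∈ U)
    (h2 : ∀ p, ∀ x ∈ U, s p x ∈ U) (h3 : ∀ w, ∀ x ∈ U, t w x ∈ U) : Stab N f L g s t U :=
  ⟨h1 0, h1 1, h1 2, h1 3, h2, h3⟩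

lemma Stab.gen {U : Submodule K E} (hU : Stab N f L g s t U) (b : Fin 4) :
    ∀ x ∈ U, gen N f L g b x ∈ U := by
  fin_cases b
  · exact hU.N
  · exact hU.f
  · exact hU.L
  · exact hU.g

variable (h : Bi N f L g d n s t P D)
include h

lemma gen_s (b : Fin 4) : ∃ a : ℤ, ∀ p, gen N f L g b * s p = s (p + a) * gen N f L g b := by
  fin_cases b
  · exact ⟨2, h.sl.Ns⟩
  · exact ⟨-2, h.sl.fs⟩
  · exact ⟨0, fun p => by rw [add_zero]; exact h.Ls p⟩
  · exact ⟨0, fun p => by rw [add_zero]; exact h.gs p⟩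

lemma gen_t (b : Fin 4) : ∃ a : ℤ, ∀ w, gen N f L g b * t w = t (w + a) * gen N f L g b := by
  fin_cases b
  · exact ⟨0, fun p => by rw [add_zero]; exact h.Nt p⟩
  · exact ⟨0, fun p => by rw [add_zero]; exact h.ft p⟩
  · exact ⟨2, h.Lt⟩
  · exact ⟨-2, h.gt⟩

lemma stab_radS : Stab N f L g s t (radS f g d) := by
  have key : ∀ T : Module.End K E, (∀ i y, T (cmp f g d i y) ∈ radS f g d) →
      ∀ x ∈ radS f g d, T x ∈ radS f g d := by
    intro T hT x hx
    unfold radS H62W.Setup.radS at hx
    induction hx using Submodule.iSup_induction' with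
    | mem i x hx =>
      obtain ⟨y, rfl⟩ := hx
      exact hT i y
    | zero => rw [map_zero]; exact Submodule.zero_mem _
    | add x y _ _ h1 h2 => rw [map_add]; exact Submodule.add_mem _ h1 h2
  have mem : ∀ i y, cmp f g d i y ∈ radS f g d := fun i y =>
    Submodule.mem_iSup_of_mem i ⟨y, rfl⟩
  refine stab_of_gen ?_ ?_ ?_
  · intro b
    refine key _ fun i y => ?_
    have h1 : gen N f L g b (cmp f g d i y) = cmp f g d i (gen N f L g b y) +
        br (gen N f L g b) (cmp f g d i) y := by
      rw [br_app]; abel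
    rw [h1]
    refine Submodule.add_mem _ (mem _ _) ?_
    rcases br_cmp h b i with h2 | ⟨j, h2⟩
    · rw [h2]; exact Submodule.zero_mem _
    · rw [h2]; exact mem _ _
  · intro p
    refine key _ fun i y => ?_
    obtain ⟨a, b, h1, -⟩ := shift_cmp h i
    have h2 := LinearMap.congr_fun (h1 (p - a)) y
    rw [sub_add_cancel] at h2
    have h3 : s p (cmp f g d i y) = cmp f g d i (s (p - a) y) := h2.symm
    rw [h3]
    exact mem _ _
  · intro w
    refine key _ fun i y => ?_
    obtain ⟨a, b, -, h1⟩ := shift_cmp h i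
    have h2 := LinearMap.congr_fun (h1 (w - b)) y
    rw [sub_add_cancel] at h2
    have h3 : t w (cmp f g d i y) = cmp f g d i (t (w - b) y) := h2.symm
    rw [h3]
    exact mem _ _

lemma mem_tot (b : Fin 4) (x : E) : gen N f L g b x ∈ tot N f L g := by
  unfold tot
  fin_cases b
  · exact Submodule.mem_sup_left (Submodule.mem_sup_left (Submodule.mem_sup_left ⟨x, rfl⟩))
  · exact Submodule.mem_sup_left (Submodule.mem_sup_left (Submodule.mem_sup_right ⟨x, rfl⟩))
  · exact Submodule.mem_sup_left (Submodule.mem_sup_right ⟨x, rfl⟩)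
  · exact Submodule.mem_sup_right ⟨x, rfl⟩

omit h in
lemma tot_induction {p : E → Prop} (h0 : ∀ b x, p (gen N f L g b x))
    (hadd : ∀ x y, p x → p y → p (x + y)) {x : E} (hx : x ∈ tot N f L g) : p x := by
  unfold tot at hx
  obtain ⟨a1, ha1, b, ⟨b, rfl⟩, rfl⟩ := Submodule.mem_sup.1 hx
  obtain ⟨a2, ha2, c, ⟨c, rfl⟩, rfl⟩ := Submodule.mem_sup.1 ha1
  obtain ⟨a3, ⟨a, rfl⟩, e, ⟨e, rfl⟩, rfl⟩ := Submodule.mem_sup.1 ha2
  exact hadd _ _ (hadd _ _ (hadd _ _ (h0 0 a) (h0 1 e)) (h0 2 c)) (h0 3 b)

lemma stab_tot : Stab N f L g s t (tot N f L g) := by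
  refine stab_of_gen (fun b x _ => mem_tot h b x) ?_ ?_
  · intro p x hx
    refine tot_induction (p := fun x => s p x ∈ tot N f L g) ?_ ?_ hx
    · intro b x
      obtain ⟨a, ha⟩ := gen_s h b
      have h2 := LinearMap.congr_fun (ha (p - a)) x
      rw [sub_add_cancel] at h2
      have h3 : s p (gen N f L g b x) = gen N f L g b (s (p - a) x) := h2.symm
      rw [h3]
      exact mem_tot h _ _
    · intro x y hx hy
      rw [map_add]
      exact Submodule.add_mem _ hx hy
  · intro p x hx
    refine tot_induction (p := fun x => t p x ∈ tot N f L g) ?_ ?_ hx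
    · intro b x
      obtain ⟨a, ha⟩ := gen_t h b
      have h2 := LinearMap.congr_fun (ha (p - a)) x
      rw [sub_add_cancel] at h2
      have h3 : t p (gen N f L g b x) = gen N f L g b (t (p - a) x) := h2.symm
      rw [h3]
      exact mem_tot h _ _
    · intro x y hx hy
      rw [map_add]
      exact Submodule.add_mem _ hx hy

end stable

end Pool.Agent.H62X
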