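import Pool.Agent.W_a3c811_h62w.Ab2
import Pool.Agent.W_a3c811_h62w.Ab3

/-! The differential vanishes on the kernel part of the Laplacian. -/

noncomputable section

set_option linter.unusedSectionVars false
set_option linter.unusedSimpArgs false

namespace Pool.Agent.H62X

open Module Pool.Agent.H79L

universe v w

variable {K : Type v} [Field K] [CharZero K] {E : Type w} [AddCommGroup E] [Module K E]
  [FiniteDimensional K E]
  {N f L g d : Module.End K E} {n : ℤ} {s t : ℤ → Module.End K E}
  {P D : Finset ℤ} {S : E →ₗ[K] E →ₗ[K] K} {B : Subring (Module.End K E)}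

/-- `Z` is a self-adjoint projector of `B` which commutes with everything and on whose image the
Laplacian is nilpotent. -/
structure Har (N f L g d : Module.End K E) (s t : ℤ → Module.End K E)
    (S : E →ₗ[K] E →ₗ[K] K) (B : Subring (Module.End K E)) (Z : Module.End K E) : Prop where
  mem : Z ∈ B
  cg : ∀ b, Z * gen N f L g b = gen N f L g b * Z
  cs : ∀ p, Z * s p = s p * Z
  ct : ∀ w, Z * t w = t w * Z
  cd : Z * d = d * Z
  adj : Adj S Z Z
  idem : Z * Z = Z
  nil : ∃ M, lap f g d ^ M * Z = 0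

/-- Surjectivity of `N` from the cohomology of position `-1` to that of position `1` in degree
`n - 1`. -/
def WM1 (N d : Module.End K E) (n : ℤ) (s t : ℤ → Module.End K E) : Prop :=
  ∀ z, s 1 z = z → t (n - 1) z = z → d z = 0 →
    ∃ x y, s (-1) x = x ∧ t (n - 1) x = x ∧ d x = 0 ∧ z = N x + d y

section lapl

variable (h : Bi N f L g d n s t P D)
include h

lemma lap_shift {r : ℤ → Module.End K E} {a b c : ℤ} (hf : ∀ p, f * r p = r (p + a) * f)
    (hg : ∀ p, g * r p = r (p + b) * g) (hd : ∀ p, d * r p = r (p + c) * d)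
    (habc : a + b + 2 * c = 0) (p : ℤ) : r p * lap f g d = lap f g d * r p := by
  have mulk : ∀ {X Y : Module.End K E} {a b : ℤ},
      (∀ p, X * r p = r (p + a) * X) → (∀ p, Y * r p = r (p + b) * Y) → ∀ p,
      X * Y * r p = r (p + (a + b)) * (X * Y) := by
    intro X Y a b hX hY p
    rw [mul_assoc, hY, ← mul_assoc, hX, mul_assoc, show p + b + a = p + (a + b) by ring]
  have brk : ∀ {X Y : Module.End K E} {a b : ℤ},
      (∀ p, X * r p = r (p + a) * X) → (∀ p, Y * r p = r (p + b) * Y) → ∀ p,
      br X Y * r p = r (p + (a + b)) * br X Y := by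
    intro X Y a b hX hY p
    change (X * Y - Y * X) * r p = r (p + (a + b)) * (X * Y - Y * X)
    rw [sub_mul, mul_sub, mulk hX hY, mulk hY hX, add_comm b a]
  have h3 := brk hf (brk hg hd)
  have e1 := mulk hd h3 p
  have e2 := mulk h3 hd p
  have e : c + (a + (b + c)) = 0 := by linarith
  rw [e, add_zero] at e1
  rw [show a + (b + c) + c = 0 by linarith, add_zero] at e2
  unfold lap
  rw [add_mul, mul_add, e1, e2]

lemma lap_s (p : ℤ) : s p * lap f g d = lap f g d * s p :=
  lap_shift h (a := -2) (b := 0) (c := 1) h.sl.fs (fun p => by rw [h.gs, add_zero]) h.ds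
    (by norm_num) p

lemma lap_t (p : ℤ) : t p * lap f g d = lap f g d * t p :=
  lap_shift h (a := 0) (b := -2) (c := 1) (fun p => by rw [h.ft, add_zero]) h.gt h.dt
    (by norm_num) p

lemma lap_gen (b : Fin 4) : gen N f L g b * lap f g d = lap f g d * gen N f L g b := by
  fin_cases b
  · exact h.lap_N.symm
  · exact h.lap_f.symm
  · exact h.lap_L.symm
  · exact h.lap_g.symm

lemma lap_pow_gen (m : ℕ) (b : Fin 4) :
    gen N f L g b * lap f g d ^ m = lap f g d ^ m * gen N f L g b :=
  ((show Commute (gen N f L g b) (lap f g d) from lap_gen h b).pow_right m).eq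

lemma stab_ker_lap : Stab N f L g s t (LinearMap.ker (lap f g d)) := by
  have key : ∀ T : Module.End K E, T * lap f g d = lap f g d * T →
      ∀ x ∈ LinearMap.ker (lap f g d), T x ∈ LinearMap.ker (lap f g d) := by
    intro T hT x hx
    rw [LinearMap.mem_ker] at hx ⊢
    rw [← Module.End.mul_apply, ← hT, Module.End.mul_apply, hx, map_zero]
  exact stab_of_gen (fun b => key _ (lap_gen h b)) (fun p => key _ (lap_s h p))
    (fun p => key _ (lap_t h p))

lemma stab_range_lap : Stab N f L g s t (LinearMap.range (lap f g d)) := by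
  have key : ∀ T : Module.End K E, T * lap f g d = lap f g d * T →
      ∀ x ∈ LinearMap.range (lap f g d), T x ∈ LinearMap.range (lap f g d) := by
    rintro T hT x ⟨y, rfl⟩
    exact ⟨T y, (LinearMap.congr_fun hT y).symm⟩
  exact stab_of_gen (fun b => key _ (lap_gen h b)) (fun p => key _ (lap_s h p))
    (fun p => key _ (lap_t h p))

omit h in
lemma cmp_mem_radS (i : Fin 4) (y : E) : cmp f g d i y ∈ radS f g d :=
  Submodule.mem_iSup_of_mem i ⟨y, rfl⟩

omit h in
lemma lap_mem_radS (x : E) : lap f g d x ∈ radS f g d := by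
  have h1 := cmp_mem_radS (f := f) (g := g) (d := d) 0 (br f (br g d) x)
  have h2 := cmp_mem_radS (f := f) (g := g) (d := d) 3 (d x)
  exact Submodule.add_mem _ h1 h2

omit h in
lemma lap_pow_mem_radS (m : ℕ) (x : E) : (lap f g d ^ (m + 1)) x ∈ radS f g d := by
  rw [pow_succ', Module.End.mul_apply]
  exact lap_mem_radS _

lemma wd_mem_radS (i : Fin 4) (l : List (Fin 4)) (x : E) :
    H62W.wd (cmp f g d) (i :: l) x ∈ radS f g d := by
  rw [H62W.wd_cons, Module.End.mul_apply]
  exact cmp_mem_radS _ _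

lemma wd_mem_radS' (l : List (Fin 4)) (hl : l ≠ []) (x : E) :
    H62W.wd (cmp f g d) l x ∈ radS f g d := by
  obtain ⟨i, l', rfl⟩ := List.exists_cons_of_ne_nil hl
  exact wd_mem_radS h i l' x

end lapl

section har

variable (h : Pol N f L g d n s t P D S B) {Z : Module.End K E}
  (hZ : Har N f L g d s t S B Z)
include h hZ

lemma Har.c_cmp (i : Fin 4) : Z * cmp f g d i = cmp f g d i * Z := by
  have cb : ∀ {X Y : Module.End K E}, Z * X = X * Z → Z * Y = Y * Z → Z * br X Y = br X Y * Z := by
    intro X Y hX hY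
    unfold br
    rw [mul_sub, sub_mul, ← mul_assoc, hX, mul_assoc, hY, ← mul_assoc, ← mul_assoc, hY, mul_assoc Y,
      hX, ← mul_assoc]
  have hf : Z * f = f * Z := hZ.cg 1
  have hg : Z * g = g * Z := hZ.cg 3
  fin_cases i
  · exact hZ.cd
  · exact cb hf hZ.cd
  · exact cb hg hZ.cd
  · exact cb hf (cb hg hZ.cd)

lemma Har.radS (x : E) (hx : x ∈ H62X.radS f g d) : Z x ∈ H62X.radS f g d := by
  unfold H62X.radS H62W.Setup.radS at hx
  induction hx using Submodule.iSup_induction' with
  | mem i x hx =>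
    obtain ⟨y, rfl⟩ := hx
    have h1 : Z (cmp f g d i y) = cmp f g d i (Z y) := LinearMap.congr_fun (hZ.c_cmp h i) y
    change Z (cmp f g d i y) ∈ _
    rw [h1]
    exact cmp_mem_radS _ _
  | zero => rw [map_zero]; exact Submodule.zero_mem _
  | add x y _ _ h1 h2 => rw [map_add]; exact Submodule.add_mem _ h1 h2

/-- membership in `J` -/
lemma Har.J_of {X X' : Module.End K E} (hX : X ∈ B) (hX' : X' ∈ B) (hadj : Adj S X X')
    (r1 : ∀ x, X x ∈ H62X.radS f g d) (r2 : ∀ x, X' x ∈ H62X.radS f g d) (a : Fin 4)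
    (tt : ∀ x, (X * (gen N f L g a * Z)) x ∈ tot N f L g) :
    J S B (H62X.radS f g d ⊓ tot N f L g) (X * (gen N f L g a * Z)) := by
  refine ⟨mul_mem hX (mul_mem (gen_mem h a) hZ.mem), fun x => ⟨r1 _, tt x⟩,
    Z * gen N f L g a * X', mul_mem (mul_mem hZ.mem (gen_mem h a)) hX',
    hadj.mul ((adj_gen h a).mul hZ.adj), fun x => ?_⟩
  have e : (Z * gen N f L g a * X') x = gen N f L g a (Z (X' x)) := by
    rw [hZ.cg]; rfl
  rw [e]
  exact ⟨(stab_radS h.bi).gen a _ (hZ.radS h _ (r2 x)), mem_tot h.bi _ _⟩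

lemma tot_aniso {R U : Submodule K E} (hU : U ≤ tot N f L g)
    (hA : ∀ i j, (i, j) ≠ (0, 0) → Aniso N f L g n s t S B R i j) :
    ∀ i j, (∃ x ∈ U, x ∈ prim f g n s t i j ∧ x ≠ 0) → Aniso N f L g n s t S B R i j := by
  rintro i j ⟨x, hxU, hxp, hx0⟩
  refine hA i j ?_
  intro hij
  obtain ⟨rfl, rfl⟩ := Prod.mk.inj hij
  exact hx0 (tot_prim h (hU hxU) hxp)

variable (hA : ∀ i j, (i, j) ≠ (0, 0) →
  Aniso N f L g n s t S B (H62X.radS f g d ⊓ tot N f L g) i j)
include hA

/-- The Laplacian vanishes on `Z (tot)`. -/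
lemma Har.lap_zero (a : Fin 4) : lap f g d * (gen N f L g a * Z) = 0 := by
  have hbi := h.bi
  by_contra h0
  obtain ⟨M, hM⟩ := hZ.nil
  have hM' : ∃ M, lap f g d ^ M * (lap f g d * (gen N f L g a * Z)) = 0 := by
    refine ⟨M, ?_⟩
    rw [← mul_assoc, ← pow_succ, pow_succ', mul_assoc, ← mul_assoc _ _ Z,
      ← lap_pow_gen hbi, mul_assoc, hM, mul_zero, mul_zero]
  obtain ⟨m, -, hm0, hm⟩ := H62W.exists_last (A := B) (lap_mem h)
    (mul_mem (lap_mem h) (mul_mem (gen_mem h a) hZ.mem)) h0 hM'
  have e : lap f g d ^ m * (lap f g d * (gen N f L g a * Z)) =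
      lap f g d ^ (m + 1) * (gen N f L g a * Z) := by
    rw [← mul_assoc, ← pow_succ]
  have htt : ∀ x, (lap f g d ^ (m + 1) * (gen N f L g a * Z)) x ∈ tot N f L g := by
    intro x
    rw [← mul_assoc, ← lap_pow_gen hbi, mul_assoc]
    exact mem_tot hbi _ _
  refine hm0 (op_bot h ((stab_radS hbi).inf (stab_tot hbi))
    (((stab_ker_lap hbi).inf (stab_range_lap hbi)).inf (stab_tot hbi))
    (tot_aniso h hZ (fun x hx => hx.2) hA) ?_ ?_ ?_)
  · rintro x ⟨⟨-, ⟨y, rfl⟩⟩, -⟩ z ⟨⟨hz, -⟩, -⟩
    have hz' : lap f g d z = 0 := hz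
    rw [(adj_lap h).1, hz', map_zero]
  · rw [e]
    exact hZ.J_of h (pow_mem (lap_mem h) _) (pow_mem (lap_mem h) _) ((adj_lap h).pow _)
      (fun x => lap_pow_mem_radS m x) (fun x => lap_pow_mem_radS m x) a htt
  · intro x
    refine ⟨⟨LinearMap.congr_fun hm x, ?_⟩, ?_⟩
    · rw [e, pow_succ', mul_assoc]
      exact ⟨_, rfl⟩
    · rw [e]
      exact htt x

/-- the image of `tot` under `Z` -/
def V0 (N f L g Z : Module.End K E) : Submodule K E := (tot N f L g).map Z

omit h hZ hA in
lemma V0_induction {p : E → Prop} (h0 : ∀ b x, p (Z (gen N f L g b x)))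
    (hadd : ∀ x y, p x → p y → p (x + y)) {x : E} (hx : x ∈ V0 N f L g Z) : p x := by
  obtain ⟨y, hy, rfl⟩ := hx
  refine tot_induction (p := fun y => p (Z y)) h0 (fun x y h1 h2 => ?_) hy
  rw [map_add]
  exact hadd _ _ h1 h2

omit hA in
lemma stab_V0 : Stab N f L g s t (V0 N f L g Z) := by
  have key : ∀ T : Module.End K E, Z * T = T * Z → (∀ x ∈ tot N f L g, T x ∈ tot N f L g) →
      ∀ x ∈ V0 N f L g Z, T x ∈ V0 N f L g Z := by
    rintro T hT hT' x ⟨y, hy, rfl⟩
    exact ⟨T y, hT' y hy, LinearMap.congr_fun hT y⟩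
  exact stab_of_gen (fun b => key _ (hZ.cg b) ((stab_tot h.bi).gen b))
    (fun p => key _ (hZ.cs p) ((stab_tot h.bi).s p))
    (fun w => key _ (hZ.ct w) ((stab_tot h.bi).t w))

omit hA in
lemma V0_le : V0 N f L g Z ≤ tot N f L g := by
  intro x hx
  refine V0_induction (p := fun x => x ∈ tot N f L g) ?_ (fun x y => Submodule.add_mem _) hx
  intro b x
  have : Z (gen N f L g b x) = gen N f L g b (Z x) := LinearMap.congr_fun (hZ.cg b) x
  rw [this]
  exact mem_tot h.bi _ _

/-- the span of the images of `Z (tot)` under the words of length `m` -/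
def Um (f g d : Module.End K E) (V : Submodule K E) (m : ℕ) : Submodule K E :=
  ⨆ l : {l : List (Fin 4) // l.length = m}, V.map (H62W.wd (cmp f g d) l.1)

omit h hZ hA in
lemma Um_mem {V : Submodule K E} {l : List (Fin 4)} {x : E} (hx : x ∈ V) :
    H62W.wd (cmp f g d) l x ∈ Um f g d V l.length :=
  Submodule.mem_iSup_of_mem (⟨l, rfl⟩ : {l' : List (Fin 4) // l'.length = l.length}) ⟨x, hx, rfl⟩

omit h hZ hA in
lemma Um_induction {V : Submodule K E} {m : ℕ} {p : E → Prop}
    (h0 : ∀ l : List (Fin 4), l.length = m → ∀ x ∈ V, p (H62W.wd (cmp f g d) l x))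
    (hz : p 0) (hadd : ∀ x y, p x → p y → p (x + y)) {x : E} (hx : x ∈ Um f g d V m) : p x := by
  unfold Um at hx
  induction hx using Submodule.iSup_induction' with
  | mem l x hx =>
    obtain ⟨y, hy, rfl⟩ := hx
    exact h0 l.1 l.2 y hy
  | zero => exact hz
  | add x y _ _ h1 h2 => exact hadd _ _ h1 h2

omit h hZ hA in
lemma cmp_Um {V : Submodule K E} {m : ℕ} (i : Fin 4) {x : E} (hx : x ∈ Um f g d V m) :
    cmp f g d i x ∈ Um f g d V (m + 1) := by
  refine Um_induction (p := fun x => cmp f g d i x ∈ Um f g d V (m + 1)) ?_ ?_ ?_ hx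
  · intro l hl y hy
    have h1 := Um_mem (f := f) (g := g) (d := d) (l := i :: l) hy
    rw [List.length_cons, hl, H62W.wd_cons] at h1
    exact h1
  · rw [map_zero]; exact Submodule.zero_mem _
  · intro x y h1 h2; rw [map_add]; exact Submodule.add_mem _ h1 h2

omit hZ hA in
lemma stab_Um {V : Submodule K E} (hV : Stab N f L g s t V) (m : ℕ) :
    Stab N f L g s t (Um f g d V m) := by
  have hbi := h.bi
  have kg : ∀ l : List (Fin 4), ∀ b, ∀ x ∈ V,
      gen N f L g b (H62W.wd (cmp f g d) l x) ∈ Um f g d V l.length := by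
    intro l
    induction l with
    | nil =>
      intro b x hx
      have h1 := Um_mem (f := f) (g := g) (d := d) (l := []) (hV.gen b x hx)
      exact h1
    | cons i l ih =>
      intro b x hx
      rw [H62W.wd_cons, Module.End.mul_apply]
      have h1 : gen N f L g b (cmp f g d i (H62W.wd (cmp f g d) l x)) =
          cmp f g d i (gen N f L g b (H62W.wd (cmp f g d) l x)) +
          br (gen N f L g b) (cmp f g d i) (H62W.wd (cmp f g d) l x) := by
        rw [br_app]; abel
      rw [h1, List.length_cons]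
      refine Submodule.add_mem _ (cmp_Um i (ih b x hx)) ?_
      rcases br_cmp hbi b i with h2 | ⟨j, h2⟩
      · rw [h2]; exact Submodule.zero_mem _
      · rw [h2]; exact cmp_Um j (Um_mem hx)
  have ks : ∀ l : List (Fin 4), ∀ p, ∀ x ∈ V,
      s p (H62W.wd (cmp f g d) l x) ∈ Um f g d V l.length := by
    intro l
    induction l with
    | nil =>
      intro p x hx
      exact Um_mem (f := f) (g := g) (d := d) (l := []) (hV.s p x hx)
    | cons i l ih =>
      intro p x hx
      rw [H62W.wd_cons, Module.End.mul_apply]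
      obtain ⟨a, b, h1, -⟩ := shift_cmp hbi i
      have h2 := LinearMap.congr_fun (h1 (p - a)) (H62W.wd (cmp f g d) l x)
      rw [sub_add_cancel] at h2
      have h3 : s p (cmp f g d i (H62W.wd (cmp f g d) l x)) =
        cmp f g d i (s (p - a) (H62W.wd (cmp f g d) l x)) := h2.symm
      rw [h3, List.length_cons]
      exact cmp_Um i (ih _ x hx)
  have kt : ∀ l : List (Fin 4), ∀ p, ∀ x ∈ V,
      t p (H62W.wd (cmp f g d) l x) ∈ Um f g d V l.length := by
    intro l
    induction l with
    | nil =>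
      intro p x hx
      exact Um_mem (f := f) (g := g) (d := d) (l := []) (hV.t p x hx)
    | cons i l ih =>
      intro p x hx
      rw [H62W.wd_cons, Module.End.mul_apply]
      obtain ⟨a, b, -, h1⟩ := shift_cmp hbi i
      have h2 := LinearMap.congr_fun (h1 (p - b)) (H62W.wd (cmp f g d) l x)
      rw [sub_add_cancel] at h2
      have h3 : t p (cmp f g d i (H62W.wd (cmp f g d) l x)) =
        cmp f g d i (t (p - b) (H62W.wd (cmp f g d) l x)) := h2.symm
      rw [h3, List.length_cons]
      exact cmp_Um i (ih _ x hx)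
  have lift : ∀ T : Module.End K E, (∀ l : List (Fin 4), ∀ x ∈ V,
      T (H62W.wd (cmp f g d) l x) ∈ Um f g d V l.length) →
      ∀ x ∈ Um f g d V m, T x ∈ Um f g d V m := by
    intro T hT x hx
    refine Um_induction (p := fun x => T x ∈ Um f g d V m) ?_ ?_ ?_ hx
    · intro l hl y hy
      have := hT l y hy
      rwa [hl] at this
    · rw [map_zero]; exact Submodule.zero_mem _
    · intro x y h1 h2; rw [map_add]; exact Submodule.add_mem _ h1 h2
  exact stab_of_gen (fun b => lift _ fun l => kg l b) (fun p => lift _ fun l => ks l p)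
    (fun w => lift _ fun l => kt l w)

/-- the words of length `m` map `Z (tot)` to the trivial part -/
def Q (N f L g d Z : Module.End K E) (m : ℕ) : Prop :=
  ∀ l : List (Fin 4), m ≤ l.length → ∀ x ∈ V0 N f L g Z, H62W.wd (cmp f g d) l x ∈ triv N f L g

lemma Q_five : Q N f L g d Z 5 := by
  have hbi := h.bi
  intro l hl x hx
  have hlap : ∀ (l : List (Fin 4)) (a : Fin 4), lap f g d *
      (H62W.wd (cmp f g d) l * (gen N f L g a * Z)) = 0 := by
    intro l a
    induction l with
    | nil => simpa [H62W.wd] using hZ.lap_zero h hA a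
    | cons i l ih => rw [H62W.wd_cons, mul_assoc, ← mul_assoc, ← cmp_lap hbi, mul_assoc, ih, mul_zero]
  have anti : ∀ (a i j : Fin 4) (l : List (Fin 4)),
      cmp f g d i * (cmp f g d j * (H62W.wd (cmp f g d) l * (gen N f L g a * Z))) =
      -(cmp f g d j * (cmp f g d i * (H62W.wd (cmp f g d) l * (gen N f L g a * Z)))) := by
    intro a i j l
    have := cmp_anti hbi (hlap l a) i j
    rwa [mul_assoc, mul_assoc] at this
  have key : ∀ l : List (Fin 4), ¬ l.Nodup → ∀ a,
      H62W.wd (cmp f g d) l * (gen N f L g a * Z) = 0 := by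
    intro l
    induction l with
    | nil => intro h1; exact absurd List.nodup_nil h1
    | cons i l ih =>
      intro h1 a
      rw [H62W.wd_cons, mul_assoc]
      by_cases hi : i ∈ l
      · exact H62W.wd_kill (anti a) (cmp_sq hbi) l hi
      · have h2 : ¬ l.Nodup := fun h2 => h1 (List.nodup_cons.2 ⟨hi, h2⟩)
        rw [ih h2 a, mul_zero]
  have hnd : ¬ l.Nodup := by
    intro h1
    have := h1.length_le_card
    simp only [Fintype.card_fin] at this
    omega
  have : H62W.wd (cmp f g d) l x = 0 := by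
    refine V0_induction (p := fun x => H62W.wd (cmp f g d) l x = 0) ?_ ?_ hx
    · intro b y
      have h1 : Z (gen N f L g b y) = (gen N f L g b * Z) y := LinearMap.congr_fun (hZ.cg b) y
      rw [h1]
      exact LinearMap.congr_fun (key l hnd b) y
    · intro x y h1 h2; rw [map_add, h1, h2, add_zero]
  rw [this]
  exact Submodule.zero_mem _

lemma Q_step {m : ℕ} (hm : 2 ≤ m) (hQ : Q N f L g d Z m) : Q N f L g d Z (m - 1) := by
  have hbi := h.bi
  have hV := stab_V0 h hZ
  intro l hl x hx
  by_cases hl' : m ≤ l.length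
  · exact hQ l hl' x hx
  have hlen : l.length = m - 1 := by omega
  have hne : l ≠ [] := by rintro rfl; simp at hlen; omega
  -- the isotropic subspace
  have hU : Stab N f L g s t (Um f g d (V0 N f L g Z) (m - 1) ⊓ tot N f L g) :=
    (stab_Um h hV (m - 1)).inf (stab_tot hbi)
  have iso : ∀ x ∈ Um f g d (V0 N f L g Z) (m - 1) ⊓ tot N f L g,
      ∀ y ∈ Um f g d (V0 N f L g Z) (m - 1) ⊓ tot N f L g, S x y = 0 := by
    rintro x ⟨hx, -⟩ y ⟨hy, -⟩
    refine Um_induction (p := fun x => S x y = 0) ?_ (by simp) ?_ hx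
    · intro l1 hl1 x hx
      refine Um_induction (p := fun y => S (H62W.wd (cmp f g d) l1 x) y = 0) ?_ (by simp) ?_ hy
      · intro l2 hl2 y hy
        obtain ⟨c', -, h1, h2⟩ := adj_wd h l1
        rw [h1.1]
        have h3 : H62W.wd (cmp f g d) (l1.reverse ++ l2) y ∈ triv N f L g :=
          hQ _ (by rw [List.length_append, List.length_reverse, hl1, hl2]; omega) y hy
        have h4 : H62W.wd (cmp f g d) (l1.reverse ++ l2) y =
            H62W.wd (cmp f g d) l1.reverse (H62W.wd (cmp f g d) l2 y) := by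
          unfold H62W.wd
          rw [List.map_append, List.prod_append]; rfl
        rw [h4] at h3
        have h5 := tot_triv h (V0_le h hZ hx) h3
        rcases h2 with rfl | rfl
        · exact h5
        · rw [LinearMap.neg_apply, map_neg, h5, neg_zero]
      · intro y y' h1 h2; rw [map_add, h1, h2, add_zero]
    · intro x x' h1 h2; rw [map_add, LinearMap.add_apply, h1, h2, add_zero]
  have key : ∀ a b : Fin 4, gen N f L g b * H62W.wd (cmp f g d) l * (gen N f L g a * Z) = 0 := by
    intro a b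
    obtain ⟨c', hc', h1, h2⟩ := adj_wd h l
    have hr' : ∀ x, c' x ∈ H62X.radS f g d := by
      intro x
      have h3 := wd_mem_radS' hbi l.reverse (by simpa using hne) x
      rcases h2 with rfl | rfl
      · exact h3
      · exact Submodule.neg_mem _ h3
    have hwB : H62W.wd (cmp f g d) l ∈ B := by
      rcases h2 with h3 | h3
      all_goals exact H62W.wd_mem (cmp_mem h) l
    have htt : ∀ x, (gen N f L g b * H62W.wd (cmp f g d) l * (gen N f L g a * Z)) x ∈
        tot N f L g := by
      intro x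
      rw [mul_assoc]
      exact mem_tot hbi _ _
    refine op_bot h ((stab_radS hbi).inf (stab_tot hbi)) hU
      (tot_aniso h hZ (fun x hx => hx.2) hA) iso ?_ ?_
    · exact hZ.J_of h (mul_mem (gen_mem h b) hwB) (mul_mem hc' (gen_mem h b))
        ((adj_gen h b).mul h1)
        (fun x => (stab_radS hbi).gen b _ (wd_mem_radS' hbi l hne x))
        (fun x => hr' _) a htt
    · intro x
      refine ⟨?_, htt x⟩
      rw [mul_assoc, Module.End.mul_apply]
      refine (stab_Um h hV (m - 1)).gen b _ ?_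
      have h3 : (H62W.wd (cmp f g d) l * (gen N f L g a * Z)) x =
          H62W.wd (cmp f g d) l (Z (gen N f L g a x)) := by
        rw [← hZ.cg]; rfl
      rw [h3, ← hlen]
      exact Um_mem ⟨_, mem_tot hbi _ _, rfl⟩
  have key' : ∀ b, gen N f L g b (H62W.wd (cmp f g d) l x) = 0 := by
    intro b
    refine V0_induction (p := fun x => gen N f L g b (H62W.wd (cmp f g d) l x) = 0) ?_ ?_ hx
    · intro a y
      have h1 : Z (gen N f L g a y) = (gen N f L g a * Z) y := LinearMap.congr_fun (hZ.cg a) y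
      rw [h1]
      exact LinearMap.congr_fun (key a b) y
    · intro x y h1 h2; rw [map_add, map_add, h1, h2, add_zero]
  exact mem_triv.2 ⟨key' 0, key' 1, key' 2, key' 3⟩

/-- all components map `Z (tot)` to the trivial part -/
lemma Q_one : Q N f L g d Z 1 := by
  have h4 : Q N f L g d Z 4 := Q_step h hZ hA (by norm_num) (Q_five h hZ hA)
  have h3 : Q N f L g d Z 3 := Q_step h hZ hA (by norm_num) h4
  have h2 : Q N f L g d Z 2 := Q_step h hZ hA (by norm_num) h3
  exact Q_step h hZ hA (by norm_num) h2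

end har

end Pool.Agent.H62X
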