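import Pool.Agent.W_a3c811_h62w.Ab4

/-! The differential vanishes on the kernel part of the Laplacian: the main theorem. -/

noncomputable section

set_option linter.unusedSectionVars false

namespace Pool.Agent.H62X

open Module Pool.Agent.H79L

universe v w

variable {K : Type v} [Field K] [CharZero K] {E : Type w} [AddCommGroup E] [Module K E]
  [FiniteDimensional K E]
  {N f L g d : Module.End K E} {n : ℤ} {s t : ℤ → Module.End K E}
  {P D : Finset ℤ} {S : E →ₗ[K] E →ₗ[K] K} {B : Subring (Module.End K E)}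

section pos

variable (h : Bi N f L g d n s t P D)
include h

lemma triv_pos {x : E} (hx : x ∈ triv N f L g) : s 0 x = x ∧ t n x = x := by
  obtain ⟨h1, h2, h3, h4⟩ := mem_triv.1 hx
  have e1 : s 0 x = x := h.sl.proj_of (p := 0) (by
    change N (f x) - f (N x) = _
    rw [h1, h2]; simp)
  have e2 : t (0 + n) x = x := h.sl2.proj_of (p := 0) (by
    change L (g x) - g (L x) = _
    rw [h3, h4]; simp)
  rw [zero_add] at e2
  exact ⟨e1, e2⟩

lemma pos_zero {p p' : ℤ} (hp : p ≠ p') {x : E} (h1 : s p x = x) (h2 : s p' x = x) : x = 0 := by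
  have := LinearMap.congr_fun (h.sl.orth p p' hp) x
  rw [Module.End.mul_apply, h2, h1] at this
  exact this

lemma deg_zero {p p' : ℤ} (hp : p ≠ p') {x : E} (h1 : t p x = x) (h2 : t p' x = x) : x = 0 := by
  have := LinearMap.congr_fun (h.ortht p p' hp) x
  rw [Module.End.mul_apply, h2, h1] at this
  exact this

/-- vectors of position not zero lie in `tot` -/
lemma tot_of_pos {p : ℤ} (hp : p ≠ 0) {x : E} (h1 : s p x = x) : x ∈ tot N f L g := by
  have e : N (f x) - f (N x) = (p : K) • x := h.sl.wt h1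
  have hp' : (p : K) ≠ 0 := Int.cast_ne_zero.2 hp
  have e2 : x = (p : K)⁻¹ • (N (f x) - f (N x)) := by
    rw [e, smul_smul, inv_mul_cancel₀ hp', one_smul]
  rw [e2]
  refine Submodule.smul_mem _ _ (Submodule.sub_mem _ ?_ ?_)
  · exact mem_tot h 0 (f x)
  · exact mem_tot h 1 (N x)

lemma tot_of_deg {w : ℤ} (hw : w ≠ n) {x : E} (h1 : t w x = x) : x ∈ tot N f L g := by
  have h1' : (fun p => t (p + n)) (w - n) x = x := by
    change t (w - n + n) x = x
    rw [sub_add_cancel, h1]
  have e : L (g x) - g (L x) = ((w - n : ℤ) : K) • x := h.sl2.wt h1'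
  have hp' : ((w - n : ℤ) : K) ≠ 0 := Int.cast_ne_zero.2 (sub_ne_zero.2 hw)
  have e2 : x = ((w - n : ℤ) : K)⁻¹ • (L (g x) - g (L x)) := by
    rw [e, smul_smul, inv_mul_cancel₀ hp', one_smul]
  rw [e2]
  refine Submodule.smul_mem _ _ (Submodule.sub_mem _ ?_ ?_)
  · exact mem_tot h 2 (g x)
  · exact mem_tot h 3 (L x)

lemma app_d_s (p : ℤ) (x : E) : s (p + 1) (d x) = d (s p x) :=
  (LinearMap.congr_fun (h.ds p) x).symm

lemma app_d_t (p : ℤ) (x : E) : t (p + 1) (d x) = d (t p x) :=
  (LinearMap.congr_fun (h.dt p) x).symm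

end pos

variable (h : Pol N f L g d n s t P D S B) {Z : Module.End K E}
  (hZ : Har N f L g d s t S B Z)
include h hZ

lemma zero_of_aniso00 (hQ : Q N f L g d Z 1)
    (h0 : Aniso N f L g n s t S B (radS f g d) 0 0) (a : Fin 4) :
    d * (gen N f L g a * Z) = 0 := by
  have hbi := h.bi
  have hd0 : ∀ x, d x ∈ radS f g d := fun x => cmp_mem_radS (f := f) (g := g) (d := d) 0 x
  refine h0 _ ⟨mul_mem h.md (mul_mem (gen_mem h a) hZ.mem), fun x => hd0 _,
    Z * gen N f L g a * d, mul_mem (mul_mem hZ.mem (gen_mem h a)) h.md,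
    h.adjd.mul ((adj_gen h a).mul hZ.adj), fun x => ?_⟩ ?_ ?_
  · have e : (Z * gen N f L g a * d) x = gen N f L g a (Z (d x)) := by
      rw [hZ.cg]; rfl
    rw [e]
    exact (stab_radS hbi).gen a _ (hZ.radS h _ (hd0 x))
  · intro x
    rw [prim_zero hbi]
    have h1 := hQ [0] le_rfl (Z (gen N f L g a x)) ⟨_, mem_tot hbi a x, rfl⟩
    have e : H62W.wd (cmp f g d) [0] = d := by
      unfold H62W.wd
      simp only [List.map_cons, List.map_nil, List.prod_cons, List.prod_nil, mul_one]
      rfl
    rw [e] at h1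
    have e2 : (d * (gen N f L g a * Z)) x = d (Z (gen N f L g a x)) := by
      rw [← hZ.cg]; rfl
    rw [e2]
    exact h1
  · intro x y
    have h1 : d ((d * (gen N f L g a * Z)) y) = 0 :=
      LinearMap.congr_fun hbi.dd ((gen N f L g a * Z) y)
    change S (d ((gen N f L g a * Z) x)) ((d * (gen N f L g a * Z)) y) = 0
    rw [h.ad, h1, map_zero]

lemma zero_of_wm (hQ : Q N f L g d Z 1) (h0 : WM1 N d n s t) (a : Fin 4) :
    d * (gen N f L g a * Z) = 0 := by
  have hbi := h.bi
  have hV := stab_V0 h hZ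
  have e0 : H62W.wd (cmp f g d) [0] = d := by
    unfold H62W.wd
    simp only [List.map_cons, List.map_nil, List.prod_cons, List.prod_nil, mul_one]
    rfl
  have htr : ∀ v ∈ V0 N f L g Z, d v ∈ triv N f L g := by
    intro v hv
    have h1 := hQ [0] le_rfl v hv
    rwa [e0] at h1
  -- degree different from `n - 1`
  have k1 : ∀ w, w ≠ n - 1 → ∀ v ∈ V0 N f L g Z, t w v = v → d v = 0 := by
    intro w hw v hv hv1
    refine deg_zero hbi (p := w + 1) (p' := n) (by omega) ?_ (triv_pos hbi (htr v hv)).2
    rw [app_d_t hbi, hv1]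
  have k2 : ∀ p, p ≠ -1 → ∀ v ∈ V0 N f L g Z, s p v = v → d v = 0 := by
    intro p hp v hv hv1
    refine pos_zero hbi (p := p + 1) (p' := 0) (by omega) ?_ (triv_pos hbi (htr v hv)).1
    rw [app_d_s hbi, hv1]
  have k3 : ∀ v ∈ V0 N f L g Z, s (-1) v = v → t (n - 1) v = v → d v = 0 := by
    intro v hv hv1 hv2
    have hZv : Z v = v := by
      obtain ⟨y, -, rfl⟩ := hv
      exact LinearMap.congr_fun hZ.idem y
    have cN : ∀ x, Z (N x) = N (Z x) := fun x => LinearMap.congr_fun (hZ.cg 0) x
    have cd : ∀ x, Z (d x) = d (Z x) := fun x => LinearMap.congr_fun hZ.cd x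
    have hNv1 : s 1 (N v) = N v := by
      have := hbi.sl.mem_N hv1
      rwa [show (-1 : ℤ) + 2 = 1 by norm_num] at this
    have hNv2 : t (n - 1) (N v) = N v := by
      have := LinearMap.congr_fun (hbi.Nt (n - 1)) v
      rw [Module.End.mul_apply, Module.End.mul_apply, hv2] at this
      exact this.symm
    have hNd : d (N v) = 0 := by
      have h1 : N (d v) = d (N v) := LinearMap.congr_fun hbi.Nd v
      rw [← h1]
      exact (mem_triv.1 (htr v hv)).1
    obtain ⟨x, y, hx1, hx2, hx3, hxy⟩ := h0 _ hNv1 hNv2 hNd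
    -- make `y` homogeneous of degree `n - 2`
    have e1 : N v = N x + d (t (n - 2) y) := by
      have h1 := congrArg (t (n - 1)) hxy
      rw [hNv2, map_add] at h1
      have h2 : t (n - 1) (N x) = N x := by
        have := LinearMap.congr_fun (hbi.Nt (n - 1)) x
        rw [Module.End.mul_apply, Module.End.mul_apply, hx2] at this
        exact this.symm
      have h3 : t (n - 1) (d y) = d (t (n - 2) y) := by
        have := app_d_t hbi (n - 2) y
        rwa [show n - 2 + 1 = n - 1 by ring] at this
      rw [h2, h3] at h1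
      exact h1
    have htt : t (n - 2) (t (n - 2) y) = t (n - 2) y := LinearMap.congr_fun (hbi.idemt _) y
    have hy0 : d (Z (t (n - 2) y)) = 0 := by
      refine k1 (n - 2) (by omega) _ ⟨t (n - 2) y, tot_of_deg hbi (w := n - 2) (by omega) htt, rfl⟩ ?_
      have := LinearMap.congr_fun (hZ.ct (n - 2)) (t (n - 2) y)
      rw [Module.End.mul_apply, Module.End.mul_apply, htt] at this
      exact this.symm
    have e2 := congrArg Z e1
    rw [map_add, cN, cN, cd, hZv, hy0, add_zero] at e2
    have hZx : s (-1) (Z x) = Z x := by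
      have := LinearMap.congr_fun (hZ.cs (-1)) x
      rw [Module.End.mul_apply, Module.End.mul_apply, hx1] at this
      exact this.symm
    have e3 : v - Z x = 0 := by
      refine hbi.sl.inj 1 1 le_rfl (v - Z x) ?_ ?_
      · rw [map_sub, Nat.cast_one, hv1, hZx]
      · rw [pow_one, map_sub, e2, sub_self]
    rw [sub_eq_zero.1 e3, ← cd, hx3, map_zero]
  have key : ∀ v ∈ V0 N f L g Z, d v = 0 := by
    intro v hv
    have h1 := hbi.decomp v
    rw [h1, map_sum]
    refine Finset.sum_eq_zero fun w _ => ?_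
    rw [map_sum]
    refine Finset.sum_eq_zero fun p _ => ?_
    have hm : t w (s p v) ∈ V0 N f L g Z := hV.t w _ (hV.s p _ hv)
    have h2 : t w (t w (s p v)) = t w (s p v) := LinearMap.congr_fun (hbi.idemt w) _
    have h3 : s p (t w (s p v)) = t w (s p v) := by
      have e1 := LinearMap.congr_fun (hbi.st w p) (s p v)
      have e2 : s p (s p v) = s p v := LinearMap.congr_fun (hbi.sl.idem p) v
      rw [Module.End.mul_apply, Module.End.mul_apply, e2] at e1
      exact e1
    by_cases hw : w = n - 1
    · subst hw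
      by_cases hp : p = -1
      · subst hp
        exact k3 _ hm h3 h2
      · exact k2 p hp _ hm h3
    · exact k1 w hw _ hm h2
  refine LinearMap.ext fun x => ?_
  have e2 : (d * (gen N f L g a * Z)) x = d (Z (gen N f L g a x)) := by
    rw [← hZ.cg]; rfl
  rw [e2, LinearMap.zero_apply]
  exact key _ ⟨_, mem_tot hbi a x, rfl⟩

/-- The differential vanishes on the kernel part of the Laplacian, if all primitive parts except
perhaps `(0, 0)` are anisotropic for the operators with values in the sum of the images of the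
components of `d`, and either the primitive part `(0, 0)` is too, or `N` is surjective from
position `-1` to position `1` on the cohomology of degree `n - 1`. -/
theorem main1 (hA : ∀ i j, (i, j) ≠ (0, 0) →
      Aniso N f L g n s t S B (radS f g d ⊓ tot N f L g) i j)
    (h0 : Aniso N f L g n s t S B (radS f g d) 0 0 ∨ WM1 N d n s t) : d * Z = 0 := by
  have hbi := h.bi
  have hQ := Q_one h hZ hA
  have hg : ∀ a, d * (gen N f L g a * Z) = 0 := by
    intro a
    rcases h0 with h0 | h0
    · exact zero_of_aniso00 h hZ hQ h0 a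
    · exact zero_of_wm h hZ hQ h0 a
  -- the image of `d Z` is in the trivial part
  have h1 : ∀ a, gen N f L g a * (d * Z) = 0 := by
    intro a
    refine LinearMap.ext fun y => h.ndr _ fun x => ?_
    have e : S x (gen N f L g a (d (Z y))) = S (Z (d (gen N f L g a x))) y := by
      rw [← (adj_gen h a).1, ← h.ad, hZ.adj.1]
    have e2 : Z (d (gen N f L g a x)) = (d * (gen N f L g a * Z)) x := by
      have e3 : Z (d (gen N f L g a x)) = d (Z (gen N f L g a x)) :=
        LinearMap.congr_fun hZ.cd _
      rw [e3, ← hZ.cg]; rfl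
    change S x (gen N f L g a (d (Z y))) = 0
    rw [e, e2, hg a, LinearMap.zero_apply, map_zero, LinearMap.zero_apply]
  have h2 : ∀ y, d (Z y) ∈ triv N f L g := fun y =>
    mem_triv.2 ⟨LinearMap.congr_fun (h1 0) y, LinearMap.congr_fun (h1 1) y,
      LinearMap.congr_fun (h1 2) y, LinearMap.congr_fun (h1 3) y⟩
  -- `d Z` vanishes on `tot`
  have h3 : ∀ y ∈ tot N f L g, d (Z y) = 0 := by
    intro y hy
    refine tot_induction (p := fun y => d (Z y) = 0) ?_ ?_ hy
    · intro b x
      have e2 : d (Z (gen N f L g b x)) = (d * (gen N f L g b * Z)) x := by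
        rw [← hZ.cg]; rfl
      rw [e2, hg b]; rfl
    · intro x y h1 h2; rw [map_add, map_add, h1, h2, add_zero]
  refine LinearMap.ext fun y => ?_
  change d (Z y) = 0
  have h4 : y = ∑ p ∈ P, s p y := by
    rw [← LinearMap.sum_apply, hbi.sl.sum]; rfl
  rw [h4, map_sum, map_sum]
  refine Finset.sum_eq_zero fun p _ => ?_
  have hs : s p (s p y) = s p y := LinearMap.congr_fun (hbi.sl.idem p) y
  by_cases hp : p = 0
  · subst hp
    refine pos_zero hbi (p := 0 + 1) (p' := 0) (by norm_num) ?_ (triv_pos hbi (h2 _)).1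
    rw [app_d_s hbi]
    have := LinearMap.congr_fun (hZ.cs 0) (s 0 y)
    rw [Module.End.mul_apply, Module.End.mul_apply, hs] at this
    rw [← this]
  · exact h3 _ (tot_of_pos hbi hp hs)

end Pool.Agent.H62X
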