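import Pool.Agent.W_a3c811_h62w.Ring

/-! Linear algebra: two commuting `sl2`-triples with a differential, a self-adjoint form and a class
of submodules without isotropic members in the primitive parts. -/

namespace Pool.Agent.H62W

open Module

attribute [local instance 100] LieRing.ofAssociativeRing

variable {K V : Type*} [Field K] [CharZero K] [AddCommGroup V] [Module K V] [FiniteDimensional K V]

section sl2

/-- lowering a weight vector until it is killed -/
lemma exists_lowest {h f : End K V} (hf : h * f - f * h = -(2 • f)) {v : V} (hv : v ≠ 0) {μ : K}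
    (hμ : h v = μ • v) :
    ∃ n : ℕ, (f ^ n) v ≠ 0 ∧ f ((f ^ n) v) = 0 ∧ h ((f ^ n) v) = (μ - 2 * n) • (f ^ n) v := by
  have key : ∀ n : ℕ, h ((f ^ n) v) = (μ - 2 * n) • (f ^ n) v := by
    intro n
    induction n with
    | zero => simpa using hμ
    | succ n ih =>
      have h1 : h * f = f * h - 2 • f := by
        rw [sub_eq_iff_eq_add'.1 hf, sub_eq_add_neg]
      have h2 : h (f ((f ^ n) v)) = f (h ((f ^ n) v)) - (2 : K) • f ((f ^ n) v) := by
        have := LinearMap.congr_fun h1 ((f ^ n) v)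
        simpa [two_smul] using this
      rw [pow_succ', Module.End.mul_apply, h2, ih, map_smul, ← sub_smul]
      congr 1
      push_cast
      ring
  have hz : ∃ k, (f ^ k) v = 0 := by
    by_contra! contra
    let ev (n : ℕ) : K := μ - 2 * n
    have h_inj : Function.Injective ev := fun a b hab ↦ by
      simpa [ev, sub_right_inj, mul_eq_mul_left_iff, Nat.cast_inj] using hab
    have aux (x : Set.range ev) : h.HasEigenvector x ((f ^ x.property.choose) v) := by
      refine ⟨?_, contra _⟩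
      rw [Module.End.mem_eigenspace_iff]
      exact (key _).trans (congrArg (· • _) x.property.choose_spec)
    have _i := (h.eigenvectors_linearIndependent (Set.range ev) _ aux).finite
    exact (Set.infinite_range_of_injective h_inj) (Set.toFinite _)
  have hz0 : ¬ ((f ^ 0) v = 0) := by simpa using hv
  obtain ⟨n, hn, hn'⟩ := Nat.exists_not_and_succ_of_not_zero_of_exists hz0 hz
  refine ⟨n, hn, ?_, key n⟩
  rw [pow_succ', Module.End.mul_apply] at hn'
  exact hn'

lemma lowest_nat {h e f : End K V} (he : h * e - e * h = 2 • e) (hf : h * f - f * h = -(2 • f))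
    (hef : e * f - f * e = h) {v : V} (hv : v ≠ 0) {μ : K} (hμ : h v = μ • v) (hfv : f v = 0) :
    ∃ n : ℕ, μ = -(n : K) := by
  by_cases h0 : h = 0
  · refine ⟨0, ?_⟩
    rw [h0, LinearMap.zero_apply] at hμ
    simpa using (smul_eq_zero.1 hμ.symm).resolve_right hv
  have t : IsSl2Triple h e f :=
    { h_ne_zero := h0
      lie_e_f := by rw [Ring.lie_def]; exact hef
      lie_h_e_nsmul := by rw [Ring.lie_def]; exact he
      lie_h_f_nsmul := by rw [Ring.lie_def]; exact hf }
  have P : t.symm.HasPrimitiveVectorWith v (-μ) :=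
    { ne_zero := hv
      lie_h := by
        change (-h) v = (-μ) • v
        rw [LinearMap.neg_apply, hμ, neg_smul]
      lie_e := hfv }
  obtain ⟨n, hn⟩ := P.exists_nat
  exact ⟨n, by rw [← hn, neg_neg]⟩

/-- the square of the adjoint action of the lowering operator kills `d` -/
lemma ad_sq {h e f d : End K V} (he : h * e - e * h = 2 • e) (hf : h * f - f * h = -(2 • f))
    (hef : e * f - f * e = h) (hd : h * d - d * h = d) (hed : e * d = d * e) :
    f * (f * d - d * f) = (f * d - d * f) * f := by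
  by_cases h0 : d = 0
  · simp [h0]
  have hh : h ≠ 0 := by
    rintro rfl
    exact h0 (by simpa using hd.symm)
  have t : IsSl2Triple h e f :=
    { h_ne_zero := hh
      lie_e_f := by rw [Ring.lie_def]; exact hef
      lie_h_e_nsmul := by rw [Ring.lie_def]; exact he
      lie_h_f_nsmul := by rw [Ring.lie_def]; exact hf }
  have P : t.HasPrimitiveVectorWith d (1 : K) :=
    { ne_zero := h0
      lie_h := by rw [Ring.lie_def, one_smul]; exact hd
      lie_e := by rw [Ring.lie_def, hed, sub_self] }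
  have := P.pow_toEnd_f_eq_zero_of_eq_nat (n := 1) (by simp)
  rw [pow_succ, pow_one, Module.End.mul_apply, LieModule.toEnd_apply_apply,
    LieModule.toEnd_apply_apply, Ring.lie_def, Ring.lie_def] at this
  exact sub_eq_zero.1 this

omit [CharZero K] [FiniteDimensional K V] in
lemma comm_of {e f h a : End K V} (hef : e * f - f * e = h) (ea : e * a = a * e)
    (fa : f * a = a * f) : h * a = a * h := by
  have h1 : Commute e a := ea
  have h2 : Commute f a := fa
  rw [← hef]
  exact ((h1.mul_left h2).sub_left (h2.mul_left h1)).eq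

/-- a nonzero subspace which is stable under two commuting `sl2`-triples contains a nonzero
primitive vector of integral weights -/
lemma exists_prim {e1 f1 h1 e2 f2 h2 : End K V}
    (ef1 : e1 * f1 - f1 * e1 = h1) (he1 : h1 * e1 - e1 * h1 = 2 • e1)
    (hf1 : h1 * f1 - f1 * h1 = -(2 • f1)) (ef2 : e2 * f2 - f2 * e2 = h2)
    (he2 : h2 * e2 - e2 * h2 = 2 • e2) (hf2 : h2 * f2 - f2 * h2 = -(2 • f2))
    (ee : e1 * e2 = e2 * e1) (ef : e1 * f2 = f2 * e1) (fe : f1 * e2 = e2 * f1)
    (ff : f1 * f2 = f2 * f1) (sp1 : ⨆ μ, h1.eigenspace μ = ⊤) (sp2 : ⨆ μ, h2.eigenspace μ = ⊤)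
    {U : Submodule K V} (hU : U ≠ ⊥) (ue1 : ∀ x ∈ U, e1 x ∈ U) (uf1 : ∀ x ∈ U, f1 x ∈ U)
    (ue2 : ∀ x ∈ U, e2 x ∈ U) (uf2 : ∀ x ∈ U, f2 x ∈ U) :
    ∃ (i j : ℕ) (x : V), x ∈ U ∧ x ≠ 0 ∧ f1 x = 0 ∧ f2 x = 0 ∧ h1 x = -(i : K) • x ∧
      h2 x = -(j : K) • x := by
  have uh1 : ∀ x ∈ U, h1 x ∈ U := by
    intro x hx
    rw [← ef1]
    exact U.sub_mem (ue1 _ (uf1 _ hx)) (uf1 _ (ue1 _ hx))
  have uh2 : ∀ x ∈ U, h2 x ∈ U := by
    intro x hx
    rw [← ef2]
    exact U.sub_mem (ue2 _ (uf2 _ hx)) (uf2 _ (ue2 _ hx))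
  have h1e2 : h1 * e2 = e2 * h1 := comm_of ef1 ee fe
  have h1f2 : h1 * f2 = f2 * h1 := comm_of ef1 ef ff
  have h1h2 : h1 * h2 = h2 * h1 := (comm_of ef2 h1e2.symm h1f2.symm).symm
  have h2f1 : h2 * f1 = f1 * h2 := comm_of ef2 fe.symm ff.symm
  have d1 : U = ⨆ μ, U ⊓ h1.eigenspace μ :=
    Submodule.eq_iSup_inf_genEigenspace 1 uh1 (by simpa using sp1)
  obtain ⟨μ, hμ⟩ : ∃ μ, U ⊓ h1.eigenspace μ ≠ ⊥ := by
    by_contra! hc
    exact hU (by rw [d1]; simp [hc])
  have uh2' : ∀ x ∈ U ⊓ h1.eigenspace μ, h2 x ∈ U ⊓ h1.eigenspace μ := by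
    intro x hx
    refine ⟨uh2 _ hx.1, ?_⟩
    have h3 := Module.End.mem_eigenspace_iff.1 hx.2
    refine Module.End.mem_eigenspace_iff.2 ?_
    rw [← Module.End.mul_apply, h1h2, Module.End.mul_apply, h3, map_smul]
  have d2 : U ⊓ h1.eigenspace μ = ⨆ ν, (U ⊓ h1.eigenspace μ) ⊓ h2.eigenspace ν :=
    Submodule.eq_iSup_inf_genEigenspace 1 uh2' (by simpa using sp2)
  obtain ⟨ν, hν⟩ : ∃ ν, (U ⊓ h1.eigenspace μ) ⊓ h2.eigenspace ν ≠ ⊥ := by
    by_contra! hc
    exact hμ (by rw [d2]; simp [hc])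
  obtain ⟨x, hx, hx0⟩ := Submodule.exists_mem_ne_zero_of_ne_bot hν
  have hxU : x ∈ U := hx.1.1
  have hx1 : h1 x = μ • x := Module.End.mem_eigenspace_iff.1 hx.1.2
  have hx2 : h2 x = ν • x := Module.End.mem_eigenspace_iff.1 hx.2
  obtain ⟨n, hn0, hn1, hn2⟩ := exists_lowest hf1 hx0 hx1
  have upow1 : ∀ m : ℕ, ∀ x ∈ U, (f1 ^ m) x ∈ U := by
    intro m
    induction m with
    | zero => intro x hx; simpa using hx
    | succ m ih => intro x hx; rw [pow_succ', Module.End.mul_apply]; exact uf1 _ (ih _ hx)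
  have upow2 : ∀ m : ℕ, ∀ x ∈ U, (f2 ^ m) x ∈ U := by
    intro m
    induction m with
    | zero => intro x hx; simpa using hx
    | succ m ih => intro x hx; rw [pow_succ', Module.End.mul_apply]; exact uf2 _ (ih _ hx)
  set y := (f1 ^ n) x with hy
  have hy2 : h2 y = ν • y := by
    have hc : Commute h2 (f1 ^ n) := (show Commute h2 f1 from h2f1).pow_right n
    rw [hy, ← Module.End.mul_apply, hc.eq, Module.End.mul_apply, hx2, map_smul]
  obtain ⟨m, hm0, hm1, hm2⟩ := exists_lowest hf2 hn0 hy2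
  set z := (f2 ^ m) y with hz
  have hz1 : h1 z = (μ - 2 * n) • z := by
    have hc : Commute h1 (f2 ^ m) := (show Commute h1 f2 from h1f2).pow_right m
    rw [hz, ← Module.End.mul_apply, hc.eq, Module.End.mul_apply, hn2, map_smul]
  have hzf : f1 z = 0 := by
    have hc : Commute f1 (f2 ^ m) := (show Commute f1 f2 from ff).pow_right m
    rw [hz, ← Module.End.mul_apply, hc.eq, Module.End.mul_apply, hn1, map_zero]
  obtain ⟨i, hi⟩ := lowest_nat he1 hf1 ef1 hm0 hz1 hzf
  obtain ⟨j, hj⟩ := lowest_nat he2 hf2 ef2 hm0 hm2 hm1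
  refine ⟨i, j, z, upow2 _ _ (upow1 _ _ hxU), hm0, hzf, hm1, ?_, ?_⟩
  · rw [hz1, hi]
  · rw [hm2, hj]

end sl2

end Pool.Agent.H62W
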