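import Mathlib

/-! The four components of a differential under two commuting `sl2`-triples. -/

namespace Pool.Agent.H62W

section ring

variable {R : Type*} [Ring R]

/-- A square zero element `d` of bidegree `(1,1)` for two commuting `sl2`-triples, commuting with
the raising operators; `z1` and `z2` say that the square of the adjoint action of the lowering
operators kills `d`. -/
structure DD (e1 f1 h1 e2 f2 h2 d : R) : Prop where
  ef1 : e1 * f1 - f1 * e1 = h1
  ef2 : e2 * f2 - f2 * e2 = h2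
  ee : e1 * e2 = e2 * e1
  ef : e1 * f2 = f2 * e1
  fe : f1 * e2 = e2 * f1
  ff : f1 * f2 = f2 * f1
  ed1 : e1 * d = d * e1
  ed2 : e2 * d = d * e2
  hd1 : h1 * d - d * h1 = d
  hd2 : h2 * d - d * h2 = d
  dd : d * d = 0
  z1 : f1 * (f1 * d - d * f1) = (f1 * d - d * f1) * f1
  z2 : f2 * (f2 * d - d * f2) = (f2 * d - d * f2) * f2

variable {e1 f1 h1 e2 f2 h2 d : R}

/-- the commutator -/
def br (a b : R) : R := a * b - b * a

lemma br_mul (a b c : R) : br a (b * c) = br a b * c + b * br a c := by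
  unfold br; noncomm_ring

lemma br_add (a b c : R) : br a (b + c) = br a b + br a c := by
  unfold br; noncomm_ring

lemma br_zero (a : R) : br a 0 = 0 := by simp [br]

lemma br_br (a b c : R) : br a (br b c) = br (br a b) c + br b (br a c) := by
  unfold br; noncomm_ring

lemma br_eq_zero {a b : R} : br a b = 0 ↔ a * b = b * a := by
  unfold br; exact sub_eq_zero

lemma br_zero_left (a : R) : br 0 a = 0 := by simp [br]

/-- the four components -/
def q1 (f1 d : R) : R := br f1 d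

namespace DD

variable (H : DD e1 f1 h1 e2 f2 h2 d)
include H

lemma b_f1_q1 : br f1 (br f1 d) = 0 := br_eq_zero.2 H.z1
lemma b_f2_q2 : br f2 (br f2 d) = 0 := br_eq_zero.2 H.z2
lemma b_f1f2 : br f1 f2 = 0 := br_eq_zero.2 H.ff
lemma b_f2f1 : br f2 f1 = 0 := br_eq_zero.2 H.ff.symm
lemma b_e1f1 : br e1 f1 = h1 := H.ef1
lemma b_e2f2 : br e2 f2 = h2 := H.ef2
lemma b_e1f2 : br e1 f2 = 0 := br_eq_zero.2 H.ef
lemma b_e2f1 : br e2 f1 = 0 := br_eq_zero.2 H.fe.symm
lemma b_h1d : br h1 d = d := H.hd1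
lemma b_h2d : br h2 d = d := H.hd2
lemma b_e1d : br e1 d = 0 := br_eq_zero.2 H.ed1
lemma b_e2d : br e2 d = 0 := br_eq_zero.2 H.ed2

/-- the two ways to lower twice agree -/
lemma comm12 : br f1 (br f2 d) = br f2 (br f1 d) := by
  rw [br_br, H.b_f1f2, br_zero_left, zero_add]

lemma b_f2_q1 : br f2 (br f1 d) = br f1 (br f2 d) := H.comm12.symm

lemma b_f1_q12 : br f1 (br f1 (br f2 d)) = 0 := by
  rw [H.comm12, br_br, H.b_f1f2, br_zero_left, zero_add, H.b_f1_q1, br_zero]

lemma b_f2_q12 : br f2 (br f1 (br f2 d)) = 0 := by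
  rw [br_br, H.b_f2f1, br_zero_left, zero_add, H.b_f2_q2, br_zero]

lemma b_e1_q1 : br e1 (br f1 d) = d := by
  rw [br_br, H.b_e1f1, H.b_h1d, H.b_e1d, br_zero, add_zero]

lemma b_e2_q2 : br e2 (br f2 d) = d := by
  rw [br_br, H.b_e2f2, H.b_h2d, H.b_e2d, br_zero, add_zero]

lemma b_e1_q2 : br e1 (br f2 d) = 0 := by
  rw [br_br, H.b_e1f2, br_zero_left, H.b_e1d, br_zero, add_zero]

lemma b_e2_q1 : br e2 (br f1 d) = 0 := by
  rw [br_br, H.b_e2f1, br_zero_left, H.b_e2d, br_zero, add_zero]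

lemma b_h1_q2 : br h1 (br f2 d) = br f2 d := by
  have h1f2 : br h1 f2 = 0 := by
    rw [← H.b_e1f1, show br (br e1 f1) f2 = br e1 (br f1 f2) - br f1 (br e1 f2) by
      rw [br_br e1 f1 f2]; abel, H.b_f1f2, H.b_e1f2, br_zero, br_zero, sub_zero]
  rw [br_br, h1f2, br_zero_left, zero_add, H.b_h1d]

lemma b_h2_q1 : br h2 (br f1 d) = br f1 d := by
  have h2f1 : br h2 f1 = 0 := by
    rw [← H.b_e2f2, show br (br e2 f2) f1 = br e2 (br f2 f1) - br f2 (br e2 f1) by
      rw [br_br e2 f2 f1]; abel, H.b_f2f1, H.b_e2f1, br_zero, br_zero, sub_zero]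
  rw [br_br, h2f1, br_zero_left, zero_add, H.b_h2d]

lemma b_e1_q12 : br e1 (br f1 (br f2 d)) = br f2 d := by
  rw [br_br, H.b_e1f1, H.b_h1_q2, H.b_e1_q2, br_zero, add_zero]

lemma b_e2_q12 : br e2 (br f1 (br f2 d)) = br f1 d := by
  rw [H.comm12, br_br, H.b_e2f2, H.b_h2_q1, H.b_e2_q1, br_zero, add_zero]

/-- the Laplacian -/
lemma a01 : d * br f1 d + br f1 d * d = 0 := by
  have := br_mul f1 d d
  rw [H.dd, br_zero] at this
  rw [add_comm]; exact this.symm

lemma a02 : d * br f2 d + br f2 d * d = 0 := by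
  have := br_mul f2 d d
  rw [H.dd, br_zero] at this
  rw [add_comm]; exact this.symm

/-- `Δ = {d, d12}` is minus `{d1, d2}` -/
lemma a12 : br f1 d * br f2 d + br f2 d * br f1 d =
    -(d * br f1 (br f2 d) + br f1 (br f2 d) * d) := by
  have h := congrArg (br f1) H.a02
  rw [br_add, br_mul, br_mul, br_zero] at h
  rw [eq_neg_iff_add_eq_zero, ← h]
  abel

end DD

section two

variable [IsAddTorsionFree R] (H : DD e1 f1 h1 e2 f2 h2 d)
include H

lemma DD.a11 : br f1 d * br f1 d = 0 := by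
  have h := congrArg (br f1) H.a01
  rw [br_add, br_mul, br_mul, br_zero, H.b_f1_q1, mul_zero, zero_mul, add_zero, zero_add] at h
  have h2 : 2 • (br f1 d * br f1 d) = 0 := by rw [two_nsmul]; exact h
  exact (nsmul_eq_zero_iff_right two_ne_zero).1 h2

lemma DD.a22 : br f2 d * br f2 d = 0 := by
  have h := congrArg (br f2) H.a02
  rw [br_add, br_mul, br_mul, br_zero, H.b_f2_q2, mul_zero, zero_mul, add_zero, zero_add] at h
  have h2 : 2 • (br f2 d * br f2 d) = 0 := by rw [two_nsmul]; exact h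
  exact (nsmul_eq_zero_iff_right two_ne_zero).1 h2

lemma DD.a1_12 : br f1 d * br f1 (br f2 d) + br f1 (br f2 d) * br f1 d = 0 := by
  have h := congrArg (br f2) H.a11
  rw [br_mul, br_zero, H.b_f2_q1] at h
  rw [add_comm]; exact h

lemma DD.a2_12 : br f2 d * br f1 (br f2 d) + br f1 (br f2 d) * br f2 d = 0 := by
  have h := congrArg (br f1) H.a22
  rw [br_mul, br_zero] at h
  rw [add_comm]; exact h

lemma DD.a12_12 : br f1 (br f2 d) * br f1 (br f2 d) = 0 := by
  have h := congrArg (br f1) H.a2_12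
  rw [br_add, br_mul, br_mul, br_zero, H.b_f1_q12, mul_zero, zero_mul, add_zero, zero_add] at h
  have h2 : 2 • (br f1 (br f2 d) * br f1 (br f2 d)) = 0 := by rw [two_nsmul]; exact h
  exact (nsmul_eq_zero_iff_right two_ne_zero).1 h2

/-- the Laplacian -/
def lap (f1 f2 d : R) : R := d * br f1 (br f2 d) + br f1 (br f2 d) * d

lemma DD.lap_f1 : br f1 (lap f1 f2 d) = 0 := by
  unfold lap
  rw [br_add, br_mul, br_mul, H.b_f1_q12, mul_zero, zero_mul, add_zero, zero_add]
  exact H.a1_12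

lemma DD.lap_f2 : br f2 (lap f1 f2 d) = 0 := by
  unfold lap
  rw [br_add, br_mul, br_mul, H.b_f2_q12, mul_zero, zero_mul, add_zero, zero_add]
  exact H.a2_12

omit [IsAddTorsionFree R] in
lemma DD.lap_e1 : br e1 (lap f1 f2 d) = 0 := by
  unfold lap
  rw [br_add, br_mul, br_mul, H.b_e1_q12, H.b_e1d, zero_mul, mul_zero, add_zero, zero_add]
  exact H.a02

omit [IsAddTorsionFree R] in
lemma DD.lap_e2 : br e2 (lap f1 f2 d) = 0 := by
  unfold lap
  rw [br_add, br_mul, br_mul, H.b_e2_q12, H.b_e2d, zero_mul, mul_zero, add_zero, zero_add]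
  exact H.a01

omit [IsAddTorsionFree R] in
lemma DD.lap_d : br d (lap f1 f2 d) = 0 := by
  have : br d (lap f1 f2 d) = d * d * br f1 (br f2 d) - br f1 (br f2 d) * (d * d) := by
    unfold lap
    generalize br f1 (br f2 d) = c
    unfold br; noncomm_ring
  rw [this, H.dd]; simp

end two

end ring

end Pool.Agent.H62W
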