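import Pool.Agent.W_a3c811_h62w.StCoh
import Pool.Agent.W_MP_a3c811_h79.MF.St2
import Pool.Agent.W_f569db_h62.StDefs

/-! Definitions for the statement: similitudes of the strata, transcendental parts, simple common
eigenvalues. -/

noncomputable section

namespace Pool.Agent.H62S

open Polynomial Pool.Agent.WeilH_h6 Pool.Agent.WeilH_h6.VarClass Pool.Agent.H62A

universe u v w

/-- The numbers `c m` are positive and depend on the parity of `m` only. -/
def Multipliers (c : ℤ → ℚ) : Prop := ∀ m, 0 < c m ∧ c (m + 2) = c m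

/-- `T` is not zero and `|z|^2 = c` for all its complex roots. -/
def PureOf (c : ℚ) (T : ℚ[X]) : Prop := T ≠ 0 ∧ ∀ z : ℂ, aeval z T = 0 → ‖z‖ ^ 2 = (c : ℝ)

/-- `(i', j')` is a neighbour of `(i, j)`: both indices differ by one. -/
def IsNb (i j i' j' : ℕ) : Prop := (i' = i + 1 ∨ i = i' + 1) ∧ (j' = j + 1 ∨ j = j' + 1)

/-- All common complex roots of `A` and `B` are simple roots of `A`. -/
def SimpleFor (A B : ℚ[X]) : Prop :=
  ∀ z : ℂ, aeval z A = 0 → aeval z B = 0 → aeval z A.derivative ≠ 0

/-- The common roots of `T i j` and `T i' j'`, for the neighbours `(i', j')` of `(i, j)` with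
`i' + j' ≤ n`, are simple roots of `T i j`. -/
def SimpleCommon (n : ℕ) (T : ℕ → ℕ → ℚ[X]) (i j : ℕ) : Prop :=
  ∀ i' j', i' + j' ≤ n → IsNb i j i' j' → SimpleFor (T i j) (T i' j')

/-- The field `F` can be embedded into `ℚ_m` for some `m` in `Λ`. -/
def EmbedsIn (Λ : Set ℕ) (F : Type v) [Field F] : Prop :=
  ∃ m ∈ Λ, ∃ _ : Fact m.Prime, Nonempty (F →+* ℚ_[m])

section linear

variable {K : Type v} [Field K] {E : Type w} [AddCommGroup E] [Module K E]

/-- `φ` multiplies `B (x, y)` by `c` if `x` is in `U`. -/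
def Scales (B : E → E → K) (φ : E →ₗ[K] E) (U : Submodule K E) (c : K) : Prop :=
  ∀ x ∈ U, ∀ y, B (φ x) (φ y) = c * B x y

/-- `B (x, L^j x)` is not zero for the nonzero `x` in `P` with the property `C`. -/
def NoZero (B : E → E → K) (L : E →ₗ[K] E) (P : Submodule K E) (C : E → Prop) (j : ℕ) : Prop :=
  ∀ x ∈ P, C x → B x ((L ^ j) x) = 0 → x = 0

/-- `U` consists of the vectors `x` of `P` with `B (x, z) = 0` for all `z` with the property `C`. -/
def IsOrth (B : E → E → K) (P : Submodule K E) (C : E → Prop) (U : Submodule K E) : Prop :=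
  ∀ x, x ∈ U ↔ x ∈ P ∧ ∀ z, C z → B x z = 0

/-- The characteristic polynomial of `φ` on the orthogonal complement in `P` of the vectors with the
property `C` is `χ`. -/
def CharOrth [CharZero K] [FiniteDimensional K E] (B : E → E → K) (P : Submodule K E)
    (C : E → Prop) (φ : E →ₗ[K] E) (χ : ℚ[X]) : Prop :=
  ∃ U : Submodule K E, IsOrth B P C U ∧ CharpolyOn φ U χ

/-- The rational number `c` as an element of `K`. -/
def scalar (K : Type v) [Field K] (c : ℚ) : K := c

end linear

section single

variable {k : Type u} [Field k] {𝒱 : VarClass k} {K : Type v} [Field K] (W : Weil.{u, v, w} 𝒱 K)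
  {J : Type} (Y : J → 𝒱.Obj)

/-- `x` is the class of a cycle with rational coefficients. -/
def IsCyc (x : Tot W Y) : Prop := ∃ z : ∀ a, TCyc (Y a), ∀ a, x a = clT W (z a)

/-- The same for the sum of the `H(Y a)` and the sum of the forms `Tr (x y)`, the vectors with the
property `C` being the classes of cycles. -/
def TCharOrth [CharZero K] [Fintype J] (P : Submodule K (Tot W Y)) (φ : TEnd W Y) (χ : ℚ[X]) :
    Prop :=
  @CharOrth K _ (Tot W Y) _ _ _ (finite_tot W Y) (pairing W Y) P (IsCyc W Y) φ χ

/-- `φ` respects levels and degrees, commutes with `res`, `gys` and `L`, and multiplies `Tr (x y)` by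
`c m` if `x` is of degree `m`. -/
def Similar [Fintype J] (lev : J → ℕ) (res gys L φ : TEnd W Y) (c : ℤ → ℚ) : Prop :=
  LevBidegree W Y lev 0 0 φ ∧ (ComT W Y φ res ∧ ComT W Y φ gys ∧ ComT W Y φ L) ∧
    ∀ m : ℤ, Scales (pairing W Y) φ (degPart W Y 0 0 m) (scalar K (c m))

end single

variable {k : Type u} [Field k] {𝒱 : VarClass k} {I : Type} {K : I → Type v} [∀ l, Field (K l)]
  {W : ∀ l, Weil.{u, v, w} 𝒱 (K l)}

namespace Strata

variable (X : Strata W) (l : I)

/-- The form `Tr (x L^j x)` has no zeros among the nonzero primitive classes of cycles (the Hodge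
index theorem and homological equals numerical equivalence for these classes). -/
def ClassIndex : Prop :=
  ∀ i j : ℕ, NoZero (pairing (W l) X.Y) (X.L l) (X.prim l i j) (IsCyc (W l) X.Y) j

/-- `φ` is a similitude of the strata in the theory `l` with the multipliers `c m`, for instance the
normalised Frobenius, which is `q ^ (- ⌈m / 2⌉)` times Frobenius on `H^m` (it may permute the strata
of the same level). -/
def IsSimilitude (c : ℤ → ℚ) (φ : TEnd (W l) X.Y) : Prop :=
  Similar (W l) X.Y X.lev (X.res l) (X.gys l) (X.L l) φ c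

/-- `T i j` is the characteristic polynomial of `φ` on the transcendental part of the primitive part
`(i, j)`, the orthogonal complement of the classes of cycles, for `i + j ≤ n`. -/
def TransPoly [CharZero (K l)] (φ : TEnd (W l) X.Y) (T : ℕ → ℕ → ℚ[X]) : Prop :=
  ∀ i j, i + j ≤ X.n → TCharOrth (W l) X.Y (X.prim l i j) φ (T i j)

end Strata

end Pool.Agent.H62S
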