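import Pool.Agent.W_a3c811_h62.StDefs

/-! Definitions for the statement: the strata of a semistable degeneration and the `E_1`-term of its
weight spectral sequence. -/

noncomputable section

namespace Pool.Agent.H62S

open Pool.Agent.WeilH_h6 Pool.Agent.WeilH_h6.VarClass Pool.Agent.H62D Pool.Agent.H62A

universe u v w

section linear

variable {K : Type v} [Field K] {E : Type w} [AddCommGroup E] [Module K E]

/-- `S` and `T` are adjoint for `B`. -/
def AdjFor (B : E → E → K) (S T : E →ₗ[K] E) : Prop := ∀ x y, B (S x) y = B x (T y)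

/-- `S` maps `U` to `U'`. -/
def MapsOn (S : E →ₗ[K] E) (U U' : Submodule K E) : Prop := ∀ x ∈ U, S x ∈ U'

/-- `S S = 0`. -/
def SqZ (S : E →ₗ[K] E) : Prop := ∀ x, S (S x) = 0

/-- `S T = T S`. -/
def CommL (S T : E →ₗ[K] E) : Prop := ∀ x, S (T x) = T (S x)

/-- `S T + T S = 0` on the vectors with the property `P`. -/
def AntiOn (S T : E →ₗ[K] E) (P : E → Prop) : Prop := ∀ x, P x → S (T x) + T (S x) = 0

/-- `S T - T S = c` on `U`. -/
def BracketOn (S T : E →ₗ[K] E) (U : Submodule K E) (c : K) : Prop :=
  ∀ x ∈ U, S (T x) - T (S x) = c • x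

end linear

/-- The index set of `lev a + 1` copies of every `a`. -/
abbrev Copies {J : Type} (lev : J → ℕ) : Type := Σ a : J, Fin (lev a + 1)

section single

variable {k : Type u} [Field k] {𝒱 : VarClass k} {K : Type v} [Field K] (W : Weil.{u, v, w} 𝒱 K)
  {J : Type} (Y : J → 𝒱.Obj) (lev : J → ℕ)

/-- The value of an endomorphism of the sum of the `H(Y a)`. -/
def app (S : TEnd W Y) (x : Tot W Y) : Tot W Y := S x

/-- The sum of the forms `Tr (x y)` on the `H(Y a)`. -/
def pairing [Fintype J] (x y : Tot W Y) : K := ∑ a, W.deg (x a * y a)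

/-- `S` and `T` are adjoint for the sum of the forms `Tr (x y)`. -/
def AdjT [Fintype J] (S T : TEnd W Y) : Prop := AdjFor (pairing W Y) S T

/-- `S S = 0`. -/
def SqT (S : TEnd W Y) : Prop := SqZ S

/-- `S T = T S`. -/
def ComT (S T : TEnd W Y) : Prop := CommL S T

/-- `S T + T S = 0` on the strata of positive level. -/
def AntiT (S T : TEnd W Y) : Prop := AntiOn S T fun x => ∀ a, lev a = 0 → x a = 0

/-- `S` raises the total degree by `s` and the position by `t`. -/
def Bideg (pos tw : J → ℤ) (s t : ℤ) (S : TEnd W Y) : Prop :=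
  (∀ w, MapsOn S (degPart W Y pos tw w) (degPart W Y pos tw (w + s))) ∧
    ∀ p, MapsOn S (posPart W Y pos p) (posPart W Y pos (p + t))

/-- `S` raises the total degree by `s` and the level by `t`; the total degree of `H^j(Y a)` is
`j + lev a`. -/
def LevBidegree (s t : ℤ) (S : TEnd W Y) : Prop := Bideg W Y (fun a => (lev a : ℤ)) 0 s t S

/-- `[L, Lam]` is the total degree minus `n`. -/
def IsDual (n : ℕ) (L Lam : TEnd W Y) : Prop :=
  ∀ w : ℤ, BracketOn L Lam (degPart W Y (fun a => (lev a : ℤ)) 0 w) ((w - n : ℤ) : K)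

/-- `f` is linear. -/
def IsLin (f : Tot W Y → Tot W Y) : Prop := IsLinearMap K f

/-- The endomorphism given by a linear map. -/
def bundle (f : Tot W Y → Tot W Y) (h : IsLin W Y f) : TEnd W Y := IsLinearMap.mk' f h

/-- `lev a + 1` copies of `Y a` for every `a`. -/
abbrev copiesOf (c : Copies lev) : 𝒱.Obj := Y c.1

/-- The `j`-th copies, as an element of the sum of the `H(Y a)` (zero where there is none). -/
def sliceFun (j : ℕ) (x : Tot W (copiesOf Y lev)) : Tot W Y :=
  fun a => if h : j < lev a + 1 then x ⟨a, ⟨j, h⟩⟩ else 0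

/-- The map given by `T` from the `(j - s)`-th to the `j`-th copies, for all `j ≥ s`. -/
def liftFun (s : ℕ) (T : TEnd W Y) (x : Tot W (copiesOf Y lev)) : Tot W (copiesOf Y lev) :=
  fun c => if s ≤ (c.2 : ℕ) then app W Y T (sliceFun W Y lev (c.2 - s) x) c.1 else 0

/-- The map which is `(j + 1) (lev a - j)` from the `(j + 1)`-th to the `j`-th copies of `Y a`. -/
def dualFun (x : Tot W (copiesOf Y lev)) : Tot W (copiesOf Y lev) :=
  fun c => ((((c.2 : ℕ) + 1) * (lev c.1 - (c.2 : ℕ)) : ℕ) : K) •
    sliceFun W Y lev (c.2 + 1) x c.1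

lemma sliceFun_add (j : ℕ) (x y : Tot W (copiesOf Y lev)) :
    sliceFun W Y lev j (x + y) = sliceFun W Y lev j x + sliceFun W Y lev j y := by
  funext a
  unfold sliceFun
  simp only [Pi.add_apply]
  split_ifs
  · rfl
  · exact (add_zero _).symm

lemma sliceFun_smul (j : ℕ) (c : K) (x : Tot W (copiesOf Y lev)) :
    sliceFun W Y lev j (c • x) = c • sliceFun W Y lev j x := by
  funext a
  unfold sliceFun
  simp only [Pi.smul_apply]
  split_ifs
  · rfl
  · exact (smul_zero _).symm

lemma isLin_liftFun (s : ℕ) (T : TEnd W Y) :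
    IsLin W (copiesOf Y lev) (liftFun W Y lev s T) := by
  refine ⟨fun x y => ?_, fun c x => ?_⟩
  · funext i
    unfold liftFun app
    simp only [Pi.add_apply, sliceFun_add, map_add]
    split_ifs
    · rfl
    · exact (add_zero _).symm
  · funext i
    unfold liftFun app
    simp only [Pi.smul_apply, sliceFun_smul, map_smul]
    split_ifs
    · rfl
    · exact (smul_zero _).symm

lemma isLin_dualFun : IsLin W (copiesOf Y lev) (dualFun W Y lev) := by
  refine ⟨fun x y => ?_, fun c x => ?_⟩
  · funext i
    unfold dualFun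
    rw [sliceFun_add, Pi.add_apply, smul_add]
    rfl
  · funext i
    unfold dualFun
    rw [sliceFun_smul, Pi.smul_apply, smul_comm]
    rfl

/-- The endomorphism of the sum of the copies given by `T` from the `(j - s)`-th to the `j`-th
copies, for all `j ≥ s`. -/
def liftOf (s : ℕ) (T : TEnd W Y) : TEnd W (copiesOf Y lev) :=
  bundle W (copiesOf Y lev) (liftFun W Y lev s T) (isLin_liftFun W Y lev s T)

/-- The endomorphism of the sum of the copies which is `(j + 1) (lev a - j)` from the `(j + 1)`-th to
the `j`-th copies of `Y a`. -/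
def dualOf : TEnd W (copiesOf Y lev) :=
  bundle W (copiesOf Y lev) (dualFun W Y lev) (isLin_dualFun W Y lev)

/-- The differential `d_1`: restriction from the `j`-th to the `(j+1)`-th copies plus Gysin map from
the `j`-th to the `j`-th copies. -/
def diffOf (res gys : TEnd W Y) : TEnd W (copiesOf Y lev) :=
  liftOf W Y lev 1 res + liftOf W Y lev 0 gys

end single

variable {k : Type u} [Field k] {𝒱 : VarClass k} {I : Type} {K : I → Type v} [∀ l, Field (K l)]

/-- The strata of the special fibre of a semistable family of varieties of dimension `n`: smooth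
proper varieties `Y a` (the connected components of the intersections of `lev a + 1` components of
the special fibre), and the following maps on the sum of the `H(Y a)`, each given in all theories by
the same correspondences: the alternating sum `res` of the restrictions and its adjoint `gys`, the
alternating sum of the Gysin maps; a Lefschetz operator `L` and its dual `Lam`. -/
structure Strata (W : ∀ l, Weil.{u, v, w} 𝒱 (K l)) where
  /-- the dimension of the generic fibre -/
  n : ℕ
  /-- the index set of the strata -/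
  J : Type
  [fin : Fintype J]
  /-- the strata -/
  Y : J → 𝒱.Obj
  /-- the stratum `Y a` has codimension `lev a` in the special fibre -/
  lev : J → ℕ
  dim_eq : ∀ a, (Y a).dim + lev a = n
  /-- the restriction -/
  res : ∀ l, TEnd (W l) Y
  /-- the Gysin map -/
  gys : ∀ l, TEnd (W l) Y
  /-- the Lefschetz operator -/
  L : ∀ l, TEnd (W l) Y
  /-- the dual Lefschetz operator -/
  Lam : ∀ l, TEnd (W l) Y
  motivic : Motivic W Y res ∧ Motivic W Y gys ∧ Motivic W Y L ∧ Motivic W Y Lam
  bidegree : ∀ l, LevBidegree (W l) Y lev 1 1 (res l) ∧ LevBidegree (W l) Y lev 1 (-1) (gys l) ∧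
    LevBidegree (W l) Y lev 2 0 (L l) ∧ LevBidegree (W l) Y lev (-2) 0 (Lam l)
  square : ∀ l, SqT (W l) Y (res l) ∧ SqT (W l) Y (gys l)
  anti : ∀ l, AntiT (W l) Y lev (res l) (gys l)
  comm : ∀ l, ComT (W l) Y (L l) (res l) ∧ ComT (W l) Y (L l) (gys l)
  lefschetz : ∀ l, IsDual (W l) Y lev n (L l) (Lam l)
  adjoint : ∀ l, AdjT (W l) Y (res l) (gys l) ∧ AdjT (W l) Y (L l) (L l)

attribute [instance] Strata.fin

variable {W : ∀ l, Weil.{u, v, w} 𝒱 (K l)}

namespace Strata

variable (X : Strata W)

/-- The index set of the `E_1`-term: `lev a + 1` copies of the stratum `Y a`. -/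
abbrev Idx : Type := Copies X.lev

/-- The varieties of the `E_1`-term. -/
abbrev EY : X.Idx → 𝒱.Obj := copiesOf X.Y X.lev

/-- The position of the `j`-th copy of `Y a` is `2 j - lev a`. -/
def epos (c : X.Idx) : ℤ := 2 * (c.2 : ℤ) - X.lev c.1

/-- The Tate twist of the `j`-th copy of `Y a` is `lev a - j`. -/
def etw (c : X.Idx) : ℤ := X.lev c.1 - (c.2 : ℤ)

/-- The endomorphism of the `E_1`-term given by `T` from the `(j - s)`-th to the `j`-th copies, for
all `j ≥ s`. -/
def lift (l : I) (s : ℕ) (T : TEnd (W l) X.Y) : TEnd (W l) X.EY :=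
  liftOf (W l) X.Y X.lev s T

/-- The differential `d_1`: restriction from the `j`-th to the `(j+1)`-th copies plus Gysin map from
the `j`-th to the `j`-th copies. -/
def ed (l : I) : TEnd (W l) X.EY := diffOf (W l) X.Y X.lev (X.res l) (X.gys l)

/-- The monodromy operator: the identity from the `j`-th to the `(j+1)`-th copies. -/
def eN (l : I) : TEnd (W l) X.EY := X.lift l 1 LinearMap.id

/-- The Lefschetz operator. -/
def eL (l : I) : TEnd (W l) X.EY := X.lift l 0 (X.L l)

/-- The dual Lefschetz operator. -/
def eLam (l : I) : TEnd (W l) X.EY := X.lift l 0 (X.Lam l)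

/-- The dual of the monodromy operator: `j (lev a + 1 - j)` from the `j`-th to the `(j-1)`-th copies
of `Y a`. -/
def eNd (l : I) : TEnd (W l) X.EY := dualOf (W l) X.Y X.lev

end Strata

end Pool.Agent.H62S
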