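import Pool.Agent.W_a3c811_h62w.Strata
import Pool.Agent.W_a3c811_h62.Proj

/-! The operators of the `E_1`-term. -/

noncomputable section

set_option linter.unusedSectionVars false

namespace Pool.Agent.H62S

open Pool.Agent.WeilH_h6 Pool.Agent.WeilH_h6.VarClass Pool.Agent.H62D Pool.Agent.H62A

universe u v w

variable {k : Type u} [Field k] {𝒱 : VarClass k} {I : Type} {K : I → Type v} [∀ l, Field (K l)]
  {W : ∀ l, Weil.{u, v, w} 𝒱 (K l)} (X : Strata W)

namespace Strata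

/-- the level as an integer -/
abbrev ilev (a : X.J) : ℤ := X.lev a

/-- The `j`-th copy in the `E_1`-term. -/
def slice (l : I) (j : ℕ) : Tot (W l) X.EY →ₗ[K l] Tot (W l) X.Y :=
  LinearMap.pi fun a => if h : j < X.lev a + 1 then LinearMap.proj (⟨a, ⟨j, h⟩⟩ : X.Idx) else 0

section single

variable (l : I)

lemma ed_eq : X.ed l = X.lift l 1 (X.res l) + X.lift l 0 (X.gys l) := rfl

lemma slice_apply (j : ℕ) (x : Tot (W l) X.EY) (a : X.J) :
    X.slice l j x a = if h : j < X.lev a + 1 then x ⟨a, ⟨j, h⟩⟩ else 0 := by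
  unfold slice
  rw [LinearMap.pi_apply]
  split_ifs <;> rfl

lemma sliceFun_eq (j : ℕ) (x : Tot (W l) X.EY) :
    sliceFun (W l) X.Y X.lev j x = X.slice l j x := by
  funext a
  rw [slice_apply]
  rfl

lemma slice_of_le {j : ℕ} (x : Tot (W l) X.EY) {a : X.J} (h : j ≤ X.lev a) :
    X.slice l j x a = x ⟨a, ⟨j, Nat.lt_succ_of_le h⟩⟩ := by
  rw [slice_apply, dif_pos (Nat.lt_succ_of_le h)]

lemma slice_of_lt {j : ℕ} (x : Tot (W l) X.EY) {a : X.J} (h : X.lev a < j) :
    X.slice l j x a = 0 := by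
  rw [slice_apply, dif_neg (by omega)]

lemma slice_self (x : Tot (W l) X.EY) (c : X.Idx) : X.slice l (c.2 : ℕ) x c.1 = x c := by
  rw [slice_of_le X l x (Nat.lt_succ_iff.1 c.2.2)]

lemma lift_apply (s : ℕ) (T : TEnd (W l) X.Y) (x : Tot (W l) X.EY) (c : X.Idx) :
    X.lift l s T x c = if s ≤ (c.2 : ℕ) then T (X.slice l (c.2 - s) x) c.1 else 0 := by
  rw [← sliceFun_eq]
  rfl

lemma slice_lift (s : ℕ) (T : TEnd (W l) X.Y) (x : Tot (W l) X.EY) (j : ℕ) (a : X.J)
    (h : j ≤ X.lev a) :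
    X.slice l j (X.lift l s T x) a = if s ≤ j then T (X.slice l (j - s) x) a else 0 := by
  rw [slice_of_le X l _ h, lift_apply]

/-- vectors are equal if all slices are -/
lemma ext_slice {x y : Tot (W l) X.EY} (h : ∀ j a, j ≤ X.lev a →
    X.slice l j x a = X.slice l j y a) : x = y := by
  funext c
  rw [← slice_self X l x c, ← slice_self X l y c]
  exact h _ _ (Nat.lt_succ_iff.1 c.2.2)

/-- `T` raises the level by `t` -/
def Shift (t : ℤ) (T : TEnd (W l) X.Y) : Prop :=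
  ∀ p : ℤ, T ∘ₗ posProj (W l) X.Y X.ilev p = posProj (W l) X.Y X.ilev (p + t) ∘ₗ T

lemma Shift.eq {t : ℤ} {T : TEnd (W l) X.Y} (hT : X.Shift l t T) {y y' : Tot (W l) X.Y} {b : X.J}
    (h : ∀ a, X.ilev a + t = X.ilev b → y a = y' a) : T y b = T y' b := by
  have h1 : posProj (W l) X.Y X.ilev (X.ilev b - t) (y - y') = 0 := by
    funext a
    rw [Proj_posProj_apply]
    split_ifs with ha
    · rw [Pi.sub_apply, h a (by rw [ha]; ring), sub_self]; rfl
    · rfl
  have h2 := LinearMap.congr_fun (hT (X.ilev b - t)) (y - y')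
  rw [LinearMap.comp_apply, LinearMap.comp_apply, h1, map_zero, sub_add_cancel] at h2
  have h3 := congrFun h2 b
  rw [Proj_posProj_apply, if_pos rfl] at h3
  have h4 : T (y - y') b = 0 := h3.symm
  rw [map_sub, Pi.sub_apply, sub_eq_zero] at h4
  exact h4

lemma Shift.id : X.Shift l 0 (LinearMap.id) := by
  intro p
  rw [add_zero]
  rfl

lemma Shift.comp {t t' : ℤ} {T T' : TEnd (W l) X.Y} (hT : X.Shift l t T) (hT' : X.Shift l t' T') :
    X.Shift l (t' + t) (T ∘ₗ T') := by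
  intro p
  rw [LinearMap.comp_assoc, hT' p, ← LinearMap.comp_assoc, hT, LinearMap.comp_assoc, add_assoc]

lemma Shift.add {t : ℤ} {T T' : TEnd (W l) X.Y} (hT : X.Shift l t T) (hT' : X.Shift l t T') :
    X.Shift l t (T + T') := by
  intro p
  rw [LinearMap.add_comp, hT, hT', LinearMap.comp_add]

lemma lift_lift {t : ℤ} {T : TEnd (W l) X.Y} (hT : X.Shift l t T) (s s' : ℕ)
    (T' : TEnd (W l) X.Y) (hts : t ≤ s) :
    X.lift l s T ∘ₗ X.lift l s' T' = X.lift l (s + s') (T ∘ₗ T') := by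
  refine LinearMap.ext fun x => ?_
  refine ext_slice X l fun j b hj => ?_
  rw [LinearMap.comp_apply, slice_lift X l _ _ _ _ _ hj, slice_lift X l _ _ _ _ _ hj]
  by_cases hs : s ≤ j
  · rw [if_pos hs]
    by_cases hs' : s + s' ≤ j
    · rw [if_pos hs', LinearMap.comp_apply]
      refine hT.eq X l fun a ha => ?_
      have h1 : j - s ≤ X.lev a := by
        unfold ilev at ha
        omega
      rw [slice_lift X l _ _ _ _ _ h1, if_pos (by omega), Nat.sub_sub]
    · rw [if_neg hs']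
      have : T (X.slice l (j - s) (X.lift l s' T' x)) b = T 0 b := by
        refine hT.eq X l fun a ha => ?_
        have h1 : j - s ≤ X.lev a := by
          unfold ilev at ha
          omega
        rw [slice_lift X l _ _ _ _ _ h1, if_neg (by omega)]
        rfl
      rw [this, map_zero]
      rfl
  · rw [if_neg hs, if_neg (by omega)]

lemma lift_add (s : ℕ) (T T' : TEnd (W l) X.Y) :
    X.lift l s (T + T') = X.lift l s T + X.lift l s T' := by
  refine LinearMap.ext fun x => funext fun c => ?_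
  rw [LinearMap.add_apply, Pi.add_apply, lift_apply, lift_apply, lift_apply]
  split_ifs with h
  · rfl
  · rw [add_zero]

lemma lift_zero (s : ℕ) : X.lift l s (0 : TEnd (W l) X.Y) = 0 := by
  refine LinearMap.ext fun x => funext fun c => ?_
  rw [lift_apply]
  split_ifs <;> rfl

variable [∀ l, CharZero (K l)]

lemma shift_of {s t : ℤ} {T : TEnd (W l) X.Y}
    (h : HasBidegree (W l) X.Y (fun a => (X.lev a : ℤ)) 0 s t T) : X.Shift l t T :=
  fun p => comp_posProj (W l) X.Y X.ilev 0 h p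

lemma shift_res : X.Shift l 1 (X.res l) := X.shift_of l (X.bidegree l).1
lemma shift_gys : X.Shift l (-1) (X.gys l) := X.shift_of l (X.bidegree l).2.1
lemma shift_L : X.Shift l 0 (X.L l) := X.shift_of l (X.bidegree l).2.2.1
lemma shift_Lam : X.Shift l 0 (X.Lam l) := X.shift_of l (X.bidegree l).2.2.2

lemma lift_anti : X.lift l 1 (X.res l ∘ₗ X.gys l + X.gys l ∘ₗ X.res l) = 0 := by
  have hsh : X.Shift l 0 (X.res l ∘ₗ X.gys l + X.gys l ∘ₗ X.res l) := by
    have h1 := (X.shift_res l).comp X l (X.shift_gys l)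
    have h2 := (X.shift_gys l).comp X l (X.shift_res l)
    rw [show (-1 : ℤ) + 1 = 0 by ring] at h1
    rw [show (1 : ℤ) + -1 = 0 by ring] at h2
    exact h1.add X l h2
  refine LinearMap.ext fun x => funext fun c => ?_
  rw [lift_apply, LinearMap.zero_apply]
  split_ifs with h
  · have h1 : (X.res l ∘ₗ X.gys l + X.gys l ∘ₗ X.res l) (X.slice l (c.2 - 1) x) c.1 =
        (X.res l ∘ₗ X.gys l + X.gys l ∘ₗ X.res l)
          (posProj (W l) X.Y X.ilev (X.ilev c.1) (X.slice l (c.2 - 1) x)) c.1 := by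
      refine hsh.eq X l fun a ha => ?_
      rw [Proj_posProj_apply, if_pos (by rw [← ha, add_zero])]
    rw [h1, LinearMap.add_apply, LinearMap.comp_apply, LinearMap.comp_apply, X.anti l]
    · rfl
    intro a ha
    rw [Proj_posProj_apply, if_neg]
    intro h2
    have h3 := c.2.2
    unfold ilev at h2
    omega
  · rfl

lemma ed_sq : X.ed l ∘ₗ X.ed l = 0 := by
  have h1 : X.res l ∘ₗ X.res l = 0 := LinearMap.ext fun x => (X.square l).1 x
  have h2 : X.gys l ∘ₗ X.gys l = 0 := LinearMap.ext fun x => (X.square l).2 x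
  have h3 := X.lift_anti l
  rw [lift_add] at h3
  rw [X.ed_eq l]
  rw [LinearMap.add_comp, LinearMap.comp_add, LinearMap.comp_add,
    lift_lift X l (X.shift_res l) 1 1 _ (by norm_num),
    lift_lift X l (X.shift_res l) 1 0 _ (by norm_num),
    lift_lift X l (X.shift_gys l) 0 1 _ (by norm_num),
    lift_lift X l (X.shift_gys l) 0 0 _ (by norm_num), h1, h2, lift_zero, lift_zero, zero_add,
    add_zero, zero_add, add_zero]
  exact h3

lemma eN_ed : X.eN l ∘ₗ X.ed l = X.ed l ∘ₗ X.eN l := by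
  rw [X.ed_eq l]
  unfold eN
  rw [LinearMap.add_comp, LinearMap.comp_add,
    lift_lift X l (Shift.id X l) 1 1 _ (by norm_num),
    lift_lift X l (Shift.id X l) 1 0 _ (by norm_num),
    lift_lift X l (X.shift_res l) 1 1 _ (by norm_num),
    lift_lift X l (X.shift_gys l) 0 1 _ (by norm_num)]
  rfl

lemma eL_ed : X.eL l ∘ₗ X.ed l = X.ed l ∘ₗ X.eL l := by
  have h1 : X.L l ∘ₗ X.res l = X.res l ∘ₗ X.L l := LinearMap.ext fun x => (X.comm l).1 x
  have h2 : X.L l ∘ₗ X.gys l = X.gys l ∘ₗ X.L l := LinearMap.ext fun x => (X.comm l).2 x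
  rw [X.ed_eq l]
  unfold eL
  rw [LinearMap.add_comp, LinearMap.comp_add,
    lift_lift X l (X.shift_L l) 0 1 _ (by norm_num),
    lift_lift X l (X.shift_L l) 0 0 _ (by norm_num),
    lift_lift X l (X.shift_res l) 1 0 _ (by norm_num),
    lift_lift X l (X.shift_gys l) 0 0 _ (by norm_num), h1, h2]

lemma eN_lift {T : TEnd (W l) X.Y} (hT : X.Shift l 0 T) :
    X.eN l ∘ₗ X.lift l 0 T = X.lift l 0 T ∘ₗ X.eN l := by
  unfold eN
  rw [lift_lift X l (Shift.id X l) 1 0 _ (by norm_num),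
    lift_lift X l hT 0 1 _ (by norm_num)]
  rfl

lemma eN_eL : X.eN l ∘ₗ X.eL l = X.eL l ∘ₗ X.eN l := X.eN_lift l (X.shift_L l)

lemma eN_eLam : X.eN l ∘ₗ X.eLam l = X.eLam l ∘ₗ X.eN l := X.eN_lift l (X.shift_Lam l)

lemma eNd_apply (x : Tot (W l) X.EY) (c : X.Idx) : X.eNd l x c =
    (((((c.2 : ℕ) + 1) * (X.lev c.1 - (c.2 : ℕ)) : ℕ) : K l)) • X.slice l (c.2 + 1) x c.1 := by
  rw [← sliceFun_eq]
  rfl

lemma slice_eNd (x : Tot (W l) X.EY) (j : ℕ) (a : X.J) (h : j ≤ X.lev a) :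
    X.slice l j (X.eNd l x) a =
      ((((j + 1) * (X.lev a - j) : ℕ) : K l)) • X.slice l (j + 1) x a := by
  rw [slice_of_le X l _ h, eNd_apply]

lemma eNd_lift {T : TEnd (W l) X.Y} (hT : X.Shift l 0 T) :
    X.eNd l ∘ₗ X.lift l 0 T = X.lift l 0 T ∘ₗ X.eNd l := by
  refine LinearMap.ext fun x => ?_
  refine ext_slice X l fun j b hj => ?_
  rw [LinearMap.comp_apply, LinearMap.comp_apply, slice_eNd X l _ _ _ hj,
    slice_lift X l _ _ _ _ _ hj, if_pos (Nat.zero_le _), Nat.sub_zero]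
  have h1 : T (X.slice l j (X.eNd l x)) b =
      T (((((j + 1) * (X.lev b - j) : ℕ) : K l)) • X.slice l (j + 1) x) b := by
    refine hT.eq X l fun a ha => ?_
    have h2 : X.lev a = X.lev b := by
      unfold ilev at ha
      omega
    rw [slice_eNd X l _ _ _ (by omega), h2]
    rfl
  rw [h1, map_smul]
  by_cases hj' : j + 1 ≤ X.lev b
  · rw [slice_lift X l _ _ _ _ _ hj', if_pos (Nat.zero_le _), Nat.sub_zero]
    rfl
  · rw [slice_of_lt X l _ (by omega), smul_zero]
    have : X.lev b - j = 0 := by omega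
    rw [this, mul_zero, Nat.cast_zero, zero_smul]
    rfl

lemma eNd_eL : X.eNd l ∘ₗ X.eL l = X.eL l ∘ₗ X.eNd l := X.eNd_lift l (X.shift_L l)

lemma eNd_eLam : X.eNd l ∘ₗ X.eLam l = X.eLam l ∘ₗ X.eNd l := X.eNd_lift l (X.shift_Lam l)

/-- `[N, f]` is the position -/
lemma eN_eNd (x : Tot (W l) X.EY) (c : X.Idx) :
    (X.eN l (X.eNd l x) - X.eNd l (X.eN l x)) c = ((X.epos c : ℤ) : K l) • x c := by
  have hc := Nat.lt_succ_iff.1 c.2.2
  rw [Pi.sub_apply]
  have h1 : X.eN l (X.eNd l x) c =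
      ((((c.2 : ℕ) * (X.lev c.1 + 1 - (c.2 : ℕ)) : ℕ) : K l)) • x c := by
    unfold eN
    rw [lift_apply]
    split_ifs with h
    · rw [LinearMap.id_apply, slice_eNd X l _ _ _ (by omega), Nat.sub_add_cancel h,
        slice_self X l x c]
      congr 3
      omega
    · have : (c.2 : ℕ) = 0 := by omega
      rw [this, zero_mul, Nat.cast_zero, zero_smul]
  have h2 : X.eNd l (X.eN l x) c =
      (((((c.2 : ℕ) + 1) * (X.lev c.1 - (c.2 : ℕ)) : ℕ) : K l)) • x c := by
    rw [eNd_apply]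
    by_cases h : (c.2 : ℕ) + 1 ≤ X.lev c.1
    · unfold eN
      rw [slice_lift X l _ _ _ _ _ h, if_pos (by omega), LinearMap.id_apply,
        Nat.add_sub_cancel, slice_self X l x c]
    · have : X.lev c.1 - (c.2 : ℕ) = 0 := by omega
      rw [this, mul_zero, Nat.cast_zero, zero_smul, zero_smul]
  rw [h1, h2, ← sub_smul]
  congr 1
  unfold epos
  rw [Nat.cast_mul, Nat.cast_mul, Nat.cast_sub (show (c.2 : ℕ) ≤ X.lev c.1 + 1 by omega),
    Nat.cast_sub hc]
  push_cast
  ring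

end single

end Strata

end Pool.Agent.H62S
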