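import Pool.Agent.W_a3c811_h62w.StrataA

/-! Bidegrees and motivic nature of the operators of the `E_1`-term. -/

noncomputable section

set_option linter.unusedSectionVars false

namespace Pool.Agent.H62S

open Pool.Agent.WeilH_h6 Pool.Agent.WeilH_h6.VarClass Pool.Agent.H62D Pool.Agent.H62A

universe u v w

variable {k : Type u} [Field k] {𝒱 : VarClass k} {I : Type} {K : I → Type v} [∀ l, Field (K l)]
  [∀ l, CharZero (K l)] {W : ∀ l, Weil.{u, v, w} 𝒱 (K l)} (X : Strata W)

namespace Strata

section single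

variable (l : I)

lemma deg_zero' (Y : 𝒱.Obj) : (W l).deg (0 : (W l).H Y) = 0 := map_zero ((W l).tr Y)

lemma epos_etw (c : X.Idx) : X.epos c + 2 * X.etw c = X.ilev c.1 := by
  unfold epos etw ilev
  ring

lemma mem_degPart {w : ℤ} {x : Tot (W l) X.EY} :
    x ∈ degPart (W l) X.EY X.epos X.etw w ↔
      ∀ j, X.slice l j x ∈ degPart (W l) X.Y X.ilev 0 w := by
  constructor
  · intro hx j a _
    by_cases h : j ≤ X.lev a
    · rw [slice_of_le X l x h]
      have h1 := hx ⟨a, ⟨j, Nat.lt_succ_of_le h⟩⟩ (Set.mem_univ _)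
      have h2 := X.epos_etw ⟨a, ⟨j, Nat.lt_succ_of_le h⟩⟩
      simp only at h1 h2
      have h3 : w - X.ilev a - 2 * (0 : X.J → ℤ) a = w - X.epos ⟨a, ⟨j, Nat.lt_succ_of_le h⟩⟩ -
          2 * X.etw ⟨a, ⟨j, Nat.lt_succ_of_le h⟩⟩ := by
        rw [← h2]; simp; ring
      simp only [h3]
      exact h1
    · rw [slice_of_lt X l x (by omega)]
      exact Submodule.zero_mem _
  · intro hx c _
    have h1 := hx (c.2 : ℕ) c.1 (Set.mem_univ _)
    rw [slice_self X l x c] at h1
    have h2 := X.epos_etw c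
    have h3 : w - X.ilev c.1 - 2 * (0 : X.J → ℤ) c.1 = w - X.epos c - 2 * X.etw c := by
      rw [← h2]; simp; ring
    simp only [h3] at h1
    exact h1

lemma lift_bidegree {σ τ : ℤ} {T : TEnd (W l) X.Y}
    (h : HasBidegree (W l) X.Y (fun a => (X.lev a : ℤ)) 0 σ τ T) (s : ℕ) :
    HasBidegree (W l) X.EY X.epos X.etw σ (2 * s - τ) (X.lift l s T) := by
  constructor
  · intro w x hx
    rw [mem_degPart X l] at hx ⊢
    intro j a _
    by_cases hj : j ≤ X.lev a
    · rw [slice_lift X l _ _ _ _ _ hj]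
      split_ifs with hs
      · exact h.1 w _ (hx (j - s)) a (Set.mem_univ _)
      · exact Submodule.zero_mem _
    · rw [slice_of_lt X l _ (by omega)]
      exact Submodule.zero_mem _
  · intro p x hx c _
    have hT := X.shift_of l h
    change X.lift l s T x c ∈ (if X.epos c = p + (2 * s - τ) then ⊤ else ⊥ : Submodule (K l) _)
    split_ifs with hp
    · exact Submodule.mem_top
    · rw [lift_apply]
      split_ifs with hs
      · have h1 : T (X.slice l (c.2 - s) x) c.1 = T 0 c.1 := by
          refine hT.eq X l fun a ha => ?_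
          by_cases hj : (c.2 : ℕ) - s ≤ X.lev a
          · rw [slice_of_le X l x hj]
            have h2 : x ⟨a, ⟨(c.2 : ℕ) - s, Nat.lt_succ_of_le hj⟩⟩ ∈
              (if X.epos ⟨a, ⟨(c.2 : ℕ) - s, Nat.lt_succ_of_le hj⟩⟩ = p then ⊤ else ⊥ :
                Submodule (K l) _) := hx ⟨a, ⟨(c.2 : ℕ) - s, Nat.lt_succ_of_le hj⟩⟩ (Set.mem_univ _)
            rw [if_neg] at h2
            · exact (Submodule.mem_bot _).1 h2
            · intro h3
              apply hp
              unfold epos ilev at *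
              simp only at h3
              rw [Nat.cast_sub hs] at h3
              omega
          · rw [slice_of_lt X l x (by omega)]
            rfl
        rw [h1, map_zero]
        exact Submodule.zero_mem _
      · exact Submodule.zero_mem _

lemma ed_bidegree : HasBidegree (W l) X.EY X.epos X.etw 1 1 (X.ed l) := by
  have h1 := X.lift_bidegree l (X.bidegree l).1 1
  have h2 := X.lift_bidegree l (X.bidegree l).2.1 0
  norm_num at h1 h2
  constructor
  · intro w x hx
    exact Submodule.add_mem _ (h1.1 w x hx) (h2.1 w x hx)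
  · intro w x hx
    exact Submodule.add_mem _ (h1.2 w x hx) (h2.2 w x hx)

lemma id_bidegree : HasBidegree (W l) X.Y (fun a => (X.lev a : ℤ)) 0 0 0 (LinearMap.id) := by
  constructor
  · intro w x hx
    rw [add_zero]; exact hx
  · intro w x hx
    rw [add_zero]; exact hx

lemma eN_bidegree : HasBidegree (W l) X.EY X.epos X.etw 0 2 (X.eN l) := by
  have h1 := X.lift_bidegree l (X.id_bidegree l) 1
  norm_num at h1
  exact h1

lemma eL_bidegree : HasBidegree (W l) X.EY X.epos X.etw 2 0 (X.eL l) := by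
  have h1 := X.lift_bidegree l (X.bidegree l).2.2.1 0
  norm_num at h1
  exact h1

lemma eLam_bidegree : HasBidegree (W l) X.EY X.epos X.etw (-2) 0 (X.eLam l) := by
  have h1 := X.lift_bidegree l (X.bidegree l).2.2.2 0
  norm_num at h1
  exact h1

lemma eNd_bidegree : HasBidegree (W l) X.EY X.epos X.etw 0 (-2) (X.eNd l) := by
  constructor
  · intro w x hx
    rw [add_zero]
    rw [mem_degPart X l] at hx ⊢
    intro j a _
    by_cases hj : j ≤ X.lev a
    · rw [slice_eNd X l _ _ _ hj]
      exact Submodule.smul_mem _ _ (hx (j + 1) a (Set.mem_univ _))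
    · rw [slice_of_lt X l _ (by omega)]
      exact Submodule.zero_mem _
  · intro p x hx c _
    change X.eNd l x c ∈ (if X.epos c = p + (-2) then ⊤ else ⊥ : Submodule (K l) _)
    split_ifs with hp
    · exact Submodule.mem_top
    · rw [eNd_apply]
      by_cases h : (c.2 : ℕ) + 1 ≤ X.lev c.1
      · rw [slice_of_le X l x h]
        have h2 : x ⟨c.1, ⟨(c.2 : ℕ) + 1, Nat.lt_succ_of_le h⟩⟩ ∈
          (if X.epos ⟨c.1, ⟨(c.2 : ℕ) + 1, Nat.lt_succ_of_le h⟩⟩ = p then ⊤ else ⊥ :
            Submodule (K l) _) := hx ⟨c.1, ⟨(c.2 : ℕ) + 1, Nat.lt_succ_of_le h⟩⟩ (Set.mem_univ _)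
        rw [if_neg] at h2
        · rw [(Submodule.mem_bot _).1 h2, smul_zero]
          exact Submodule.zero_mem _
        · intro h3
          apply hp
          unfold epos at *
          simp only at h3
          push_cast at h3
          omega
      · rw [slice_of_lt X l x (by omega), smul_zero]
        exact Submodule.zero_mem _

/-- `[L, Lam]` is the degree minus `n` -/
lemma eL_eLam (w : ℤ) (x : Tot (W l) X.EY) (hx : x ∈ degPart (W l) X.EY X.epos X.etw w) :
    X.eL l (X.eLam l x) - X.eLam l (X.eL l x) = ((w - X.n : ℤ) : K l) • x := by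
  rw [mem_degPart X l] at hx
  refine ext_slice X l fun j a hj => ?_
  have h1 : X.eL l ∘ₗ X.eLam l = X.lift l 0 (X.L l ∘ₗ X.Lam l) :=
    lift_lift X l (X.shift_L l) 0 0 _ (by norm_num)
  have h2 : X.eLam l ∘ₗ X.eL l = X.lift l 0 (X.Lam l ∘ₗ X.L l) :=
    lift_lift X l (X.shift_Lam l) 0 0 _ (by norm_num)
  have h3 := LinearMap.congr_fun h1 x
  have h4 := LinearMap.congr_fun h2 x
  rw [LinearMap.comp_apply] at h3 h4
  rw [h3, h4, map_sub, map_smul, Pi.sub_apply, Pi.smul_apply, slice_lift X l _ _ _ _ _ hj,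
    slice_lift X l _ _ _ _ _ hj, if_pos (Nat.zero_le _), if_pos (Nat.zero_le _), Nat.sub_zero,
    LinearMap.comp_apply, LinearMap.comp_apply, ← Pi.sub_apply, X.lefschetz l w _ (hx j)]
  rfl

/-! the form -/

/-- the form on the strata of level `r` -/
def lform (r : ℕ) (x y : Tot (W l) X.Y) : K l :=
  ∑ a, if X.lev a = r then (W l).deg (x a * y a) else 0

/-- the form on the `E_1`-term -/
def eform (x y : Tot (W l) X.EY) : K l :=
  ∑ i ∈ Finset.range (X.n + 1), ∑ j ∈ Finset.range (X.n + 1),
    X.lform l (i + j) (X.slice l i x) (X.slice l j y)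

lemma lev_le (a : X.J) : X.lev a ≤ X.n := by
  have := X.dim_eq a
  omega

lemma lform_congr {r : ℕ} {x x' y y' : Tot (W l) X.Y} (hx : ∀ a, X.lev a = r → x a = x' a)
    (hy : ∀ a, X.lev a = r → y a = y' a) : X.lform l r x y = X.lform l r x' y' := by
  unfold lform
  refine Finset.sum_congr rfl fun a _ => ?_
  split_ifs with h
  · rw [hx a h, hy a h]
  · rfl

lemma lform_eq {r : ℕ} (x y : Tot (W l) X.Y) :
    X.lform l r x y = ∑ a, (W l).deg (x a * posProj (W l) X.Y X.ilev r y a) := by
  unfold lform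
  refine Finset.sum_congr rfl fun a _ => ?_
  rw [Proj_posProj_apply]
  by_cases h : X.lev a = r
  · rw [if_pos h, if_pos (by unfold ilev; omega)]
  · rw [if_neg h, if_neg (by unfold ilev; omega), mul_zero, deg_zero']

lemma lform_eq' {r : ℕ} (x y : Tot (W l) X.Y) :
    X.lform l r x y = ∑ a, (W l).deg (posProj (W l) X.Y X.ilev r x a * y a) := by
  unfold lform
  refine Finset.sum_congr rfl fun a _ => ?_
  rw [Proj_posProj_apply]
  by_cases h : X.lev a = r
  · rw [if_pos h, if_pos (by unfold ilev; omega)]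
  · rw [if_neg h, if_neg (by unfold ilev; omega), zero_mul, deg_zero']

lemma lform_res (r : ℕ) (x y : Tot (W l) X.Y) :
    X.lform l (r + 1) (X.res l x) y = X.lform l r x (X.gys l y) := by
  rw [lform_eq, show ∑ a, (W l).deg (X.res l x a * posProj (W l) X.Y X.ilev (r + 1 : ℕ) y a) = ∑ a, (W l).deg (x a * X.gys l (posProj (W l) X.Y X.ilev (r + 1 : ℕ) y) a) from (X.adjoint l).1 x _, lform_eq]
  refine Finset.sum_congr rfl fun a _ => ?_
  have h1 := X.shift_gys l ((r : ℤ) + 1)
  have h2 := LinearMap.congr_fun h1 y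
  rw [LinearMap.comp_apply, LinearMap.comp_apply, show (r : ℤ) + 1 + -1 = r by ring] at h2
  push_cast
  rw [h2]

lemma lform_L (r : ℕ) (x y : Tot (W l) X.Y) :
    X.lform l r (X.L l x) y = X.lform l r x (X.L l y) := by
  rw [lform_eq, show ∑ a, (W l).deg (X.L l x a * posProj (W l) X.Y X.ilev r y a) = ∑ a, (W l).deg (x a * X.L l (posProj (W l) X.Y X.ilev r y) a) from (X.adjoint l).2 x _, lform_eq]
  refine Finset.sum_congr rfl fun a _ => ?_
  have h1 := X.shift_L l (r : ℤ)
  have h2 := LinearMap.congr_fun h1 y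
  rw [LinearMap.comp_apply, LinearMap.comp_apply, add_zero] at h2
  rw [h2]

lemma lform_zero_left (r : ℕ) (y : Tot (W l) X.Y) : X.lform l r 0 y = 0 := by
  unfold lform
  refine Finset.sum_eq_zero fun a _ => ?_
  split_ifs
  · rw [Pi.zero_apply, zero_mul, deg_zero']
  · rfl

lemma lform_zero_right (r : ℕ) (x : Tot (W l) X.Y) : X.lform l r x 0 = 0 := by
  unfold lform
  refine Finset.sum_eq_zero fun a _ => ?_
  split_ifs
  · rw [Pi.zero_apply, mul_zero, deg_zero']
  · rfl

lemma lform_big {r : ℕ} (hr : X.n < r) (x y : Tot (W l) X.Y) : X.lform l r x y = 0 := by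
  unfold lform
  refine Finset.sum_eq_zero fun a _ => ?_
  rw [if_neg]
  have := X.lev_le a
  omega

end single

end Strata

end Pool.Agent.H62S
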