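import Pool.Agent.W_a3c811_h62w.TrI
import Pool.Agent.W_a3c811_h62w.StSim
import Pool.Agent.W_MP_a3c811_h79.MF.StMF
import Pool.Agent.W_MP_a3c811_h79.MF.Phi
import Pool.Agent.W_MP_a3c811_h79.Lap.NT
import Pool.Agent.W_f569db_h62.QD

/-! Simple common eigenvalues: number theory and the final theorem. -/

noncomputable section

set_option linter.unusedSectionVars false

namespace Pool.Agent.H62S

open Module Polynomial Pool.Agent.WeilH_h6 Pool.Agent.WeilH_h6.VarClass Pool.Agent.H62D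
  Pool.Agent.H62A Pool.Agent.H79L Pool.Agent.H62X

universe u v w

section poly

/-- the greatest common divisor of two polynomials all of whose common roots are simple roots of
the first one -/
theorem gcd_facts {A B : ℚ[X]} (hA : A ≠ 0)
    (h : ∀ z : ℂ, aeval z A = 0 → aeval z B = 0 → aeval z A.derivative ≠ 0) :
    (EuclideanDomain.gcd A B).Separable ∧
      ∃ H, A = EuclideanDomain.gcd A B * H ∧ IsCoprime (EuclideanDomain.gcd A B) H := by
  obtain ⟨H, hH⟩ := EuclideanDomain.gcd_dvd_left A B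
  obtain ⟨H', hH'⟩ := EuclideanDomain.gcd_dvd_right A B
  set G := EuclideanDomain.gcd A B with hG
  have hG0 : G ≠ 0 := by
    rintro h0
    rw [h0, zero_mul] at hH
    exact hA hH
  have root : ∀ z : ℂ, aeval z G = 0 → aeval z G.derivative ≠ 0 ∧ aeval z H ≠ 0 := by
    intro z hz
    have h1 : aeval z A = 0 := by rw [hH, map_mul, hz, zero_mul]
    have h2 : aeval z B = 0 := by rw [hH', map_mul, hz, zero_mul]
    have h3 := h z h1 h2
    rw [hH, derivative_mul, map_add, map_mul, map_mul, hz, zero_mul, add_zero] at h3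
    exact ⟨left_ne_zero_of_mul h3, right_ne_zero_of_mul h3⟩
  have cop : ∀ Q : ℚ[X], (∀ z : ℂ, aeval z G = 0 → aeval z Q ≠ 0) → IsCoprime G Q := by
    intro Q hQ
    by_contra hc
    obtain ⟨D, hD⟩ : ∃ D, D = EuclideanDomain.gcd G Q := ⟨_, rfl⟩
    have hDu : ¬ IsUnit D := by
      rw [hD]
      exact fun hu => hc (EuclideanDomain.gcd_isUnit_iff.1 hu)
    have hD0 : D ≠ 0 := by
      rintro rfl
      exact hG0 (EuclideanDomain.gcd_eq_zero_iff.1 hD.symm).1
    have hdeg : 0 < D.natDegree := by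
      by_contra h0
      have h0' : D.natDegree = 0 := by omega
      apply hDu
      rw [eq_C_of_natDegree_eq_zero h0'] at hD0 ⊢
      exact isUnit_C.2 (isUnit_iff_ne_zero.2 fun h => hD0 (by rw [h, C_0]))
    obtain ⟨z, hz⟩ := IsAlgClosed.exists_aeval_eq_zero ℂ D
      (natDegree_pos_iff_degree_pos.1 hdeg).ne'
    have h1 : aeval z G = 0 := by
      obtain ⟨R, hR⟩ := EuclideanDomain.gcd_dvd_left G Q
      rw [← hD] at hR
      rw [hR, map_mul, hz, zero_mul]
    have h2 : aeval z Q = 0 := by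
      obtain ⟨R, hR⟩ := EuclideanDomain.gcd_dvd_right G Q
      rw [← hD] at hR
      rw [hR, map_mul, hz, zero_mul]
    exact hQ z h1 h2
  exact ⟨cop _ fun z hz => (root z hz).1, H, hH, cop _ fun z hz => (root z hz).2⟩

/-- a common irreducible factor over an extension is simple -/
theorem irred_facts {F : Type v} [Field F] [CharZero F] {A B : ℚ[X]} (hA : A ≠ 0)
    (h : ∀ z : ℂ, aeval z A = 0 → aeval z B = 0 → aeval z A.derivative ≠ 0) {q : F[X]}
    (hq : Irreducible q) (h1 : q ∣ A.map (algebraMap ℚ F)) (h2 : q ∣ B.map (algebraMap ℚ F)) :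
    ¬ q ^ 2 ∣ A.map (algebraMap ℚ F) ∧
      q ∣ (EuclideanDomain.gcd A B).map (algebraMap ℚ F) := by
  obtain ⟨hs, H, hH, hcop⟩ := gcd_facts hA h
  have hqG : q ∣ (EuclideanDomain.gcd A B).map (algebraMap ℚ F) := by
    rw [EuclideanDomain.gcd_eq_gcd_ab A B, Polynomial.map_add, Polynomial.map_mul,
      Polynomial.map_mul]
    exact dvd_add (h1.mul_right _) (h2.mul_right _)
  refine ⟨fun hsq => ?_, hqG⟩
  set G := EuclideanDomain.gcd A B with hG
  have hcop' : IsCoprime (G.map (algebraMap ℚ F)) (H.map (algebraMap ℚ F)) :=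
    hcop.map (mapRingHom (algebraMap ℚ F))
  have hqH : IsCoprime (q ^ 2) (H.map (algebraMap ℚ F)) :=
    (IsCoprime.of_isCoprime_of_dvd_left hcop' hqG).pow_left
  rw [hH, Polynomial.map_mul] at hsq
  have h3 := hqH.dvd_of_dvd_mul_right hsq
  have h4 : Squarefree (G.map (algebraMap ℚ F)) := (hs.map (f := algebraMap ℚ F)).squarefree
  exact hq.not_isUnit (h4 q (by rwa [pow_two] at h3))

end poly

/-- the fields in which the roots of the common divisors are conjugate to their duals -/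
def GoodF (n : ℕ) (c : ℤ → ℚ) (T : ℕ → ℕ → ℚ[X]) (F : Type v) [Field F] [CharZero F] : Prop :=
  ∀ i j i' j' : ℕ, i + j ≤ n → i' + j' ≤ n → SimpleCommon n T i j → IsNb i j i' j' → ∀ q : F[X],
    q ∣ (EuclideanDomain.gcd (T i j) (T i' j')).map (algebraMap ℚ F) →
      B4801b.SelfDualPoly ((c ((n : ℤ) - i - j) : ℚ) : F) q

/-- existence of a set of good primes -/
theorem exists_set (n : ℕ) (c : ℤ → ℚ) (hc : Multipliers c) (T : ℕ → ℕ → ℚ[X])
    (hT : ∀ i j : ℕ, i + j ≤ n → PureOf (c ((n : ℤ) - i - j)) (T i j)) :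
    ∃ Λ : Set ℕ, (∀ m ∈ Λ, m.Prime) ∧ PosDirichletDensity Λ ∧
      ∀ (F : Type v) [Field F] [CharZero F], EmbedsIn Λ F → GoodF n c T F := by
  classical
  let Ω := Fin (n + 1) × Fin (n + 1) × Fin (n + 1) × Fin (n + 1)
  let ok : Ω → Prop := fun ω => ((ω.1 : ℕ) + (ω.2.1 : ℕ) ≤ n ∧
    (ω.2.2.1 : ℕ) + (ω.2.2.2 : ℕ) ≤ n) ∧ IsNb ω.1 ω.2.1 ω.2.2.1 ω.2.2.2 ∧
      SimpleCommon n T ω.1 ω.2.1
  let G : Ω → ℚ[X] := fun ω => if ok ω then
    EuclideanDomain.gcd (T ω.1 ω.2.1) (T ω.2.2.1 ω.2.2.2) else 1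
  let cG : Ω → ℚ := fun ω => c ((n : ℤ) - (ω.1 : ℕ) - (ω.2.1 : ℕ))
  let e := Fintype.equivFin Ω
  have hcG : ∀ ω, 0 < cG ω := fun ω => (hc _).1
  have hsep : ∀ ω, (G ω).Separable := by
    intro ω
    by_cases h : ok ω
    · have h1 : G ω = EuclideanDomain.gcd (T ω.1 ω.2.1) (T ω.2.2.1 ω.2.2.2) := if_pos h
      rw [h1]
      exact (gcd_facts (hT _ _ h.1.1).1 (h.2.2 _ _ h.1.2 h.2.1)).1
    · have h1 : G ω = 1 := if_neg h
      rw [h1]
      exact separable_one
  have hpure : ∀ ω, ∀ z : ℂ, aeval z (G ω) = 0 → ‖z‖ ^ 2 = (cG ω : ℝ) := by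
    intro ω z hz
    by_cases h : ok ω
    · have h1 : G ω = EuclideanDomain.gcd (T ω.1 ω.2.1) (T ω.2.2.1 ω.2.2.2) := if_pos h
      rw [h1] at hz
      obtain ⟨R, hR⟩ := EuclideanDomain.gcd_dvd_left (T ω.1 ω.2.1) (T ω.2.2.1 ω.2.2.2)
      refine (hT _ _ h.1.1).2 z ?_
      rw [hR, map_mul, hz, zero_mul]
    · have h1 : G ω = 1 := if_neg h
      rw [h1, map_one] at hz
      exact absurd hz one_ne_zero
  choose g hg using fun ω => exists_inv.{0} (G ω) (cG ω) (hcG ω) (hpure ω)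
  refine ⟨ConjSet (fun r => G (e.symm r)) (fun r => g (e.symm r)), fun m hm => hm.1, ?_, ?_⟩
  · refine conjSet_density _ _ (fun r => hsep _) fun r z hz => ?_
    obtain ⟨hz0, h1⟩ := hg (e.symm r) ℂ z hz
    rw [h1]
    have h3 := hpure _ z hz
    have h4 : (algebraMap ℚ ℂ (cG (e.symm r))) = z * starRingEnd ℂ z := by
      rw [Complex.mul_conj, Complex.normSq_eq_norm_sq, h3]
      simp
    rw [h4, mul_div_assoc, mul_comm, div_mul_cancel₀ _ hz0]
  · rintro F _ _ ⟨m, ⟨hmp, σ, hσ⟩, hm, ⟨ψ⟩⟩ i j i' j' hij hij' hs hn q hq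
    let ω : Ω := (⟨i, by omega⟩, ⟨j, by omega⟩, ⟨i', by omega⟩, ⟨j', by omega⟩)
    have hok : ok ω := ⟨⟨hij, hij'⟩, hn, hs⟩
    have h1 : G (e.symm (e ω)) = EuclideanDomain.gcd (T i j) (T i' j') := by
      rw [e.symm_apply_apply]
      exact if_pos hok
    have h2 := selfDual_of_auto ψ (G (e.symm (e ω))) (cG (e.symm (e ω))) σ (fun β hβ => by
      obtain ⟨k1, k2⟩ := hg _ _ β hβ
      exact ⟨k1, (hσ (e ω) β hβ).trans k2⟩) q (by rw [h1]; exact hq)
    have h3 : cG (e.symm (e ω)) = c ((n : ℤ) - i - j) := by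
      rw [e.symm_apply_apply]
    rw [h3, eq_ratCast] at h2
    exact h2

lemma mult_per {c : ℤ → ℚ} (hc : Multipliers c) {m m' : ℤ} (h : Even (m - m')) : c m' = c m := by
  have per : ∀ (r : ℕ) (m : ℤ), c (m + 2 * r) = c m := by
    intro r
    induction r with
    | zero => intro m; simp
    | succ r ih =>
      intro m
      rw [← ih m, ← (hc (m + 2 * (r : ℤ))).2]
      congr 1
      push_cast
      ring
  obtain ⟨r, hr⟩ := h
  rcases Int.le_total 0 r with h | h
  · obtain ⟨s, rfl⟩ := Int.eq_ofNat_of_zero_le h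
    rw [← per s m']
    congr 1
    omega
  · obtain ⟨s, hs⟩ := Int.eq_ofNat_of_zero_le (neg_nonneg.2 h)
    rw [← per s m]
    congr 1
    omega

variable {k : Type u} [Field k] {𝒱 : VarClass k} {I : Type} {K : I → Type v} [∀ l, Field (K l)]
  [∀ l, CharZero (K l)] {W : ∀ l, Weil.{u, v, w} 𝒱 (K l)} {X : Strata W}

namespace Strata

variable {l : I} {c : ℤ → ℚ} {φ : TEnd (W l) X.Y}

/-- a similitude gives an abstract one -/
theorem IsSimilitude.nfrob (hc : Multipliers c) (h : X.IsSimilitude l c φ) :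
    X.NFrob l φ (fun m => ((c m : ℚ) : K l)) where
  c0 m := by
    have := (hc m).1
    exact_mod_cast this.ne'
  per m := by rw [(hc m).2]
  form i m x hx _ y := h.2.2 m x hx y
  pos p := by
    have h1 := comp_posProj (W l) X.Y X.ilev 0 h.1 p
    rw [add_zero] at h1
    exact h1
  deg w := by
    have h1 := comp_degProj (W l) X.Y X.ilev 0 h.1 w
    rw [add_zero] at h1
    exact h1
  res := LinearMap.ext h.2.1.1
  gys := LinearMap.ext h.2.1.2.1
  L := LinearMap.ext h.2.1.2.2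
  Lam := by
    obtain ⟨P, hP⟩ := X.exists_sl l
    exact hP.comm_f φ (LinearMap.ext h.2.1.2.2) (fun p => by
      have h1 := comp_degProj (W l) X.Y X.ilev 0 h.1 (p + X.n)
      rw [add_zero] at h1
      exact h1)

/-- the characteristic polynomials on the transcendental parts -/
def Rp (X : Strata W) (l : I) (T : ℕ → ℕ → ℚ[X]) (i j : ℕ) : (K l)[X] :=
  if i + j ≤ X.n then (T i j).map (algebraMap ℚ (K l)) else 1

lemma TransPoly.hasCP {T : ℕ → ℕ → ℚ[X]} (hT : X.TransPoly l φ T) (i j : ℕ) :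
    HasCP φ (X.tpart l i j) (Rp X l T i j) := by
  unfold Rp
  by_cases hij : i + j ≤ X.n
  · rw [if_pos hij]
    obtain ⟨U, hU, h⟩ := hT i j hij
    have e1 : U = X.tpart l i j := by
      ext x
      exact hU x
    subst e1
    exact h
  · rw [if_neg hij]
    have h0 : ∀ x ∈ X.tpart l i j, x = 0 := fun x hx => prim_gt (not_le.1 hij) hx.1
    refine ⟨fun x hx => by rw [h0 x hx, map_zero]; exact Submodule.zero_mem _, ?_⟩
    have h3 : finrank (K l) (X.tpart l i j) = 0 := by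
      rw [Submodule.finrank_eq_zero, Submodule.eq_bot_iff]
      exact h0
    refine Polynomial.eq_one_of_monic_natDegree_zero (LinearMap.charpoly_monic _) ?_
    rw [LinearMap.charpoly_natDegree, h3]

/-- simple common roots in a good theory -/
theorem simpleAt_of_goodF (hc : Multipliers c) {T : ℕ → ℕ → ℚ[X]}
    (hT : ∀ i j : ℕ, i + j ≤ X.n → T i j ≠ 0) (hg : GoodF X.n c T (K l))
    {i j : ℕ} (hs : SimpleCommon X.n T i j) :
    SimpleAt X.n (fun w p => ((c (w - p) : ℚ) : K l)) (Rp X l T) i j := by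
  intro q hq hqd ⟨i', j', hn, hqd'⟩
  unfold Rp at hqd hqd' ⊢
  by_cases hij : i + j ≤ X.n
  · by_cases hij' : i' + j' ≤ X.n
    · rw [if_pos hij] at hqd ⊢
      rw [if_pos hij'] at hqd'
      obtain ⟨h1, h2⟩ := irred_facts (hT i j hij) (hs i' j' hij' hn) hq hqd hqd'
      refine ⟨h1, ?_⟩
      have h3 := hg i j i' j' hij hij' hs hn q h2
      have h4 : c ((X.n : ℤ) - j - -(i : ℤ)) = c (X.n - i - j) :=
        mult_per hc ⟨-(i : ℤ), by ring⟩
      rwa [← h4] at h3
    · rw [if_neg hij'] at hqd'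
      exact absurd (isUnit_of_dvd_one hqd') hq.not_isUnit
  · rw [if_neg hij] at hqd
    exact absurd (isUnit_of_dvd_one hqd) hq.not_isUnit

end Strata

/-- The final theorem. -/
theorem eigen_final3 (n : ℕ) (c : ℤ → ℚ) (hc : Multipliers c) (T : ℕ → ℕ → ℚ[X])
    (hT : ∀ i j : ℕ, i + j ≤ n → PureOf (c ((n : ℤ) - i - j)) (T i j)) :
    ∃ Λ : Set ℕ, (∀ m ∈ Λ, m.Prime) ∧ PosDirichletDensity Λ ∧
      ∀ (k : Type u) [Field k] (𝒱 : VarClass k) (I : Type) (K : I → Type v) [∀ l, Field (K l)]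
        [∀ l, CharZero (K l)] (W : ∀ l, Weil.{u, v, w} 𝒱 (K l)), Compatible W →
        ∀ X : Strata W, X.n = n → (∀ l l', X.betti l = X.betti l') →
          ∀ l0, EmbedsIn Λ (K l0) → X.ClassIndex l0 →
            ∀ φ, X.IsSimilitude l0 c φ → X.TransPoly l0 φ T →
              ∀ R : ℕ → ℕ → Prop, X.Positive l0 R →
                (∀ i j, i + j ≤ n → SimpleCommon n T i j ∨ R i j ∨
                  ((i, j) = ((0, 0) : ℕ × ℕ) ∧ X.MonoAt l0 (n - 1) 1) ∨
                  ((i, j) = ((0, 1) : ℕ × ℕ) ∧ X.HardLefschetz l0)) →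
                ∀ M : X.Motive, (∀ l, M.WeightMonodromy l) ∧ M.Independence := by
  classical
  obtain ⟨Λ, h1, h2, h3⟩ := exists_set.{v} n c hc T hT
  refine ⟨Λ, h1, h2, ?_⟩
  intro k _ 𝒱 I K _ _ W hW X hn hb l0 hl0 hH φ hφ hTr R hR htype M
  have hg := h3 (K l0) hl0
  subst hn
  refine Strata.all_of_zero hW X hb l0 (fun P Q F => ?_) M
  have hN := hφ.nfrob hc
  have hY := Strata.yring_cring hW hN
  have hF := (Strata.yfrob_cring hW hN).frb hY
  obtain ⟨D, hP⟩ := hY.pol hW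
  have hC := (Strata.ratCls hY (Strata.class_cring hW) hW hH).cls hP
  have hCP := fun i j => Strata.hasCP_Tp hY (Strata.class_cring hW) hW
    (Strata.yfrob_cring hW hN) (hTr.hasCP i j)
  refine Strata.zero_strata3 hY hW (Strata.har_strata hY hW F) (Strata.ypos_of hW hR)
    fun i j hij => ?_
  rcases htype i j hij with h | h | h | h
  · refine Or.inl ?_
    intro u hu hur hup iso
    exact simple_aniso hP hC hF hCP
      (Strata.simpleAt_of_goodF hc (fun i j hij => (hT i j hij).1) hg h) hu hur hup iso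
  · exact Or.inr (Or.inl h)
  · exact Or.inr (Or.inr (Or.inl h))
  · exact Or.inr (Or.inr (Or.inr (Or.inl ⟨h.1, h.2 _ _, h.2 _ _⟩)))

end Pool.Agent.H62S
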